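import Mathlib

/-!
# Growth of modules over the Weyl algebra

`Weyl n X D Γ C` says that the linear maps `X i`, `D i` (`i < n`) of the vector space `V` satisfy
the relations of the Weyl algebra and that `Γ` is an exhaustive filtration by finite dimensional
subspaces, compatible with the operators, with `dim Γ k ≤ C (k+1)^n`.
-/

namespace Pool.Agent.Lib.MP_bbe012_lc

open Module

/-- Filtered modules over the Weyl algebra, of minimal growth. -/
structure Weyl {𝕜 V : Type*} [Field 𝕜] [AddCommGroup V] [Module 𝕜 V] (n : ℕ)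
    (X D : Fin n → V →ₗ[𝕜] V) (Γ : ℕ → Submodule 𝕜 V) (C : ℕ) : Prop where
  XX : ∀ i j v, X i (X j v) = X j (X i v)
  DD : ∀ i j v, D i (D j v) = D j (D i v)
  DX : ∀ i j v, D i (X j v) = X j (D i v) + if i = j then v else 0
  mono : Monotone Γ
  exh : ∀ v, ∃ k, v ∈ Γ k
  Xmem : ∀ i k v, v ∈ Γ k → X i v ∈ Γ (k + 1)
  Dmem : ∀ i k v, v ∈ Γ k → D i v ∈ Γ (k + 1)
  fin : ∀ k, FiniteDimensional 𝕜 (Γ k)
  growth : ∀ k, finrank 𝕜 (Γ k) ≤ C * (k + 1) ^ n

section kernel

variable {𝕜 V : Type*} [Field 𝕜] [CharZero 𝕜] [AddCommGroup V] [Module 𝕜 V]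

theorem DX_pow {X D : V →ₗ[𝕜] V} (h : ∀ v, D (X v) = X (D v) + v) (j : ℕ) (v : V) :
    D ((X ^ j) v) = (X ^ j) (D v) + (j : 𝕜) • (X ^ (j - 1)) v := by
  induction j with
  | zero => simp
  | succ j ih =>
    rw [pow_succ', Module.End.mul_apply, h, ih, map_add, map_smul, Module.End.mul_apply]
    cases j with
    | zero => simp
    | succ j =>
      simp only [Nat.add_sub_cancel]
      rw [← Module.End.mul_apply X (X ^ j), ← pow_succ']
      push_cast
      module

/-- If the `κ j` are in the kernel of `D`, then the `X^j κ j` are independent. -/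
theorem indep_ker {X D : V →ₗ[𝕜] V} (h : ∀ v, D (X v) = X (D v) + v) (m : ℕ) (κ : ℕ → V)
    (hκ : ∀ j, D (κ j) = 0) (h0 : ∑ j ∈ Finset.range m, (X ^ j) (κ j) = 0) :
    ∀ j < m, κ j = 0 := by
  induction m generalizing κ with
  | zero => intro j hj; omega
  | succ m ih =>
    have h1 := congrArg D h0
    rw [map_sum, map_zero, Finset.sum_range_succ'] at h1
    simp only [DX_pow h, hκ, map_zero, zero_add, Nat.add_sub_cancel, Nat.cast_zero, zero_smul,
      add_zero] at h1
    have h2 := ih (fun j => ((j + 1 : ℕ) : 𝕜) • κ (j + 1)) (fun j => by rw [map_smul, hκ, smul_zero])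
      (by simpa only [map_smul] using h1)
    have h3 : ∀ j < m, κ (j + 1) = 0 := by
      intro j hj
      have := h2 j hj
      rcases smul_eq_zero.mp this with h4 | h4
      · exact absurd h4 (Nat.cast_ne_zero.mpr (Nat.succ_ne_zero j))
      · exact h4
    have h4 : κ 0 = 0 := by
      rw [Finset.sum_range_succ'] at h0
      have h5 : ∑ k ∈ Finset.range m, (X ^ (k + 1)) (κ (k + 1)) = 0 :=
        Finset.sum_eq_zero fun k hk => by rw [h3 k (Finset.mem_range.mp hk), map_zero]
      rw [h5, zero_add] at h0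
      simpa using h0
    intro j hj
    cases j with
    | zero => exact h4
    | succ j => exact h3 j (by omega)

end kernel

section coker

variable {𝕜 : Type*} [Field 𝕜] [CharZero 𝕜]

omit [CharZero 𝕜] in
theorem pow_mem_filtration {V : Type*} [AddCommGroup V] [Module 𝕜 V] {X : V →ₗ[𝕜] V}
    {Γ : ℕ → Submodule 𝕜 V} (hX : ∀ k v, v ∈ Γ k → X v ∈ Γ (k + 1)) (j k : ℕ) (v : V)
    (hv : v ∈ Γ k) : (X ^ j) v ∈ Γ (k + j) := by
  induction j with
  | zero => simpa using hv
  | succ j ih =>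
    rw [pow_succ', Module.End.mul_apply]
    exact hX _ _ ih

/-- Growth of the kernel of `D`. -/
theorem ker_growth {V : Type*} [AddCommGroup V] [Module 𝕜 V] {X D : V →ₗ[𝕜] V}
    {Γ : ℕ → Submodule 𝕜 V} (h : ∀ v, D (X v) = X (D v) + v) (mono : Monotone Γ)
    (hX : ∀ k v, v ∈ Γ k → X v ∈ Γ (k + 1)) (fin : ∀ k, FiniteDimensional 𝕜 (Γ k)) (k : ℕ) :
    (k + 1) * finrank 𝕜 (LinearMap.ker D ⊓ Γ k : Submodule 𝕜 V) ≤ finrank 𝕜 (Γ (2 * k)) := by
  have := fin k
  have := fin (2 * k)
  have : FiniteDimensional 𝕜 (LinearMap.ker D ⊓ Γ k : Submodule 𝕜 V) :=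
    Submodule.finiteDimensional_of_le inf_le_right
  let f : (Fin (k + 1) → (LinearMap.ker D ⊓ Γ k : Submodule 𝕜 V)) →ₗ[𝕜] V :=
    ∑ j : Fin (k + 1), (X ^ (j : ℕ)) ∘ₗ (Submodule.subtype _) ∘ₗ (LinearMap.proj j)
  have hf : ∀ c, f c = ∑ j : Fin (k + 1), (X ^ (j : ℕ)) (c j : V) := by
    intro c; simp [f, LinearMap.sum_apply]
  have hmem : ∀ c, f c ∈ Γ (2 * k) := by
    intro c
    rw [hf]
    refine Submodule.sum_mem _ fun j _ => ?_
    have h1 := pow_mem_filtration hX j k (c j : V) (c j).2.2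
    exact mono (by have := j.2; omega) h1
  let g : (Fin (k + 1) → (LinearMap.ker D ⊓ Γ k : Submodule 𝕜 V)) →ₗ[𝕜] Γ (2 * k) :=
    LinearMap.codRestrict _ f hmem
  have hg : Function.Injective g := by
    rw [← LinearMap.ker_eq_bot, LinearMap.ker_eq_bot']
    intro c hc
    have h1 : f c = 0 := congrArg Subtype.val hc
    rw [hf] at h1
    obtain ⟨κ, hκ⟩ : ∃ κ : ℕ → V, κ = fun j => if hj : j < k + 1 then
      ((c ⟨j, hj⟩ : (LinearMap.ker D ⊓ Γ k : Submodule 𝕜 V)) : V) else 0 := ⟨_, rfl⟩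
    have hκ1 : ∀ j : Fin (k + 1), κ j = (c j : V) := by
      intro j; rw [hκ]; exact dif_pos j.2
    have e : ∑ j ∈ Finset.range (k + 1), (X ^ j) (κ j) = 0 := by
      rw [← Fin.sum_univ_eq_sum_range (fun j => (X ^ j) (κ j)), ← h1]
      exact Finset.sum_congr rfl fun j _ => by rw [hκ1]
    have h2 := indep_ker h (k + 1) κ (fun j => by
        rw [hκ]
        dsimp only
        split_ifs with hj
        · exact (c ⟨j, hj⟩).2.1
        · simp) e
    ext j
    have h3 := h2 j j.2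
    rw [hκ1] at h3
    simpa using h3
  have h1 := LinearMap.finrank_le_finrank_of_injective hg
  rw [Module.finrank_pi_fintype] at h1
  simpa using h1

omit [CharZero 𝕜] in
theorem finrank_map_add_inf {V W : Type*} [AddCommGroup V] [Module 𝕜 V] [AddCommGroup W]
    [Module 𝕜 W] (f : V →ₗ[𝕜] W) (p : Submodule 𝕜 V) [FiniteDimensional 𝕜 p] :
    finrank 𝕜 (p.map f) + finrank 𝕜 (LinearMap.ker f ⊓ p : Submodule 𝕜 V) = finrank 𝕜 p := by
  have h := LinearMap.finrank_range_add_finrank_ker (f.domRestrict p)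
  rw [LinearMap.range_domRestrict] at h
  rw [← h]
  congr 1
  have e1 : LinearMap.ker (f.domRestrict p) = Submodule.comap p.subtype (LinearMap.ker f) := rfl
  rw [e1]
  have e2 := LinearEquiv.finrank_eq (Submodule.equivMapOfInjective p.subtype
    (Submodule.subtype_injective p) (Submodule.comap p.subtype (LinearMap.ker f)))
  rw [e2, Submodule.map_comap_subtype, inf_comm]

/-- An increasing function with polynomial growth has small increments somewhere. -/
theorem exists_small_increment (g : ℕ → ℕ) (C n : ℕ) (h : ∀ k, g k ≤ C * (k + 1) ^ (n + 1)) (K : ℕ) :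
    ∃ k, K ≤ k ∧ k ≤ 2 * K ∧ g (k + 1) ≤ g k + C * 2 ^ (n + 1) * (K + 1) ^ n := by
  by_contra hcon
  push Not at hcon
  set B := C * 2 ^ (n + 1) * (K + 1) ^ n with hB
  have h1 : ∀ i ≤ K + 1, i * (B + 1) ≤ g (K + i) := by
    intro i
    induction i with
    | zero => intro _; simp
    | succ i ih =>
      intro hi
      have h2 := ih (by omega)
      have h3 := hcon (K + i) (by omega) (by omega)
      have h4 : (i + 1) * (B + 1) = i * (B + 1) + (B + 1) := by ring
      have h5 : K + (i + 1) = K + i + 1 := by omega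
      rw [h4, h5]
      omega
  have h2 := h1 (K + 1) le_rfl
  have h3 := h (K + (K + 1))
  have h4 : C * (K + (K + 1) + 1) ^ (n + 1) = (K + 1) * B := by
    rw [hB, show K + (K + 1) + 1 = 2 * (K + 1) by ring, mul_pow]; ring
  rw [h4] at h3
  have h5 : (K + 1) * (B + 1) = (K + 1) * B + (K + 1) := by ring
  omega

/-- Growth of the cokernel of `D`. -/
theorem coker_growth {V : Type*} [AddCommGroup V] [Module 𝕜 V] {X D : V →ₗ[𝕜] V}
    {Γ : ℕ → Submodule 𝕜 V} {C n : ℕ} (h : ∀ v, D (X v) = X (D v) + v) (mono : Monotone Γ)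
    (hX : ∀ k v, v ∈ Γ k → X v ∈ Γ (k + 1)) (hD : ∀ k v, v ∈ Γ k → D v ∈ Γ (k + 1))
    (fin : ∀ k, FiniteDimensional 𝕜 (Γ k)) (growth : ∀ k, finrank 𝕜 (Γ k) ≤ C * (k + 1) ^ (n + 1))
    (K : ℕ) :
    finrank 𝕜 ((Γ K).map (LinearMap.range D).mkQ) ≤ (C * 2 ^ (n + 1) * (1 + 2 ^ n)) * (K + 1) ^ n := by
  obtain ⟨k, hk1, hk2, hk3⟩ := exists_small_increment (fun k => finrank 𝕜 (Γ k)) C n growth K
  have := fin k
  have := fin (k + 1)
  have := fin K
  have e1 := finrank_map_add_inf (LinearMap.range D).mkQ (Γ (k + 1))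
  have e2 := finrank_map_add_inf D (Γ k)
  rw [Submodule.ker_mkQ] at e1
  have e3 : finrank 𝕜 ((Γ k).map D) ≤ finrank 𝕜 (LinearMap.range D ⊓ Γ (k + 1) : Submodule 𝕜 V) := by
    have : FiniteDimensional 𝕜 (LinearMap.range D ⊓ Γ (k + 1) : Submodule 𝕜 V) :=
      Submodule.finiteDimensional_of_le inf_le_right
    refine Submodule.finrank_mono (le_inf (LinearMap.map_le_range) ?_)
    rintro _ ⟨v, hv, rfl⟩
    exact hD k v hv
  have e4 : finrank 𝕜 ((Γ K).map (LinearMap.range D).mkQ) ≤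
      finrank 𝕜 ((Γ (k + 1)).map (LinearMap.range D).mkQ) :=
    Submodule.finrank_mono (Submodule.map_mono (mono (by omega)))
  have e5 := ker_growth h mono hX fin k
  have e6 := growth (2 * k)
  have e7 : finrank 𝕜 (LinearMap.ker D ⊓ Γ k : Submodule 𝕜 V) ≤ C * 2 ^ (n + 1) * (2 ^ n * (K + 1) ^ n) := by
    have h1 : (k + 1) * finrank 𝕜 (LinearMap.ker D ⊓ Γ k : Submodule 𝕜 V) ≤
        (k + 1) * (C * 2 ^ (n + 1) * (k + 1) ^ n) := by
      refine (e5.trans e6).trans ?_
      calc C * (2 * k + 1) ^ (n + 1) ≤ C * (2 * (k + 1)) ^ (n + 1) :=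
            Nat.mul_le_mul_left _ (Nat.pow_le_pow_left (by omega) _)
        _ = (k + 1) * (C * 2 ^ (n + 1) * (k + 1) ^ n) := by rw [mul_pow]; ring
    have h2 := Nat.le_of_mul_le_mul_left h1 (Nat.succ_pos k)
    refine h2.trans (Nat.mul_le_mul_left _ ?_)
    rw [← mul_pow]
    exact Nat.pow_le_pow_left (by omega) _
  have e8 : C * 2 ^ (n + 1) * (1 + 2 ^ n) * (K + 1) ^ n = C * 2 ^ (n + 1) * (K + 1) ^ n +
      C * 2 ^ (n + 1) * (2 ^ n * (K + 1) ^ n) := by ring
  rw [e8]
  omega

/-- A filtered module of minimal growth over the Weyl algebra has finite dimensional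
quotient by the images of the derivations. -/
theorem Weyl.coker_finite {n : ℕ} {V : Type*} [AddCommGroup V] [Module 𝕜 V]
    {X D : Fin n → V →ₗ[𝕜] V} {Γ : ℕ → Submodule 𝕜 V} {C : ℕ} (hW : Weyl n X D Γ C) :
    ∃ F : Submodule 𝕜 V, FiniteDimensional 𝕜 F ∧ F ⊔ ⨆ i, LinearMap.range (D i) = ⊤ := by
  induction n generalizing V C with
  | zero =>
    obtain ⟨k, hk⟩ : ∃ k, ∀ j, finrank 𝕜 (Γ j) ≤ finrank 𝕜 (Γ k) := by
      by_contra hcon
      push Not at hcon
      have h1 : ∀ i, ∃ k, i ≤ finrank 𝕜 (Γ k) := by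
        intro i
        induction i with
        | zero => exact ⟨0, Nat.zero_le _⟩
        | succ i ih =>
          obtain ⟨k, hk⟩ := ih
          obtain ⟨j, hj⟩ := hcon k
          exact ⟨j, by omega⟩
      obtain ⟨k, hk⟩ := h1 (C + 1)
      have := hW.growth k
      simp at this
      omega
    have := hW.fin k
    refine ⟨Γ k, hW.fin k, ?_⟩
    rw [eq_top_iff]
    intro v _
    refine Submodule.mem_sup_left ?_
    obtain ⟨j, hj⟩ := hW.exh v
    have := hW.fin (max j k)
    have h1 : Γ k = Γ (max j k) :=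
      Submodule.eq_of_le_of_finrank_le (hW.mono (le_max_right _ _)) (hk _)
    rw [h1]
    exact hW.mono (le_max_left _ _) hj
  | succ n ih =>
    set Dn := D (Fin.last n) with hDn
    set Xn := X (Fin.last n) with hXn
    set R := LinearMap.range Dn with hR
    have hrel : ∀ v, Dn (Xn v) = Xn (Dn v) + v := by
      intro v
      have := hW.DX (Fin.last n) (Fin.last n) v
      simpa using this
    have hDR : ∀ i : Fin n, R ≤ R.comap (D i.castSucc) := by
      rintro i _ ⟨v, rfl⟩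
      exact ⟨D i.castSucc v, hW.DD _ _ _⟩
    have hXR : ∀ i : Fin n, R ≤ R.comap (X i.castSucc) := by
      rintro i _ ⟨v, rfl⟩
      refine ⟨X i.castSucc v, ?_⟩
      have := hW.DX (Fin.last n) i.castSucc v
      rw [if_neg (Fin.castSucc_lt_last i).ne', add_zero] at this
      exact this
    let D' : Fin n → (V ⧸ R) →ₗ[𝕜] (V ⧸ R) := fun i => R.mapQ R (D i.castSucc) (hDR i)
    let X' : Fin n → (V ⧸ R) →ₗ[𝕜] (V ⧸ R) := fun i => R.mapQ R (X i.castSucc) (hXR i)
    have hD' : ∀ i v, D' i (R.mkQ v) = R.mkQ (D i.castSucc v) := fun i v => rfl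
    have hX' : ∀ i v, X' i (R.mkQ v) = R.mkQ (X i.castSucc v) := fun i v => rfl
    have hsurj : Function.Surjective R.mkQ := Submodule.mkQ_surjective R
    have hW' : Weyl n X' D' (fun k => (Γ k).map R.mkQ) (C * 2 ^ (n + 1) * (1 + 2 ^ n)) := by
      refine ⟨?_, ?_, ?_, ?_, ?_, ?_, ?_, ?_, ?_⟩
      · intro i j w
        obtain ⟨v, rfl⟩ := hsurj w
        rw [hX', hX', hX', hX', hW.XX]
      · intro i j w
        obtain ⟨v, rfl⟩ := hsurj w
        rw [hD', hD', hD', hD', hW.DD]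
      · intro i j w
        obtain ⟨v, rfl⟩ := hsurj w
        rw [hX', hD', hD', hX', hW.DX, map_add]
        congr 1
        by_cases hij : i = j
        · rw [if_pos hij, if_pos (by rw [hij])]
        · rw [if_neg hij, if_neg (fun h => hij (Fin.castSucc_injective _ h)), map_zero]
      · intro a b hab
        exact Submodule.map_mono (hW.mono hab)
      · intro w
        obtain ⟨v, rfl⟩ := hsurj w
        obtain ⟨k, hk⟩ := hW.exh v
        exact ⟨k, Submodule.mem_map_of_mem hk⟩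
      · rintro i k _ ⟨v, hv, rfl⟩
        exact ⟨_, hW.Xmem _ _ _ hv, rfl⟩
      · rintro i k _ ⟨v, hv, rfl⟩
        exact ⟨_, hW.Dmem _ _ _ hv, rfl⟩
      · intro k
        have := hW.fin k
        infer_instance
      · intro k
        exact coker_growth hrel hW.mono (hW.Xmem _) (hW.Dmem _) hW.fin hW.growth k
    obtain ⟨F', hF', hF'top⟩ := ih hW'
    obtain ⟨s, hs⟩ := (Submodule.fg_iff_finiteDimensional F').mpr hF'
    choose lift hlift using hsurj
    refine ⟨Submodule.span 𝕜 (lift '' (s : Set (V ⧸ R))), ?_, ?_⟩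
    · exact FiniteDimensional.span_of_finite 𝕜 ((Finset.finite_toSet s).image _)
    · rw [eq_top_iff]
      intro v _
      have h1 : R.mkQ v ∈ F' ⊔ ⨆ i, LinearMap.range (D' i) := by rw [hF'top]; trivial
      have h2 : F' ⊔ (⨆ i, LinearMap.range (D' i)) ≤
          Submodule.map R.mkQ (Submodule.span 𝕜 (lift '' (s : Set (V ⧸ R))) ⊔
            ⨆ i, LinearMap.range (D i)) := by
        refine sup_le ?_ (iSup_le fun i => ?_)
        · rw [← hs, Submodule.span_le]
          intro w hw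
          refine ⟨lift w, ?_, hlift w⟩
          exact Submodule.mem_sup_left (Submodule.subset_span ⟨w, hw, rfl⟩)
        · rintro _ ⟨w, rfl⟩
          obtain ⟨u, rfl⟩ := Submodule.mkQ_surjective R w
          refine ⟨D i.castSucc u, ?_, hD' i u⟩
          exact Submodule.mem_sup_right (Submodule.mem_iSup_of_mem i.castSucc ⟨u, rfl⟩)
      obtain ⟨u, hu, hu2⟩ := h2 h1
      have h3 : v - u ∈ R := by
        rw [← Submodule.ker_mkQ R, LinearMap.mem_ker, map_sub, hu2, sub_self]
      have h4 : v - u ∈ Submodule.span 𝕜 (lift '' (s : Set (V ⧸ R))) ⊔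
            ⨆ i, LinearMap.range (D i) :=
        Submodule.mem_sup_right (Submodule.mem_iSup_of_mem (Fin.last n) h3)
      have h5 := Submodule.add_mem _ h4 hu
      rwa [sub_add_cancel] at h5

end coker

end Pool.Agent.Lib.MP_bbe012_lc
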