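import Mathlib
import Pool.Agent.Lib.MP_bbe012_lc.Growth

/-!
# Bernstein's inequality and the descending chain condition
-/

namespace Pool.Agent.Lib.MP_bbe012_lc

open Module

section pair

variable {𝕜 V : Type*} [Field 𝕜] [CharZero 𝕜] [AddCommGroup V] [Module 𝕜 V]

omit [CharZero 𝕜] in
theorem D_pow_X {X D : V →ₗ[𝕜] V} (h : ∀ v, D (X v) = X (D v) + v) (j : ℕ) (v : V) :
    (D ^ j) (X v) = X ((D ^ j) v) + (j : 𝕜) • (D ^ (j - 1)) v := by
  induction j with
  | zero => simp
  | succ j ih =>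
    rw [pow_succ', Module.End.mul_apply, ih, map_add, h, map_smul, Module.End.mul_apply]
    cases j with
    | zero => simp
    | succ j =>
      simp only [Nat.add_sub_cancel]
      rw [← Module.End.mul_apply D (D ^ j), ← pow_succ']
      push_cast
      module

/-- Shift of the summation index in a commutator. -/
theorem sum_shift (N : ℕ) (D : ℕ → V →ₗ[𝕜] V) (c : ℕ → V) (hc : c N = 0) :
    ∑ b ∈ Finset.range N, (b : 𝕜) • (D (b - 1)) (c b) =
      ∑ b ∈ Finset.range N, (D b) (((b + 1 : ℕ) : 𝕜) • c (b + 1)) := by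
  have h1 : ∑ b ∈ Finset.range (N + 1), (b : 𝕜) • (D (b - 1)) (c b) =
      ∑ b ∈ Finset.range N, (b : 𝕜) • (D (b - 1)) (c b) := by
    rw [Finset.sum_range_succ, hc, map_zero, smul_zero, add_zero]
  rw [← h1, Finset.sum_range_succ']
  simp

/-- The coefficients of an operator `∑ X^a D^b c_{ab}` which vanishes on a large step of the
filtration vanish on a smaller step. -/
theorem one_pair {X D : V →ₗ[𝕜] V} {Γ : ℕ → Submodule 𝕜 V} (h : ∀ v, D (X v) = X (D v) + v)
    (mono : Monotone Γ) (hX : ∀ k v, v ∈ Γ k → X v ∈ Γ (k + 1))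
    (hD : ∀ k v, v ∈ Γ k → D v ∈ Γ (k + 1)) (N j i : ℕ) (c : ℕ → ℕ → V →ₗ[𝕜] V)
    (hcX : ∀ a b v, c a b (X v) = X (c a b v)) (hcD : ∀ a b v, c a b (D v) = D (c a b v))
    (hN : ∀ a b, N ≤ a ∨ N ≤ b → c a b = 0) (hi : ∀ a b, i < a + b → c a b = 0)
    (h0 : ∀ v ∈ Γ (j + i), ∑ a ∈ Finset.range N, (X ^ a) (∑ b ∈ Finset.range N, (D ^ b) (c a b v)) = 0) :
    ∀ a b, ∀ v ∈ Γ j, c a b v = 0 := by
  induction i generalizing c with
  | zero =>
    intro a b v hv
    by_cases hab : 0 < a + b
    · rw [hi a b hab]; rfl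
    · have ha : a = 0 := by omega
      have hb : b = 0 := by omega
      subst ha; subst hb
      have h1 := h0 v hv
      rcases Nat.eq_zero_or_pos N with rfl | hNpos
      · rw [hN 0 0 (Or.inl le_rfl)]; rfl
      · rw [Finset.sum_eq_single_of_mem 0 (Finset.mem_range.mpr hNpos)] at h1
        · rw [Finset.sum_eq_single_of_mem 0 (Finset.mem_range.mpr hNpos)] at h1
          · simpa using h1
          · intro b _ hb
            rw [hi 0 b (by omega)]; simp
        · intro a _ ha
          rw [Finset.sum_eq_zero, map_zero]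
          intro b _
          rw [hi a b (by omega)]; simp
  | succ i ih =>
    -- commutator with `X`
    have hA : ∀ a b, ∀ v ∈ Γ j, c a (b + 1) v = 0 := by
      have h1 := ih (fun a b => ((b + 1 : ℕ) : 𝕜) • c a (b + 1))
        (fun a b v => by simp only [LinearMap.smul_apply, hcX, map_smul])
        (fun a b v => by simp only [LinearMap.smul_apply, hcD, map_smul])
        (fun a b hab => by
          rw [hN a (b + 1) (hab.imp_right fun h => by omega), smul_zero])
        (fun a b hab => by rw [hi a (b + 1) (by omega), smul_zero])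
        (fun v hv => by
          have e1 := h0 (X v) (hX _ _ hv)
          have e2 := h0 v (mono (by omega) hv)
          have e3 : ∑ a ∈ Finset.range N, (X ^ a) (∑ b ∈ Finset.range N, (D ^ b) (c a b (X v))) =
              X (∑ a ∈ Finset.range N, (X ^ a) (∑ b ∈ Finset.range N, (D ^ b) (c a b v))) +
              ∑ a ∈ Finset.range N, (X ^ a) (∑ b ∈ Finset.range N,
                (D ^ b) ((((b + 1 : ℕ) : 𝕜) • c a (b + 1)) v)) := by
            rw [map_sum, ← Finset.sum_add_distrib]
            refine Finset.sum_congr rfl fun a _ => ?_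
            have e4 : X ((X ^ a) (∑ b ∈ Finset.range N, (D ^ b) (c a b v))) =
                (X ^ a) (∑ b ∈ Finset.range N, X ((D ^ b) (c a b v))) := by
              rw [← Module.End.mul_apply, ← pow_succ', pow_succ, Module.End.mul_apply, map_sum X]
            rw [e4, ← map_add]
            congr 1
            have e5 := sum_shift (𝕜 := 𝕜) N (fun b => D ^ b) (fun b => c a b v)
              (by rw [hN a N (Or.inr le_rfl)]; rfl)
            have e6 : ∑ b ∈ Finset.range N, (D ^ b) ((((b + 1 : ℕ) : 𝕜) • c a (b + 1)) v) =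
                ∑ b ∈ Finset.range N, (b : 𝕜) • (D ^ (b - 1)) (c a b v) := e5.symm
            rw [e6, ← Finset.sum_add_distrib]
            refine Finset.sum_congr rfl fun b _ => ?_
            rw [hcX, D_pow_X h]
          rw [e1, e2, map_zero, zero_add] at e3
          exact e3.symm)
      intro a b v hv
      have h2 := h1 a b v hv
      rw [LinearMap.smul_apply] at h2
      exact (smul_eq_zero.mp h2).resolve_left (Nat.cast_ne_zero.mpr (Nat.succ_ne_zero b))
    -- commutator with `D`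
    have hB : ∀ a b, ∀ v ∈ Γ j, c (a + 1) b v = 0 := by
      have h1 := ih (fun a b => ((a + 1 : ℕ) : 𝕜) • c (a + 1) b)
        (fun a b v => by simp only [LinearMap.smul_apply, hcX, map_smul])
        (fun a b v => by simp only [LinearMap.smul_apply, hcD, map_smul])
        (fun a b hab => by
          rw [hN (a + 1) b (hab.imp_left fun h => by omega), smul_zero])
        (fun a b hab => by rw [hi (a + 1) b (by omega), smul_zero])
        (fun v hv => by
          have e1 := h0 (D v) (hD _ _ hv)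
          have e2 := h0 v (mono (by omega) hv)
          have e3 : D (∑ a ∈ Finset.range N, (X ^ a) (∑ b ∈ Finset.range N, (D ^ b) (c a b v))) =
              ∑ a ∈ Finset.range N, (X ^ a) (∑ b ∈ Finset.range N, (D ^ b) (c a b (D v))) +
              ∑ a ∈ Finset.range N, (X ^ a) (∑ b ∈ Finset.range N,
                (D ^ b) ((((a + 1 : ℕ) : 𝕜) • c (a + 1) b) v)) := by
            have e5 := sum_shift (𝕜 := 𝕜) N (fun a => X ^ a)
              (fun a => ∑ b ∈ Finset.range N, (D ^ b) (c a b v))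
              (Finset.sum_eq_zero fun b _ => by rw [hN N b (Or.inl le_rfl)]; simp)
            have e6 : ∑ a ∈ Finset.range N, (X ^ a) (∑ b ∈ Finset.range N,
                (D ^ b) ((((a + 1 : ℕ) : 𝕜) • c (a + 1) b) v)) =
                ∑ a ∈ Finset.range N, (a : 𝕜) • (X ^ (a - 1)) (∑ b ∈ Finset.range N, (D ^ b) (c a b v)) := by
              rw [e5]
              refine Finset.sum_congr rfl fun a _ => ?_
              congr 1
              rw [Finset.smul_sum]
              refine Finset.sum_congr rfl fun b _ => ?_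
              rw [LinearMap.smul_apply, map_smul]
            rw [e6, map_sum, ← Finset.sum_add_distrib]
            refine Finset.sum_congr rfl fun a _ => ?_
            rw [DX_pow h]
            congr 2
            rw [map_sum]
            refine Finset.sum_congr rfl fun b _ => ?_
            rw [hcD, ← Module.End.mul_apply, ← pow_succ', pow_succ, Module.End.mul_apply]
          rw [e1, e2, map_zero, zero_add] at e3
          exact e3.symm)
      intro a b v hv
      have h2 := h1 a b v hv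
      rw [LinearMap.smul_apply] at h2
      exact (smul_eq_zero.mp h2).resolve_left (Nat.cast_ne_zero.mpr (Nat.succ_ne_zero a))
    intro a b v hv
    rcases a with _ | a
    · rcases b with _ | b
      · rcases Nat.eq_zero_or_pos N with rfl | hNpos
        · rw [hN 0 0 (Or.inl le_rfl)]; rfl
        · have h1 := h0 v (mono (by omega) hv)
          rw [Finset.sum_eq_single_of_mem 0 (Finset.mem_range.mpr hNpos)] at h1
          · rw [Finset.sum_eq_single_of_mem 0 (Finset.mem_range.mpr hNpos)] at h1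
            · simpa using h1
            · intro b _ hb
              obtain ⟨b, rfl⟩ := Nat.exists_eq_succ_of_ne_zero hb
              rw [hA 0 b v hv]; simp
          · intro a _ ha
            obtain ⟨a, rfl⟩ := Nat.exists_eq_succ_of_ne_zero ha
            rw [Finset.sum_eq_zero, map_zero]
            intro b _
            rw [hB a b v hv]; simp
      · exact hA 0 b v hv
    · exact hB a b v hv

end pair

section monomials

variable {𝕜 V : Type*} [Field 𝕜] [AddCommGroup V] [Module 𝕜 V]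

/-- The operator `X_0^{a_0} D_0^{b_0} X_1^{a_1} D_1^{b_1} ...`. -/
def opMon : (n : ℕ) → (X D : Fin n → V →ₗ[𝕜] V) → (Fin n → ℕ × ℕ) → V →ₗ[𝕜] V
  | 0, _, _, _ => LinearMap.id
  | n + 1, X, D, m => (X 0 ^ (m 0).1) ∘ₗ (D 0 ^ (m 0).2) ∘ₗ
      opMon n (fun i => X i.succ) (fun i => D i.succ) (fun i => m i.succ)

theorem pow_comm_of {A B : V →ₗ[𝕜] V} (h : ∀ v, A (B v) = B (A v)) (k : ℕ) (v : V) :
    (A ^ k) (B v) = B ((A ^ k) v) := by
  induction k with
  | zero => simp
  | succ k ih => rw [pow_succ', Module.End.mul_apply, ih, h, Module.End.mul_apply]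

theorem opMon_comm {n : ℕ} {X D : Fin n → V →ₗ[𝕜] V} {B : V →ₗ[𝕜] V}
    (hX : ∀ i v, X i (B v) = B (X i v)) (hD : ∀ i v, D i (B v) = B (D i v)) (m : Fin n → ℕ × ℕ)
    (v : V) : opMon n X D m (B v) = B (opMon n X D m v) := by
  induction n with
  | zero => rfl
  | succ n ih =>
    simp only [opMon, LinearMap.comp_apply]
    rw [ih (fun i => hX _) (fun i => hD _), pow_comm_of (hD 0), pow_comm_of (hX 0)]

theorem opMon_mem {n : ℕ} {X D : Fin n → V →ₗ[𝕜] V} {Γ : ℕ → Submodule 𝕜 V} (mono : Monotone Γ)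
    (hX : ∀ i k v, v ∈ Γ k → X i v ∈ Γ (k + 1)) (hD : ∀ i k v, v ∈ Γ k → D i v ∈ Γ (k + 1))
    (N : ℕ) (m : Fin n → ℕ × ℕ) (hm : ∀ i, (m i).1 ≤ N ∧ (m i).2 ≤ N) (k : ℕ) (v : V)
    (hv : v ∈ Γ k) : opMon n X D m v ∈ Γ (k + n * (2 * N)) := by
  have hpow : ∀ {A : V →ₗ[𝕜] V} (_ : ∀ k v, v ∈ Γ k → A v ∈ Γ (k + 1)) (j k : ℕ) (v : V)
      (_ : v ∈ Γ k), (A ^ j) v ∈ Γ (k + j) := by
    intro A hA j k v hv
    induction j with
    | zero => simpa using hv
    | succ j ih =>
      rw [pow_succ', Module.End.mul_apply]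
      exact hA _ _ ih
  induction n with
  | zero => simpa [opMon] using hv
  | succ n ih =>
    simp only [opMon, LinearMap.comp_apply]
    have h1 := ih (X := fun i => X i.succ) (D := fun i => D i.succ) (fun i => hX _) (fun i => hD _)
      (fun i => m i.succ) (fun i => hm _)
    have h2 := hpow (hX 0) (m 0).1 _ _ (hpow (hD 0) (m 0).2 _ _ h1)
    refine mono ?_ h2
    have := hm 0
    have h3 : (n + 1) * (2 * N) = n * (2 * N) + 2 * N := by ring
    omega

end monomials

section injective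

variable {𝕜 V : Type*} [Field 𝕜] [CharZero 𝕜] [AddCommGroup V] [Module 𝕜 V]

/-- Index of an operator monomial with exponents less than `N`. -/
abbrev Idx (n N : ℕ) := Fin n → Fin N × Fin N

/-- exponents of an index -/
def Idx.val {n N : ℕ} (m : Idx n N) : Fin n → ℕ × ℕ := fun i => ((m i).1, (m i).2)

theorem sum_idx_succ {n N : ℕ} {W : Type*} [AddCommMonoid W] (f : Idx (n + 1) N → W) :
    ∑ m, f m = ∑ a : Fin N, ∑ b : Fin N, ∑ m' : Idx n N, f (Fin.cons (a, b) m') := by
  rw [← (Fin.consEquiv (fun _ => Fin N × Fin N)).sum_comp, Fintype.sum_prod_type,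
    Fintype.sum_prod_type]
  rfl

theorem coef_zero {n : ℕ} {X D : Fin n → V →ₗ[𝕜] V} {Γ : ℕ → Submodule 𝕜 V}
    (XX : ∀ i j v, X i (X j v) = X j (X i v)) (DD : ∀ i j v, D i (D j v) = D j (D i v))
    (DX : ∀ i j v, D i (X j v) = X j (D i v) + if i = j then v else 0) (mono : Monotone Γ)
    (hX : ∀ i k v, v ∈ Γ k → X i v ∈ Γ (k + 1)) (hD : ∀ i k v, v ∈ Γ k → D i v ∈ Γ (k + 1))
    (N j : ℕ) (e : V) (he : e ∈ Γ j) (he0 : e ≠ 0) (c : Idx n N → 𝕜)
    (h0 : ∀ v ∈ Γ (j + n * (2 * N)), ∑ m, c m • opMon n X D m.val v = 0) : c = 0 := by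
  induction n with
  | zero =>
    have h1 := h0 e (mono (by omega) he)
    rw [Fintype.sum_unique] at h1
    simp only [opMon, LinearMap.id_apply] at h1
    ext m
    rw [Subsingleton.elim m default]
    exact (smul_eq_zero.mp h1).resolve_right he0
  | succ n ih =>
    -- the inner operators
    obtain ⟨Q, hQ⟩ : ∃ Q : Fin N → Fin N → V →ₗ[𝕜] V, Q = fun a b => ∑ m' : Idx n N,
      c (Fin.cons (a, b) m') • opMon n (fun i => X i.succ) (fun i => D i.succ) m'.val := ⟨_, rfl⟩
    obtain ⟨q, hq⟩ : ∃ q : ℕ → ℕ → V →ₗ[𝕜] V, q = fun a b => if h : a < N ∧ b < N then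
      Q ⟨a, h.1⟩ ⟨b, h.2⟩ else 0 := ⟨_, rfl⟩
    have hQv : ∀ a b v, Q a b v = ∑ m' : Idx n N,
        c (Fin.cons (a, b) m') • opMon n (fun i => X i.succ) (fun i => D i.succ) m'.val v := by
      intro a b v
      rw [hQ]
      simp only [LinearMap.sum_apply, LinearMap.smul_apply]
    have hq1 : ∀ a b : Fin N, q a b = Q a b := by
      intro a b
      rw [hq]
      exact dif_pos ⟨a.2, b.2⟩
    have hQcomm : ∀ B : V →ₗ[𝕜] V, (∀ i : Fin n, ∀ v, X i.succ (B v) = B (X i.succ v)) →
        (∀ i : Fin n, ∀ v, D i.succ (B v) = B (D i.succ v)) → ∀ a b v, Q a b (B v) = B (Q a b v) := by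
      intro B h1 h2 a b v
      rw [hQv, hQv, map_sum]
      refine Finset.sum_congr rfl fun m' _ => ?_
      rw [map_smul, opMon_comm h1 h2]
    have hqcomm : ∀ B : V →ₗ[𝕜] V, (∀ i : Fin n, ∀ v, X i.succ (B v) = B (X i.succ v)) →
        (∀ i : Fin n, ∀ v, D i.succ (B v) = B (D i.succ v)) → ∀ a b v, q a b (B v) = B (q a b v) := by
      intro B h1 h2 a b v
      by_cases hab : a < N ∧ b < N
      · have : q a b = Q ⟨a, hab.1⟩ ⟨b, hab.2⟩ := hq1 ⟨a, hab.1⟩ ⟨b, hab.2⟩
        rw [this]
        exact hQcomm B h1 h2 _ _ _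
      · have : q a b = 0 := by rw [hq]; exact dif_neg hab
        rw [this]; simp
    have key := one_pair (X := X 0) (D := D 0) (Γ := Γ) (fun v => by simpa using DX 0 0 v) mono (hX 0)
      (hD 0) N (j + n * (2 * N)) (2 * N) q
      (hqcomm (X 0) (fun i v => XX _ _ _) (fun i v => by
        have := DX i.succ 0 v
        rw [if_neg (Fin.succ_ne_zero i), add_zero] at this
        exact this))
      (hqcomm (D 0) (fun i v => by
        have := DX 0 i.succ v
        rw [if_neg (Fin.succ_ne_zero i).symm, add_zero] at this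
        exact this.symm) (fun i v => DD _ _ _))
      (fun a b hab => by rw [hq]; exact dif_neg (by omega))
      (fun a b hab => by rw [hq]; exact dif_neg (by omega))
      (fun v hv => by
        have h1 := h0 v (mono (by ring_nf; omega) hv)
        rw [sum_idx_succ] at h1
        rw [← h1, ← Fin.sum_univ_eq_sum_range (fun a => (X 0 ^ a)
          (∑ b ∈ Finset.range N, (D 0 ^ b) (q a b v)))]
        refine Finset.sum_congr rfl fun a _ => ?_
        rw [← Fin.sum_univ_eq_sum_range (fun b => (D 0 ^ b) (q a b v)), map_sum]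
        refine Finset.sum_congr rfl fun b _ => ?_
        rw [hq1, hQv, map_sum, map_sum]
        refine Finset.sum_congr rfl fun m' _ => ?_
        rw [map_smul, map_smul]
        rfl)
    have h2 : ∀ a b : Fin N, (fun m' : Idx n N => c (Fin.cons (a, b) m')) = 0 := by
      intro a b
      refine ih (X := fun i => X i.succ) (D := fun i => D i.succ) (fun i k v => XX _ _ _)
        (fun i k v => DD _ _ _) (fun i k v => ?_) (fun i k v hv => hX _ _ _ hv)
        (fun i k v hv => hD _ _ _ hv) _ ?_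
      · rw [DX]
        congr 1
        by_cases hik : i = k
        · rw [if_pos hik, if_pos (by rw [hik])]
        · rw [if_neg hik, if_neg (fun h => hik (Fin.succ_injective _ h))]
      · intro v hv
        have h3 := key a b v hv
        rw [hq1, hQv] at h3
        exact h3
    ext m
    have h3 := congrFun (h2 (m 0).1 (m 0).2) (fun i => m i.succ)
    simp only [Pi.zero_apply] at h3
    rw [Pi.zero_apply, ← h3]
    congr 1
    ext i
    · refine Fin.cases ?_ (fun i => ?_) i <;> rfl
    · refine Fin.cases ?_ (fun i => ?_) i <;> rfl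

/-- Bernstein's inequality. -/
theorem Weyl.bernstein {n : ℕ} {X D : Fin n → V →ₗ[𝕜] V} {Γ : ℕ → Submodule 𝕜 V} {C : ℕ}
    (hW : Weyl n X D Γ C) {j : ℕ} {e : V} (he : e ∈ Γ j) (he0 : e ≠ 0) (N : ℕ) :
    N ^ n ≤ finrank 𝕜 (Γ (j + 2 * (n * (2 * N)))) := by
  set j1 := j + n * (2 * N) with hj1
  set j2 := j + 2 * (n * (2 * N)) with hj2
  have := hW.fin j1
  have := hW.fin j2
  let T : Idx n N → (Γ j1 →ₗ[𝕜] Γ j2) := fun m => LinearMap.restrict (opMon n X D m.val)
    (fun v hv => hW.mono (by omega) (opMon_mem hW.mono hW.Xmem hW.Dmem N m.val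
      (fun i => ⟨(m i).1.2.le, (m i).2.2.le⟩) j1 v hv))
  let f : (Idx n N → 𝕜) →ₗ[𝕜] (Γ j1 →ₗ[𝕜] Γ j2) := Fintype.linearCombination 𝕜 T
  have hf : Function.Injective f := by
    rw [← LinearMap.ker_eq_bot, LinearMap.ker_eq_bot']
    intro c hc
    refine coef_zero hW.XX hW.DD hW.DX hW.mono hW.Xmem hW.Dmem N j e he he0 c (fun v hv => ?_)
    have h1 : (f c) ⟨v, hv⟩ = 0 := by rw [hc]; rfl
    have h2 := congrArg Subtype.val h1
    rw [Fintype.linearCombination_apply, LinearMap.sum_apply, Submodule.coe_sum] at h2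
    simp only [LinearMap.smul_apply, Submodule.coe_smul, ZeroMemClass.coe_zero] at h2
    exact h2
  have h1 := LinearMap.finrank_le_finrank_of_injective hf
  rw [Module.finrank_linearMap, Module.finrank_fintype_fun_eq_card] at h1
  simp only [Idx, Fintype.card_fun, Fintype.card_prod, Fintype.card_fin] at h1
  have h2 : finrank 𝕜 (Γ j1) ≤ finrank 𝕜 (Γ j2) := Submodule.finrank_mono (hW.mono (by omega))
  have h3 : (N ^ n) * (N ^ n) ≤ finrank 𝕜 (Γ j2) * finrank 𝕜 (Γ j2) := by
    rw [← mul_pow]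
    exact h1.trans (Nat.mul_le_mul_right _ h2)
  exact Nat.mul_self_le_mul_self_iff.mp h3

end injective

section chain

variable {𝕜 V : Type*} [Field 𝕜] [CharZero 𝕜] [AddCommGroup V] [Module 𝕜 V]

/-- The filtration induced on the subquotient `A / B`. -/
def subFil (A B : Submodule 𝕜 V) (Γ : ℕ → Submodule 𝕜 V) (k : ℕ) :
    Submodule 𝕜 (A ⧸ (B.submoduleOf A)) :=
  (Submodule.comap A.subtype (Γ k)).map (B.submoduleOf A).mkQ

omit [CharZero 𝕜] in
theorem finrank_comap_subtype (A P : Submodule 𝕜 V) :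
    finrank 𝕜 (Submodule.comap A.subtype P) = finrank 𝕜 (A ⊓ P : Submodule 𝕜 V) := by
  have e2 := LinearEquiv.finrank_eq (Submodule.equivMapOfInjective A.subtype
    (Submodule.subtype_injective A) (Submodule.comap A.subtype P))
  rw [e2, Submodule.map_comap_subtype]

omit [CharZero 𝕜] in
theorem finrank_subFil {A B : Submodule 𝕜 V} (hBA : B ≤ A) {Γ : ℕ → Submodule 𝕜 V} (k : ℕ)
    [FiniteDimensional 𝕜 (Γ k)] :
    finrank 𝕜 (subFil A B Γ k) + finrank 𝕜 (B ⊓ Γ k : Submodule 𝕜 V) =
      finrank 𝕜 (A ⊓ Γ k : Submodule 𝕜 V) := by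
  have : FiniteDimensional 𝕜 (Submodule.comap A.subtype (Γ k)) := by
    have e2 := (Submodule.equivMapOfInjective A.subtype
      (Submodule.subtype_injective A) (Submodule.comap A.subtype (Γ k)))
    rw [Submodule.map_comap_subtype] at e2
    have : FiniteDimensional 𝕜 (A ⊓ Γ k : Submodule 𝕜 V) :=
      Submodule.finiteDimensional_of_le inf_le_right
    exact LinearEquiv.finiteDimensional e2.symm
  have h := finrank_map_add_inf (B.submoduleOf A).mkQ (Submodule.comap A.subtype (Γ k))
  rw [Submodule.ker_mkQ, finrank_comap_subtype] at h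
  rw [← h, subFil]
  congr 1
  have e1 : (B.submoduleOf A ⊓ Submodule.comap A.subtype (Γ k) : Submodule 𝕜 A) =
      Submodule.comap A.subtype (B ⊓ Γ k) := rfl
  rw [e1, finrank_comap_subtype, ← inf_assoc, inf_eq_right.mpr hBA]

/-- The operator induced on the subquotient `A / B`. -/
def subOp (A B : Submodule 𝕜 V) (f : V →ₗ[𝕜] V) (hA : ∀ v ∈ A, f v ∈ A) (hB : ∀ v ∈ B, f v ∈ B) :
    (A ⧸ (B.submoduleOf A)) →ₗ[𝕜] (A ⧸ (B.submoduleOf A)) :=
  (B.submoduleOf A).mapQ (B.submoduleOf A) (f.restrict hA)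
    (fun v hv => by
      have h1 : (v : V) ∈ B := hv
      exact hB _ h1)

omit [CharZero 𝕜] in
theorem subOp_mk (A B : Submodule 𝕜 V) (f : V →ₗ[𝕜] V) (hA : ∀ v ∈ A, f v ∈ A)
    (hB : ∀ v ∈ B, f v ∈ B) (v : A) :
    subOp A B f hA hB ((B.submoduleOf A).mkQ v) = (B.submoduleOf A).mkQ ⟨f v, hA v v.2⟩ := rfl

omit [CharZero 𝕜] in
/-- A subquotient of a filtered module of minimal growth. -/
theorem Weyl.subquotient {n : ℕ} {X D : Fin n → V →ₗ[𝕜] V} {Γ : ℕ → Submodule 𝕜 V} {C : ℕ}
    (hW : Weyl n X D Γ C) {A B : Submodule 𝕜 V} (hBA : B ≤ A)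
    (hXA : ∀ i, ∀ v ∈ A, X i v ∈ A) (hDA : ∀ i, ∀ v ∈ A, D i v ∈ A)
    (hXB : ∀ i, ∀ v ∈ B, X i v ∈ B) (hDB : ∀ i, ∀ v ∈ B, D i v ∈ B) :
    Weyl n (fun i => subOp A B (X i) (hXA i) (hXB i)) (fun i => subOp A B (D i) (hDA i) (hDB i))
      (subFil A B Γ) C := by
  have hsurj : Function.Surjective (B.submoduleOf A).mkQ := Submodule.mkQ_surjective _
  refine ⟨?_, ?_, ?_, ?_, ?_, ?_, ?_, ?_, ?_⟩
  · intro i j w
    obtain ⟨v, rfl⟩ := hsurj w
    simp only [subOp_mk]
    congr 1
    exact Subtype.ext (hW.XX i j v)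
  · intro i j w
    obtain ⟨v, rfl⟩ := hsurj w
    simp only [subOp_mk]
    congr 1
    exact Subtype.ext (hW.DD i j v)
  · intro i j w
    obtain ⟨v, rfl⟩ := hsurj w
    have h := hW.DX i j v
    by_cases hij : i = j
    · rw [if_pos hij] at h ⊢
      simp only [subOp_mk]
      rw [← map_add]
      congr 1
      exact Subtype.ext h
    · rw [if_neg hij, add_zero] at h ⊢
      simp only [subOp_mk]
      congr 1
      exact Subtype.ext h
  · intro a b hab
    exact Submodule.map_mono (Submodule.comap_mono (hW.mono hab))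
  · intro w
    obtain ⟨v, rfl⟩ := hsurj w
    obtain ⟨k, hk⟩ := hW.exh v
    exact ⟨k, Submodule.mem_map_of_mem hk⟩
  · rintro i k _ ⟨v, hv, rfl⟩
    exact ⟨_, hW.Xmem i k v hv, rfl⟩
  · rintro i k _ ⟨v, hv, rfl⟩
    exact ⟨_, hW.Dmem i k v hv, rfl⟩
  · intro k
    have := hW.fin k
    have : FiniteDimensional 𝕜 (Submodule.comap A.subtype (Γ k)) := by
      have e2 := (Submodule.equivMapOfInjective A.subtype
        (Submodule.subtype_injective A) (Submodule.comap A.subtype (Γ k)))
      rw [Submodule.map_comap_subtype] at e2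
      have : FiniteDimensional 𝕜 (A ⊓ Γ k : Submodule 𝕜 V) :=
        Submodule.finiteDimensional_of_le inf_le_right
      exact LinearEquiv.finiteDimensional e2.symm
    unfold subFil
    infer_instance
  · intro k
    have := hW.fin k
    have h1 := finrank_subFil hBA (Γ := Γ) k
    have h2 : finrank 𝕜 (A ⊓ Γ k : Submodule 𝕜 V) ≤ finrank 𝕜 (Γ k) :=
      Submodule.finrank_mono inf_le_right
    have h3 := hW.growth k
    omega

/-- A descending chain of submodules of a module of minimal growth is stationary. -/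
theorem Weyl.chain {n : ℕ} {X D : Fin n → V →ₗ[𝕜] V} {Γ : ℕ → Submodule 𝕜 V} {C : ℕ}
    (hW : Weyl n X D Γ C) (P : ℕ → Submodule 𝕜 V) (hP : ∀ k, P (k + 1) ≤ P k)
    (hX : ∀ k i, ∀ v ∈ P k, X i v ∈ P k) (hD : ∀ k i, ∀ v ∈ P k, D i v ∈ P k) :
    ∃ k, P k ≤ P (k + 1) := by
  by_contra hcon
  push Not at hcon
  have hex : ∀ k, ∃ e, e ∈ P k ∧ e ∉ P (k + 1) := fun k => by
    have := hcon k
    rw [SetLike.not_le_iff_exists] at this
    exact this
  choose e he1 he2 using hex
  choose lev hlev using fun k => hW.exh (e k)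
  set r := C * (4 * n + 1) ^ n + 1 with hr
  set j0 := (Finset.range r).sup lev with hj0
  set M := j0 + 1 with hM
  set j2 := j0 + 2 * (n * (2 * M)) with hj2
  have hfin := hW.fin j2
  have h1 : ∀ k < r, M ^ n + finrank 𝕜 (P (k + 1) ⊓ Γ j2 : Submodule 𝕜 V) ≤
      finrank 𝕜 (P k ⊓ Γ j2 : Submodule 𝕜 V) := by
    intro k hk
    have hWk := hW.subquotient (hP k) (hX k) (hD k) (hX (k + 1)) (hD (k + 1))
    have hek : e k ∈ Γ j0 := hW.mono (Finset.le_sup (f := lev) (Finset.mem_range.mpr hk)) (hlev k)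
    have h2 := hWk.bernstein (j := j0)
      (e := ((P (k + 1)).submoduleOf (P k)).mkQ ⟨e k, he1 k⟩)
      ⟨⟨e k, he1 k⟩, hek, rfl⟩ (by
        rw [Submodule.mkQ_apply, Ne, Submodule.Quotient.mk_eq_zero]
        exact fun h => he2 k h) M
    have h3 := finrank_subFil (hP k) (Γ := Γ) j2
    rw [← hj2] at h2
    omega
  have h2 : ∀ k ≤ r, k * M ^ n + finrank 𝕜 (P k ⊓ Γ j2 : Submodule 𝕜 V) ≤
      finrank 𝕜 (P 0 ⊓ Γ j2 : Submodule 𝕜 V) := by
    intro k
    induction k with
    | zero => intro _; simp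
    | succ k ih =>
      intro hk
      have h3 := ih (by omega)
      have h4 := h1 k (by omega)
      have h5 : (k + 1) * M ^ n = k * M ^ n + M ^ n := by ring
      omega
  have h3 := h2 r le_rfl
  have h4 : finrank 𝕜 (P 0 ⊓ Γ j2 : Submodule 𝕜 V) ≤ finrank 𝕜 (Γ j2) :=
    Submodule.finrank_mono inf_le_right
  have h5 := hW.growth j2
  have h6 : (j2 + 1) ^ n = (4 * n + 1) ^ n * M ^ n := by
    rw [← mul_pow]; congr 1; rw [hj2, hM]; ring
  rw [h6] at h5
  have h7 : r * M ^ n ≤ (C * (4 * n + 1) ^ n) * M ^ n := by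
    calc r * M ^ n ≤ C * ((4 * n + 1) ^ n * M ^ n) := by omega
      _ = _ := by ring
  have h8 : 0 < M ^ n := Nat.pow_pos (Nat.succ_pos _)
  have h9 := Nat.le_of_mul_le_mul_right h7 h8
  omega

end chain

end Pool.Agent.Lib.MP_bbe012_lc
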