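import Mathlib
import Pool.Agent.Lib.MP_bbe012_lc.Chain

/-!
# The module `𝕜[x, 1/h] h^κ`
-/

namespace Pool.Agent.Lib.MP_bbe012_lc

open Module MvPolynomial

section degrees

variable {𝕜 : Type*} [Field 𝕜] {n : ℕ}

theorem pderiv_comm (i j : Fin n) (p : MvPolynomial (Fin n) 𝕜) :
    pderiv i (pderiv j p) = pderiv j (pderiv i p) := by
  have h : ⁅pderiv (R := 𝕜) i, pderiv (R := 𝕜) j⁆ = 0 := by
    refine MvPolynomial.derivation_ext fun k => ?_
    rw [Derivation.commutator_apply, pderiv_X, pderiv_X]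
    simp only [Pi.single_apply]
    split_ifs <;> simp
  have h2 := congrArg (fun d => d p) h
  simp only [Derivation.commutator_apply] at h2
  exact sub_eq_zero.mp h2

theorem degreeOf_pderiv_le (i l : Fin n) (p : MvPolynomial (Fin n) 𝕜) :
    (pderiv l p).degreeOf i ≤ p.degreeOf i := by
  rw [degreeOf_le_iff]
  intro m hm
  rw [MvPolynomial.mem_support_iff, coeff_pderiv] at hm
  have h1 : coeff (m + Finsupp.single l 1) p ≠ 0 := fun h => hm (by rw [h]; simp)
  have h2 := (degreeOf_le_iff (n := i) (f := p) (d := p.degreeOf i)).mp le_rfl _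
    (MvPolynomial.mem_support_iff.mpr h1)
  refine le_trans ?_ h2
  simp

/-- Polynomials of degree at most `m` in each variable. -/
def degLE (𝕜 : Type*) [Field 𝕜] (n m : ℕ) : Submodule 𝕜 (MvPolynomial (Fin n) 𝕜) where
  carrier := {G | ∀ i, G.degreeOf i ≤ m}
  add_mem' := fun {a b} ha hb i => (degreeOf_add_le i a b).trans (max_le (ha i) (hb i))
  zero_mem' := fun i => by simp
  smul_mem' := fun c a ha i => by
    rw [smul_eq_C_mul]
    exact (degreeOf_C_mul_le a i c).trans (ha i)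

theorem mem_degLE {m : ℕ} {G : MvPolynomial (Fin n) 𝕜} :
    G ∈ degLE 𝕜 n m ↔ ∀ i, G.degreeOf i ≤ m := Iff.rfl

theorem degLE_mono {a b : ℕ} (h : a ≤ b) : degLE 𝕜 n a ≤ degLE 𝕜 n b :=
  fun _ hG i => (hG i).trans h

theorem degLE_le_span (m : ℕ) : degLE 𝕜 n m ≤
    Submodule.span 𝕜 (Set.range fun s : Fin n → Fin (m + 1) =>
      monomial (Finsupp.equivFunOnFinite.symm fun i => (s i : ℕ)) (1 : 𝕜)) := by
  intro G hG
  rw [G.as_sum]
  refine Submodule.sum_mem _ fun s hs => ?_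
  have h1 : monomial s (coeff s G) = coeff s G • monomial s (1 : 𝕜) := by
    rw [smul_monomial, smul_eq_mul, mul_one]
  rw [h1]
  refine Submodule.smul_mem _ _ (Submodule.subset_span ?_)
  refine ⟨fun i => ⟨s i, ?_⟩, ?_⟩
  · have := (degreeOf_le_iff (n := i) (f := G) (d := m)).mp (hG i) s hs
    omega
  · have h2 : (Finsupp.equivFunOnFinite.symm fun i => s i) = s := by ext i; rfl
    change monomial (Finsupp.equivFunOnFinite.symm fun i => s i) (1 : 𝕜) = monomial s 1
    rw [h2]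

instance finite_degLE (m : ℕ) : FiniteDimensional 𝕜 (degLE 𝕜 n m) := by
  have := FiniteDimensional.span_of_finite 𝕜 (Set.finite_range fun s : Fin n → Fin (m + 1) =>
      monomial (Finsupp.equivFunOnFinite.symm fun i => (s i : ℕ)) (1 : 𝕜))
  exact Submodule.finiteDimensional_of_le (degLE_le_span m)

theorem finrank_degLE (m : ℕ) : finrank 𝕜 (degLE 𝕜 n m) ≤ (m + 1) ^ n := by
  have := FiniteDimensional.span_of_finite 𝕜 (Set.finite_range fun s : Fin n → Fin (m + 1) =>
      monomial (Finsupp.equivFunOnFinite.symm fun i => (s i : ℕ)) (1 : 𝕜))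
  refine (Submodule.finrank_mono (degLE_le_span m)).trans ?_
  refine (finrank_range_le_card _).trans ?_
  simp

end degrees

/-! ### The module -/

variable {𝕜 : Type*} [Field 𝕜] {n : ℕ}

/-- The inclusion of `𝕜[x]` in `𝕜[x, y]`. -/
noncomputable def emb (𝕜 : Type*) [Field 𝕜] (n : ℕ) :
    MvPolynomial (Fin n) 𝕜 →ₐ[𝕜] MvPolynomial (Option (Fin n)) 𝕜 := rename some

/-- The ideal generated by `h y - 1`. -/
noncomputable def idealH (h : MvPolynomial (Fin n) 𝕜) : Ideal (MvPolynomial (Option (Fin n)) 𝕜) :=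
  Ideal.span {emb 𝕜 n h * X none - 1}

/-- The algebra `𝕜[x, 1/h]`. -/
abbrev Loc (h : MvPolynomial (Fin n) 𝕜) := MvPolynomial (Option (Fin n)) 𝕜 ⧸ idealH h

/-- The map `𝕜[x] → 𝕜[x, 1/h]`. -/
noncomputable def iota (h : MvPolynomial (Fin n) 𝕜) : MvPolynomial (Fin n) 𝕜 →ₐ[𝕜] Loc h :=
  (Ideal.Quotient.mkₐ 𝕜 (idealH h)).comp (emb 𝕜 n)

/-- The element `1/h`. -/
noncomputable def invH (h : MvPolynomial (Fin n) 𝕜) : Loc h :=
  Ideal.Quotient.mkₐ 𝕜 (idealH h) (X none)

theorem iota_mul_invH (h : MvPolynomial (Fin n) 𝕜) : iota h h * invH h = 1 := by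
  have h1 : iota h h * invH h - 1 = Ideal.Quotient.mkₐ 𝕜 (idealH h) (emb 𝕜 n h * X none - 1) := by
    rw [map_sub, map_mul, map_one]; rfl
  have h2 : Ideal.Quotient.mkₐ 𝕜 (idealH h) (emb 𝕜 n h * X none - 1) = 0 :=
    Ideal.Quotient.eq_zero_iff_mem.mpr (Ideal.subset_span rfl)
  rw [h2] at h1
  exact sub_eq_zero.mp h1

/-- The derivation `∂/∂x_l` of `𝕜[x, y]` with `y ↦ - h_l y²`. -/
noncomputable def dlt (h : MvPolynomial (Fin n) 𝕜) (l : Fin n) :
    Derivation 𝕜 (MvPolynomial (Option (Fin n)) 𝕜) (MvPolynomial (Option (Fin n)) 𝕜) :=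
  mkDerivation 𝕜 fun o => match o with
    | some j => if j = l then 1 else 0
    | none => -(emb 𝕜 n (pderiv l h)) * X none ^ 2

theorem dlt_emb (h : MvPolynomial (Fin n) 𝕜) (l : Fin n) (G : MvPolynomial (Fin n) 𝕜) :
    dlt h l (emb 𝕜 n G) = emb 𝕜 n (pderiv l G) := by
  induction G using MvPolynomial.induction_on with
  | C a => rw [pderiv_C, map_zero, emb, rename_C]; exact Derivation.map_algebraMap _ _
  | add p q hp hq => rw [map_add, map_add, map_add, map_add, hp, hq]
  | mul_X p i hp =>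
    have h1 : emb 𝕜 n (X i) = X (some i) := rename_X _ _
    have h2 : dlt h l (X (some i)) = if i = l then 1 else 0 := mkDerivation_X _ _ _
    rw [map_mul, Derivation.leibniz, hp, h1, h2, Derivation.leibniz, map_add, smul_eq_mul,
      smul_eq_mul, smul_eq_mul, smul_eq_mul, map_mul, map_mul, h1, pderiv_X]
    congr 1
    by_cases hil : i = l
    · subst hil; simp
    · rw [if_neg hil, Pi.single_apply, if_neg hil, map_zero]

theorem dlt_y (h : MvPolynomial (Fin n) 𝕜) (l : Fin n) :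
    dlt h l (X none) = -(emb 𝕜 n (pderiv l h)) * X none ^ 2 := mkDerivation_X _ _ _

/-- The twisted derivation on `𝕜[x, y]`. -/
noncomputable def twist (h : MvPolynomial (Fin n) 𝕜) (κ : 𝕜) (l : Fin n) :
    MvPolynomial (Option (Fin n)) 𝕜 →ₗ[𝕜] MvPolynomial (Option (Fin n)) 𝕜 :=
  (dlt h l : MvPolynomial (Option (Fin n)) 𝕜 →ₗ[𝕜] MvPolynomial (Option (Fin n)) 𝕜) +
    κ • LinearMap.mulLeft 𝕜 (emb 𝕜 n (pderiv l h) * X none)

theorem twist_apply (h : MvPolynomial (Fin n) 𝕜) (κ : 𝕜) (l : Fin n) (r) :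
    twist h κ l r = dlt h l r + κ • (emb 𝕜 n (pderiv l h) * X none * r) := rfl

theorem dlt_mem (h : MvPolynomial (Fin n) 𝕜) (l : Fin n) {r} (hr : r ∈ idealH h) :
    dlt h l r ∈ idealH h := by
  obtain ⟨a, rfl⟩ := Ideal.mem_span_singleton'.mp hr
  have h1 : dlt h l (emb 𝕜 n h * X none - 1) =
      (-(emb 𝕜 n (pderiv l h)) * X none) * (emb 𝕜 n h * X none - 1) := by
    rw [map_sub, Derivation.leibniz, Derivation.map_one_eq_zero, dlt_emb, dlt_y, smul_eq_mul,
      smul_eq_mul]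
    ring
  rw [Derivation.leibniz, h1, smul_eq_mul, smul_eq_mul]
  refine Ideal.add_mem _ ?_ ?_
  · exact Ideal.mul_mem_left _ _ (Ideal.mul_mem_left _ _ (Ideal.subset_span rfl))
  · exact Ideal.mul_mem_right _ _ (Ideal.subset_span rfl)

theorem twist_mem (h : MvPolynomial (Fin n) 𝕜) (κ : 𝕜) (l : Fin n) {r} (hr : r ∈ idealH h) :
    twist h κ l r ∈ idealH h := by
  rw [twist_apply]
  refine Ideal.add_mem _ (dlt_mem h l hr) ?_
  rw [smul_eq_C_mul]
  exact Ideal.mul_mem_left _ _ (Ideal.mul_mem_left _ _ hr)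

/-- The twisted derivation `∂_l + κ h_l / h` of `𝕜[x, 1/h]`. -/
noncomputable def DD (h : MvPolynomial (Fin n) 𝕜) (κ : 𝕜) (l : Fin n) : Loc h →ₗ[𝕜] Loc h :=
  (Submodule.Quotient.restrictScalarsEquiv 𝕜 (idealH h)).toLinearMap ∘ₗ
    (((idealH h).restrictScalars 𝕜).mapQ ((idealH h).restrictScalars 𝕜) (twist h κ l)
      (fun _ hr => twist_mem h κ l hr)) ∘ₗ
    (Submodule.Quotient.restrictScalarsEquiv 𝕜 (idealH h)).symm.toLinearMap

theorem DD_mk (h : MvPolynomial (Fin n) 𝕜) (κ : 𝕜) (l : Fin n) (r) :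
    DD h κ l (Ideal.Quotient.mkₐ 𝕜 (idealH h) r) =
      Ideal.Quotient.mkₐ 𝕜 (idealH h) (twist h κ l r) := rfl

/-- The value of the twisted derivation on a fraction. -/
theorem DD_frac (h : MvPolynomial (Fin n) 𝕜) (κ : 𝕜) (l : Fin n) (G : MvPolynomial (Fin n) 𝕜)
    (K : ℕ) :
    DD h κ l (iota h G * invH h ^ K) =
      iota h (h * pderiv l G + (κ - K) • (pderiv l h * G)) * invH h ^ (K + 1) := by
  have h0 : iota h G * invH h ^ K =
      Ideal.Quotient.mkₐ 𝕜 (idealH h) (emb 𝕜 n G * X none ^ K) := by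
    rw [map_mul, map_pow]; rfl
  have h1 : twist h κ l (emb 𝕜 n G * X none ^ K) = emb 𝕜 n (pderiv l G) * X none ^ K +
      (κ - K) • (emb 𝕜 n (pderiv l h * G) * X none ^ (K + 1)) := by
    rw [twist_apply, Derivation.leibniz, dlt_emb, Derivation.leibniz_pow, dlt_y]
    cases K with
    | zero => simp; ring_nf
    | succ K =>
      simp only [smul_eq_mul, map_mul, Nat.add_sub_cancel, sub_smul, nsmul_eq_mul, smul_eq_C_mul,
        map_natCast]
      ring
  rw [h0, DD_mk, h1, map_add, map_add, map_smul, map_mul, map_mul, map_pow, map_pow, add_mul]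
  have e1 : Ideal.Quotient.mkₐ 𝕜 (idealH h) (X none) = invH h := rfl
  have e2 : ∀ r, Ideal.Quotient.mkₐ 𝕜 (idealH h) (emb 𝕜 n r) = iota h r := fun r => rfl
  rw [e1, e2, e2]
  congr 1
  · rw [map_mul, pow_succ]
    have := iota_mul_invH h
    calc iota h (pderiv l G) * invH h ^ K = iota h (pderiv l G) * invH h ^ K * 1 := by rw [mul_one]
      _ = _ := by rw [← this]; ring
  · rw [map_smul, smul_mul_assoc]

/-- Every element of `𝕜[x, 1/h]` is a fraction. -/
theorem exists_frac (h : MvPolynomial (Fin n) 𝕜) (m : Loc h) :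
    ∃ (G : MvPolynomial (Fin n) 𝕜) (K : ℕ), m = iota h G * invH h ^ K := by
  obtain ⟨r, rfl⟩ := Ideal.Quotient.mkₐ_surjective 𝕜 (idealH h) m
  have hh := iota_mul_invH h
  induction r using MvPolynomial.induction_on with
  | C a =>
    refine ⟨C a, 0, ?_⟩
    rw [pow_zero, mul_one]
    have : (C a : MvPolynomial (Option (Fin n)) 𝕜) = emb 𝕜 n (C a) := (rename_C _ _).symm
    rw [this]; rfl
  | add p q hp hq =>
    obtain ⟨G1, K1, h1⟩ := hp
    obtain ⟨G2, K2, h2⟩ := hq
    refine ⟨G1 * h ^ K2 + G2 * h ^ K1, K1 + K2, ?_⟩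
    rw [map_add, h1, h2, map_add, map_mul, map_mul, map_pow, map_pow, add_mul]
    have e : ∀ K, iota h h ^ K * invH h ^ K = 1 := fun K => by rw [← mul_pow, hh, one_pow]
    congr 1
    · rw [pow_add]
      calc _ = iota h G1 * invH h ^ K1 * 1 := by rw [mul_one]
        _ = _ := by rw [← e K2]; ring
    · rw [pow_add]
      calc _ = iota h G2 * invH h ^ K2 * 1 := by rw [mul_one]
        _ = _ := by rw [← e K1]; ring
  | mul_X p i hp =>
    obtain ⟨G1, K1, h1⟩ := hp
    rw [map_mul, h1]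
    cases i with
    | none =>
      refine ⟨G1, K1 + 1, ?_⟩
      have e1 : Ideal.Quotient.mkₐ 𝕜 (idealH h) (X none) = invH h := rfl
      rw [e1, pow_succ, mul_assoc]
    | some i =>
      refine ⟨G1 * X i, K1, ?_⟩
      have e1 : Ideal.Quotient.mkₐ 𝕜 (idealH h) (X (some i)) = iota h (X i) := by
        change _ = Ideal.Quotient.mkₐ 𝕜 (idealH h) (emb 𝕜 n (X i))
        rw [emb, rename_X]
      rw [e1, map_mul]; ring

/-- The map to the field of fractions. -/
noncomputable def toFrac (h : MvPolynomial (Fin n) 𝕜) (h0 : h ≠ 0) :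
    Loc h →+* FractionRing (MvPolynomial (Fin n) 𝕜) :=
  Ideal.Quotient.lift (idealH h)
    (eval₂Hom ((algebraMap (MvPolynomial (Fin n) 𝕜) (FractionRing (MvPolynomial (Fin n) 𝕜))).comp C)
      (fun o : Option (Fin n) => match o with
        | some j => algebraMap (MvPolynomial (Fin n) 𝕜) (FractionRing (MvPolynomial (Fin n) 𝕜)) (X j)
        | none => (algebraMap (MvPolynomial (Fin n) 𝕜) (FractionRing (MvPolynomial (Fin n) 𝕜)) h)⁻¹))
    (by
      have key : ∀ G : MvPolynomial (Fin n) 𝕜, eval₂Hom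
          ((algebraMap (MvPolynomial (Fin n) 𝕜) (FractionRing (MvPolynomial (Fin n) 𝕜))).comp C)
          (fun o : Option (Fin n) => match o with
            | some j => algebraMap (MvPolynomial (Fin n) 𝕜) (FractionRing (MvPolynomial (Fin n) 𝕜)) (X j)
            | none => (algebraMap (MvPolynomial (Fin n) 𝕜) (FractionRing (MvPolynomial (Fin n) 𝕜)) h)⁻¹)
          (emb 𝕜 n G) = algebraMap (MvPolynomial (Fin n) 𝕜) (FractionRing (MvPolynomial (Fin n) 𝕜)) G := by
        intro G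
        rw [emb, coe_eval₂Hom, eval₂_rename]
        induction G using MvPolynomial.induction_on with
        | C a => simp
        | add p q hp hq => rw [eval₂_add, hp, hq, map_add]
        | mul_X p i hp => rw [eval₂_mul, hp, map_mul, eval₂_X]; rfl
      intro a ha
      obtain ⟨b, rfl⟩ := Ideal.mem_span_singleton'.mp ha
      rw [map_mul, map_sub, map_mul, key, map_one]
      have h1 : algebraMap (MvPolynomial (Fin n) 𝕜) (FractionRing (MvPolynomial (Fin n) 𝕜)) h ≠ 0 := by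
        intro h2
        exact h0 (IsFractionRing.injective (MvPolynomial (Fin n) 𝕜)
          (FractionRing (MvPolynomial (Fin n) 𝕜)) (by rw [h2, map_zero]))
      rw [coe_eval₂Hom, eval₂_X]
      dsimp only
      rw [mul_inv_cancel₀ h1, sub_self, mul_zero])

theorem toFrac_iota (h : MvPolynomial (Fin n) 𝕜) (h0 : h ≠ 0) (G : MvPolynomial (Fin n) 𝕜) :
    toFrac h h0 (iota h G) =
      algebraMap (MvPolynomial (Fin n) 𝕜) (FractionRing (MvPolynomial (Fin n) 𝕜)) G := by
  change eval₂Hom _ _ (emb 𝕜 n G) = _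
  rw [emb, coe_eval₂Hom, eval₂_rename]
  induction G using MvPolynomial.induction_on with
  | C a => simp
  | add p q hp hq => rw [eval₂_add, hp, hq, map_add]
  | mul_X p i hp => rw [eval₂_mul, hp, map_mul, eval₂_X]; rfl

theorem iota_injective (h : MvPolynomial (Fin n) 𝕜) (h0 : h ≠ 0) : Function.Injective (iota h) := by
  intro a b hab
  have := congrArg (toFrac h h0) hab
  rw [toFrac_iota, toFrac_iota] at this
  exact IsFractionRing.injective _ _ this

end Pool.Agent.Lib.MP_bbe012_lc
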