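import Mathlib
import Pool.Agent.Lib.MP_bbe012_lc.LocMod

/-!
# The module `𝕜[x, 1/h] h^κ` is a module of minimal growth over the Weyl algebra
-/

namespace Pool.Agent.Lib.MP_bbe012_lc

open Module MvPolynomial

variable {𝕜 : Type*} [Field 𝕜] {n : ℕ}

/-- Multiplication by `x_l`. -/
noncomputable def Xop (h : MvPolynomial (Fin n) 𝕜) (l : Fin n) : Loc h →ₗ[𝕜] Loc h :=
  LinearMap.mulLeft 𝕜 (iota h (X l))

theorem Xop_apply (h : MvPolynomial (Fin n) 𝕜) (l : Fin n) (m : Loc h) :
    Xop h l m = iota h (X l) * m := rfl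

/-- The map `G ↦ G / h^K`. -/
noncomputable def fracMap (h : MvPolynomial (Fin n) 𝕜) (K : ℕ) :
    MvPolynomial (Fin n) 𝕜 →ₗ[𝕜] Loc h :=
  (LinearMap.mulRight 𝕜 (invH h ^ K)) ∘ₗ (iota h).toLinearMap

theorem fracMap_apply (h : MvPolynomial (Fin n) 𝕜) (K : ℕ) (G : MvPolynomial (Fin n) 𝕜) :
    fracMap h K G = iota h G * invH h ^ K := rfl

theorem fracMap_shift (h : MvPolynomial (Fin n) 𝕜) (K j : ℕ) (G : MvPolynomial (Fin n) 𝕜) :
    fracMap h K G = fracMap h (K + j) (G * h ^ j) := by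
  rw [fracMap_apply, fracMap_apply, map_mul, map_pow, pow_add]
  have e : iota h h ^ j * invH h ^ j = 1 := by rw [← mul_pow, iota_mul_invH, one_pow]
  calc _ = iota h G * invH h ^ K * 1 := by rw [mul_one]
    _ = _ := by rw [← e]; ring

/-- The filtration. -/
noncomputable def Gam (h : MvPolynomial (Fin n) 𝕜) (e k : ℕ) : Submodule 𝕜 (Loc h) :=
  (degLE 𝕜 n (e * k)).map (fracMap h k)

/-- A constant larger than the degrees of `h`. -/
noncomputable def eOf (h : MvPolynomial (Fin n) 𝕜) : ℕ := 1 + ∑ i, h.degreeOf i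

theorem lt_eOf (h : MvPolynomial (Fin n) 𝕜) (i : Fin n) : h.degreeOf i + 1 ≤ eOf h := by
  have h1 : h.degreeOf i ≤ ∑ i, h.degreeOf i :=
    Finset.single_le_sum (f := fun i => h.degreeOf i) (fun _ _ => Nat.zero_le _) (Finset.mem_univ i)
  unfold eOf
  omega

theorem exh_Gam (h : MvPolynomial (Fin n) 𝕜) (m : Loc h) : ∃ k, m ∈ Gam h (eOf h) k := by
  obtain ⟨G, K, rfl⟩ := exists_frac h m
  set j := ∑ i, G.degreeOf i with hj
  refine ⟨K + j, ⟨G * h ^ j, fun i => ?_, ?_⟩⟩
  · have h1 : G.degreeOf i ≤ j :=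
      Finset.single_le_sum (f := fun i => G.degreeOf i) (fun _ _ => Nat.zero_le _) (Finset.mem_univ i)
    have h2 := degreeOf_mul_le i G (h ^ j)
    have h3 := degreeOf_pow_le i h j
    have h4 := lt_eOf h i
    calc degreeOf i (G * h ^ j) ≤ degreeOf i G + j * degreeOf i h := by omega
      _ ≤ j * (degreeOf i h + 1) := by ring_nf; omega
      _ ≤ j * eOf h := Nat.mul_le_mul_left _ h4
      _ ≤ eOf h * (K + j) := by rw [mul_comm]; exact Nat.mul_le_mul_left _ (by omega)
  · exact (fracMap_shift h K j G).symm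

theorem twist_comm_aux (h : MvPolynomial (Fin n) 𝕜) (κ : 𝕜) (i j : Fin n)
    (G : MvPolynomial (Fin n) 𝕜) (K : ℕ) :
    h * pderiv i (h * pderiv j G + (κ - K) • (pderiv j h * G)) + (κ - (K + 1 : ℕ)) •
      (pderiv i h * (h * pderiv j G + (κ - K) • (pderiv j h * G))) =
    h * pderiv j (h * pderiv i G + (κ - K) • (pderiv i h * G)) + (κ - (K + 1 : ℕ)) •
      (pderiv j h * (h * pderiv i G + (κ - K) • (pderiv i h * G))) := by
  have e1 : pderiv i (pderiv j G) = pderiv j (pderiv i G) := pderiv_comm i j G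
  have e2 : pderiv i (pderiv j h) = pderiv j (pderiv i h) := pderiv_comm i j h
  simp only [smul_eq_C_mul, map_add, pderiv_mul, pderiv_C, e1, e2, map_sub, map_natCast,
    Nat.cast_add, Nat.cast_one, map_one, Derivation.map_natCast]
  ring

theorem loc_weyl (h : MvPolynomial (Fin n) 𝕜) (κ : 𝕜) :
    Weyl n (Xop h) (DD h κ) (Gam h (eOf h)) (eOf h ^ n) := by
  have hcomm : ∀ (i : Fin n) (K : ℕ) (G : MvPolynomial (Fin n) 𝕜),
      DD h κ i (fracMap h K G) = fracMap h (K + 1) (h * pderiv i G + (κ - K) • (pderiv i h * G)) :=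
    fun i K G => DD_frac h κ i G K
  refine ⟨?_, ?_, ?_, ?_, ?_, ?_, ?_, ?_, ?_⟩
  · intro i j v
    simp only [Xop_apply]; ring
  · intro i j v
    obtain ⟨G, K, rfl⟩ := exists_frac h v
    rw [← fracMap_apply, hcomm, hcomm, hcomm, hcomm, twist_comm_aux h κ i j G K]
  · intro i j v
    obtain ⟨G, K, rfl⟩ := exists_frac h v
    have h1 : ∀ v, Xop h j (fracMap h K v) = fracMap h K (X j * v) := by
      intro v
      rw [Xop_apply, fracMap_apply, fracMap_apply, map_mul, mul_assoc]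
    have h2 : ∀ v, Xop h j (fracMap h (K + 1) v) = fracMap h (K + 1) (X j * v) := by
      intro v
      rw [Xop_apply, fracMap_apply, fracMap_apply, map_mul, mul_assoc]
    rw [← fracMap_apply, h1, hcomm, hcomm, h2]
    have h3 : (if i = j then fracMap h K G else 0) =
        fracMap h (K + 1) ((if i = j then 1 else 0) * (G * h)) := by
      split_ifs
      · rw [one_mul, fracMap_shift h K 1 G, pow_one]
      · rw [zero_mul, map_zero]
    rw [h3, ← map_add]
    congr 1
    rw [Derivation.leibniz, pderiv_X, Pi.single_apply]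
    simp only [smul_eq_mul, smul_eq_C_mul]
    by_cases hij : i = j
    · rw [if_pos hij, if_pos hij.symm]; ring
    · rw [if_neg hij, if_neg (Ne.symm hij)]; ring
  · refine monotone_nat_of_le_succ fun k => ?_
    rintro _ ⟨G, hG, rfl⟩
    refine ⟨G * h ^ 1, fun i => ?_, (fracMap_shift h k 1 G).symm⟩
    have h2 := degreeOf_mul_le i G (h ^ 1)
    rw [pow_one] at h2 ⊢
    have h4 := lt_eOf h i
    have h5 := hG i
    rw [mul_add]
    omega
  · exact exh_Gam h
  · rintro i k _ ⟨G, hG, rfl⟩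
    refine ⟨X i * (G * h ^ 1), fun l => ?_, ?_⟩
    · have h1 := degreeOf_mul_le l (X i) (G * h ^ 1)
      have h2 := degreeOf_mul_le l G (h ^ 1)
      rw [pow_one] at h1 h2 ⊢
      have h3 : degreeOf l (X i : MvPolynomial (Fin n) 𝕜) ≤ 1 := by
        rw [degreeOf_X]; split_ifs <;> omega
      have h4 := lt_eOf h l
      have h5 := hG l
      rw [mul_add]
      omega
    · rw [fracMap_shift h k 1 G, Xop_apply, fracMap_apply, fracMap_apply, map_mul, mul_assoc]
  · rintro i k _ ⟨G, hG, rfl⟩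
    rw [hcomm]
    refine ⟨_, fun l => ?_, rfl⟩
    have h1 := degreeOf_mul_le l h (pderiv i G)
    have h2 := degreeOf_pderiv_le l i G
    have h3 := degreeOf_mul_le l (pderiv i h) G
    have h4 := degreeOf_pderiv_le l i h
    have h5 := degreeOf_C_mul_le (pderiv i h * G) l (κ - k)
    have h6 := lt_eOf h l
    have h7 := hG l
    rw [smul_eq_C_mul]
    refine (degreeOf_add_le l _ _).trans (max_le ?_ ?_)
    · rw [mul_add]; omega
    · rw [mul_add]; omega
  · intro k
    unfold Gam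
    infer_instance
  · intro k
    have h0 : finrank 𝕜 (Gam h (eOf h) k) ≤ finrank 𝕜 (degLE 𝕜 n (eOf h * k)) :=
      Submodule.finrank_map_le _ _
    have h1 := finrank_degLE (𝕜 := 𝕜) (n := n) (eOf h * k)
    have h2 : (eOf h * k + 1) ^ n ≤ eOf h ^ n * (k + 1) ^ n := by
      rw [← mul_pow]
      refine Nat.pow_le_pow_left ?_ _
      have : 1 ≤ eOf h := by unfold eOf; omega
      rw [mul_add]; omega
    exact h0.trans (h1.trans h2)

variable [CharZero 𝕜]

/-- A bounded number of elements of the module are linearly dependent modulo derivatives. -/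
theorem loc_dependent (h : MvPolynomial (Fin n) 𝕜) (κ : 𝕜) :
    ∃ r : ℕ, ∀ w : Fin (r + 1) → Loc h, ∃ c : Fin (r + 1) → 𝕜, c ≠ 0 ∧
      ∃ m : Fin n → Loc h, ∑ i, c i • w i = ∑ l, DD h κ l (m l) := by
  obtain ⟨F, hF, htop⟩ := (loc_weyl h κ).coker_finite
  set E := ⨆ i, LinearMap.range (DD h κ i) with hE
  have hfin : FiniteDimensional 𝕜 (Loc h ⧸ E) := by
    have h1 : Function.Surjective (E.mkQ.domRestrict F) := by
      intro w
      obtain ⟨v, rfl⟩ := Submodule.mkQ_surjective E w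
      have hv : v ∈ F ⊔ E := by rw [htop]; trivial
      obtain ⟨f, hf, e, he, rfl⟩ := Submodule.mem_sup.mp hv
      refine ⟨⟨f, hf⟩, ?_⟩
      rw [LinearMap.domRestrict_apply, map_add]
      have : E.mkQ e = 0 := by
        rw [Submodule.mkQ_apply, Submodule.Quotient.mk_eq_zero]; exact he
      rw [this, add_zero]
    exact Module.Finite.of_surjective _ h1
  refine ⟨finrank 𝕜 (Loc h ⧸ E), fun w => ?_⟩
  have hdep : ¬ LinearIndependent 𝕜 (fun i => E.mkQ (w i)) := by
    intro hli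
    have := hli.fintype_card_le_finrank
    simp at this
  rw [Fintype.not_linearIndependent_iff] at hdep
  obtain ⟨c, hc, i, hi⟩ := hdep
  refine ⟨c, fun h0 => hi (by rw [h0]; rfl), ?_⟩
  have h2 : ∑ i, c i • w i ∈ E := by
    rw [← Submodule.Quotient.mk_eq_zero E, ← Submodule.mkQ_apply, map_sum]
    simpa using hc
  obtain ⟨f, hf, hsum⟩ := (Submodule.mem_iSup_iff_exists_finsupp _ _).mp h2
  choose m hm using hf
  refine ⟨m, ?_⟩
  rw [← hsum, Finsupp.sum_fintype _ _ (fun _ => rfl)]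
  exact Finset.sum_congr rfl fun l _ => (hm l).symm

/-- The descending chain condition for the submodules generated by the powers of `h`. -/
theorem loc_chain (h : MvPolynomial (Fin n) 𝕜) (κ : 𝕜) :
    ∃ k : ℕ, ∀ N : Submodule 𝕜 (Loc h), (∀ l, ∀ v ∈ N, Xop h l v ∈ N) →
      (∀ l, ∀ v ∈ N, DD h κ l v ∈ N) → iota h h ^ (k + 1) ∈ N → iota h h ^ k ∈ N := by
  -- the smallest stable subspace containing `h^k`
  let P : ℕ → Submodule 𝕜 (Loc h) := fun k => sInf {N | (∀ l, ∀ v ∈ N, Xop h l v ∈ N) ∧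
    (∀ l, ∀ v ∈ N, DD h κ l v ∈ N) ∧ iota h h ^ k ∈ N}
  have hPX : ∀ k i, ∀ v ∈ P k, Xop h i v ∈ P k := by
    intro k i v hv
    rw [Submodule.mem_sInf] at hv ⊢
    exact fun N hN => hN.1 i v (hv N hN)
  have hPD : ∀ k i, ∀ v ∈ P k, DD h κ i v ∈ P k := by
    intro k i v hv
    rw [Submodule.mem_sInf] at hv ⊢
    exact fun N hN => hN.2.1 i v (hv N hN)
  have hPmem : ∀ k, iota h h ^ k ∈ P k := by
    intro k
    rw [Submodule.mem_sInf]
    exact fun N hN => hN.2.2
  have hPmul : ∀ k (G : MvPolynomial (Fin n) 𝕜), ∀ v ∈ P k, iota h G * v ∈ P k := by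
    intro k G
    induction G using MvPolynomial.induction_on with
    | C a =>
      intro v hv
      have : iota h (C a) * v = a • v := by
        have h1 : iota h (C a) = algebraMap 𝕜 (Loc h) a := (iota h).commutes a
        rw [h1]
        exact (Algebra.smul_def a v).symm
      rw [this]
      exact Submodule.smul_mem _ _ hv
    | add p q hp hq =>
      intro v hv
      rw [map_add, add_mul]
      exact Submodule.add_mem _ (hp v hv) (hq v hv)
    | mul_X p i hp =>
      intro v hv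
      rw [map_mul, mul_assoc]
      exact hp _ (hPX k i v hv)
  obtain ⟨k, hk⟩ := (loc_weyl h κ).chain P (fun k => sInf_le ⟨hPX k, hPD k, by
    rw [pow_succ']
    exact hPmul k h _ (hPmem k)⟩) hPX hPD
  refine ⟨k, fun N hX hD hmem => ?_⟩
  have h1 : P (k + 1) ≤ N := sInf_le ⟨hX, hD, hmem⟩
  exact h1 (hk (hPmem k))

end Pool.Agent.Lib.MP_bbe012_lc
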