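import Mathlib
import Pool.Agent.Lib.MP_bbe012_lc.LocWeyl

/-!
# Polynomial identities with a parameter
-/

namespace Pool.Agent.Lib.MP_bbe012_lc

open Module MvPolynomial

/-- Polynomials in `x_0, ..., x_{n-1}` and the parameter `x_n = t`. -/
abbrev Pt (n : ℕ) := MvPolynomial (Fin (n + 1)) ℚ

/-- A polynomial in the parameter as a polynomial in all variables. -/
noncomputable def beta (n : ℕ) : Polynomial ℚ →+* Pt n :=
  (Polynomial.aeval (X (Fin.last n) : Pt n)).toRingHom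

/-- The map `ℚ[x, t] → ℚ[t][x]`. -/
noncomputable def psi' (n : ℕ) : Pt n →+* MvPolynomial (Fin n) (Polynomial ℚ) :=
  eval₂Hom ((C : Polynomial ℚ →+* MvPolynomial (Fin n) (Polynomial ℚ)).comp Polynomial.C)
    (Fin.lastCases (C Polynomial.X) (fun i => X i))

theorem psi'_injective (n : ℕ) : Function.Injective (psi' n) := by
  have h : ∀ G, eval₂Hom (beta n) (fun i : Fin n => X i.castSucc) (psi' n G) = G := by
    intro G
    have : (eval₂Hom (beta n) (fun i : Fin n => (X i.castSucc : Pt n))).comp (psi' n) =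
        RingHom.id _ := by
      refine MvPolynomial.ringHom_ext (fun a => ?_) (fun i => ?_)
      · rw [RingHom.comp_apply, psi', eval₂Hom_C]
        simp [beta]
      · rw [RingHom.comp_apply, psi', eval₂Hom_X']
        refine Fin.lastCases ?_ (fun i => ?_) i
        · rw [Fin.lastCases_last, eval₂Hom_C]
          simp [beta]
        · rw [Fin.lastCases_castSucc, eval₂Hom_X']
          rfl
    exact congrArg (fun f => f G) this
  intro a b hab
  rw [← h a, ← h b, hab]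

/-- `h` as a polynomial in all variables. -/
noncomputable def hP {n : ℕ} (h : MvPolynomial (Fin n) ℚ) : Pt n := rename Fin.castSucc h

/-- The divergence `∑ (h ∂_l g_l + (t - K) h_l g_l)`: the sum of the derivatives of
`g_l h^(t - K)` is this polynomial times `h^(t - K - 1)`. -/
noncomputable def divg {n : ℕ} (h : MvPolynomial (Fin n) ℚ) (K : ℕ) (g : Fin n → Pt n) : Pt n :=
  ∑ l, (hP h * pderiv l.castSucc (g l) +
    (X (Fin.last n) - (K : Pt n)) * (pderiv l.castSucc (hP h) * g l))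

theorem divg_add {n : ℕ} (h : MvPolynomial (Fin n) ℚ) (K : ℕ) (g g' : Fin n → Pt n) :
    divg h K g + divg h K g' = divg h K (g + g') := by
  rw [divg, divg, divg, ← Finset.sum_add_distrib]
  refine Finset.sum_congr rfl fun l _ => ?_
  rw [Pi.add_apply, map_add]; ring

/-- Division of a family of polynomials by a power of the variable. -/
theorem exists_primitive (r : ℕ) (c : Fin r → Polynomial ℚ) (hc : c ≠ 0) :
    ∃ (t : ℕ) (c' : Fin r → Polynomial ℚ), (∀ i, c i = Polynomial.X ^ t * c' i) ∧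
      ∃ i, (c' i).coeff 0 ≠ 0 := by
  obtain ⟨i0, hi0⟩ : ∃ i, c i ≠ 0 := by
    by_contra hcon
    push Not at hcon
    exact hc (funext hcon)
  classical
  let P : ℕ → Prop := fun t => ∀ i, Polynomial.X ^ t ∣ c i
  have hP0 : P 0 := fun i => by simp
  have hPb : ∀ t, P t → t ≤ (c i0).natDegree := by
    intro t ht
    obtain ⟨d, hd⟩ := ht i0
    have hd0 : d ≠ 0 := by rintro rfl; rw [mul_zero] at hd; exact hi0 hd
    rw [hd, Polynomial.natDegree_mul (pow_ne_zero _ Polynomial.X_ne_zero) hd0,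
      Polynomial.natDegree_X_pow]
    omega
  set t := Nat.findGreatest P (c i0).natDegree with ht
  have hPt : P t := Nat.findGreatest_spec (P := P) (Nat.zero_le _) hP0
  choose c' hc' using hPt
  refine ⟨t, c', hc', ?_⟩
  by_contra hcon
  push Not at hcon
  have h1 : P (t + 1) := by
    intro i
    obtain ⟨d, hd⟩ := Polynomial.X_dvd_iff.mpr (hcon i)
    refine ⟨d, ?_⟩
    rw [hc' i, hd, pow_succ, mul_assoc]
  have h2 := Nat.le_findGreatest (P := P) (hPb _ h1) h1
  omega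

section field

variable (𝕜 : Type) [Field 𝕜] [Algebra (Polynomial ℚ) 𝕜] [IsFractionRing (Polynomial ℚ) 𝕜]

/-- The map `ℚ[x, t] → ℚ(t)[x]`, where the field `𝕜` is a copy of `ℚ(t)`. -/
noncomputable def psi (n : ℕ) : Pt n →+* MvPolynomial (Fin n) 𝕜 :=
  (MvPolynomial.map (algebraMap (Polynomial ℚ) 𝕜)).comp (psi' n)

theorem psi_injective (n : ℕ) : Function.Injective (psi 𝕜 n) :=
  (MvPolynomial.map_injective _ (IsFractionRing.injective (Polynomial ℚ) 𝕜)).comp (psi'_injective n)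

omit [IsFractionRing (Polynomial ℚ) 𝕜] in
theorem psi_C (n : ℕ) (a : ℚ) : psi 𝕜 n (C a) = C (algebraMap (Polynomial ℚ) 𝕜 (Polynomial.C a)) := by
  rw [psi, RingHom.comp_apply, psi', eval₂Hom_C, RingHom.comp_apply, MvPolynomial.map_C]

omit [IsFractionRing (Polynomial ℚ) 𝕜] in
theorem psi_X (n : ℕ) (i : Fin n) : psi 𝕜 n (X i.castSucc) = X i := by
  rw [psi, RingHom.comp_apply, psi', eval₂Hom_X', Fin.lastCases_castSucc, MvPolynomial.map_X]

omit [IsFractionRing (Polynomial ℚ) 𝕜] in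
theorem psi_last (n : ℕ) : psi 𝕜 n (X (Fin.last n)) = C (algebraMap (Polynomial ℚ) 𝕜 Polynomial.X) := by
  rw [psi, RingHom.comp_apply, psi', eval₂Hom_X', Fin.lastCases_last, MvPolynomial.map_C]

omit [IsFractionRing (Polynomial ℚ) 𝕜] in
theorem psi_beta (n : ℕ) (b : Polynomial ℚ) : psi 𝕜 n (beta n b) = C (algebraMap (Polynomial ℚ) 𝕜 b) := by
  have : (psi 𝕜 n).comp (beta n) =
      (C : 𝕜 →+* MvPolynomial (Fin n) 𝕜).comp (algebraMap (Polynomial ℚ) 𝕜) := by
    refine Polynomial.ringHom_ext (fun a => ?_) ?_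
    · rw [RingHom.comp_apply, RingHom.comp_apply, ← psi_C]
      congr 1
      simp [beta]
    · rw [RingHom.comp_apply, RingHom.comp_apply, ← psi_last]
      congr 1
      simp [beta]
  exact congrArg (fun f => f b) this

omit [IsFractionRing (Polynomial ℚ) 𝕜] in
theorem psi_pderiv (n : ℕ) (l : Fin n) (G : Pt n) :
    pderiv l (psi 𝕜 n G) = psi 𝕜 n (pderiv l.castSucc G) := by
  induction G using MvPolynomial.induction_on with
  | C a => rw [psi_C, pderiv_C, pderiv_C, map_zero]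
  | add p q hp hq => rw [map_add, map_add, map_add, map_add, hp, hq]
  | mul_X p i hp =>
    rw [map_mul, pderiv_mul, hp, pderiv_mul, map_add, map_mul, map_mul]
    congr 2
    refine Fin.lastCases ?_ (fun i => ?_) i
    · rw [psi_last, pderiv_C, pderiv_X, Pi.single_apply, if_neg (Fin.castSucc_lt_last l).ne', map_zero]
    · rw [psi_X, pderiv_X, pderiv_X, Pi.single_apply, Pi.single_apply]
      by_cases hil : i = l
      · rw [if_pos hil, if_pos (by rw [hil]), map_one]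
      · rw [if_neg hil, if_neg (fun h => hil (Fin.castSucc_injective _ h)), map_zero]

/-- Clearing denominators. -/
theorem clear_denom (n : ℕ) (G : MvPolynomial (Fin n) 𝕜) :
    ∃ b : Polynomial ℚ, b ≠ 0 ∧ ∃ G' : Pt n, psi 𝕜 n G' = C (algebraMap (Polynomial ℚ) 𝕜 b) * G := by
  induction G using MvPolynomial.induction_on with
  | C a =>
    obtain ⟨p, q, rfl⟩ := IsLocalization.exists_mk'_eq (nonZeroDivisors (Polynomial ℚ)) a
    refine ⟨q, nonZeroDivisors.ne_zero q.2, beta n p, ?_⟩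
    rw [psi_beta, ← C_mul]
    congr 1
    rw [mul_comm]
    exact (IsLocalization.mk'_spec 𝕜 p q).symm
  | add p q hp hq =>
    obtain ⟨b1, hb1, G1, h1⟩ := hp
    obtain ⟨b2, hb2, G2, h2⟩ := hq
    refine ⟨b1 * b2, mul_ne_zero hb1 hb2, beta n b2 * G1 + beta n b1 * G2, ?_⟩
    rw [map_add, map_mul, map_mul, h1, h2, psi_beta, psi_beta, map_mul, C_mul]
    ring
  | mul_X p i hp =>
    obtain ⟨b1, hb1, G1, h1⟩ := hp
    refine ⟨b1, hb1, G1 * X i.castSucc, ?_⟩
    rw [map_mul, h1, psi_X, mul_assoc]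

/-- Simultaneous clearing of denominators for a finite family. -/
theorem clear_denom_fin (n r : ℕ) (G : Fin r → MvPolynomial (Fin n) 𝕜) :
    ∃ b : Polynomial ℚ, b ≠ 0 ∧ ∃ G' : Fin r → Pt n,
      ∀ i, psi 𝕜 n (G' i) = C (algebraMap (Polynomial ℚ) 𝕜 b) * G i := by
  induction r with
  | zero => exact ⟨1, one_ne_zero, fun i => i.elim0, fun i => i.elim0⟩
  | succ r ih =>
    obtain ⟨b1, hb1, G1, h1⟩ := ih (fun i => G i.succ)
    obtain ⟨b2, hb2, G2, h2⟩ := clear_denom 𝕜 n (G 0)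
    refine ⟨b1 * b2, mul_ne_zero hb1 hb2,
      Fin.cons (beta n b1 * G2) (fun i => beta n b2 * G1 i), fun i => ?_⟩
    refine Fin.cases ?_ (fun i => ?_) i
    · rw [Fin.cons_zero, map_mul, h2, psi_beta, map_mul, C_mul]; ring
    · rw [Fin.cons_succ, map_mul, h1, psi_beta, map_mul, C_mul]; ring

/-- The parameter as an element of `ℚ(t)`. -/
noncomputable def tt : 𝕜 := algebraMap (Polynomial ℚ) 𝕜 Polynomial.X

/-- `h` as a polynomial over `ℚ(t)`. -/
noncomputable def hK {n : ℕ} (h : MvPolynomial (Fin n) ℚ) : MvPolynomial (Fin n) 𝕜 := psi 𝕜 n (hP h)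

theorem hK_ne_zero {n : ℕ} {h : MvPolynomial (Fin n) ℚ} (h0 : h ≠ 0) : hK 𝕜 h ≠ 0 := by
  intro h1
  apply h0
  have h2 : hP h = 0 := psi_injective 𝕜 n (by rw [map_zero]; exact h1)
  exact rename_injective _ (Fin.castSucc_injective n) (by rw [map_zero]; exact h2)

/-- The fraction `g / h^K`. -/
noncomputable def frac {n : ℕ} (h : MvPolynomial (Fin n) ℚ) (K : ℕ) (g : Pt n) : Loc (hK 𝕜 h) :=
  fracMap (hK 𝕜 h) K (psi 𝕜 n g)

omit [IsFractionRing (Polynomial ℚ) 𝕜] in
theorem frac_add {n : ℕ} (h : MvPolynomial (Fin n) ℚ) (K : ℕ) (g g' : Pt n) :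
    frac 𝕜 h K (g + g') = frac 𝕜 h K g + frac 𝕜 h K g' := by
  rw [frac, frac, frac, map_add, map_add]

omit [IsFractionRing (Polynomial ℚ) 𝕜] in
theorem frac_sum {n : ℕ} (h : MvPolynomial (Fin n) ℚ) (K : ℕ) {ι : Type} (s : Finset ι) (g : ι → Pt n) :
    frac 𝕜 h K (∑ i ∈ s, g i) = ∑ i ∈ s, frac 𝕜 h K (g i) := by
  simp only [frac, map_sum]

omit [IsFractionRing (Polynomial ℚ) 𝕜] in
theorem sum_DD {n : ℕ} (h : MvPolynomial (Fin n) ℚ) (K : ℕ) (g : Fin n → Pt n) :
    ∑ l, DD (hK 𝕜 h) (tt 𝕜) l (frac 𝕜 h K (g l)) = frac 𝕜 h (K + 1) (divg h K g) := by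
  rw [divg, frac_sum]
  refine Finset.sum_congr rfl fun l _ => ?_
  rw [frac, fracMap_apply, DD_frac, frac, fracMap_apply]
  congr 2
  rw [map_add, map_mul, map_mul, map_mul, map_sub, psi_last, map_natCast, ← psi_pderiv,
    ← psi_pderiv, smul_eq_C_mul, map_sub, map_natCast]
  rfl

omit [IsFractionRing (Polynomial ℚ) 𝕜] in
theorem frac_shift {n : ℕ} (h : MvPolynomial (Fin n) ℚ) (K j : ℕ) (g : Pt n) :
    frac 𝕜 h K g = frac 𝕜 h (K + j) (g * hP h ^ j) := by
  rw [frac, frac, map_mul, map_pow]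
  exact fracMap_shift (hK 𝕜 h) K j (psi 𝕜 n g)

theorem frac_injective {n : ℕ} {h : MvPolynomial (Fin n) ℚ} (h0 : h ≠ 0) (K : ℕ) {a b : Pt n}
    (hab : frac 𝕜 h K a = frac 𝕜 h K b) : a = b := by
  simp only [frac, fracMap_apply] at hab
  have e : invH (hK 𝕜 h) ^ K * iota (hK 𝕜 h) (hK 𝕜 h) ^ K = 1 := by
    rw [← mul_pow, mul_comm, iota_mul_invH, one_pow]
  have h1 := congrArg (fun v => v * iota (hK 𝕜 h) (hK 𝕜 h) ^ K) hab
  simp only [mul_assoc, e, mul_one] at h1
  exact psi_injective 𝕜 n (iota_injective _ (hK_ne_zero 𝕜 h0) h1)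

omit [IsFractionRing (Polynomial ℚ) 𝕜] in
/-- `b • v` for `v` a fraction. -/
theorem smul_frac {n : ℕ} (h : MvPolynomial (Fin n) ℚ) (b : Polynomial ℚ) (K : ℕ) (g : Pt n) :
    algebraMap (Polynomial ℚ) 𝕜 b • frac 𝕜 h K g = frac 𝕜 h K (beta n b * g) := by
  rw [frac, ← map_smul, smul_eq_C_mul, ← psi_beta, ← map_mul]
  rfl

omit [IsFractionRing (Polynomial ℚ) 𝕜] in
/-- `G * v` for `v` a fraction. -/
theorem iota_mul_frac {n : ℕ} (h : MvPolynomial (Fin n) ℚ) (G : Pt n) (K : ℕ) (g : Pt n) :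
    iota (hK 𝕜 h) (psi 𝕜 n G) * frac 𝕜 h K g = frac 𝕜 h K (G * g) := by
  rw [frac, frac, fracMap_apply, fracMap_apply, map_mul, map_mul, mul_assoc]

/-- Every finite family of elements is, up to a factor, a family of fractions with
numerators in `ℚ[x, t]` and a common denominator. -/
theorem exists_common {n : ℕ} (h : MvPolynomial (Fin n) ℚ) (r : ℕ) (m : Fin r → Loc (hK 𝕜 h)) (K0 : ℕ) :
    ∃ b : Polynomial ℚ, b ≠ 0 ∧ ∃ K, K0 ≤ K ∧ ∃ g : Fin r → Pt n,
      ∀ i, algebraMap (Polynomial ℚ) 𝕜 b • m i = frac 𝕜 h K (g i) := by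
  choose G K hGK using fun i => exists_frac (hK 𝕜 h) (m i)
  obtain ⟨b, hb, G', hG'⟩ := clear_denom_fin 𝕜 n r G
  refine ⟨b, hb, K0 + ∑ i, K i, Nat.le_add_right _ _, fun i => G' i * hP h ^ (K0 + ∑ i, K i - K i),
    fun i => ?_⟩
  have hle : K i ≤ K0 + ∑ i, K i :=
    (Finset.single_le_sum (f := K) (fun _ _ => Nat.zero_le _) (Finset.mem_univ i)).trans
      (Nat.le_add_left _ _)
  have e : K i + (K0 + ∑ i, K i - K i) = K0 + ∑ i, K i := by omega
  have e2 := frac_shift 𝕜 h (K i) (K0 + ∑ i, K i - K i) (G' i)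
  rw [e] at e2
  rw [← e2, hGK i, ← fracMap_apply, ← map_smul, smul_eq_C_mul, ← hG' i]
  rfl

end field

end Pool.Agent.Lib.MP_bbe012_lc
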