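import Mathlib
import Pool.Agent.Lib.MP_bbe012_lc.Ident

/-!
# Exact combinations and the functional equation
-/

namespace Pool.Agent.Lib.MP_bbe012_lc

open Module MvPolynomial

section field

variable (𝕜 : Type) [Field 𝕜] [Algebra (Polynomial ℚ) 𝕜] [IsFractionRing (Polynomial ℚ) 𝕜] [CharZero 𝕜]

include 𝕜 in
theorem exact_combination_aux {n : ℕ} {h : MvPolynomial (Fin n) ℚ} (h0 : h ≠ 0) :
    ∃ r : ℕ, ∀ (w : Fin (r + 1) → Pt n) (κ : Fin (r + 1) → ℕ),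
      ∃ c : Fin (r + 1) → Polynomial ℚ, (∃ i, (c i).coeff 0 ≠ 0) ∧
        ∃ b : Polynomial ℚ, b ≠ 0 ∧ ∃ K, (∀ i, κ i ≤ K + 1) ∧ ∃ g : Fin n → Pt n,
          beta n b * ∑ i, beta n (c i) * w i * hP h ^ (K + 1 - κ i) = divg h K g := by
  obtain ⟨r, hr⟩ := loc_dependent (hK 𝕜 h) (tt 𝕜)
  refine ⟨r, fun w κ => ?_⟩
  obtain ⟨c0, hc0, m, hm⟩ := hr (fun i => frac 𝕜 h (κ i) (w i))
  -- clear the denominators of the coefficients
  obtain ⟨b1, hb1⟩ := IsLocalization.exist_integer_multiples_of_finite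
    (nonZeroDivisors (Polynomial ℚ)) c0
  choose c1 hc1 using hb1
  have hb10 : (b1 : Polynomial ℚ) ≠ 0 := nonZeroDivisors.ne_zero b1.2
  have hinj : Function.Injective (algebraMap (Polynomial ℚ) 𝕜) :=
    IsFractionRing.injective (Polynomial ℚ) 𝕜
  have hb1K : algebraMap (Polynomial ℚ) 𝕜 b1 ≠ 0 := fun h1 => hb10 (hinj (by rw [h1, map_zero]))
  have hc1' : ∀ i, algebraMap (Polynomial ℚ) 𝕜 (c1 i) = algebraMap (Polynomial ℚ) 𝕜 b1 * c0 i := by
    intro i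
    rw [hc1 i, Algebra.smul_def]
  have hc1ne : c1 ≠ 0 := by
    intro h1
    apply hc0
    ext i
    have h2 := hc1' i
    rw [h1] at h2
    simp only [Pi.zero_apply, map_zero] at h2
    exact (mul_eq_zero.mp h2.symm).resolve_left hb1K
  obtain ⟨t, c', hc', hprim⟩ := exists_primitive (r + 1) c1 hc1ne
  have hXK : algebraMap (Polynomial ℚ) 𝕜 (Polynomial.X ^ t) ≠ 0 := fun h1 =>
    pow_ne_zero t Polynomial.X_ne_zero (hinj (by rw [h1, map_zero]))
  obtain ⟨a, ha⟩ : ∃ a : 𝕜, a = algebraMap (Polynomial ℚ) 𝕜 b1 /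
    algebraMap (Polynomial ℚ) 𝕜 (Polynomial.X ^ t) := ⟨_, rfl⟩
  have hac : ∀ i, algebraMap (Polynomial ℚ) 𝕜 (c' i) = a * c0 i := by
    intro i
    have h2 := hc1' i
    rw [hc' i, map_mul] at h2
    rw [ha, div_mul_eq_mul_div, eq_div_iff hXK, ← h2, mul_comm]
  obtain ⟨b, hb, K, hKle, g, hg⟩ := exists_common 𝕜 h n (fun l => a • m l) (∑ i, κ i)
  have hκ : ∀ i, κ i ≤ K + 1 := fun i => by
    have : κ i ≤ ∑ i, κ i :=
      Finset.single_le_sum (f := κ) (fun _ _ => Nat.zero_le _) (Finset.mem_univ i)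
    omega
  refine ⟨c', hprim, b, hb, K, hκ, g, ?_⟩
  refine frac_injective 𝕜 h0 (K + 1) ?_
  rw [← sum_DD]
  have e1 : ∑ l, DD (hK 𝕜 h) (tt 𝕜) l (frac 𝕜 h K (g l)) =
      (algebraMap (Polynomial ℚ) 𝕜 b * a) • ∑ l, DD (hK 𝕜 h) (tt 𝕜) l (m l) := by
    rw [Finset.smul_sum]
    refine Finset.sum_congr rfl fun l _ => ?_
    rw [← hg l, smul_smul, map_smul]
  rw [e1, ← hm, Finset.smul_sum, Finset.mul_sum, frac_sum]
  refine Finset.sum_congr rfl fun i _ => ?_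
  have e2 := frac_shift 𝕜 h (κ i) (K + 1 - κ i) (beta n b * (beta n (c' i) * w i))
  rw [Nat.add_sub_of_le (hκ i)] at e2
  rw [smul_smul, mul_assoc (algebraMap (Polynomial ℚ) 𝕜 b) a (c0 i), ← hac, mul_smul, smul_frac,
    smul_frac, e2]
  congr 1
  ring

/-- The property defining the submodule used in the proof of the functional equation. -/
def Good {n : ℕ} (h : MvPolynomial (Fin n) ℚ) (k : ℕ) (b : Polynomial ℚ) (v : Loc (hK 𝕜 h)) : Prop :=
  ∀ G : Pt n, ∃ (H : Pt n) (K : ℕ) (g : Fin n → Pt n),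
    algebraMap (Polynomial ℚ) 𝕜 b • (iota (hK 𝕜 h) (psi 𝕜 n G) * v) =
      frac 𝕜 h 0 (H * hP h ^ (k + 1)) + frac 𝕜 h (K + 1) (divg h K g)

omit [IsFractionRing (Polynomial ℚ) 𝕜] [CharZero 𝕜] in
theorem div_shift {n : ℕ} (h : MvPolynomial (Fin n) ℚ) (K j : ℕ) (g : Fin n → Pt n) :
    frac 𝕜 h (K + 1) (divg h K g) =
      frac 𝕜 h (K + j + 1) (divg h (K + j) (fun l => g l * hP h ^ j)) := by
  rw [← sum_DD, ← sum_DD]
  exact Finset.sum_congr rfl fun l _ => by rw [frac_shift 𝕜 h K j]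

omit [IsFractionRing (Polynomial ℚ) 𝕜] [CharZero 𝕜] in
theorem div_add {n : ℕ} (h : MvPolynomial (Fin n) ℚ) (K K' : ℕ) (g g' : Fin n → Pt n) :
    ∃ (K'' : ℕ) (g'' : Fin n → Pt n),
      frac 𝕜 h (K + 1) (divg h K g) + frac 𝕜 h (K' + 1) (divg h K' g') =
      frac 𝕜 h (K'' + 1) (divg h K'' g'') := by
  refine ⟨K + K', (fun l => g l * hP h ^ K') + (fun l => g' l * hP h ^ K), ?_⟩
  rw [div_shift 𝕜 h K K' g, div_shift 𝕜 h K' K g', add_comm K' K, ← frac_add, divg_add]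

omit [IsFractionRing (Polynomial ℚ) 𝕜] [CharZero 𝕜] in
theorem div_smul {n : ℕ} (h : MvPolynomial (Fin n) ℚ) (b : Polynomial ℚ) (K : ℕ) (g : Fin n → Pt n) :
    algebraMap (Polynomial ℚ) 𝕜 b • frac 𝕜 h (K + 1) (divg h K g) =
      frac 𝕜 h (K + 1) (divg h K (fun l => beta n b * g l)) := by
  rw [← sum_DD, ← sum_DD, Finset.smul_sum]
  exact Finset.sum_congr rfl fun l _ => by rw [← map_smul, smul_frac]

omit [IsFractionRing (Polynomial ℚ) 𝕜] [CharZero 𝕜] in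
theorem Good.mul {n : ℕ} {h : MvPolynomial (Fin n) ℚ} {k : ℕ} {b : Polynomial ℚ} {v : Loc (hK 𝕜 h)}
    (hv : Good 𝕜 h k b v) (b' : Polynomial ℚ) : Good 𝕜 h k (b' * b) v := by
  intro G
  obtain ⟨H, K, g, hHKg⟩ := hv G
  refine ⟨beta n b' * H, K, fun l => beta n b' * g l, ?_⟩
  rw [map_mul, mul_smul, hHKg, smul_add, div_smul, smul_frac, mul_assoc]

omit [IsFractionRing (Polynomial ℚ) 𝕜] [CharZero 𝕜] in
theorem Good.add {n : ℕ} {h : MvPolynomial (Fin n) ℚ} {k : ℕ} {b : Polynomial ℚ} {v v' : Loc (hK 𝕜 h)}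
    (hv : Good 𝕜 h k b v) (hv' : Good 𝕜 h k b v') : Good 𝕜 h k b (v + v') := by
  intro G
  obtain ⟨H, K, g, hHKg⟩ := hv G
  obtain ⟨H', K', g', hHKg'⟩ := hv' G
  obtain ⟨K'', g'', h''⟩ := div_add 𝕜 h K K' g g'
  refine ⟨H + H', K'', g'', ?_⟩
  rw [mul_add, smul_add, hHKg, hHKg', ← h'', add_mul, frac_add]
  abel

omit [Algebra (Polynomial ℚ) 𝕜] [IsFractionRing (Polynomial ℚ) 𝕜] [CharZero 𝕜] in
/-- Leibniz rule. -/
theorem DD_iota_mul {n : ℕ} (h : MvPolynomial (Fin n) 𝕜) (κ : 𝕜) (l : Fin n)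
    (G : MvPolynomial (Fin n) 𝕜) (v : Loc h) :
    DD h κ l (iota h G * v) = iota h (pderiv l G) * v + iota h G * DD h κ l v := by
  obtain ⟨F, K, rfl⟩ := exists_frac h v
  have e : iota h (pderiv l G) * (iota h F * invH h ^ K) =
      iota h (pderiv l G * F * h) * invH h ^ (K + 1) := by
    have h1 := fracMap_shift h K 1 (pderiv l G * F)
    rw [pow_one, fracMap_apply, fracMap_apply, map_mul] at h1
    rw [← h1]; ring
  rw [e, DD_frac, ← mul_assoc, ← map_mul, DD_frac, ← mul_assoc (iota h G), ← map_mul, ← add_mul,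
    ← map_add]
  congr 2
  rw [pderiv_mul]
  simp only [smul_eq_C_mul]
  ring

include 𝕜 in
theorem functional_equation_aux {n : ℕ} {h : MvPolynomial (Fin n) ℚ} (h0 : h ≠ 0) :
    ∃ (k : ℕ) (b : Polynomial ℚ), b ≠ 0 ∧ ∀ G : Pt n, ∃ (H : Pt n) (K : ℕ) (g : Fin n → Pt n),
      beta n b * G * hP h ^ k * hP h ^ (K + 1) = H * hP h ^ (k + 1) * hP h ^ (K + 1) + divg h K g := by
  obtain ⟨k, hk⟩ := loc_chain (hK 𝕜 h) (tt 𝕜)
  have hinj : Function.Injective (algebraMap (Polynomial ℚ) 𝕜) :=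
    IsFractionRing.injective (Polynomial ℚ) 𝕜
  have hfrac0 : ∀ G : Pt n, frac 𝕜 h 0 G = iota (hK 𝕜 h) (psi 𝕜 n G) := by
    intro G
    rw [frac, fracMap_apply, pow_zero, mul_one]
  have hpow : ∀ j, frac 𝕜 h 0 (hP h ^ j) = iota (hK 𝕜 h) (hK 𝕜 h) ^ j := by
    intro j
    rw [hfrac0, map_pow, map_pow]; rfl
  -- the submodule
  let N : Submodule 𝕜 (Loc (hK 𝕜 h)) :=
    { carrier := {v | ∃ b : Polynomial ℚ, b ≠ 0 ∧ Good 𝕜 h k b v}
      add_mem' := by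
        rintro v v' ⟨b, hb, hv⟩ ⟨b', hb', hv'⟩
        refine ⟨b' * b, mul_ne_zero hb' hb, Good.add 𝕜 (hv.mul 𝕜 b') ?_⟩
        rw [mul_comm]
        exact hv'.mul 𝕜 b
      zero_mem' := by
        refine ⟨1, one_ne_zero, fun G => ⟨0, 0, 0, ?_⟩⟩
        have e1 : divg h 0 (0 : Fin n → Pt n) = 0 := by simp [divg]
        rw [e1, zero_mul, mul_zero, smul_zero]
        simp [frac]
      smul_mem' := by
        rintro c v ⟨b, hb, hv⟩
        obtain ⟨p, q, rfl⟩ := IsLocalization.exists_mk'_eq (nonZeroDivisors (Polynomial ℚ)) c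
        refine ⟨b * q, mul_ne_zero hb (nonZeroDivisors.ne_zero q.2), fun G => ?_⟩
        obtain ⟨H, K, g, hHKg⟩ := hv (beta n p * G)
        refine ⟨H, K, g, ?_⟩
        rw [← hHKg]
        have e1 : algebraMap (Polynomial ℚ) 𝕜 q * IsLocalization.mk' 𝕜 p q =
            algebraMap (Polynomial ℚ) 𝕜 p := by
          rw [mul_comm]; exact IsLocalization.mk'_spec 𝕜 p q
        rw [map_mul, mul_smul_comm, smul_smul, mul_assoc, e1, mul_smul]
        congr 1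
        rw [map_mul, psi_beta, ← smul_eq_C_mul, map_smul, smul_mul_assoc] }
  have hN : ∀ v, v ∈ N ↔ ∃ b : Polynomial ℚ, b ≠ 0 ∧ Good 𝕜 h k b v := fun v => Iff.rfl
  have h1 : iota (hK 𝕜 h) (hK 𝕜 h) ^ k ∈ N := by
    refine hk N ?_ ?_ ?_
    · rintro l v ⟨b, hb, hv⟩
      refine ⟨b, hb, fun G => ?_⟩
      obtain ⟨H, K, g, hHKg⟩ := hv (G * X l.castSucc)
      refine ⟨H, K, g, ?_⟩
      rw [← hHKg, Xop_apply, map_mul, map_mul, psi_X, mul_assoc]
    · rintro l v ⟨b, hb, hv⟩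
      obtain ⟨b', hb', K', -, V, hV⟩ := exists_common 𝕜 h 1 (fun _ => v) 0
      refine ⟨b * b', mul_ne_zero hb hb', fun G => ?_⟩
      obtain ⟨H, K, g, hHKg⟩ := hv (beta n b' * pderiv l.castSucc G)
      -- `b b' G D v = b D (b' G v) - b (b' ∂G) v`
      have e1 : algebraMap (Polynomial ℚ) 𝕜 (b * b') •
          (iota (hK 𝕜 h) (psi 𝕜 n G) * DD (hK 𝕜 h) (tt 𝕜) l v) =
          algebraMap (Polynomial ℚ) 𝕜 b • DD (hK 𝕜 h) (tt 𝕜) l (frac 𝕜 h K' (G * V 0)) -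
          algebraMap (Polynomial ℚ) 𝕜 b •
            (iota (hK 𝕜 h) (psi 𝕜 n (beta n b' * pderiv l.castSucc G)) * v) := by
        have e2 : frac 𝕜 h K' (G * V 0) =
            algebraMap (Polynomial ℚ) 𝕜 b' • (iota (hK 𝕜 h) (psi 𝕜 n G) * v) := by
          rw [← iota_mul_frac, ← hV 0, mul_smul_comm]
        rw [e2, map_smul, DD_iota_mul, psi_pderiv, map_mul, mul_smul, ← smul_sub]
        congr 1
        rw [smul_add, map_mul, psi_beta, ← smul_eq_C_mul, map_smul, smul_mul_assoc]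
        abel
      rw [e1, hHKg]
      have e3 : DD (hK 𝕜 h) (tt 𝕜) l (frac 𝕜 h K' (G * V 0)) =
          frac 𝕜 h (K' + 1) (divg h K' (Pi.single l (G * V 0))) := by
        rw [← sum_DD, Finset.sum_eq_single_of_mem l (Finset.mem_univ l)]
        · rw [Pi.single_eq_same]
        · intro j _ hj
          rw [Pi.single_eq_of_ne hj]
          simp [frac]
      rw [e3, div_smul]
      obtain ⟨K'', g'', hg''⟩ := div_add 𝕜 h K' K
        (fun j => beta n b * (Pi.single l (G * V 0) : Fin n → Pt n) j) (fun j => beta n (-1) * g j)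
      refine ⟨-H, K'', g'', ?_⟩
      rw [← hg'', ← div_smul 𝕜 h (-1), map_neg, map_one, neg_smul, one_smul, neg_mul]
      have e4 : frac 𝕜 h 0 (-(H * hP h ^ (k + 1))) = - frac 𝕜 h 0 (H * hP h ^ (k + 1)) := by
        rw [frac, frac, map_neg, map_neg]
      rw [e4]
      abel
    · refine ⟨1, one_ne_zero, fun G => ⟨G, 0, 0, ?_⟩⟩
      have e1 : divg h 0 (0 : Fin n → Pt n) = 0 := by simp [divg]
      rw [e1, map_one, one_smul, ← hpow, iota_mul_frac]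
      simp [frac]
  obtain ⟨b, hb, hgood⟩ := (hN _).mp h1
  refine ⟨k, b, hb, fun G => ?_⟩
  obtain ⟨H, K, g, hHKg⟩ := hgood G
  refine ⟨H, K, g, frac_injective 𝕜 h0 (K + 1) ?_⟩
  rw [← hpow, iota_mul_frac, smul_frac, frac_shift 𝕜 h 0 (K + 1) (beta n b * (G * hP h ^ k)),
    frac_shift 𝕜 h 0 (K + 1) (H * hP h ^ (k + 1)), zero_add, ← frac_add] at hHKg
  rw [← hHKg]
  congr 1
  ring

end field

instance charZeroFrac : CharZero (FractionRing (Polynomial ℚ)) :=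
  charZero_of_injective_algebraMap (IsFractionRing.injective (Polynomial ℚ) (FractionRing (Polynomial ℚ)))

/-- Among sufficiently many fractions, some combination, not divisible by `t`, is exact up to
a factor. -/
theorem exact_combination {n : ℕ} {h : MvPolynomial (Fin n) ℚ} (h0 : h ≠ 0) :
    ∃ r : ℕ, ∀ (w : Fin (r + 1) → Pt n) (κ : Fin (r + 1) → ℕ),
      ∃ c : Fin (r + 1) → Polynomial ℚ, (∃ i, (c i).coeff 0 ≠ 0) ∧
        ∃ b : Polynomial ℚ, b ≠ 0 ∧ ∃ K, (∀ i, κ i ≤ K + 1) ∧ ∃ g : Fin n → Pt n,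
          beta n b * ∑ i, beta n (c i) * w i * hP h ^ (K + 1 - κ i) = divg h K g :=
  exact_combination_aux (FractionRing (Polynomial ℚ)) h0

/-- The functional equation. -/
theorem functional_equation {n : ℕ} {h : MvPolynomial (Fin n) ℚ} (h0 : h ≠ 0) :
    ∃ (k : ℕ) (b : Polynomial ℚ), b ≠ 0 ∧ ∀ G : Pt n, ∃ (H : Pt n) (K : ℕ) (g : Fin n → Pt n),
      beta n b * G * hP h ^ k * hP h ^ (K + 1) = H * hP h ^ (k + 1) * hP h ^ (K + 1) + divg h K g :=
  functional_equation_aux (FractionRing (Polynomial ℚ)) h0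

end Pool.Agent.Lib.MP_bbe012_lc
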