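import Mathlib
import Pool.Agent.Lib.MP_bbe012_lc.Ident2

/-!
# The certified relations have finite codimension
-/

namespace Pool.Agent.Lib.MP_bbe012_lc

open Module MvPolynomial

variable {n : ℕ}

/-- The parameter `t`. -/
noncomputable def tP (n : ℕ) : Pt n := X (Fin.last n)

theorem divg_shift (h : MvPolynomial (Fin n) ℚ) (K j : ℕ) (g : Fin n → Pt n) :
    divg h (K + j) (fun l => g l * hP h ^ j) = divg h K g * hP h ^ j := by
  induction j with
  | zero => simp
  | succ j ih =>
    have e : ∀ (K : ℕ) (g : Fin n → Pt n), divg h (K + 1) (fun l => g l * hP h) = divg h K g * hP h := by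
      intro K g
      rw [divg, divg, Finset.sum_mul]
      refine Finset.sum_congr rfl fun l _ => ?_
      rw [pderiv_mul]
      push_cast
      ring
    have e2 := e (K + j) (fun l => g l * hP h ^ j)
    rw [ih, mul_assoc, ← pow_succ] at e2
    rw [← e2, ← add_assoc]
    congr 1
    ext l
    rw [pow_succ, mul_assoc]

theorem divg_smul (h : MvPolynomial (Fin n) ℚ) (K : ℕ) (b : Polynomial ℚ) (g : Fin n → Pt n) :
    divg h K (fun l => beta n b * g l) = beta n b * divg h K g := by
  rw [divg, divg, Finset.mul_sum]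
  refine Finset.sum_congr rfl fun l _ => ?_
  have : pderiv l.castSucc (beta n b) = 0 := by
    rw [beta]
    induction b using Polynomial.induction_on' with
    | add p q hp hq => rw [map_add, map_add, hp, hq, add_zero]
    | monomial k a =>
      have e : (Polynomial.aeval (X (Fin.last n) : Pt n)).toRingHom (Polynomial.monomial k a) =
          C a * X (Fin.last n) ^ k := by simp [Polynomial.aeval_monomial]
      rw [e, pderiv_C_mul, pderiv_pow, pderiv_X, Pi.single_apply,
        if_neg (Fin.castSucc_lt_last l).ne']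
      simp
  rw [pderiv_mul, this]
  ring

theorem divg_zero (h : MvPolynomial (Fin n) ℚ) (K : ℕ) : divg h K (0 : Fin n → Pt n) = 0 := by
  simp [divg]

theorem divg_sum (h : MvPolynomial (Fin n) ℚ) (K : ℕ) {ι : Type} (s : Finset ι)
    (g : ι → Fin n → Pt n) : divg h K (∑ i ∈ s, g i) = ∑ i ∈ s, divg h K (g i) := by
  classical
  induction s using Finset.induction_on with
  | empty => simp [divg_zero]
  | insert a s ha ih => rw [Finset.sum_insert ha, Finset.sum_insert ha, ← divg_add, ih]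

theorem divg_neg (h : MvPolynomial (Fin n) ℚ) (K : ℕ) (g : Fin n → Pt n) :
    divg h K (-g) = - divg h K g := by
  have := divg_add h K (-g) g
  rw [neg_add_cancel, divg_zero] at this
  exact eq_neg_of_add_eq_zero_left this

/-- A certificate of order `j`, with multiplier `c`, for the fraction `p / h^k`. -/
def CertC (h : MvPolynomial (Fin n) ℚ) (j : ℕ) (c : Polynomial ℚ) (K a : ℕ)
    (p : MvPolynomial (Fin n) ℚ) : Prop :=
  ∃ (w : Pt n) (g : Fin n → Pt n),
    beta n c * hP p * hP h ^ a = beta n (Polynomial.X ^ (c.natTrailingDegree + j)) * w + divg h K g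

/-- The fraction `p / h^k` has a certificate of order `j`. -/
def Cert (h : MvPolynomial (Fin n) ℚ) (j : ℕ) (p : MvPolynomial (Fin n) ℚ) (k : ℕ) : Prop :=
  ∃ c : Polynomial ℚ, c ≠ 0 ∧ ∃ K a, k + a = K + 1 ∧ CertC h j c K a p

theorem eq_X_pow_mul (c : Polynomial ℚ) : ∃ c', c = Polynomial.X ^ c.natTrailingDegree * c' := by
  have : Polynomial.X ^ c.natTrailingDegree ∣ c := by
    rw [Polynomial.X_pow_dvd_iff]
    intro d hd
    exact Polynomial.coeff_eq_zero_of_lt_natTrailingDegree hd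
  exact this

theorem CertC.mul {h : MvPolynomial (Fin n) ℚ} {j : ℕ} {c : Polynomial ℚ} {K a : ℕ}
    {p : MvPolynomial (Fin n) ℚ} (H : CertC h j c K a p) {e : Polynomial ℚ} (hc : c ≠ 0) (he : e ≠ 0) :
    CertC h j (e * c) K a p := by
  obtain ⟨w, g, H⟩ := H
  obtain ⟨e', he'⟩ := eq_X_pow_mul e
  refine ⟨beta n e' * w, fun l => beta n e * g l, ?_⟩
  rw [divg_smul, Polynomial.natTrailingDegree_mul he hc]
  have e1 : beta n (e * c) * hP p * hP h ^ a = beta n e * (beta n c * hP p * hP h ^ a) := by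
    rw [map_mul]; ring
  rw [e1, H, mul_add]
  congr 1
  have e2 : beta n e = beta n (Polynomial.X ^ e.natTrailingDegree) * beta n e' := by
    rw [← map_mul, ← he']
  have e3 : (Polynomial.X : Polynomial ℚ) ^ (e.natTrailingDegree + c.natTrailingDegree + j) =
      Polynomial.X ^ e.natTrailingDegree * Polynomial.X ^ (c.natTrailingDegree + j) := by
    rw [add_assoc, pow_add]
  rw [e3, map_mul, e2]
  ring

theorem CertC.shift {h : MvPolynomial (Fin n) ℚ} {j : ℕ} {c : Polynomial ℚ} {K a : ℕ}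
    {p : MvPolynomial (Fin n) ℚ} (H : CertC h j c K a p) (m : ℕ) :
    CertC h j c (K + m) (a + m) p := by
  obtain ⟨w, g, H⟩ := H
  refine ⟨w * hP h ^ m, fun l => g l * hP h ^ m, ?_⟩
  rw [divg_shift, pow_add]
  calc _ = (beta n c * hP p * hP h ^ a) * hP h ^ m := by ring
    _ = _ := by rw [H]; ring

theorem CertC.add {h : MvPolynomial (Fin n) ℚ} {j : ℕ} {c : Polynomial ℚ} {K a : ℕ}
    {p q : MvPolynomial (Fin n) ℚ} (H : CertC h j c K a p) (H' : CertC h j c K a q) :
    CertC h j c K a (p + q) := by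
  obtain ⟨w, g, H⟩ := H
  obtain ⟨w', g', H'⟩ := H'
  refine ⟨w + w', g + g', ?_⟩
  rw [← divg_add]
  have : hP (p + q) = hP p + hP q := map_add _ _ _
  rw [this]
  calc _ = (beta n c * hP p * hP h ^ a) + (beta n c * hP q * hP h ^ a) := by ring
    _ = _ := by rw [H, H']; ring

theorem Cert.shift {h : MvPolynomial (Fin n) ℚ} {j : ℕ} {p : MvPolynomial (Fin n) ℚ} {k : ℕ}
    (H : Cert h j p k) (m : ℕ) : Cert h j (p * h ^ m) (k + m) := by
  obtain ⟨c, hc, K, a, hK, H⟩ := H
  obtain ⟨w, g, H⟩ := H.shift m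
  refine ⟨c, hc, K + m, a, by omega, w, g, ?_⟩
  rw [← H]
  have : hP (p * h ^ m) = hP p * hP h ^ m := by
    unfold hP; rw [map_mul, map_pow]
  rw [this, pow_add]; ring

theorem Cert.unshift {h : MvPolynomial (Fin n) ℚ} {j : ℕ} {p : MvPolynomial (Fin n) ℚ} {k m : ℕ}
    (H : Cert h j (p * h ^ m) (k + m)) : Cert h j p k := by
  obtain ⟨c, hc, K, a, hK, w, g, H⟩ := H
  refine ⟨c, hc, K, a + m, by omega, w, g, ?_⟩
  rw [← H]
  have : hP (p * h ^ m) = hP p * hP h ^ m := by
    unfold hP; rw [map_mul, map_pow]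
  rw [this, pow_add]; ring

theorem Cert.add {h : MvPolynomial (Fin n) ℚ} {j : ℕ} {p q : MvPolynomial (Fin n) ℚ} {k : ℕ}
    (H : Cert h j p k) (H' : Cert h j q k) : Cert h j (p + q) k := by
  obtain ⟨c, hc, K, a, hK, H⟩ := H
  obtain ⟨c', hc', K', a', hK', H'⟩ := H'
  have H1 := (H.mul hc hc').shift K'
  have H2 := (H'.mul hc' hc).shift K
  rw [mul_comm c c', add_comm K' K] at H2
  have e : a' + K = a + K' := by omega
  rw [e] at H2
  exact ⟨c' * c, mul_ne_zero hc' hc, K + K', a + K', by omega, H1.add H2⟩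

theorem Cert.smul {h : MvPolynomial (Fin n) ℚ} {j : ℕ} {p : MvPolynomial (Fin n) ℚ} {k : ℕ}
    (H : Cert h j p k) (q : ℚ) : Cert h j (C q * p) k := by
  obtain ⟨c, hc, K, a, hK, w, g, H⟩ := H
  refine ⟨c, hc, K, a, hK, beta n (Polynomial.C q) * w, fun l => beta n (Polynomial.C q) * g l, ?_⟩
  rw [divg_smul]
  have e : hP (C q * p) = beta n (Polynomial.C q) * hP p := by
    unfold hP beta
    rw [map_mul, rename_C]
    simp
  rw [e]
  calc _ = beta n (Polynomial.C q) * (beta n c * hP p * hP h ^ a) := by ring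
    _ = _ := by rw [H]; ring

theorem cert_zero_order (h : MvPolynomial (Fin n) ℚ) (p : MvPolynomial (Fin n) ℚ) (k : ℕ) :
    Cert h 0 p k := by
  refine ⟨1, one_ne_zero, k, 1, rfl, hP p * hP h ^ 1, 0, ?_⟩
  rw [divg_zero]
  simp

/-- Certificates with a common multiplier and a common denominator. -/
theorem unify {h : MvPolynomial (Fin n) ℚ} {j k : ℕ} (m : ℕ) (p : Fin m → MvPolynomial (Fin n) ℚ)
    (H : ∀ i, Cert h j (p i) k) :
    ∃ c : Polynomial ℚ, c ≠ 0 ∧ ∃ K a, k + a = K + 1 ∧ ∀ i, CertC h j c K a (p i) := by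
  induction m with
  | zero => exact ⟨1, one_ne_zero, k, 1, rfl, fun i => i.elim0⟩
  | succ m ih =>
    obtain ⟨c, hc, K, a, hK, H1⟩ := ih (fun i => p i.succ) (fun i => H i.succ)
    obtain ⟨c', hc', K', a', hK', H'⟩ := H 0
    refine ⟨c' * c, mul_ne_zero hc' hc, K + K', a + K', by omega, fun i => ?_⟩
    refine Fin.cases ?_ (fun i => ?_) i
    · have H2 := (H'.mul hc' hc).shift K
      have e : a' + K = a + K' := by omega
      rw [mul_comm c c', add_comm K' K, e] at H2
      exact H2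
    · exact ((H1 i).mul hc hc').shift K'

theorem coeff_zero_split (c : Polynomial ℚ) : ∃ e, c = Polynomial.C (c.coeff 0) + Polynomial.X * e := by
  refine ⟨c.divX, ?_⟩
  rw [add_comm, Polynomial.X_mul_divX_add]

/-- The main step: sufficiently many fractions with certificates of order `j` have a combination
with a certificate of order `j + 1`. -/
theorem cert_step {h : MvPolynomial (Fin n) ℚ} (h0 : h ≠ 0) :
    ∃ r : ℕ, ∀ (j k : ℕ) (p : Fin (r + 1) → MvPolynomial (Fin n) ℚ), (∀ i, Cert h j (p i) k) →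
      ∃ q : Fin (r + 1) → ℚ, q ≠ 0 ∧ Cert h (j + 1) (∑ i, C (q i) * p i) k := by
  obtain ⟨r, hr⟩ := exact_combination h0
  refine ⟨r, fun j k p H => ?_⟩
  obtain ⟨c, hc, K, a, hK, HC⟩ := unify (r + 1) p H
  choose w g HC using HC
  obtain ⟨d, ⟨i0, hi0⟩, b, hb, K1, hK1, g1, H1⟩ := hr w (fun _ => K + 1)
  have hKK : K ≤ K1 := by have := hK1 i0; omega
  obtain ⟨δ, rfl⟩ := Nat.exists_eq_add_of_le hKK
  have e0 : K + δ + 1 - (K + 1) = δ := by omega
  rw [e0] at H1
  choose e he using fun i => coeff_zero_split (d i)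
  refine ⟨fun i => (d i).coeff 0, fun h1 => hi0 (congrFun h1 i0), ?_⟩
  obtain ⟨b', hb'⟩ := eq_X_pow_mul b
  -- the shifted certificates
  have HS : ∀ i, beta n c * hP (p i) * hP h ^ (a + δ) =
      beta n (Polynomial.X ^ (c.natTrailingDegree + j)) * (w i * hP h ^ δ) +
        divg h (K + δ) (fun l => g i l * hP h ^ δ) := by
    intro i
    rw [divg_shift, pow_add]
    calc _ = (beta n c * hP (p i) * hP h ^ a) * hP h ^ δ := by ring
      _ = _ := by rw [HC]; ring
  refine ⟨b * c, mul_ne_zero hb hc, K + δ, a + δ, by omega,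
    -(beta n b' * ∑ i, beta n (e i) * (w i * hP h ^ δ)),
    (fun l => beta n (Polynomial.X ^ (c.natTrailingDegree + j)) * g1 l) +
      (∑ i, fun l => beta n (b * d i) * (g i l * hP h ^ δ)) -
      (∑ i, fun l => beta n (b * (Polynomial.X * e i)) * (g i l * hP h ^ δ)), ?_⟩
  rw [sub_eq_add_neg, ← divg_add, ← divg_add, divg_neg, divg_sum, divg_sum]
  simp only [divg_smul]
  rw [← H1, Polynomial.natTrailingDegree_mul hb hc]
  have e1 : ∀ i, divg h (K + δ) (fun l => g i l * hP h ^ δ) =
      beta n c * hP (p i) * hP h ^ (a + δ) -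
        beta n (Polynomial.X ^ (c.natTrailingDegree + j)) * (w i * hP h ^ δ) := by
    intro i; rw [HS]; ring
  simp only [e1]
  have e2 : hP (∑ i, C ((d i).coeff 0) * p i) =
      ∑ i, (beta n (d i) - beta n (Polynomial.X * e i)) * hP (p i) := by
    unfold hP
    rw [map_sum]
    refine Finset.sum_congr rfl fun i _ => ?_
    rw [map_mul, rename_C, ← map_sub]
    have : d i - Polynomial.X * e i = Polynomial.C ((d i).coeff 0) := by
      conv_lhs => rw [he i]
      simp
    rw [this]
    simp [beta]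
  rw [e2]
  have e3 : beta n (Polynomial.X ^ (b.natTrailingDegree + c.natTrailingDegree + (j + 1))) * beta n b' =
      beta n b * beta n (Polynomial.X ^ (c.natTrailingDegree + j)) * beta n Polynomial.X := by
    rw [← map_mul, ← map_mul, ← map_mul]
    congr 1
    conv_rhs => rw [hb']
    ring
  have e4 : beta n (Polynomial.X ^ (b.natTrailingDegree + c.natTrailingDegree + (j + 1))) *
      -(beta n b' * ∑ i, beta n (e i) * (w i * hP h ^ δ)) =
      -(beta n b * beta n (Polynomial.X ^ (c.natTrailingDegree + j)) * beta n Polynomial.X *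
        ∑ i, beta n (e i) * (w i * hP h ^ δ)) := by
    rw [← e3]; ring
  rw [e4]
  simp only [map_mul, Finset.mul_sum, Finset.sum_mul, ← Finset.sum_add_distrib,
    ← Finset.sum_neg_distrib]
  refine Finset.sum_congr rfl fun i _ => ?_
  ring

/-! ### Finite codimension -/

/-- The fractions with a certificate of order `j`. -/
noncomputable def certSub (h : MvPolynomial (Fin n) ℚ) (j : ℕ) : Submodule ℚ (Loc h) where
  carrier := {v | ∃ p k, v = fracMap h k p ∧ Cert h j p k}
  add_mem' := by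
    rintro _ _ ⟨p, k, rfl, H⟩ ⟨p', k', rfl, H'⟩
    refine ⟨p * h ^ k' + p' * h ^ k, k + k', ?_, ?_⟩
    · rw [map_add, fracMap_shift h k k', fracMap_shift h k' k, add_comm k' k]
    · have H2 := H'.shift k
      rw [add_comm k' k] at H2
      exact (H.shift k').add H2
  zero_mem' := ⟨0, 0, by rw [map_zero], 1, one_ne_zero, 0, 1, rfl, 0, 0, by
    rw [divg_zero]; simp [hP]⟩
  smul_mem' := by
    rintro q _ ⟨p, k, rfl, H⟩
    exact ⟨C q * p, k, by rw [← map_smul, smul_eq_C_mul], H.smul q⟩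

theorem mem_certSub {h : MvPolynomial (Fin n) ℚ} (h0 : h ≠ 0) {j : ℕ} {p : MvPolynomial (Fin n) ℚ}
    {k : ℕ} : fracMap h k p ∈ certSub h j ↔ Cert h j p k := by
  constructor
  · rintro ⟨p', k', he, H⟩
    have h1 : fracMap h (k + k') (p * h ^ k') = fracMap h (k + k') (p' * h ^ k) := by
      rw [← fracMap_shift, add_comm k k', ← fracMap_shift, he]
    have h2 : p * h ^ k' = p' * h ^ k := by
      simp only [fracMap_apply] at h1
      have e : invH h ^ (k + k') * iota h h ^ (k + k') = 1 := by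
        rw [← mul_pow, mul_comm, iota_mul_invH, one_pow]
      have h1 := congrArg (fun v => v * iota h h ^ (k + k')) h1
      simp only [mul_assoc, e, mul_one] at h1
      exact iota_injective _ h0 h1
    have H2 := H.shift k
    rw [← h2, add_comm] at H2
    exact H2.unshift
  · intro H
    exact ⟨p, k, rfl, H⟩

theorem exists_frac_common {h : MvPolynomial (Fin n) ℚ} (m : ℕ) (v : Fin m → Loc h) :
    ∃ k, ∃ p : Fin m → MvPolynomial (Fin n) ℚ, ∀ i, v i = fracMap h k (p i) := by
  choose G K hGK using fun i => exists_frac h (v i)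
  refine ⟨∑ i, K i, fun i => G i * h ^ (∑ i, K i - K i), fun i => ?_⟩
  have hle : K i ≤ ∑ i, K i :=
    Finset.single_le_sum (f := K) (fun _ _ => Nat.zero_le _) (Finset.mem_univ i)
  have e := fracMap_shift h (K i) (∑ i, K i - K i) (G i)
  rw [Nat.add_sub_of_le hle] at e
  rw [hGK i, ← e]; rfl

theorem finite_of_dependent {V : Type*} [AddCommGroup V] [Module ℚ V] (W W' : Submodule ℚ V) (r : ℕ)
    (H : ∀ v : Fin (r + 1) → V, (∀ i, v i ∈ W) → ∃ q : Fin (r + 1) → ℚ, q ≠ 0 ∧ ∑ i, q i • v i ∈ W') :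
    Module.Finite ℚ (W.map W'.mkQ) := by
  rw [← Module.rank_lt_aleph0_iff]
  refine lt_of_le_of_lt (rank_le (n := r) fun s hs => ?_) (Cardinal.natCast_lt_aleph0)
  by_contra hcard
  push Not at hcard
  -- choose `r + 1` elements
  obtain ⟨f⟩ : Nonempty (Fin (r + 1) ↪ s) := by
    rw [← Cardinal.lift_mk_le']
    simpa using hcard
  have hli : LinearIndependent ℚ (fun i => ((f i : W.map W'.mkQ))) := hs.comp f f.injective
  have hli2 : LinearIndependent ℚ (fun i => (((f i : W.map W'.mkQ)) : V ⧸ W')) :=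
    hli.map' (Submodule.subtype _) (Submodule.ker_subtype _)
  have hex : ∀ i, ∃ v, v ∈ W ∧ W'.mkQ v = (((f i : W.map W'.mkQ)) : V ⧸ W') := by
    intro i
    obtain ⟨v, hv, hv2⟩ := (f i : W.map W'.mkQ).2
    exact ⟨v, hv, hv2⟩
  choose v hv1 hv2 using hex
  obtain ⟨q, hq, Hq⟩ := H v hv1
  rw [Fintype.linearIndependent_iff] at hli2
  apply hq
  ext i
  refine hli2 q ?_ i
  have e1 : ∑ i, q i • (((f i : W.map W'.mkQ)) : V ⧸ W') = W'.mkQ (∑ i, q i • v i) := by
    rw [map_sum]
    refine Finset.sum_congr rfl fun i _ => ?_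
    rw [map_smul, hv2]
  rw [e1, Submodule.mkQ_apply, Submodule.Quotient.mk_eq_zero]
  exact Hq

theorem certSub_step {h : MvPolynomial (Fin n) ℚ} (h0 : h ≠ 0) (j : ℕ) :
    Module.Finite ℚ ((certSub h j).map (certSub h (j + 1)).mkQ) := by
  obtain ⟨r, hr⟩ := cert_step h0
  refine finite_of_dependent _ _ r fun v hv1 => ?_
  obtain ⟨k, p, hp⟩ := exists_frac_common (r + 1) v
  obtain ⟨q, hq, H⟩ := hr j k p (fun i => by
    rw [← mem_certSub h0, ← hp]; exact hv1 i)
  refine ⟨q, hq, ?_⟩
  have e2 : ∑ i, q i • v i = fracMap h k (∑ i, C (q i) * p i) := by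
    rw [map_sum]
    refine Finset.sum_congr rfl fun i _ => ?_
    rw [hp, ← map_smul, smul_eq_C_mul]
  rw [e2, mem_certSub h0]
  exact H

theorem certSub_mono {h : MvPolynomial (Fin n) ℚ} (j : ℕ) : certSub h (j + 1) ≤ certSub h j := by
  rintro _ ⟨p, k, rfl, c, hc, K, a, hK, w, g, H⟩
  refine ⟨p, k, rfl, c, hc, K, a, hK, beta n Polynomial.X * w, g, ?_⟩
  rw [H, ← add_assoc, pow_succ, map_mul]
  ring

theorem finite_quotient_step {V : Type*} [AddCommGroup V] [Module ℚ V] (W W' : Submodule ℚ V)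
    (hle : W' ≤ W) (h1 : Module.Finite ℚ (W.map W'.mkQ)) (h2 : Module.Finite ℚ (V ⧸ W)) :
    Module.Finite ℚ (V ⧸ W') := by
  have h3 : Module.Finite ℚ ((V ⧸ W') ⧸ W.map W'.mkQ) :=
    Module.Finite.equiv (Submodule.quotientQuotientEquivQuotient _ _ hle).symm
  exact Module.Finite.of_submodule_quotient (W.map W'.mkQ)

/-- The fractions with a certificate of order `j` form a subspace of finite codimension. -/
theorem certSub_finite {h : MvPolynomial (Fin n) ℚ} (h0 : h ≠ 0) (j : ℕ) :
    Module.Finite ℚ (Loc h ⧸ certSub h j) := by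
  induction j with
  | zero =>
    have : certSub h 0 = ⊤ := by
      rw [eq_top_iff]
      intro v _
      obtain ⟨G, K, rfl⟩ := exists_frac h v
      exact ⟨G, K, rfl, cert_zero_order h G K⟩
    rw [this]
    infer_instance
  | succ j ih => exact finite_quotient_step _ _ (certSub_mono j) (certSub_step h0 j) ih

end Pool.Agent.Lib.MP_bbe012_lc
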