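import Mathlib
import Pool.Agent.Lib.MP_bbe012_lc.Codim

/-!
# Stokes' formula on the components of the complement of a hypersurface
-/

namespace Pool.Agent.Lib.MP_bbe012_lc

open MeasureTheory MvPolynomial Set Filter Topology Asymptotics

variable {n : ℕ}

/-- The value of a rational polynomial at a real point. -/
noncomputable def evR (h : MvPolynomial (Fin n) ℚ) (x : Fin n → ℝ) : ℝ := aeval x h

/-- The value at `(x, t)`. -/
noncomputable def evT (G : Pt n) (t : ℝ) (x : Fin n → ℝ) : ℝ := aeval (Fin.snoc x t : Fin (n + 1) → ℝ) G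

theorem evT_add (G H : Pt n) (t : ℝ) (x : Fin n → ℝ) : evT (G + H) t x = evT G t x + evT H t x :=
  map_add _ _ _

theorem evT_mul (G H : Pt n) (t : ℝ) (x : Fin n → ℝ) : evT (G * H) t x = evT G t x * evT H t x :=
  map_mul _ _ _

theorem evT_pow (G : Pt n) (k : ℕ) (t : ℝ) (x : Fin n → ℝ) : evT (G ^ k) t x = evT G t x ^ k :=
  map_pow _ _ _

theorem evT_hP (h : MvPolynomial (Fin n) ℚ) (t : ℝ) (x : Fin n → ℝ) : evT (hP h) t x = evR h x := by
  rw [evT, hP, aeval_rename, evR]
  congr 2
  ext i
  simp

theorem evT_beta (b : Polynomial ℚ) (t : ℝ) (x : Fin n → ℝ) :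
    evT (beta n b) t x = Polynomial.aeval t b := by
  rw [evT, beta]
  induction b using Polynomial.induction_on' with
  | add p q hp hq => rw [map_add, map_add, hp, hq, map_add]
  | monomial k a =>
    have e : (Polynomial.aeval (X (Fin.last n) : Pt n)).toRingHom (Polynomial.monomial k a) =
        C a * X (Fin.last n) ^ k := by simp [Polynomial.aeval_monomial]
    rw [e, map_mul, map_pow, aeval_X, Fin.snoc_last, Polynomial.aeval_monomial]
    congr 1
    exact aeval_C _ _

theorem continuous_evR (h : MvPolynomial (Fin n) ℚ) : Continuous (evR h) := by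
  unfold evR
  exact (MvPolynomial.continuous_eval ((MvPolynomial.map (algebraMap ℚ ℝ)) h)).congr fun x => by
    rw [eval_map]; rfl

theorem continuous_evT (G : Pt n) (t : ℝ) : Continuous (evT G t) := by
  have h1 : Continuous fun x : Fin n → ℝ => (Fin.snoc x t : Fin (n + 1) → ℝ) := by
    refine continuous_pi fun i => ?_
    refine Fin.lastCases ?_ (fun i => ?_) i
    · simp only [Fin.snoc_last]; exact continuous_const
    · simp only [Fin.snoc_castSucc]; exact continuous_apply i
  exact (continuous_evR G).comp h1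

/-- Partial derivatives of polynomials. -/
theorem hasDerivAt_aeval_line {m : ℕ} (p : MvPolynomial (Fin m) ℚ) (l : Fin m) (x : Fin m → ℝ) :
    HasDerivAt (fun τ : ℝ => aeval (x + τ • (Pi.single l 1 : Fin m → ℝ)) p) (aeval x (pderiv l p)) 0 := by
  induction p using MvPolynomial.induction_on with
  | C a =>
    simp only [aeval_C, pderiv_C, map_zero]
    exact hasDerivAt_const _ _
  | add p q hp hq =>
    simp only [map_add]
    exact hp.add hq
  | mul_X p i hp =>
    simp only [map_mul, aeval_X, pderiv_mul, map_add, pderiv_X]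
    have h1 : HasDerivAt (fun τ : ℝ => (x + τ • (Pi.single l 1 : Fin m → ℝ)) i)
        (aeval x ((Pi.single l 1 : Fin m → MvPolynomial (Fin m) ℚ) i)) 0 := by
      have e1 : (aeval x ((Pi.single l 1 : Fin m → MvPolynomial (Fin m) ℚ) i) : ℝ) =
          (Pi.single l 1 : Fin m → ℝ) i := by
        rw [Pi.single_apply, Pi.single_apply]; split_ifs <;> simp
      rw [e1]
      simp only [Pi.add_apply, Pi.smul_apply, smul_eq_mul]
      have := ((hasDerivAt_id (0 : ℝ)).mul_const ((Pi.single l 1 : Fin m → ℝ) i)).const_add (x i)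
      simpa using this
    have h2 := hp.mul h1
    simp only [zero_smul, add_zero] at h2
    exact h2

theorem hasDerivAt_evR (h : MvPolynomial (Fin n) ℚ) (l : Fin n) (t : ℝ) (x : Fin n → ℝ) :
    HasDerivAt (fun τ : ℝ => evR h (x + τ • (Pi.single l 1 : Fin n → ℝ)))
      (evT (pderiv l.castSucc (hP h)) t x) 0 := by
  have h1 := hasDerivAt_aeval_line h l x
  have e : evT (pderiv l.castSucc (hP h)) t x = aeval x (pderiv l h) := by
    have h2 : pderiv l.castSucc (hP h) = hP (pderiv l h) := by
      unfold hP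
      exact (pderiv_rename (Fin.castSucc_injective n) l h)
    rw [h2, evT_hP]; rfl
  rw [e]
  exact h1

theorem hasDerivAt_evT (G : Pt n) (l : Fin n) (t : ℝ) (x : Fin n → ℝ) :
    HasDerivAt (fun τ : ℝ => evT G t (x + τ • (Pi.single l 1 : Fin n → ℝ)))
      (evT (pderiv l.castSucc G) t x) 0 := by
  have h1 := hasDerivAt_aeval_line G l.castSucc (Fin.snoc x t)
  have e : ∀ τ : ℝ, (Fin.snoc (x + τ • (Pi.single l 1 : Fin n → ℝ)) t : Fin (n + 1) → ℝ) =
      (Fin.snoc x t : Fin (n + 1) → ℝ) + τ • (Pi.single l.castSucc 1 : Fin (n + 1) → ℝ) := by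
    intro τ
    ext i
    refine Fin.lastCases ?_ (fun i => ?_) i
    · simp [(Fin.castSucc_lt_last l).ne']
    · simp [Pi.single_apply]
  unfold evT
  simp only [e]
  exact h1

/-- `U` is a bounded set, open and closed in the complement of the zeros of `h`, on which `h` is
positive. -/
structure Region (h : MvPolynomial (Fin n) ℚ) (U : Set (Fin n → ℝ)) : Prop where
  bdd : Bornology.IsBounded U
  pos : ∀ x ∈ U, 0 < evR h x
  loc : ∀ x, evR h x ≠ 0 → U ∈ 𝓝 x ∨ Uᶜ ∈ 𝓝 x

theorem Region.mem_nhds {h : MvPolynomial (Fin n) ℚ} {U : Set (Fin n → ℝ)} (H : Region h U)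
    {x : Fin n → ℝ} (hx : x ∈ U) : U ∈ 𝓝 x := by
  rcases H.loc x (H.pos x hx).ne' with h1 | h1
  · exact h1
  · exact absurd hx (mem_of_mem_nhds h1)

theorem Region.isOpen {h : MvPolynomial (Fin n) ℚ} {U : Set (Fin n → ℝ)} (H : Region h U) :
    IsOpen U := isOpen_iff_mem_nhds.mpr fun _ hx => H.mem_nhds hx

theorem Region.measurableSet {h : MvPolynomial (Fin n) ℚ} {U : Set (Fin n → ℝ)} (H : Region h U) :
    MeasurableSet U := H.isOpen.measurableSet

theorem Region.volume_lt_top {h : MvPolynomial (Fin n) ℚ} {U : Set (Fin n → ℝ)} (H : Region h U) :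
    volume U < ⊤ := H.bdd.measure_lt_top

/-- Continuous functions are bounded on a bounded set. -/
theorem exists_bound {U : Set (Fin n → ℝ)} (hU : Bornology.IsBounded U) {f : (Fin n → ℝ) → ℝ}
    (hf : Continuous f) : ∃ C : ℝ, 0 < C ∧ ∀ x ∈ U, |f x| ≤ C := by
  have h1 : IsCompact (closure U) := hU.isCompact_closure
  obtain ⟨C, hC⟩ := h1.exists_bound_of_continuousOn hf.continuousOn
  exact ⟨max C 1, by positivity, fun x hx => (hC x (subset_closure hx)).trans (le_max_left _ _)⟩

theorem Region.rpow_le {h : MvPolynomial (Fin n) ℚ} {U : Set (Fin n → ℝ)} (H : Region h U) {s : ℝ}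
    (hs : 0 ≤ s) : ∃ C : ℝ, 0 < C ∧ ∀ x ∈ U, evR h x ^ s ≤ C := by
  obtain ⟨C, hC, hC2⟩ := exists_bound H.bdd (continuous_evR h)
  refine ⟨C ^ s, by positivity, fun x hx => ?_⟩
  exact Real.rpow_le_rpow (H.pos x hx).le ((le_abs_self _).trans (hC2 x hx)) hs

theorem Region.integrable {h : MvPolynomial (Fin n) ℚ} {U : Set (Fin n → ℝ)} (H : Region h U)
    {f : (Fin n → ℝ) → ℝ} (hf : Continuous f) {s : ℝ} (hs : 0 ≤ s) :
    IntegrableOn (fun x => f x * evR h x ^ s) U := by
  obtain ⟨C1, hC1, h1⟩ := exists_bound H.bdd hf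
  obtain ⟨C2, hC2, h2⟩ := H.rpow_le hs
  refine Measure.integrableOn_of_bounded (M := C1 * C2) H.volume_lt_top.ne ?_ ?_
  · exact ((hf.measurable.mul ((continuous_evR h).measurable.pow_const s))).aestronglyMeasurable
  · refine (ae_restrict_mem H.measurableSet).mono fun x hx => ?_
    rw [norm_mul]
    have h3 : ‖evR h x ^ s‖ ≤ C2 := by
      rw [Real.norm_of_nonneg (Real.rpow_nonneg (H.pos x hx).le _)]
      exact h2 x hx
    exact mul_le_mul (h1 x hx) h3 (norm_nonneg _) hC1.le

/-- The derivative in the direction of a coordinate of `1_U G h^s`, for `s > 1`. -/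
theorem Region.hasLineDerivAt {h : MvPolynomial (Fin n) ℚ} {U : Set (Fin n → ℝ)} (H : Region h U)
    (G : Pt n) (t : ℝ) {s : ℝ} (hs : 1 < s) (l : Fin n) (x : Fin n → ℝ) :
    HasLineDerivAt ℝ (U.indicator fun y => evT G t y * evR h y ^ s)
      (U.indicator (fun y => (evR h y * evT (pderiv l.castSucc G) t y +
        s * (evT (pderiv l.castSucc (hP h)) t y * evT G t y)) * evR h y ^ (s - 1)) x) x
      (Pi.single l 1) := by
  have hcont : Tendsto (fun τ : ℝ => x + τ • (Pi.single l 1 : Fin n → ℝ)) (𝓝 0) (𝓝 x) := by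
    have : Continuous fun τ : ℝ => x + τ • (Pi.single l 1 : Fin n → ℝ) := by fun_prop
    simpa using this.tendsto 0
  have dh := hasDerivAt_evR h l t x
  have dG := hasDerivAt_evT G l t x
  rw [HasLineDerivAt]
  by_cases hx : x ∈ U
  · -- inside
    rw [indicator_of_mem hx]
    have hpos := H.pos x hx
    have ev : (fun τ : ℝ => U.indicator (fun y => evT G t y * evR h y ^ s)
        (x + τ • (Pi.single l 1 : Fin n → ℝ))) =ᶠ[𝓝 0] fun τ : ℝ =>
        evT G t (x + τ • (Pi.single l 1 : Fin n → ℝ)) *
          evR h (x + τ • (Pi.single l 1 : Fin n → ℝ)) ^ s := by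
      filter_upwards [hcont (H.mem_nhds hx)] with τ hτ
      exact indicator_of_mem (s := U) hτ _
    refine HasDerivAt.congr_of_eventuallyEq ?_ ev
    have d1 := dh.rpow_const (p := s) (Or.inl (by simpa using hpos.ne'))
    have d2 := dG.mul d1
    refine d2.congr_deriv ?_
    simp only [zero_smul, add_zero]
    have e1 : evR h x ^ s = evR h x * evR h x ^ (s - 1) := by
      rw [← Real.rpow_one_add' hpos.le (by linarith)]; congr 1; ring
    rw [e1]; ring
  · rw [indicator_of_notMem hx]
    by_cases hx0 : evR h x = 0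
    · -- on the boundary
      have hbig : (fun τ : ℝ => evR h (x + τ • (Pi.single l 1 : Fin n → ℝ))) =O[𝓝 0] fun τ : ℝ => τ := by
        have h1 := dh.isBigO_sub
        simp only [zero_smul, add_zero, hx0, sub_zero] at h1
        exact h1
      have hsmall : Tendsto (fun τ : ℝ => |evR h (x + τ • (Pi.single l 1 : Fin n → ℝ))| ^ (s - 1))
          (𝓝 0) (𝓝 0) := by
        have h1 : Tendsto (fun τ : ℝ => |evR h (x + τ • (Pi.single l 1 : Fin n → ℝ))|) (𝓝 0) (𝓝 0) := by
          have := ((continuous_evR h).abs.tendsto x).comp hcont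
          simp only [hx0, abs_zero] at this
          exact this
        have h2 := h1.rpow_const (p := s - 1) (Or.inr (by linarith))
        rwa [Real.zero_rpow (by linarith)] at h2
      have hG : (fun τ : ℝ => evT G t (x + τ • (Pi.single l 1 : Fin n → ℝ))) =O[𝓝 0]
          fun _ : ℝ => (1 : ℝ) :=
        (((continuous_evT G t).tendsto x).comp hcont).isBigO_one ℝ
      have hlittle : (fun τ : ℝ => evT G t (x + τ • (Pi.single l 1 : Fin n → ℝ)) *
          (evR h (x + τ • (Pi.single l 1 : Fin n → ℝ)) *
            |evR h (x + τ • (Pi.single l 1 : Fin n → ℝ))| ^ (s - 1))) =o[𝓝 0] fun τ : ℝ => τ := by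
        have h1 : (fun τ : ℝ => |evR h (x + τ • (Pi.single l 1 : Fin n → ℝ))| ^ (s - 1)) =o[𝓝 0]
            fun _ : ℝ => (1 : ℝ) := (isLittleO_one_iff ℝ).mpr hsmall
        have h2 := hG.mul_isLittleO (hbig.mul_isLittleO h1)
        simpa using h2
      have hbound : (fun τ : ℝ => U.indicator (fun y => evT G t y * evR h y ^ s)
          (x + τ • (Pi.single l 1 : Fin n → ℝ))) =O[𝓝 0] fun τ : ℝ =>
          evT G t (x + τ • (Pi.single l 1 : Fin n → ℝ)) *
          (evR h (x + τ • (Pi.single l 1 : Fin n → ℝ)) *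
            |evR h (x + τ • (Pi.single l 1 : Fin n → ℝ))| ^ (s - 1)) := by
        refine IsBigO.of_bound 1 (Eventually.of_forall fun τ => ?_)
        rw [one_mul]
        by_cases hm : x + τ • (Pi.single l 1 : Fin n → ℝ) ∈ U
        · rw [indicator_of_mem hm]
          have hp := H.pos _ hm
          have e1 : evR h (x + τ • (Pi.single l 1 : Fin n → ℝ)) ^ s =
              evR h (x + τ • (Pi.single l 1 : Fin n → ℝ)) *
              |evR h (x + τ • (Pi.single l 1 : Fin n → ℝ))| ^ (s - 1) := by
            rw [abs_of_pos hp, ← Real.rpow_one_add' hp.le (by linarith)]; congr 1; ring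
          rw [e1]
        · rw [indicator_of_notMem hm, norm_zero]
          exact norm_nonneg _
      have hfin := hbound.trans_isLittleO hlittle
      rw [hasDerivAt_iff_isLittleO]
      have e0 : U.indicator (fun y => evT G t y * evR h y ^ s)
          (x + (0 : ℝ) • (Pi.single l 1 : Fin n → ℝ)) = 0 := by
        rw [zero_smul, add_zero, indicator_of_notMem hx]
      simp only [e0, sub_zero, smul_zero]
      exact hfin
    · rcases H.loc x hx0 with h1 | h1
      · exact absurd (mem_of_mem_nhds h1) hx
      · have ev : (fun τ : ℝ => U.indicator (fun y => evT G t y * evR h y ^ s)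
            (x + τ • (Pi.single l 1 : Fin n → ℝ))) =ᶠ[𝓝 0] fun _ => 0 := by
          filter_upwards [hcont h1] with τ hτ
          exact indicator_of_notMem hτ _
        exact (hasDerivAt_const (0 : ℝ) (0 : ℝ)).congr_of_eventuallyEq ev

/-- Stokes' formula. -/
theorem Region.stokes {h : MvPolynomial (Fin n) ℚ} {U : Set (Fin n → ℝ)} (H : Region h U)
    (G : Pt n) (t : ℝ) {s : ℝ} (hs : 1 < s) (l : Fin n) :
    ∫ x in U, (evR h x * evT (pderiv l.castSucc G) t x +
        s * (evT (pderiv l.castSucc (hP h)) t x * evT G t x)) * evR h x ^ (s - 1) = 0 := by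
  have hU := H.measurableSet
  have i1 : Integrable (U.indicator fun y => evT G t y * evR h y ^ s) :=
    (integrable_indicator_iff hU).mpr (H.integrable (continuous_evT G t) (by linarith))
  have hc : Continuous fun x => evR h x * evT (pderiv l.castSucc G) t x +
        s * (evT (pderiv l.castSucc (hP h)) t x * evT G t x) :=
    ((continuous_evR h).mul (continuous_evT _ t)).add
      (continuous_const.mul ((continuous_evT _ t).mul (continuous_evT _ t)))
  have i2 : Integrable (U.indicator (fun y => (evR h y * evT (pderiv l.castSucc G) t y +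
        s * (evT (pderiv l.castSucc (hP h)) t y * evT G t y)) * evR h y ^ (s - 1))) :=
    (integrable_indicator_iff hU).mpr (H.integrable hc (by linarith))
  have key := integral_bilinear_hasLineDerivAt_right_eq_neg_left_of_integrable
    (μ := (volume : Measure (Fin n → ℝ))) (B := ContinuousLinearMap.mul ℝ ℝ)
    (f := U.indicator fun y => evT G t y * evR h y ^ s)
    (f' := U.indicator (fun y => (evR h y * evT (pderiv l.castSucc G) t y +
        s * (evT (pderiv l.castSucc (hP h)) t y * evT G t y)) * evR h y ^ (s - 1)))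
    (g := fun _ => (1 : ℝ)) (g' := fun _ => (0 : ℝ)) (v := Pi.single l 1)
    (by simpa using i2) (by simp) (by simpa using i1)
    (fun x _ => H.hasLineDerivAt G t hs l x) (fun x _ => by
      rw [HasLineDerivAt]; exact hasDerivAt_const _ _)
  simp only [ContinuousLinearMap.mul_apply', mul_zero, integral_zero, mul_one] at key
  rw [← integral_indicator hU]
  linarith

/-- Stokes' formula for divergences. -/
theorem Region.integral_divg {h : MvPolynomial (Fin n) ℚ} {U : Set (Fin n → ℝ)} (H : Region h U)
    (K : ℕ) (g : Fin n → Pt n) {t : ℝ} (ht : (K : ℝ) + 1 < t) :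
    ∫ x in U, evT (divg h K g) t x * evR h x ^ (t - K - 1) = 0 := by
  have e : ∀ x, evT (divg h K g) t x * evR h x ^ (t - K - 1) = ∑ l,
      (evR h x * evT (pderiv l.castSucc (g l)) t x +
        (t - K) * (evT (pderiv l.castSucc (hP h)) t x * evT (g l) t x)) * evR h x ^ (t - K - 1) := by
    intro x
    rw [← Finset.sum_mul]
    congr 1
    rw [divg, evT, map_sum]
    refine Finset.sum_congr rfl fun l _ => ?_
    simp only [map_add, map_mul, map_sub, aeval_X, Fin.snoc_last, map_natCast]
    have : (aeval (Fin.snoc x t : Fin (n + 1) → ℝ) (hP h) : ℝ) = evR h x := evT_hP h t x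
    rw [this]
    rfl
  simp only [e]
  rw [integral_finsetSum]
  · exact Finset.sum_eq_zero fun l _ => H.stokes (g l) t (s := t - K) (by linarith) l
  · intro l _
    refine H.integrable (s := t - K - 1) ?_ (by linarith)
    exact ((continuous_evR h).mul (continuous_evT _ t)).add
      (continuous_const.mul ((continuous_evT _ t).mul (continuous_evT _ t)))

end Pool.Agent.Lib.MP_bbe012_lc
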