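import Mathlib
import Pool.Agent.Lib.MP_bbe012_lc.Region

/-!
# Analytic continuation in the exponent
-/

namespace Pool.Agent.Lib.MP_bbe012_lc

open MeasureTheory MvPolynomial Set Filter Topology ProbabilityTheory

variable {n : ℕ} {h : MvPolynomial (Fin n) ℚ} {U : Set (Fin n → ℝ)}

theorem Region.mul_rpow_integrable (H : Region h U) {u : (Fin n → ℝ) → ℝ} (hu : IntegrableOn u U)
    {t : ℝ} (ht : 0 ≤ t) : IntegrableOn (fun x => u x * evR h x ^ t) U := by
  obtain ⟨C, hC, h2⟩ := H.rpow_le ht
  refine Integrable.mul_bdd (c := C) hu ?_ ?_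
  · exact ((continuous_evR h).measurable.pow_const t).aestronglyMeasurable
  · refine (ae_restrict_mem H.measurableSet).mono fun x hx => ?_
    rw [Real.norm_of_nonneg (Real.rpow_nonneg (H.pos x hx).le _)]
    exact h2 x hx

/-- The measure with density the positive part of `u` on `U`. -/
noncomputable def posM (U : Set (Fin n → ℝ)) (u : (Fin n → ℝ) → ℝ) : Measure (Fin n → ℝ) :=
  (volume.restrict U).withDensity fun x => ((u x).toNNReal : ENNReal)

/-- The logarithm of `h`. -/
noncomputable def logh (h : MvPolynomial (Fin n) ℚ) (x : Fin n → ℝ) : ℝ := Real.log (evR h x)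

theorem Region.exp_logh (H : Region h U) {x : Fin n → ℝ} (hx : x ∈ U) (t : ℝ) :
    Real.exp (t * logh h x) = evR h x ^ t := by
  rw [logh, Real.rpow_def_of_pos (H.pos x hx), mul_comm]

theorem Region.mem_integrableExpSet (H : Region h U) {u : (Fin n → ℝ) → ℝ} (hm : Measurable u)
    (hu : IntegrableOn u U) {t : ℝ} (ht : 0 ≤ t) : t ∈ integrableExpSet (logh h) (posM U u) := by
  have h1 : Integrable (fun x => Real.exp (t * logh h x)) (posM U u) := by
    rw [posM, integrable_withDensity_iff_integrable_coe_smul hm.real_toNNReal]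
    have h2 : IntegrableOn (fun x => max (u x) 0 * evR h x ^ t) U :=
      H.mul_rpow_integrable (u := fun x => max (u x) 0) hu.pos_part ht
    refine h2.congr ((ae_restrict_mem H.measurableSet).mono fun x hx => ?_)
    simp only [smul_eq_mul]
    rw [H.exp_logh hx, Real.coe_toNNReal']
  exact h1

theorem Region.interior_integrableExpSet (H : Region h U) {u : (Fin n → ℝ) → ℝ} (hm : Measurable u)
    (hu : IntegrableOn u U) : Ioi 0 ⊆ interior (integrableExpSet (logh h) (posM U u)) :=
  interior_maximal (fun _ ht => H.mem_integrableExpSet hm hu (le_of_lt ht)) isOpen_Ioi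

/-- The analytic function of the exponent with real values `∫ u h^t`. -/
noncomputable def Phi (h : MvPolynomial (Fin n) ℚ) (U : Set (Fin n → ℝ)) (u : (Fin n → ℝ) → ℝ)
    (z : ℂ) : ℂ :=
  complexMGF (logh h) (posM U u) z - complexMGF (logh h) (posM U fun x => - u x) z

theorem Region.analytic_Phi (H : Region h U) {u : (Fin n → ℝ) → ℝ} (hm : Measurable u)
    (hu : IntegrableOn u U) : AnalyticOnNhd ℂ (Phi h U u) {z | 0 < z.re} := by
  have h1 : AnalyticOnNhd ℂ (complexMGF (logh h) (posM U u)) {z | 0 < z.re} :=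
    analyticOnNhd_complexMGF.mono fun z hz => H.interior_integrableExpSet hm hu hz
  have h2 : AnalyticOnNhd ℂ (complexMGF (logh h) (posM U fun x => - u x)) {z | 0 < z.re} :=
    analyticOnNhd_complexMGF.mono fun z hz => H.interior_integrableExpSet hm.neg hu.neg hz
  exact h1.sub h2

theorem Region.mgf_eq (H : Region h U) {u : (Fin n → ℝ) → ℝ} (hm : Measurable u) (t : ℝ) :
    mgf (logh h) (posM U u) t = ∫ x in U, max (u x) 0 * evR h x ^ t := by
  rw [mgf, posM, integral_withDensity_eq_integral_smul hm.real_toNNReal]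
  refine setIntegral_congr_fun H.measurableSet fun x hx => ?_
  simp only [NNReal.smul_def, smul_eq_mul]
  rw [H.exp_logh hx, Real.coe_toNNReal']

theorem Region.Phi_ofReal (H : Region h U) {u : (Fin n → ℝ) → ℝ} (hm : Measurable u)
    (hu : IntegrableOn u U) {t : ℝ} (ht : 0 ≤ t) :
    Phi h U u (t : ℂ) = ((∫ x in U, u x * evR h x ^ t : ℝ) : ℂ) := by
  have hneg : Measurable fun x => - u x := hm.neg
  rw [Phi, complexMGF_ofReal, complexMGF_ofReal, H.mgf_eq hm, H.mgf_eq hneg, ← Complex.ofReal_sub,
    ← integral_sub (H.mul_rpow_integrable (u := fun x => max (u x) 0) hu.pos_part ht)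
      (H.mul_rpow_integrable (u := fun x => max (- u x) 0) hu.neg_part ht)]
  congr 1
  refine setIntegral_congr_fun H.measurableSet fun x _ => ?_
  rw [← sub_mul]
  congr 1
  rcases le_total 0 (u x) with h1 | h1
  · rw [max_eq_left h1, max_eq_right (by linarith), sub_zero]
  · rw [max_eq_right h1, max_eq_left (by linarith)]; ring

/-- The limit as the exponent tends to `0`. -/
theorem Region.tendsto_zero (H : Region h U) {u : (Fin n → ℝ) → ℝ} (hu : IntegrableOn u U) :
    Tendsto (fun t : ℝ => ∫ x in U, u x * evR h x ^ t) (𝓝[>] 0) (𝓝 (∫ x in U, u x)) := by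
  obtain ⟨C, hC, h2⟩ := exists_bound H.bdd (continuous_evR h)
  refine tendsto_integral_filter_of_dominated_convergence (fun x => |u x| * max 1 C) ?_ ?_ ?_ ?_
  · filter_upwards [self_mem_nhdsWithin] with t ht
    exact (H.mul_rpow_integrable hu (le_of_lt ht)).aestronglyMeasurable
  · have h3 : ∀ᶠ t : ℝ in 𝓝[>] 0, t < 1 := nhdsWithin_le_nhds (gt_mem_nhds one_pos)
    filter_upwards [self_mem_nhdsWithin, h3] with t ht ht1
    refine (ae_restrict_mem H.measurableSet).mono fun x hx => ?_
    rw [norm_mul, Real.norm_of_nonneg (Real.rpow_nonneg (H.pos x hx).le _)]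
    refine mul_le_mul_of_nonneg_left ?_ (abs_nonneg _)
    have hp := H.pos x hx
    have hle := (le_abs_self _).trans (h2 x hx)
    rcases le_total (evR h x) 1 with h4 | h4
    · exact (Real.rpow_le_one hp.le h4 (le_of_lt ht)).trans (le_max_left _ _)
    · calc evR h x ^ t ≤ evR h x ^ (1 : ℝ) := Real.rpow_le_rpow_of_exponent_le h4 ht1.le
        _ = evR h x := Real.rpow_one _
        _ ≤ C := hle
        _ ≤ _ := le_max_right _ _
  · exact hu.abs.mul_const _
  · refine (ae_restrict_mem H.measurableSet).mono fun x hx => ?_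
    have h3 : Tendsto (fun t : ℝ => u x * evR h x ^ t) (𝓝 0) (𝓝 (u x * evR h x ^ (0 : ℝ))) :=
      (Real.continuous_const_rpow (H.pos x hx).ne').continuousAt.tendsto.const_mul _
    rw [Real.rpow_zero, mul_one] at h3
    exact h3.mono_left nhdsWithin_le_nhds

/-- An analytic function on the right half plane which vanishes at all large real numbers vanishes
at all positive real numbers. -/
theorem eq_zero_of_large {f : ℂ → ℂ} (hf : AnalyticOnNhd ℂ f {z | 0 < z.re}) {T : ℝ}
    (hT : ∀ t : ℝ, T < t → f t = 0) {t : ℝ} (ht : 0 < t) : f t = 0 := by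
  have hpre : IsPreconnected {z : ℂ | 0 < z.re} := (convex_halfSpace_re_gt 0).isPreconnected
  set a : ℝ := max T 0 + 1 with ha
  have ha0 : (a : ℂ) ∈ {z : ℂ | 0 < z.re} := by
    simp only [mem_ofPred_eq, Complex.ofReal_re]
    have := le_max_right T 0
    linarith
  have haT : T < a := by
    have := le_max_left T 0
    linarith
  have hfreq : ∃ᶠ z in 𝓝[≠] (a : ℂ), f z = (fun _ => (0 : ℂ)) z := by
    have h1 : Tendsto (fun s : ℝ => (s : ℂ)) (𝓝[≠] a) (𝓝[≠] (a : ℂ)) := by
      refine tendsto_nhdsWithin_of_tendsto_nhds_of_eventually_within _ ?_ ?_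
      · exact (Complex.continuous_ofReal.tendsto a).mono_left nhdsWithin_le_nhds
      · filter_upwards [self_mem_nhdsWithin] with s hs
        simpa using hs
    refine h1.frequently ?_
    refine Eventually.frequently ?_
    filter_upwards [nhdsWithin_le_nhds (lt_mem_nhds haT)] with s hs
    exact hT s hs
  have := hf.eqOn_of_preconnected_of_frequently_eq (fun z _ => analyticAt_const) hpre ha0 hfreq
  have ht' : (t : ℂ) ∈ {z : ℂ | 0 < z.re} := by simpa using ht
  exact this ht'

/-- The function `t ↦ ∫ G(x, t) h^(t + 1)` is the restriction of an analytic function. -/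
theorem Region.exists_analytic (H : Region h U) (G : Pt n) :
    (∃ f : ℂ → ℂ, AnalyticOnNhd ℂ f {z | 0 < z.re} ∧
      ∀ t : ℝ, 0 ≤ t → f t = ((∫ x in U, evT G t x * evR h x ^ (t + 1) : ℝ) : ℂ)) ∧
    ∃ L : ℝ, Tendsto (fun t : ℝ => ∫ x in U, evT G t x * evR h x ^ (t + 1)) (𝓝[>] 0) (𝓝 L) := by
  have hh : ∀ (p : MvPolynomial (Fin n) ℚ), Continuous fun x => evR p x * evR h x :=
    fun p => (continuous_evR p).mul (continuous_evR h)
  have hint : ∀ (p : MvPolynomial (Fin n) ℚ), IntegrableOn (fun x => evR p x * evR h x) U := by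
    intro p
    have := H.integrable (hh p) (s := 0) le_rfl
    simpa using this
  -- the decomposition of `G` in powers of `t`
  obtain ⟨p, hp⟩ : ∃ p : (Fin (n + 1) →₀ ℕ) → MvPolynomial (Fin n) ℚ, ∀ t x,
      evT G t x = ∑ m ∈ G.support, t ^ (m (Fin.last n)) * evR (p m) x := by
    refine ⟨fun m => monomial (Finsupp.equivFunOnFinite.symm fun i : Fin n => m i.castSucc)
      (coeff m G), fun t x => ?_⟩
    conv_lhs => rw [G.as_sum]
    rw [evT, map_sum]
    refine Finset.sum_congr rfl fun m _ => ?_
    rw [aeval_monomial, evR, aeval_monomial, Finsupp.prod_fintype _ _ (fun i => by simp),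
      Finsupp.prod_fintype _ _ (fun i => by simp), Fin.prod_univ_castSucc]
    simp only [Fin.snoc_castSucc, Fin.snoc_last, Finsupp.equivFunOnFinite_symm_apply_apply]
    ring
  have h1 : ∀ t : ℝ, 0 ≤ t → ∫ x in U, evT G t x * evR h x ^ (t + 1) =
      ∑ m ∈ G.support, t ^ (m (Fin.last n)) * ∫ x in U, evR (p m) x * evR h x * evR h x ^ t := by
    intro t ht
    simp only [← integral_const_mul]
    rw [← integral_finsetSum]
    · refine setIntegral_congr_fun H.measurableSet fun x hx => ?_
      rw [hp, Finset.sum_mul]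
      refine Finset.sum_congr rfl fun j _ => ?_
      rw [Real.rpow_add_one (H.pos x hx).ne']
      ring
    · intro j _
      exact (H.mul_rpow_integrable (hint (p j)) ht).const_mul _
  refine ⟨⟨fun z => ∑ m ∈ G.support, z ^ (m (Fin.last n)) *
    Phi h U (fun x => evR (p m) x * evR h x) z, ?_, ?_⟩, ?_⟩
  · intro z hz
    refine Finset.analyticAt_fun_sum _ fun j _ => ?_
    exact (analyticAt_id.pow _).mul (H.analytic_Phi (hh (p j)).measurable (hint (p j)) z hz)
  · intro t ht
    rw [h1 t ht]
    push_cast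
    refine Finset.sum_congr rfl fun m _ => ?_
    rw [H.Phi_ofReal (hh (p m)).measurable (hint (p m)) ht]
  · refine ⟨∑ m ∈ G.support, (0 : ℝ) ^ (m (Fin.last n)) * ∫ x in U, evR (p m) x * evR h x, ?_⟩
    have h2 : Tendsto (fun t : ℝ => ∑ m ∈ G.support, t ^ (m (Fin.last n)) *
        ∫ x in U, evR (p m) x * evR h x * evR h x ^ t) (𝓝[>] 0)
        (𝓝 (∑ m ∈ G.support, (0 : ℝ) ^ (m (Fin.last n)) * ∫ x in U, evR (p m) x * evR h x)) := by
      refine tendsto_finsetSum _ fun m _ => ?_
      refine Tendsto.mul ?_ (H.tendsto_zero (hint (p m)))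
      exact ((continuous_pow (m (Fin.last n))).tendsto 0).mono_left nhdsWithin_le_nhds
    refine h2.congr' ?_
    filter_upwards [self_mem_nhdsWithin] with t ht
    exact (h1 t (le_of_lt ht)).symm

end Pool.Agent.Lib.MP_bbe012_lc
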