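import Mathlib
import Pool.Agent.Lib.MP_bbe012_lc.Mellin

/-!
# Integrals of certified functions vanish
-/

namespace Pool.Agent.Lib.MP_bbe012_lc

open MeasureTheory MvPolynomial Set Filter Topology

variable {n : ℕ} {h : MvPolynomial (Fin n) ℚ} {U : Set (Fin n → ℝ)}

/-- Translation of the parameter. -/
noncomputable def shiftP (e : ℚ) (G : Pt n) : Pt n :=
  aeval (Fin.snoc (fun i => X i.castSucc) (X (Fin.last n) + C e) : Fin (n + 1) → Pt n) G

theorem evT_shiftP (e : ℚ) (G : Pt n) (t : ℝ) (x : Fin n → ℝ) :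
    evT (shiftP e G) t x = evT G (t + e) x := by
  induction G using MvPolynomial.induction_on with
  | C a => simp [shiftP, evT]
  | add p q hp hq =>
    rw [evT_add, ← hp, ← hq, ← evT_add]
    congr 1
    exact map_add _ _ _
  | mul_X p i hp =>
    have e1 : shiftP e (p * X i) = shiftP e p * shiftP e (X i) := map_mul _ _ _
    rw [e1, evT_mul, evT_mul, hp]
    congr 1
    refine Fin.lastCases ?_ (fun i => ?_) i
    · rw [shiftP, aeval_X, Fin.snoc_last, evT_add, evT, evT, evT, aeval_X, aeval_X, Fin.snoc_last,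
        Fin.snoc_last]
      congr 1
      simp
    · rw [shiftP, aeval_X, Fin.snoc_castSucc, evT, evT, aeval_X, aeval_X, Fin.snoc_castSucc,
        Fin.snoc_castSucc]

/-- The property in the functional equation. -/
def FEq (h : MvPolynomial (Fin n) ℚ) (k : ℕ) (b : Polynomial ℚ) : Prop :=
  ∀ G : Pt n, ∃ (H : Pt n) (K : ℕ) (g : Fin n → Pt n),
    beta n b * G * hP h ^ k * hP h ^ (K + 1) = H * hP h ^ (k + 1) * hP h ^ (K + 1) + divg h K g

/-- First consequence of the functional equation for integrals. -/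
theorem Region.feq0 (H : Region h U) {k : ℕ} {b : Polynomial ℚ} (hb : FEq h k b) (G : Pt n) :
    ∃ (G' : Pt n) (T : ℝ), ∀ t > T, Polynomial.aeval t b * ∫ x in U, evT G t x * evR h x ^ (t + k) =
      ∫ x in U, evT G' t x * evR h x ^ (t + k + 1) := by
  obtain ⟨G', K, g, hid⟩ := hb G
  refine ⟨G', K + 1, fun t ht => ?_⟩
  have hdiv := H.integral_divg K g ht
  have hk : (0 : ℝ) ≤ k := Nat.cast_nonneg k
  have hK : (0 : ℝ) ≤ K := Nat.cast_nonneg K
  have i1 : IntegrableOn (fun x => evT G' t x * evR h x ^ (t + k + 1)) U :=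
    H.integrable (continuous_evT G' t) (by linarith)
  have i2 : IntegrableOn (fun x => evT (divg h K g) t x * evR h x ^ (t - K - 1)) U :=
    H.integrable (continuous_evT _ t) (by linarith)
  rw [← integral_const_mul]
  have e1 : ∫ x in U, Polynomial.aeval t b * (evT G t x * evR h x ^ (t + k)) =
      ∫ x in U, (evT G' t x * evR h x ^ (t + k + 1) +
        evT (divg h K g) t x * evR h x ^ (t - K - 1)) := by
    refine setIntegral_congr_fun H.measurableSet fun x hx => ?_
    have hp := H.pos x hx
    have h1 := congrArg (fun F => evT F t x) hid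
    simp only [evT_add, evT_mul, evT_pow, evT_hP, evT_beta] at h1
    have r1 : evR h x ^ (t + k) = evR h x ^ k * evR h x ^ (K + 1) * evR h x ^ (t - K - 1) := by
      rw [← Real.rpow_natCast, ← Real.rpow_natCast, ← Real.rpow_add hp, ← Real.rpow_add hp]
      congr 1; push_cast; ring
    have r2 : evR h x ^ (t + k + 1) = evR h x ^ (k + 1) * evR h x ^ (K + 1) * evR h x ^ (t - K - 1) := by
      rw [← Real.rpow_natCast, ← Real.rpow_natCast, ← Real.rpow_add hp, ← Real.rpow_add hp]
      congr 1; push_cast; ring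
    rw [r1, r2]
    linear_combination (evR h x ^ (t - K - 1)) * h1
  rw [e1, integral_add i1 i2, hdiv, add_zero]

/-- The functional equation with an arbitrary offset. -/
theorem Region.feq1 (H : Region h U) {k : ℕ} {b : Polynomial ℚ} (hb : FEq h k b) (c : ℤ) (G : Pt n) :
    ∃ (G' : Pt n) (T : ℝ), ∀ t > T, Polynomial.aeval (t + (c - k)) b *
      ∫ x in U, evT G t x * evR h x ^ (t + c) = ∫ x in U, evT G' t x * evR h x ^ (t + c + 1) := by
  obtain ⟨G', T, hT⟩ := H.feq0 hb (shiftP (-(c - k)) G)
  refine ⟨shiftP (c - k) G', T - (c - k), fun t ht => ?_⟩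
  have h1 := hT (t + (c - k)) (by linarith)
  have e1 : t + (c - k) + k = t + c := by ring
  simp only [evT_shiftP, e1] at h1
  simp only [evT_shiftP]
  push_cast at h1 ⊢
  have e2 : t + (c - k) + -((c : ℝ) - k) = t := by ring
  rw [e2] at h1
  exact h1

/-- Iteration of the functional equation. -/
theorem Region.feqN (H : Region h U) {k : ℕ} {b : Polynomial ℚ} (hb : FEq h k b) (N : ℕ) (c : ℤ)
    (G : Pt n) :
    ∃ (G' : Pt n) (T : ℝ), ∀ t > T, (∏ i ∈ Finset.range N, Polynomial.aeval (t + (c + i - k)) b) *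
      ∫ x in U, evT G t x * evR h x ^ (t + c) = ∫ x in U, evT G' t x * evR h x ^ (t + c + N) := by
  induction N generalizing c G with
  | zero => exact ⟨G, 0, fun t _ => by simp⟩
  | succ N ih =>
    obtain ⟨G1, T1, h1⟩ := H.feq1 hb c G
    obtain ⟨G2, T2, h2⟩ := ih (c + 1) G1
    refine ⟨G2, max T1 T2, fun t ht => ?_⟩
    have ht1 : t > T1 := lt_of_le_of_lt (le_max_left _ _) ht
    have ht2 : t > T2 := lt_of_le_of_lt (le_max_right _ _) ht
    rw [Finset.prod_range_succ']
    have e1 : t + ((c : ℝ) + ((0 : ℕ) : ℝ) - k) = t + (c - k) := by push_cast; ring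
    rw [e1, mul_assoc, h1 t ht1]
    have h3 := h2 t ht2
    push_cast at h3 ⊢
    have e2 : t + ((c : ℝ) + 1) = t + c + 1 := by ring
    have e3 : t + (c : ℝ) + ((N : ℝ) + 1) = t + (c + 1) + N := by ring
    rw [e3, ← h3, e2]
    congr 1
    refine Finset.prod_congr rfl fun i _ => ?_
    congr 1; ring

/-- The product of translates of `b`. -/
noncomputable def prodShift (b : Polynomial ℚ) (k K : ℕ) : Polynomial ℚ :=
  ∏ i ∈ Finset.range (K + 2), b.comp (Polynomial.X + Polynomial.C ((-((K : ℚ) + 1)) + i - k))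

theorem prodShift_ne_zero {b : Polynomial ℚ} (hb : b ≠ 0) (k K : ℕ) : prodShift b k K ≠ 0 := by
  refine Finset.prod_ne_zero_iff.mpr fun i _ => ?_
  intro h0
  exact hb (Polynomial.comp_X_add_C_eq_zero_iff.mp h0)

theorem natTrailingDegree_prodShift {b : Polynomial ℚ} (hb : b ≠ 0) (k K : ℕ) :
    (prodShift b k K).natTrailingDegree ≤ b.natDegree := by
  have h1 : ∀ (s : Finset ℕ), (∏ i ∈ s, b.comp (Polynomial.X +
      Polynomial.C ((-((K : ℚ) + 1)) + i - k))).natTrailingDegree =
      ∑ i ∈ s, b.rootMultiplicity ((-((K : ℚ) + 1)) + i - k) := by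
    intro s
    classical
    induction s using Finset.induction_on with
    | empty => simp
    | insert a s ha ih =>
      rw [Finset.prod_insert ha, Finset.sum_insert ha, Polynomial.natTrailingDegree_mul, ih,
        Polynomial.rootMultiplicity_eq_natTrailingDegree]
      · intro h0
        exact hb (Polynomial.comp_X_add_C_eq_zero_iff.mp h0)
      · refine Finset.prod_ne_zero_iff.mpr fun i _ => ?_
        intro h0
        exact hb (Polynomial.comp_X_add_C_eq_zero_iff.mp h0)
  rw [prodShift, h1]
  classical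
  have hinj : Function.Injective fun i : ℕ => (-((K : ℚ) + 1)) + i - k := by
    intro a b hab
    simp only at hab
    have : (a : ℚ) = b := by linarith
    exact_mod_cast this
  have h2 : ∑ i ∈ Finset.range (K + 2), b.rootMultiplicity ((-((K : ℚ) + 1)) + i - k) =
      ∑ a ∈ (Finset.range (K + 2)).image (fun i : ℕ => (-((K : ℚ) + 1)) + i - k),
        b.roots.count a := by
    rw [Finset.sum_image (fun a _ b _ hab => hinj hab)]
    refine Finset.sum_congr rfl fun i _ => ?_
    rw [Polynomial.count_roots]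
  rw [h2]
  refine le_trans ?_ (Polynomial.card_roots' b)
  calc _ ≤ ∑ a ∈ (Finset.range (K + 2)).image (fun i : ℕ => (-((K : ℚ) + 1)) + i - k) ∪
        b.roots.toFinset, b.roots.count a :=
        Finset.sum_le_sum_of_subset Finset.subset_union_left
    _ = b.roots.card := by
        refine Multiset.sum_count_eq_card fun a ha => ?_
        exact Finset.mem_union_right _ (Multiset.mem_toFinset.mpr ha)

theorem coeff_zero_ne_of_eq {c c' : Polynomial ℚ} (hc : c ≠ 0)
    (h : c = Polynomial.X ^ c.natTrailingDegree * c') : c'.coeff 0 ≠ 0 := by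
  intro h0
  have h1 : c.coeff c.natTrailingDegree = 0 := by
    obtain ⟨N, hN⟩ : ∃ N, N = c.natTrailingDegree := ⟨_, rfl⟩
    rw [← hN] at h ⊢
    rw [h]
    have h2 := Polynomial.coeff_X_pow_mul c' N 0
    rw [zero_add] at h2
    rw [h2, h0]
  exact hc (Polynomial.trailingCoeff_eq_zero.mp h1)

/-- The main soundness theorem: the integral of an integrable function with a certificate of
sufficiently high order vanishes. -/
theorem Region.sound (H : Region h U) {k : ℕ} {b : Polynomial ℚ} (hb0 : b ≠ 0) (hb : FEq h k b)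
    {u : (Fin n → ℝ) → ℝ} (hm : Measurable u) (hu : IntegrableOn u U) {c : Polynomial ℚ}
    (hc : c ≠ 0) {j K : ℕ} (hj : b.natDegree + 1 ≤ j) {w : Pt n} {g : Fin n → Pt n}
    (hid : ∀ᵐ x ∂(volume.restrict U), ∀ t : ℝ, Polynomial.aeval t c * (u x * evR h x ^ (K + 1)) =
      t ^ (c.natTrailingDegree + j) * evT w t x + evT (divg h K g) t x) :
    ∫ x in U, u x = 0 := by
  obtain ⟨w', T, hw'⟩ := H.feqN hb (K + 2) (-((K : ℤ) + 1)) w
  -- the identity for large exponents
  have hlarge : ∀ t > max T (K + 1), Polynomial.aeval t (c * prodShift b k K) *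
      (∫ x in U, u x * evR h x ^ t) =
      t ^ (c.natTrailingDegree + j) * ∫ x in U, evT w' t x * evR h x ^ (t + 1) := by
    intro t ht
    have ht1 : t > T := lt_of_le_of_lt (le_max_left _ _) ht
    have ht2 : (K : ℝ) + 1 < t := lt_of_le_of_lt (le_max_right _ _) ht
    have hK : (0 : ℝ) ≤ K := Nat.cast_nonneg K
    have h1 := hw' t ht1
    have h2 := H.integral_divg K g ht2
    have e1 : t + ((-((K : ℤ) + 1) : ℤ) : ℝ) + ((K + 2 : ℕ) : ℝ) = t + 1 := by push_cast; ring
    rw [e1] at h1
    have i1 : IntegrableOn (fun x => t ^ (c.natTrailingDegree + j) *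
        (evT w t x * evR h x ^ (t + ((-((K : ℤ) + 1) : ℤ) : ℝ)))) U :=
      (H.integrable (continuous_evT w t) (by push_cast; linarith)).const_mul _
    have i2 : IntegrableOn (fun x => evT (divg h K g) t x * evR h x ^ (t - K - 1)) U :=
      H.integrable (continuous_evT _ t) (by linarith)
    have e2 : Polynomial.aeval t c * (∫ x in U, u x * evR h x ^ t) =
        t ^ (c.natTrailingDegree + j) *
          ∫ x in U, evT w t x * evR h x ^ (t + ((-((K : ℤ) + 1) : ℤ) : ℝ)) := by
      rw [← integral_const_mul, ← integral_const_mul]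
      have e3 : ∫ x in U, Polynomial.aeval t c * (u x * evR h x ^ t) =
          ∫ x in U, (t ^ (c.natTrailingDegree + j) *
            (evT w t x * evR h x ^ (t + ((-((K : ℤ) + 1) : ℤ) : ℝ))) +
            evT (divg h K g) t x * evR h x ^ (t - K - 1)) := by
        refine integral_congr_ae ?_
        filter_upwards [hid, ae_restrict_mem H.measurableSet] with x h3 hx
        have hp := H.pos x hx
        replace h3 := h3 t
        have r1 : evR h x ^ t = evR h x ^ (K + 1) * evR h x ^ (t - K - 1) := by
          rw [← Real.rpow_natCast, ← Real.rpow_add hp]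
          congr 1; push_cast; ring
        have r2 : evR h x ^ (t + ((-((K : ℤ) + 1) : ℤ) : ℝ)) = evR h x ^ (t - K - 1) := by
          congr 1; push_cast; ring
        rw [r1, r2]
        linear_combination (evR h x ^ (t - K - 1)) * h3
      rw [e3, integral_add i1 i2, h2, add_zero]
    have e4 : Polynomial.aeval t (prodShift b k K) =
        ∏ i ∈ Finset.range (K + 2), Polynomial.aeval
          (t + (((-((K : ℤ) + 1) : ℤ) : ℝ) + i - k)) b := by
      rw [prodShift, map_prod]
      refine Finset.prod_congr rfl fun i _ => ?_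
      rw [Polynomial.aeval_comp]
      congr 1
      simp
    rw [map_mul, e4, mul_comm (Polynomial.aeval t c), mul_assoc, e2, mul_left_comm, h1]
  -- analytic continuation
  obtain ⟨⟨F, hF, hF2⟩, L, hL⟩ := H.exists_analytic w'
  set D := c * prodShift b k K with hD
  have hD0 : D ≠ 0 := mul_ne_zero hc (prodShift_ne_zero hb0 k K)
  have hall : ∀ t : ℝ, 0 < t → Polynomial.aeval t D * (∫ x in U, u x * evR h x ^ t) =
      t ^ (c.natTrailingDegree + j) * ∫ x in U, evT w' t x * evR h x ^ (t + 1) := by
    intro t ht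
    set f : ℂ → ℂ := fun z => Polynomial.aeval z D * Phi h U u z -
      z ^ (c.natTrailingDegree + j) * F z with hf
    have hfan : AnalyticOnNhd ℂ f {z | 0 < z.re} := by
      intro z hz
      refine AnalyticAt.sub (AnalyticAt.mul ?_ (H.analytic_Phi hm hu z hz))
        (AnalyticAt.mul (analyticAt_id.pow _) (hF z hz))
      exact AnalyticAt.aeval_polynomial analyticAt_id D
    have hval : ∀ s : ℝ, 0 < s → f s = ((Polynomial.aeval s D * (∫ x in U, u x * evR h x ^ s) -
        s ^ (c.natTrailingDegree + j) * ∫ x in U, evT w' s x * evR h x ^ (s + 1) : ℝ) : ℂ) := by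
      intro s hs
      simp only [hf]
      rw [H.Phi_ofReal hm hu hs.le, hF2 s hs.le]
      have : Polynomial.aeval (s : ℂ) D = ((Polynomial.aeval s D : ℝ) : ℂ) := by
        rw [← Complex.coe_algebraMap, Polynomial.aeval_algebraMap_apply]
      rw [this]
      push_cast
      ring
    have hz := eq_zero_of_large hfan (T := max 0 (max T (K + 1))) (fun s hs => by
      have hs0 : 0 < s := lt_of_le_of_lt (le_max_left _ _) hs
      have hs1 : s > max T (K + 1) := lt_of_le_of_lt (le_max_right _ _) hs
      rw [hval s hs0, hlarge s hs1, sub_self, Complex.ofReal_zero]) ht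
    rw [hval t ht] at hz
    exact sub_eq_zero.mp (by exact_mod_cast hz)
  -- division by a power of `t`
  obtain ⟨D', hD'⟩ := eq_X_pow_mul D
  have hD'0 := coeff_zero_ne_of_eq hD0 hD'
  have hord : D.natTrailingDegree + 1 ≤ c.natTrailingDegree + j := by
    rw [hD, Polynomial.natTrailingDegree_mul hc (prodShift_ne_zero hb0 k K)]
    have := natTrailingDegree_prodShift hb0 k K
    omega
  obtain ⟨e, he⟩ := Nat.exists_eq_add_of_le hord
  have hdiv : ∀ t : ℝ, 0 < t → Polynomial.aeval t D' * (∫ x in U, u x * evR h x ^ t) =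
      t ^ (1 + e) * ∫ x in U, evT w' t x * evR h x ^ (t + 1) := by
    intro t ht
    have h1 := hall t ht
    have h2 : Polynomial.aeval t D = t ^ D.natTrailingDegree * Polynomial.aeval t D' := by
      conv_lhs => rw [hD']
      rw [map_mul, map_pow, Polynomial.aeval_X]
    rw [h2, he, mul_assoc, add_assoc, pow_add, mul_assoc] at h1
    exact mul_left_cancel₀ (pow_ne_zero _ ht.ne') h1
  have lim1 : Tendsto (fun t : ℝ => Polynomial.aeval t D' * (∫ x in U, u x * evR h x ^ t)) (𝓝[>] 0)
      (𝓝 (Polynomial.aeval (0 : ℝ) D' * ∫ x in U, u x)) := by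
    refine Tendsto.mul ?_ (H.tendsto_zero hu)
    exact ((Polynomial.continuous_aeval D').tendsto 0).mono_left nhdsWithin_le_nhds
  have lim2 : Tendsto (fun t : ℝ => t ^ (1 + e) * ∫ x in U, evT w' t x * evR h x ^ (t + 1)) (𝓝[>] 0)
      (𝓝 ((0 : ℝ) ^ (1 + e) * L)) := by
    refine Tendsto.mul ?_ hL
    exact ((continuous_pow (1 + e)).tendsto 0).mono_left nhdsWithin_le_nhds
  have heq : Polynomial.aeval (0 : ℝ) D' * (∫ x in U, u x) = (0 : ℝ) ^ (1 + e) * L := by
    refine tendsto_nhds_unique (lim1.congr' ?_) lim2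
    filter_upwards [self_mem_nhdsWithin] with t ht
    exact hdiv t ht
  rw [zero_pow (by omega), zero_mul] at heq
  have hne : Polynomial.aeval (0 : ℝ) D' ≠ 0 := by
    rw [← Polynomial.coeff_zero_eq_aeval_zero']
    simpa using hD'0
  exact (mul_eq_zero.mp heq).resolve_left hne

end Pool.Agent.Lib.MP_bbe012_lc
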