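import Mathlib

/-!
# Finite codes for rational polynomials, and primitive recursive arithmetic on them

A rational number is coded by `((a, b), d)`, standing for `(a - b) / (d + 1)`.
A polynomial is coded by the finite list of its terms: a term is a coded coefficient together
with the list of its exponents (missing exponents are `0`).
-/

namespace Pool.Agent.Lib.MP_bbe012_lc

open MvPolynomial

/-- Code of a rational number: `((a, b), d)` stands for `(a - b) / (d + 1)`. -/
abbrev QCode := (ℕ × ℕ) × ℕ

/-- The rational number coded by `c`. -/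
def qval (c : QCode) : ℚ := ((c.1.1 : ℚ) - (c.1.2 : ℚ)) / ((c.2 : ℚ) + 1)

/-- Code of a polynomial: list of terms (coefficient, list of exponents). -/
abbrev PCode := List (QCode × List ℕ)

/-- The exponent vector `(e_0, ..., e_{n-1})` of a list of exponents. -/
noncomputable def expVec (n : ℕ) (e : List ℕ) : Fin n →₀ ℕ :=
  Finsupp.equivFunOnFinite.symm fun i : Fin n => e.getD i 0

/-- The term of a polynomial in the variables `x_0, ..., x_{n-1}` coded by `t`. -/
noncomputable def termPoly (n : ℕ) (t : QCode × List ℕ) : MvPolynomial (Fin n) ℚ :=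
  monomial (expVec n t.2) (qval t.1)

/-- The polynomial in the variables `x_0, ..., x_{n-1}` coded by `p`: the sum of its terms. -/
noncomputable def pcPoly (n : ℕ) (p : PCode) : MvPolynomial (Fin n) ℚ :=
  (p.map (termPoly n)).sum

/-! ### Arithmetic of coefficient codes -/

/-- Sum of coefficient codes. -/
def qadd (c d : QCode) : QCode :=
  ((c.1.1 * (d.2 + 1) + d.1.1 * (c.2 + 1), c.1.2 * (d.2 + 1) + d.1.2 * (c.2 + 1)),
    (c.2 + 1) * (d.2 + 1) - 1)

/-- Product of coefficient codes. -/
def qmul (c d : QCode) : QCode :=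
  ((c.1.1 * d.1.1 + c.1.2 * d.1.2, c.1.1 * d.1.2 + c.1.2 * d.1.1), (c.2 + 1) * (d.2 + 1) - 1)

/-- Negative of a coefficient code. -/
def qneg (c : QCode) : QCode := ((c.1.2, c.1.1), c.2)

/-- The code of a natural number. -/
def qnat (k : ℕ) : QCode := ((k, 0), 0)

theorem qval_qadd (c d : QCode) : qval (qadd c d) = qval c + qval d := by
  have h1 : ((c.2 : ℚ) + 1) ≠ 0 := by positivity
  have h2 : ((d.2 : ℚ) + 1) ≠ 0 := by positivity
  have h3 : (((c.2 + 1) * (d.2 + 1) - 1 : ℕ) : ℚ) + 1 = ((c.2 : ℚ) + 1) * ((d.2 : ℚ) + 1) := by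
    have : 1 ≤ (c.2 + 1) * (d.2 + 1) := Nat.one_le_iff_ne_zero.mpr (by positivity)
    rw [Nat.cast_sub this]; push_cast; ring
  simp only [qval, qadd]
  rw [h3]
  push_cast
  field_simp
  ring

theorem qval_qmul (c d : QCode) : qval (qmul c d) = qval c * qval d := by
  have h1 : ((c.2 : ℚ) + 1) ≠ 0 := by positivity
  have h2 : ((d.2 : ℚ) + 1) ≠ 0 := by positivity
  have h3 : (((c.2 + 1) * (d.2 + 1) - 1 : ℕ) : ℚ) + 1 = ((c.2 : ℚ) + 1) * ((d.2 : ℚ) + 1) := by
    have : 1 ≤ (c.2 + 1) * (d.2 + 1) := Nat.one_le_iff_ne_zero.mpr (by positivity)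
    rw [Nat.cast_sub this]; push_cast; ring
  simp only [qval, qmul]
  rw [h3]
  push_cast
  field_simp
  ring

theorem qval_qneg (c : QCode) : qval (qneg c) = - qval c := by
  simp only [qval, qneg]
  rw [← neg_div, neg_sub]

@[simp] theorem qval_qnat (k : ℕ) : qval (qnat k) = k := by
  simp [qval, qnat]

theorem qval_eq_zero_iff (c : QCode) : qval c = 0 ↔ c.1.1 = c.1.2 := by
  have h1 : ((c.2 : ℚ) + 1) ≠ 0 := by positivity
  simp only [qval, div_eq_zero_iff, h1, or_false, sub_eq_zero]
  exact_mod_cast Iff.rfl

/-- every rational number has a code -/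
theorem exists_qval (q : ℚ) : ∃ c : QCode, qval c = q := by
  refine ⟨((q.num.toNat, (-q.num).toNat), q.den - 1), ?_⟩
  have hd : 0 < q.den := q.den_pos
  have h1 : (((q.den - 1 : ℕ) : ℚ) + 1) = q.den := by
    rw [Nat.cast_sub hd]; simp
  have h2 : ((q.num.toNat : ℚ) - ((-q.num).toNat : ℚ)) = q.num := by
    have := Int.toNat_sub_toNat_neg q.num
    exact_mod_cast this
  simp only [qval]
  rw [h1, h2]
  exact Rat.num_div_den q

/-! ### Arithmetic of exponent lists -/

/-- Sum of exponent lists. -/
def expAdd (e f : List ℕ) : List ℕ :=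
  (List.range (max e.length f.length)).map fun i => e.getD i 0 + f.getD i 0

theorem getD_expAdd (e f : List ℕ) (i : ℕ) :
    (expAdd e f).getD i 0 = e.getD i 0 + f.getD i 0 := by
  unfold expAdd
  by_cases h : i < max e.length f.length
  · simp [List.getD_eq_getElem?_getD, List.getElem?_map, List.getElem?_range h]
  · have h' := not_lt.mp h
    have he : e.length ≤ i := le_trans (le_max_left _ _) h'
    have hf : f.length ≤ i := le_trans (le_max_right _ _) h'
    rw [List.getD_eq_default _ _ he, List.getD_eq_default _ _ hf, List.getD_eq_default _ _ (by simpa using h')]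

/-! ### Arithmetic of polynomial codes -/

/-- Negative of a polynomial code. -/
def pcNeg (p : PCode) : PCode := p.map fun t => (qneg t.1, t.2)

/-- Product of two term codes. -/
def termMul (s t : QCode × List ℕ) : QCode × List ℕ := (qmul s.1 t.1, expAdd s.2 t.2)

/-- Product of polynomial codes. -/
def pcMul (p q : PCode) : PCode := p.flatMap fun s => q.map (termMul s)

/-- Code of a constant natural number. -/
def pcNat (k : ℕ) : PCode := [(qnat k, [])]

/-- Code of the variable `x_i`. -/
def pcVar (i : ℕ) : PCode := [(qnat 1, List.replicate i 0 ++ [1])]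

/-- Powers. -/
def pcPow (p : PCode) (k : ℕ) : PCode := k.rec (pcNat 1) fun _ r => pcMul p r

/-- Forget all exponents of variables `x_i`, `i ≥ n`. -/
def pcTrunc (n : ℕ) (p : PCode) : PCode := p.map fun t => (t.1, t.2.take n)

/-- Rename `x_i` into `x_{m+i}` for `i < n`, after forgetting the exponents of `x_i`, `i ≥ n`. -/
def pcShift (m n : ℕ) (p : PCode) : PCode :=
  p.map fun t => (t.1, List.replicate m 0 ++ t.2.take n)

@[simp] theorem pcPoly_nil (n : ℕ) : pcPoly n [] = 0 := rfl

@[simp] theorem pcPoly_cons (n : ℕ) (t : QCode × List ℕ) (p : PCode) :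
    pcPoly n (t :: p) = termPoly n t + pcPoly n p := by
  simp [pcPoly]

@[simp] theorem pcPoly_append (n : ℕ) (p q : PCode) :
    pcPoly n (p ++ q) = pcPoly n p + pcPoly n q := by
  simp [pcPoly]

@[simp] theorem expVec_apply (n : ℕ) (e : List ℕ) (i : Fin n) : expVec n e i = e.getD i 0 := rfl

theorem expVec_expAdd (n : ℕ) (e f : List ℕ) : expVec n (expAdd e f) = expVec n e + expVec n f := by
  ext i
  rw [Finsupp.add_apply, expVec_apply, expVec_apply, expVec_apply, getD_expAdd]

theorem termPoly_termMul (n : ℕ) (s t : QCode × List ℕ) :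
    termPoly n (termMul s t) = termPoly n s * termPoly n t := by
  simp only [termPoly, termMul, monomial_mul, qval_qmul, expVec_expAdd]

@[simp] theorem pcPoly_neg (n : ℕ) (p : PCode) : pcPoly n (pcNeg p) = - pcPoly n p := by
  induction p with
  | nil => simp [pcNeg]
  | cons t p ih =>
    have : pcNeg (t :: p) = (qneg t.1, t.2) :: pcNeg p := rfl
    rw [this, pcPoly_cons, pcPoly_cons, ih, neg_add]
    congr 1
    simp only [termPoly, qval_qneg]
    rw [← map_neg]

theorem pcPoly_map_termMul (n : ℕ) (s : QCode × List ℕ) (q : PCode) :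
    pcPoly n (q.map (termMul s)) = termPoly n s * pcPoly n q := by
  induction q with
  | nil => simp
  | cons t q ih => simp [termPoly_termMul, ih, mul_add]

@[simp] theorem pcPoly_mul (n : ℕ) (p q : PCode) :
    pcPoly n (pcMul p q) = pcPoly n p * pcPoly n q := by
  induction p with
  | nil => simp [pcMul]
  | cons t p ih =>
    have : pcMul (t :: p) q = q.map (termMul t) ++ pcMul p q := by simp [pcMul]
    rw [this, pcPoly_append, pcPoly_map_termMul, ih, pcPoly_cons, add_mul]

@[simp] theorem pcPoly_nat (n k : ℕ) : pcPoly n (pcNat k) = C (k : ℚ) := by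
  have h : expVec n [] = 0 := by ext i; simp
  simp only [pcNat, pcPoly_cons, pcPoly_nil, add_zero, termPoly, qval_qnat, h]
  rw [C_apply]

@[simp] theorem pcPoly_pow (n : ℕ) (p : PCode) (k : ℕ) :
    pcPoly n (pcPow p k) = pcPoly n p ^ k := by
  induction k with
  | zero => simp [pcPow]
  | succ k ih =>
    have : pcPow p (k + 1) = pcMul p (pcPow p k) := rfl
    rw [this, pcPoly_mul, ih, pow_succ, mul_comm]

theorem getD_replicate_append_singleton (i j : ℕ) :
    (List.replicate i 0 ++ [1]).getD j 0 = if j = i then 1 else 0 := by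
  rcases lt_trichotomy j i with h | h | h
  · rw [List.getD_append _ _ _ _ (by simpa using h)]
    simp [List.getD_eq_getElem?_getD, h, h.ne]
  · subst h
    rw [List.getD_append_right _ _ _ _ (by simp)]
    simp
  · rw [List.getD_eq_default _ _ (by simp; omega), if_neg h.ne']

theorem pcPoly_var {n i : ℕ} (h : i < n) : pcPoly n (pcVar i) = X ⟨i, h⟩ := by
  have h1 : expVec n (List.replicate i 0 ++ [1]) = Finsupp.single ⟨i, h⟩ 1 := by
    ext j
    rw [expVec_apply, getD_replicate_append_singleton, Finsupp.single_apply]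
    simp [Fin.ext_iff, eq_comm]
  simp only [pcVar, pcPoly_cons, pcPoly_nil, add_zero, termPoly, qval_qnat, h1, Nat.cast_one]
  rw [X]

/-- every rational polynomial has a code -/
theorem exists_pcPoly {n : ℕ} (P : MvPolynomial (Fin n) ℚ) : ∃ p : PCode, pcPoly n p = P := by
  induction P using MvPolynomial.induction_on' with
  | monomial m a =>
    obtain ⟨c, hc⟩ := exists_qval a
    refine ⟨[(c, List.ofFn fun i => m i)], ?_⟩
    have h1 : expVec n (List.ofFn fun i => m i) = m := by
      ext i
      rw [expVec_apply]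
      simp [List.getD_eq_getElem?_getD]
    simp only [pcPoly_cons, pcPoly_nil, add_zero, termPoly, hc, h1]
  | add p q hp hq =>
    obtain ⟨a, ha⟩ := hp
    obtain ⟨b, hb⟩ := hq
    exact ⟨a ++ b, by simp [ha, hb]⟩

/-! ### Zero test -/

/-- equality of the first `n` exponents -/
def expEq (n : ℕ) (e f : List ℕ) : Prop := ∀ i < n, e.getD i 0 = f.getD i 0

instance (n : ℕ) (e f : List ℕ) : Decidable (expEq n e f) := by
  unfold expEq; infer_instance

/-- sum of the coefficients of the terms with exponents `e` (first `n` variables). -/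
def sumCoef (n : ℕ) (e : List ℕ) (p : PCode) : QCode :=
  p.foldr (fun t acc => if expEq n t.2 e then qadd t.1 acc else acc) (qnat 0)

/-- Decides whether the coded polynomial in `n` variables is zero. -/
def pcIsZero (n : ℕ) (p : PCode) : Prop :=
  ∀ t ∈ p, (sumCoef n t.2 p).1.1 = (sumCoef n t.2 p).1.2

instance (n : ℕ) (p : PCode) : Decidable (pcIsZero n p) := by
  unfold pcIsZero; infer_instance

theorem expEq_iff (n : ℕ) (e f : List ℕ) : expEq n e f ↔ expVec n e = expVec n f := by
  constructor
  · intro h
    ext i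
    simpa [expVec] using h i i.2
  · intro h i hi
    have := DFunLike.congr_fun h (⟨i, hi⟩ : Fin n)
    simpa [expVec] using this

theorem coeff_pcPoly (n : ℕ) (e : List ℕ) (p : PCode) :
    coeff (expVec n e) (pcPoly n p) = qval (sumCoef n e p) := by
  induction p with
  | nil => simp [sumCoef]
  | cons t p ih =>
    have h : sumCoef n e (t :: p) =
        if expEq n t.2 e then qadd t.1 (sumCoef n e p) else sumCoef n e p := rfl
    rw [h, pcPoly_cons, coeff_add, ih]
    have ht : coeff (expVec n e) (termPoly n t) = if expEq n t.2 e then qval t.1 else 0 := by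
      have : termPoly n t = monomial (expVec n t.2) (qval t.1) := rfl
      rw [this, coeff_monomial]
      simp only [expEq_iff]
    rw [ht]
    split_ifs with hh
    · rw [qval_qadd]
    · simp

theorem pcIsZero_iff (n : ℕ) (p : PCode) : pcIsZero n p ↔ pcPoly n p = 0 := by
  constructor
  · intro h
    ext m
    rw [coeff_zero]
    by_cases hm : ∃ t ∈ p, expVec n t.2 = m
    · obtain ⟨t, ht, rfl⟩ := hm
      rw [coeff_pcPoly, qval_eq_zero_iff]
      exact h t ht
    · push Not at hm
      have : ∀ q : PCode, (∀ t ∈ q, expVec n t.2 ≠ m) → coeff m (pcPoly n q) = 0 := by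
        intro q
        induction q with
        | nil => intro _; simp
        | cons t q ih =>
          intro hq
          rw [pcPoly_cons, coeff_add, ih (fun s hs => hq s (List.mem_cons_of_mem _ hs))]
          have h1 : termPoly n t = monomial (expVec n t.2) (qval t.1) := rfl
          rw [h1, coeff_monomial, if_neg (hq t List.mem_cons_self), add_zero]
      exact this p hm
  · intro h t _
    rw [← qval_eq_zero_iff, ← coeff_pcPoly, h, coeff_zero]

end Pool.Agent.Lib.MP_bbe012_lc
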