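import Mathlib
import Pool.Agent.Lib.MP_bbe012_lc.Codes

/-!
# Explicit integrals, periods and decision procedures

These are the definitions used in the statements about the decidability of equality of periods.
-/

namespace Pool.Agent.Lib.MP_bbe012_lc

open MeasureTheory MvPolynomial

/-- The value at `x ∈ ℝ^n` of the polynomial in `n` variables coded by `p`. -/
noncomputable def pcEval (n : ℕ) (p : PCode) (x : Fin n → ℝ) : ℝ := aeval x (pcPoly n p)

/-- A finite system of polynomial inequalities:
`(true, f)` stands for `f > 0` and `(false, f)` stands for `f ≥ 0`. -/
abbrev SysCode := List (Bool × PCode)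

/-- The set of solutions in `ℝ^n` of a finite system of polynomial inequalities. -/
def sysSet (n : ℕ) (S : SysCode) : Set (Fin n → ℝ) :=
  {x | ∀ c ∈ S, (c.1 = true → 0 < pcEval n c.2 x) ∧ (c.1 = false → 0 ≤ pcEval n c.2 x)}

/-- Code of an explicit integral: `(n, (P, Q), S)` stands for the integral of `P / Q` over the
subset of `ℝ^n` defined by the system of inequalities `S`. -/
abbrev IntCode := ℕ × (PCode × PCode) × SysCode

instance instPrimcodableIntCode : Primcodable IntCode := inferInstance

/-- The domain of integration. -/
def domain (I : IntCode) : Set (Fin I.1 → ℝ) := sysSet I.1 I.2.2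

/-- The integrand `P / Q`. -/
noncomputable def integrand (I : IntCode) (x : Fin I.1 → ℝ) : ℝ :=
  pcEval I.1 I.2.1.1 x / pcEval I.1 I.2.1.2 x

/-- The data define an explicit integral: `Q` is not the zero polynomial and the integral
converges absolutely. -/
def Admissible (I : IntCode) : Prop :=
  pcPoly I.1 I.2.1.2 ≠ 0 ∧ IntegrableOn (integrand I) (domain I)

/-- The value of the explicit integral. -/
noncomputable def value (I : IntCode) : ℝ := ∫ x in domain I, integrand I x

/-- A presentation of a (complex) period: explicit integrals for its real and imaginary parts. -/
abbrev PeriodCode := IntCode × IntCode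

instance instPrimcodablePeriodCode : Primcodable PeriodCode :=
  @Primcodable.prod IntCode IntCode instPrimcodableIntCode instPrimcodableIntCode

instance instPrimcodablePairs : Primcodable (PeriodCode × PeriodCode) :=
  @Primcodable.prod PeriodCode PeriodCode instPrimcodablePeriodCode instPrimcodablePeriodCode

/-- Both integrals of the presentation are explicit integrals. -/
def PeriodAdmissible (X : PeriodCode) : Prop := Admissible X.1 ∧ Admissible X.2

/-- The period presented by `X`. -/
noncomputable def period (X : PeriodCode) : ℂ := ⟨value X.1, value X.2⟩

/-- There is an algorithm (a partial recursive function) which halts on every input that satisfies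
`adm` and reports correctly whether the input satisfies `p`. -/
def DecidableOn {α : Type} [Primcodable α] (adm p : α → Prop) : Prop :=
  ∃ d : α →. Bool, Partrec d ∧ ∀ a, adm a → ∃ b ∈ d a, (b = true ↔ p a)

/-- Question Q1: there is an algorithm which, given two presentations of periods, decides whether
the two periods are equal. -/
def EqualityOfPeriodsDecidable : Prop :=
  DecidableOn (fun Z : PeriodCode × PeriodCode => PeriodAdmissible Z.1 ∧ PeriodAdmissible Z.2)
    (fun Z => period Z.1 = period Z.2)

end Pool.Agent.Lib.MP_bbe012_lc
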