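import Mathlib
import Pool.Agent.Lib.MP_bbe012_lc.Defs

/-!
# Evaluation of coded polynomials
-/

namespace Pool.Agent.Lib.MP_bbe012_lc

open MeasureTheory MvPolynomial

@[simp] theorem pcEval_nil (n : ℕ) (x : Fin n → ℝ) : pcEval n [] x = 0 := by simp [pcEval]

@[simp] theorem pcEval_append (n : ℕ) (p q : PCode) (x : Fin n → ℝ) :
    pcEval n (p ++ q) x = pcEval n p x + pcEval n q x := by simp [pcEval]

@[simp] theorem pcEval_neg (n : ℕ) (p : PCode) (x : Fin n → ℝ) :
    pcEval n (pcNeg p) x = - pcEval n p x := by simp [pcEval]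

@[simp] theorem pcEval_mul (n : ℕ) (p q : PCode) (x : Fin n → ℝ) :
    pcEval n (pcMul p q) x = pcEval n p x * pcEval n q x := by simp [pcEval]

@[simp] theorem pcEval_nat (n k : ℕ) (x : Fin n → ℝ) : pcEval n (pcNat k) x = k := by
  simp [pcEval]

@[simp] theorem pcEval_pow (n : ℕ) (p : PCode) (k : ℕ) (x : Fin n → ℝ) :
    pcEval n (pcPow p k) x = pcEval n p x ^ k := by simp [pcEval]

theorem pcEval_var {n i : ℕ} (h : i < n) (x : Fin n → ℝ) : pcEval n (pcVar i) x = x ⟨i, h⟩ := by
  simp [pcEval, pcPoly_var h]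

theorem continuous_pcEval (n : ℕ) (p : PCode) : Continuous (pcEval n p) := by
  unfold pcEval
  exact (MvPolynomial.continuous_eval ((map (algebraMap ℚ ℝ)) (pcPoly n p))).congr
    fun x => by rw [eval_map]; rfl

theorem measurable_pcEval (n : ℕ) (p : PCode) : Measurable (pcEval n p) :=
  (continuous_pcEval n p).measurable

/-- The real polynomial coded by `p`. -/
noncomputable def pcReal (n : ℕ) (p : PCode) : MvPolynomial (Fin n) ℝ :=
  map (algebraMap ℚ ℝ) (pcPoly n p)

theorem eval_pcReal (n : ℕ) (p : PCode) (x : Fin n → ℝ) :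
    eval x (pcReal n p) = pcEval n p x := by
  rw [pcReal, eval_map]; rfl

theorem pcReal_ne_zero {n : ℕ} {p : PCode} (h : pcPoly n p ≠ 0) : pcReal n p ≠ 0 := by
  intro h0
  apply h
  have hinj : Function.Injective (map (algebraMap ℚ ℝ) : MvPolynomial (Fin n) ℚ → MvPolynomial (Fin n) ℝ) :=
    map_injective _ (algebraMap ℚ ℝ).injective
  exact hinj (by rw [map_zero]; exact h0)

/-- evaluation of a term -/
theorem aeval_termPoly (n : ℕ) (t : QCode × List ℕ) (x : Fin n → ℝ) :
    aeval x (termPoly n t) = (qval t.1 : ℝ) * ∏ i : Fin n, x i ^ t.2.getD i 0 := by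
  rw [termPoly, aeval_monomial, Finsupp.prod_fintype _ _ (fun i => by simp)]
  rfl

theorem pcEval_cons (n : ℕ) (t : QCode × List ℕ) (p : PCode) (x : Fin n → ℝ) :
    pcEval n (t :: p) x = (qval t.1 : ℝ) * (∏ i : Fin n, x i ^ t.2.getD i 0) + pcEval n p x := by
  rw [← aeval_termPoly]; simp [pcEval]

/-- general renaming lemma: `e` transforms exponent lists, `φ` transforms points. -/
theorem pcEval_map_exp {n m : ℕ} (e : List ℕ → List ℕ) (x : Fin n → ℝ) (y : Fin m → ℝ)
    (h : ∀ l : List ℕ, ∏ i : Fin n, x i ^ (e l).getD i 0 = ∏ i : Fin m, y i ^ l.getD i 0)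
    (p : PCode) : pcEval n (p.map fun t => (t.1, e t.2)) x = pcEval m p y := by
  induction p with
  | nil => simp
  | cons t p ih =>
    rw [List.map_cons, pcEval_cons, pcEval_cons, ih, h]

theorem getD_take (l : List ℕ) (n i : ℕ) :
    (l.take n).getD i 0 = if i < n then l.getD i 0 else 0 := by
  simp only [List.getD_eq_getElem?_getD, List.getElem?_take]
  split_ifs <;> simp

theorem getD_shift (m : ℕ) (l : List ℕ) (i : ℕ) :
    (List.replicate m 0 ++ l).getD i 0 = if i < m then 0 else l.getD (i - m) 0 := by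
  split_ifs with h
  · rw [List.getD_append _ _ _ _ (by simpa using h)]
    simp [List.getD_eq_getElem?_getD, h]
  · rw [List.getD_append_right _ _ _ _ (by simpa using not_lt.mp h)]
    simp

/-- Truncated polynomials only depend on the first variables. -/
theorem pcEval_trunc {n m : ℕ} (h : n ≤ m) (p : PCode) (x : Fin m → ℝ) :
    pcEval m (pcTrunc n p) x = pcEval n p fun i => x (Fin.castLE h i) := by
  refine pcEval_map_exp (fun l => l.take n) x _ (fun l => ?_) p
  obtain ⟨k, rfl⟩ := Nat.exists_eq_add_of_le h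
  rw [Fin.prod_univ_add]
  have h2 : ∏ i : Fin k, x (Fin.natAdd n i) ^ (l.take n).getD (Fin.natAdd n i : Fin (n + k)) 0 = 1 := by
    refine Finset.prod_eq_one fun i _ => ?_
    rw [getD_take, if_neg (by simp), pow_zero]
  rw [h2, mul_one]
  refine Finset.prod_congr rfl fun i _ => ?_
  rw [getD_take, if_pos (by simp)]
  rfl

/-- Shifted polynomials depend on the variables with the corresponding indices. -/
theorem pcEval_shift {n m k : ℕ} (h : m + n ≤ k) (p : PCode) (x : Fin k → ℝ) :
    pcEval k (pcShift m n p) x = pcEval n p fun i => x ⟨m + i, by omega⟩ := by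
  refine pcEval_map_exp (fun l => List.replicate m 0 ++ l.take n) x _ (fun l => ?_) p
  obtain ⟨j, rfl⟩ := Nat.exists_eq_add_of_le h
  rw [Fin.prod_univ_add, Fin.prod_univ_add]
  have h1 : ∏ i : Fin m, x (Fin.castAdd j (Fin.castAdd n i)) ^
      (List.replicate m 0 ++ l.take n).getD (Fin.castAdd j (Fin.castAdd n i) : Fin (m + n + j)) 0 = 1 := by
    refine Finset.prod_eq_one fun i _ => ?_
    rw [getD_shift, if_pos (by simp), pow_zero]
  have h2 : ∏ i : Fin j, x (Fin.natAdd (m + n) i) ^
      (List.replicate m 0 ++ l.take n).getD (Fin.natAdd (m + n) i : Fin (m + n + j)) 0 = 1 := by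
    refine Finset.prod_eq_one fun i _ => ?_
    rw [getD_shift, if_neg (by simp; omega), getD_take, if_neg (by simp; omega), pow_zero]
  rw [h1, h2, one_mul, mul_one]
  refine Finset.prod_congr rfl fun i _ => ?_
  rw [getD_shift, if_neg (by simp), getD_take, if_pos (by simp)]
  simp only [Fin.val_castAdd, Fin.val_natAdd, Nat.add_sub_cancel_left]
  rfl

end Pool.Agent.Lib.MP_bbe012_lc
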