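import Mathlib

/-!
# Integrability of small negative powers of polynomials

For a nonzero real polynomial `F` in `m` variables, of degree at most `D` in each of them,
`∏ (1 + z_i²)⁻¹ · |F(z)|^(-1/(D+1))` has finite integral over `ℝ^m`.
-/

namespace Pool.Agent.Lib.MP_bbe012_lc

open MeasureTheory Real Set Filter Topology ENNReal

/-- The weight `1 / (1 + y²)`, as an extended nonnegative real. -/
noncomputable def wt (y : ℝ) : ℝ≥0∞ := ENNReal.ofReal (1 / (1 + y ^ 2))

theorem measurable_wt : Measurable wt := by unfold wt; fun_prop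

theorem wt_le_one (y : ℝ) : wt y ≤ 1 := by
  unfold wt
  rw [← ENNReal.ofReal_one]
  apply ENNReal.ofReal_le_ofReal
  rw [div_le_one (by positivity)]
  nlinarith [sq_nonneg y]

theorem lintegral_wt : ∫⁻ y, wt y < ⊤ := by
  have h : Integrable fun y : ℝ => 1 / (1 + y ^ 2) := by
    simpa using integrable_inv_one_add_sq
  unfold wt
  exact h.lintegral_lt_top

/-- the singular part -/
noncomputable def sing (s y : ℝ) : ℝ≥0∞ := (ENNReal.ofReal |y|) ^ (-s)

theorem measurable_sing (s : ℝ) : Measurable (sing s) := by unfold sing; fun_prop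

theorem sing_near_lt_top {s : ℝ} (h1 : s < 1) :
    ∫⁻ y in Ioo (-1 : ℝ) 1, sing s y < ⊤ := by
  have hpos : ∫⁻ y in Ioo (0 : ℝ) 1, sing s y < ⊤ := by
    have hi : IntegrableOn (fun y : ℝ => y ^ (-s)) (Ioo 0 1) := by
      rw [intervalIntegral.integrableOn_Ioo_rpow_iff one_pos]; linarith
    have h2 : ∫⁻ y in Ioo (0 : ℝ) 1, sing s y = ∫⁻ y in Ioo (0 : ℝ) 1, ENNReal.ofReal (y ^ (-s)) := by
      refine setLIntegral_congr_fun measurableSet_Ioo fun y hy => ?_
      simp only [sing]
      rw [abs_of_pos hy.1, ENNReal.ofReal_rpow_of_pos hy.1]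
    rw [h2]
    exact hi.lintegral_lt_top
  have hneg : ∫⁻ y in Ioo (-1 : ℝ) 0, sing s y = ∫⁻ y in Ioo (0 : ℝ) 1, sing s y := by
    have hmp : MeasurePreserving (fun y : ℝ => -y) volume volume := Measure.measurePreserving_neg volume
    have := hmp.setLIntegral_comp_preimage (s := Ioo (0 : ℝ) 1) measurableSet_Ioo
      (f := sing s) (measurable_sing s)
    rw [← this]
    have h3 : (fun y : ℝ => -y) ⁻¹' Ioo (0 : ℝ) 1 = Ioo (-1) 0 := by
      ext y; simp only [mem_preimage, mem_Ioo]; constructor <;> rintro ⟨a, b⟩ <;> constructor <;> linarith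
    rw [h3]
    refine lintegral_congr fun y => ?_
    simp [sing]
  have hsub : Ioo (-1 : ℝ) 1 ⊆ (Ioo (-1) 0 ∪ {0}) ∪ Ioo 0 1 := by
    intro y hy
    rcases lt_trichotomy y 0 with h | h | h
    · exact Or.inl (Or.inl ⟨hy.1, h⟩)
    · exact Or.inl (Or.inr h)
    · exact Or.inr ⟨h, hy.2⟩
  calc ∫⁻ y in Ioo (-1 : ℝ) 1, sing s y ≤ ∫⁻ y in (Ioo (-1) 0 ∪ {0}) ∪ Ioo 0 1, sing s y :=
        lintegral_mono_set hsub
    _ ≤ (∫⁻ y in Ioo (-1) 0 ∪ {0}, sing s y) + ∫⁻ y in Ioo 0 1, sing s y := lintegral_union_le _ _ _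
    _ ≤ ((∫⁻ y in Ioo (-1) 0, sing s y) + ∫⁻ y in {0}, sing s y) + ∫⁻ y in Ioo 0 1, sing s y := by
        gcongr; exact lintegral_union_le _ _ _
    _ < ⊤ := by
        rw [hneg]
        have : ∫⁻ y in ({0} : Set ℝ), sing s y = 0 := by
          rw [Measure.restrict_singleton]; simp
        rw [this, add_zero]
        exact ENNReal.add_lt_top.mpr ⟨hpos, hpos⟩

/-- a finite bound for the integrals `∫ (1+y²)⁻¹ |y - r|^(-s) dy`, uniform in `r` -/
noncomputable def Csing (s : ℝ) : ℝ≥0∞ := (∫⁻ y in Ioo (-1 : ℝ) 1, sing s y) + ∫⁻ y, wt y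

theorem Csing_lt_top {s : ℝ} (h1 : s < 1) : Csing s < ⊤ :=
  ENNReal.add_lt_top.mpr ⟨sing_near_lt_top h1, lintegral_wt⟩

theorem wt_sing_le {s : ℝ} (h0 : 0 ≤ s) (r : ℝ) : ∫⁻ y, wt y * sing s (y - r) ≤ Csing s := by
  have hpt : ∀ y, wt y * sing s (y - r) ≤ (Ioo (-1 : ℝ) 1).indicator (sing s) (y - r) + wt y := by
    intro y
    by_cases h : y - r ∈ Ioo (-1 : ℝ) 1
    · rw [indicator_of_mem h]
      calc wt y * sing s (y - r) ≤ 1 * sing s (y - r) := by gcongr; exact wt_le_one y
        _ ≤ _ := by rw [one_mul]; exact le_self_add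
    · rw [indicator_of_notMem h, zero_add]
      have h2 : 1 ≤ |y - r| := by
        rw [mem_Ioo, not_and_or, not_lt, not_lt] at h
        rcases h with h | h
        · rw [le_abs]; right; linarith
        · rw [le_abs]; left; exact h
      have h3 : sing s (y - r) ≤ 1 := by
        unfold sing
        rw [ENNReal.rpow_neg]
        apply ENNReal.inv_le_one.mpr
        have h4 : 1 ≤ ENNReal.ofReal |y - r| := by
          rw [← ENNReal.ofReal_one]
          exact ENNReal.ofReal_le_ofReal h2
        calc (1 : ℝ≥0∞) = 1 ^ s := (ENNReal.one_rpow s).symm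
          _ ≤ _ := ENNReal.rpow_le_rpow h4 h0
      calc wt y * sing s (y - r) ≤ wt y * 1 := by gcongr
        _ = wt y := mul_one _
  calc ∫⁻ y, wt y * sing s (y - r)
      ≤ ∫⁻ y, ((Ioo (-1 : ℝ) 1).indicator (sing s) (y - r) + wt y) := lintegral_mono hpt
    _ = (∫⁻ y, (Ioo (-1 : ℝ) 1).indicator (sing s) (y - r)) + ∫⁻ y, wt y :=
        lintegral_add_right _ measurable_wt
    _ = Csing s := by
        unfold Csing
        congr 1
        rw [lintegral_sub_right_eq_self (fun y => (Ioo (-1 : ℝ) 1).indicator (sing s) y) r,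
          lintegral_indicator measurableSet_Ioo]

theorem multiset_prod_le (T : Multiset ℝ≥0∞) (D : ℕ) (h : T.card ≤ D) :
    T.prod ≤ 1 + (T.map (· ^ D)).sum := by
  by_cases h1 : ∀ t ∈ T, t ≤ 1
  · have h2 : T.prod ≤ 1 := by
      induction T using Multiset.induction_on with
      | empty => simp
      | cons a s ih =>
        rw [Multiset.prod_cons]
        exact mul_le_one' (h1 a (Multiset.mem_cons_self a s))
          (ih (by rw [Multiset.card_cons] at h; omega) fun t ht => h1 t (Multiset.mem_cons_of_mem ht))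
    exact h2.trans le_self_add
  · push Not at h1
    obtain ⟨t0, ht0, ht1⟩ := h1
    have hne : T ≠ 0 := by rintro rfl; simp at ht0
    obtain ⟨m, hm, hmax⟩ : ∃ m ∈ T, ∀ t ∈ T, t ≤ m := by
      have := T.toFinset.exists_max_image id ⟨t0, by simpa using ht0⟩
      obtain ⟨m, hm, hmax⟩ := this
      exact ⟨m, by simpa using hm, fun t ht => hmax t (by simpa using ht)⟩
    have hm1 : 1 ≤ m := ht1.le.trans (hmax t0 ht0)
    calc T.prod ≤ m ^ T.card := Multiset.prod_le_pow_card T m hmax
      _ ≤ m ^ D := pow_le_pow_right₀ hm1 h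
      _ ≤ (T.map (· ^ D)).sum := Multiset.single_le_sum (by simp) _ (Multiset.mem_map_of_mem _ hm)
      _ ≤ _ := le_add_self

/-- the constant of the one-variable estimate -/
noncomputable def C1 (D : ℕ) : ℝ≥0∞ := (∫⁻ y, wt y) + D * Csing (D * (1 / (D + 1)))

theorem C1_lt_top (D : ℕ) : C1 D < ⊤ := by
  refine ENNReal.add_lt_top.mpr ⟨lintegral_wt, ENNReal.mul_lt_top (by simp) (Csing_lt_top ?_)⟩
  rw [mul_one_div, div_lt_one (by positivity)]
  linarith

theorem one_variable (D : ℕ) (p : Polynomial ℝ) (hp : p ≠ 0) (hD : p.natDegree ≤ D) :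
    ∫⁻ y, wt y * (ENNReal.ofReal |p.eval y|) ^ (-(1 / (D + 1)) : ℝ) ≤
      C1 D * (ENNReal.ofReal |p.leadingCoeff|) ^ (-(1 / (D + 1)) : ℝ) := by
  set δ : ℝ := 1 / (D + 1) with hδ
  have hδ0 : 0 ≤ δ := by positivity
  set q : Polynomial ℂ := p.map (algebraMap ℝ ℂ) with hq
  have hcard : q.roots.card = p.natDegree := by
    rw [IsAlgClosed.card_roots_eq_natDegree, hq, Polynomial.natDegree_map]
  have hlc : q.leadingCoeff = (p.leadingCoeff : ℂ) := by
    rw [hq, Polynomial.leadingCoeff_map]; rfl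
  have heval : ∀ y : ℝ, ((p.eval y : ℝ) : ℂ) = (p.leadingCoeff : ℂ) * (q.roots.map fun z => (y : ℂ) - z).prod := by
    intro y
    have h1 : ((p.eval y : ℝ) : ℂ) = q.eval (y : ℂ) := by
      rw [hq, Polynomial.eval_map]
      exact (Polynomial.eval₂_at_apply (algebraMap ℝ ℂ) y).symm
    rw [h1, (IsAlgClosed.splits q).eval_eq_prod_roots, hlc]
  have hlow : ∀ y : ℝ, |p.leadingCoeff| * (q.roots.map fun z => |y - z.re|).prod ≤ |p.eval y| := by
    intro y
    have h2 : |p.eval y| = |p.leadingCoeff| * (q.roots.map fun z => ‖(y : ℂ) - z‖).prod := by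
      have := congrArg norm (heval y)
      rw [Complex.norm_real, norm_mul, Complex.norm_real, Real.norm_eq_abs, Real.norm_eq_abs] at this
      rw [this]
      congr 1
      exact (map_multiset_prod (normHom : ℂ →*₀ ℝ) _).trans (by rw [Multiset.map_map]; rfl)
    rw [h2]
    gcongr
    refine Multiset.prod_map_le_prod_map₀ _ _ (fun z _ => abs_nonneg _) fun z _ => ?_
    have := Complex.abs_re_le_norm ((y : ℂ) - z)
    simpa using this
  have hpt : ∀ y : ℝ, (ENNReal.ofReal |p.eval y|) ^ (-δ) ≤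
      (ENNReal.ofReal |p.leadingCoeff|) ^ (-δ) * (1 + (q.roots.map fun z => sing (D * δ) (y - z.re)).sum) := by
    intro y
    have h3 : (ENNReal.ofReal |p.eval y|) ^ (-δ) ≤
        (ENNReal.ofReal (|p.leadingCoeff| * (q.roots.map fun z => |y - z.re|).prod)) ^ (-δ) := by
      rw [ENNReal.rpow_neg, ENNReal.rpow_neg, ENNReal.inv_le_inv]
      exact ENNReal.rpow_le_rpow (ENNReal.ofReal_le_ofReal (hlow y)) hδ0
    refine h3.trans ?_
    rw [ENNReal.ofReal_mul (abs_nonneg _)]
    have h4 : ENNReal.ofReal (q.roots.map fun z => |y - z.re|).prod =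
        (q.roots.map fun z => ENNReal.ofReal |y - z.re|).prod := by
      induction q.roots using Multiset.induction_on with
      | empty => simp
      | cons a s ih => rw [Multiset.map_cons, Multiset.prod_cons, ENNReal.ofReal_mul (abs_nonneg _), ih,
          Multiset.map_cons, Multiset.prod_cons]
    have h4' : (q.roots.map fun z => ENNReal.ofReal |y - z.re|).prod ≠ ⊤ := by
      rw [← h4]; exact ENNReal.ofReal_ne_top
    have h5 : ∀ R : Multiset ℂ, ((R.map fun z => ENNReal.ofReal |y - z.re|).prod) ^ (-δ) =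
        (R.map fun z => (ENNReal.ofReal |y - z.re|) ^ (-δ)).prod := by
      intro R
      have hR : ∀ R : Multiset ℂ, (R.map fun z => ENNReal.ofReal |y - z.re|).prod ≠ ⊤ := by
        intro R
        induction R using Multiset.induction_on with
        | empty => simp
        | cons a s ih =>
          rw [Multiset.map_cons, Multiset.prod_cons]
          exact ENNReal.mul_ne_top ENNReal.ofReal_ne_top ih
      induction R using Multiset.induction_on with
      | empty => simp
      | cons a s ih =>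
        rw [Multiset.map_cons, Multiset.prod_cons, Multiset.map_cons, Multiset.prod_cons, ← ih,
          ENNReal.mul_rpow_of_ne_top ENNReal.ofReal_ne_top (hR s)]
    rw [h4, ENNReal.mul_rpow_of_ne_top ENNReal.ofReal_ne_top h4', h5]
    gcongr
    have h6 := multiset_prod_le (q.roots.map fun z => (ENNReal.ofReal |y - z.re|) ^ (-δ)) D
      (by rw [Multiset.card_map, hcard]; exact hD)
    refine h6.trans (le_of_eq ?_)
    congr 1
    rw [Multiset.map_map]
    congr 1
    refine Multiset.map_congr rfl fun z _ => ?_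
    simp only [Function.comp, sing]
    rw [← ENNReal.rpow_natCast, ← ENNReal.rpow_mul]
    congr 1
    ring
  have hmeas : ∀ z : ℂ, Measurable fun y : ℝ => wt y * sing (D * δ) (y - z.re) := fun z =>
    measurable_wt.mul ((measurable_sing _).comp (measurable_id.sub_const _))
  have hDδ0 : 0 ≤ D * δ := by positivity
  have hsum : ∀ R : Multiset ℂ, ∫⁻ y, (R.map fun z => wt y * sing (D * δ) (y - z.re)).sum ≤
      R.card * Csing (D * δ) := by
    intro R
    induction R using Multiset.induction_on with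
    | empty => simp
    | cons a s ih =>
      simp only [Multiset.map_cons, Multiset.sum_cons, Multiset.card_cons]
      rw [lintegral_add_left (hmeas a)]
      push_cast
      rw [add_mul, one_mul, add_comm]
      exact add_le_add ih (wt_sing_le hDδ0 _)
  calc ∫⁻ y, wt y * (ENNReal.ofReal |p.eval y|) ^ (-δ)
      ≤ ∫⁻ y, (ENNReal.ofReal |p.leadingCoeff|) ^ (-δ) *
          (wt y + (q.roots.map fun z => wt y * sing (D * δ) (y - z.re)).sum) := by
        refine lintegral_mono fun y => ?_
        calc wt y * (ENNReal.ofReal |p.eval y|) ^ (-δ)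
            ≤ wt y * ((ENNReal.ofReal |p.leadingCoeff|) ^ (-δ) *
              (1 + (q.roots.map fun z => sing (D * δ) (y - z.re)).sum)) := by gcongr; exact hpt y
          _ = _ := by
            rw [Multiset.sum_map_mul_left]
            ring
    _ = (ENNReal.ofReal |p.leadingCoeff|) ^ (-δ) *
          ∫⁻ y, (wt y + (q.roots.map fun z => wt y * sing (D * δ) (y - z.re)).sum) := by
        rw [lintegral_const_mul']
        have hlc0 : p.leadingCoeff ≠ 0 := by simpa using hp
        rw [ENNReal.rpow_neg]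
        apply ENNReal.inv_ne_top.mpr
        intro h
        rw [ENNReal.rpow_eq_zero_iff] at h
        rcases h with ⟨h, _⟩ | ⟨h, _⟩
        · rw [ENNReal.ofReal_eq_zero] at h
          exact hlc0 (abs_eq_zero.mp (le_antisymm h (abs_nonneg _)))
        · exact ENNReal.ofReal_ne_top h
    _ ≤ (ENNReal.ofReal |p.leadingCoeff|) ^ (-δ) * C1 D := by
        gcongr
        rw [lintegral_add_left measurable_wt]
        unfold C1
        gcongr
        refine (hsum q.roots).trans ?_
        gcongr
        rw [hcard]; exact hD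
    _ = _ := mul_comm _ _

/-- the constant used in the induction -/
noncomputable def C2 (D : ℕ) : ℝ≥0∞ := C1 D + 1

theorem one_variable' (D : ℕ) (m : ℕ) (F : MvPolynomial (Fin (m + 1)) ℝ)
    (hD : F.degreeOf 0 ≤ D) (z : Fin m → ℝ) :
    ∫⁻ y, wt y * (ENNReal.ofReal |MvPolynomial.eval (Fin.cons y z : Fin (m + 1) → ℝ) F|)
        ^ (-(1 / (D + 1)) : ℝ) ≤
      C2 D * (ENNReal.ofReal |MvPolynomial.eval z (MvPolynomial.finSuccEquiv ℝ m F).leadingCoeff|)
        ^ (-(1 / (D + 1)) : ℝ) := by
  set a := (MvPolynomial.finSuccEquiv ℝ m F).leadingCoeff with ha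
  by_cases h0 : MvPolynomial.eval z a = 0
  · have h1 : C2 D * (ENNReal.ofReal |MvPolynomial.eval z a|) ^ (-(1 / (D + 1)) : ℝ) = ⊤ := by
      rw [h0, abs_zero, ENNReal.ofReal_zero, ENNReal.zero_rpow_of_neg]
      · exact ENNReal.mul_top (by unfold C2; simp)
      · rw [neg_lt_zero]; positivity
    rw [h1]; exact le_top
  · set p := Polynomial.map (MvPolynomial.eval z) (MvPolynomial.finSuccEquiv ℝ m F) with hp
    have hlc : p.leadingCoeff = MvPolynomial.eval z a := by
      rw [hp, Polynomial.leadingCoeff_map_of_leadingCoeff_ne_zero _ h0]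
    have hdeg : p.natDegree ≤ D := by
      refine (Polynomial.natDegree_map_le).trans ?_
      rw [MvPolynomial.natDegree_finSuccEquiv]; exact hD
    have hp0 : p ≠ 0 := by
      intro h; rw [h, Polynomial.leadingCoeff_zero] at hlc; exact h0 hlc.symm
    have := one_variable D p hp0 hdeg
    simp only [MvPolynomial.eval_eq_eval_mv_eval']
    rw [hlc] at this
    refine this.trans ?_
    gcongr
    unfold C2
    exact le_self_add

theorem poly_lintegral (D : ℕ) : ∀ (m : ℕ) (F : MvPolynomial (Fin m) ℝ), F ≠ 0 →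
    (∀ i, F.degreeOf i ≤ D) →
    ∫⁻ z : Fin m → ℝ, (∏ i, wt (z i)) *
      (ENNReal.ofReal |MvPolynomial.eval z F|) ^ (-(1 / (D + 1)) : ℝ) < ⊤ := by
  intro m
  induction m with
  | zero =>
    intro F hF _
    have h1 : volume (univ : Set (Fin 0 → ℝ)) = 1 := by
      rw [volume_pi, Measure.pi_univ]; simp
    have h2 : ∀ z : Fin 0 → ℝ, MvPolynomial.eval z F ≠ 0 := by
      intro z
      obtain ⟨c, hc⟩ := MvPolynomial.C_surjective (Fin 0) F
      rw [← hc, MvPolynomial.eval_C]
      rintro rfl
      exact hF (by rw [← hc]; simp)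
    have h3 : ∀ z : Fin 0 → ℝ, (∏ i, wt (z i)) *
      (ENNReal.ofReal |MvPolynomial.eval z F|) ^ (-(1 / (D + 1)) : ℝ) =
        (ENNReal.ofReal |MvPolynomial.eval 0 F|) ^ (-(1 / (D + 1)) : ℝ) := by
      intro z
      rw [Subsingleton.elim z 0]; simp
    simp only [h3]
    rw [lintegral_const, h1, mul_one, ENNReal.rpow_neg]
    apply ENNReal.inv_lt_top.mpr
    apply ENNReal.rpow_pos
    · rw [ENNReal.ofReal_pos]; exact abs_pos.mpr (h2 0)
    · exact ENNReal.ofReal_ne_top
  | succ m ih =>
    intro F hF hD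
    have hmp := volume_preserving_piFinSuccAbove (fun _ : Fin (m + 1) => ℝ) 0
    have hcont : Continuous fun z : Fin (m + 1) → ℝ => MvPolynomial.eval z F :=
      MvPolynomial.continuous_eval F
    have hmeas : Measurable fun z : Fin (m + 1) → ℝ => (∏ i, wt (z i)) *
        (ENNReal.ofReal |MvPolynomial.eval z F|) ^ (-(1 / (D + 1)) : ℝ) := by
      refine Measurable.mul ?_ ?_
      · exact Finset.measurable_prod _ fun i _ => measurable_wt.comp (measurable_pi_apply i)
      · exact (ENNReal.measurable_ofReal.comp (hcont.measurable.norm)).pow_const _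
    have hmeas' : Measurable fun w : ℝ × (Fin m → ℝ) =>
        (∏ i, wt ((MeasurableEquiv.piFinSuccAbove (fun _ : Fin (m + 1) => ℝ) 0).symm w i)) *
        (ENNReal.ofReal |MvPolynomial.eval
          ((MeasurableEquiv.piFinSuccAbove (fun _ : Fin (m + 1) => ℝ) 0).symm w) F|)
            ^ (-(1 / (D + 1)) : ℝ) := hmeas.comp (MeasurableEquiv.measurable _)
    rw [← hmp.symm.lintegral_comp hmeas, Measure.volume_eq_prod,
      lintegral_prod_symm _ hmeas'.aemeasurable]
    have hcons : ∀ (y : ℝ) (z : Fin m → ℝ),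
        (MeasurableEquiv.piFinSuccAbove (fun _ : Fin (m + 1) => ℝ) 0).symm (y, z) = Fin.cons y z := by
      intro y z
      ext i
      simp [MeasurableEquiv.piFinSuccAbove, Fin.insertNthEquiv]
    simp only [hcons]
    set a := (MvPolynomial.finSuccEquiv ℝ m F).leadingCoeff with ha
    have ha0 : a ≠ 0 := by
      rw [ha, Ne, Polynomial.leadingCoeff_eq_zero]
      simpa using hF
    have hadeg : ∀ i, a.degreeOf i ≤ D := fun i =>
      (MvPolynomial.degreeOf_coeff_finSuccEquiv F i _).trans (hD i.succ)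
    calc ∫⁻ z : Fin m → ℝ, ∫⁻ y : ℝ, (∏ i, wt ((Fin.cons y z : Fin (m + 1) → ℝ) i)) *
          (ENNReal.ofReal |MvPolynomial.eval (Fin.cons y z : Fin (m + 1) → ℝ) F|) ^ (-(1 / (D + 1)) : ℝ)
        ≤ ∫⁻ z : Fin m → ℝ, C2 D * ((∏ i, wt (z i)) *
            (ENNReal.ofReal |MvPolynomial.eval z a|) ^ (-(1 / (D + 1)) : ℝ)) := by
          refine lintegral_mono fun z => ?_
          have h1 : ∀ y : ℝ, (∏ i, wt ((Fin.cons y z : Fin (m + 1) → ℝ) i)) *
              (ENNReal.ofReal |MvPolynomial.eval (Fin.cons y z : Fin (m + 1) → ℝ) F|)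
                ^ (-(1 / (D + 1)) : ℝ) = (∏ i, wt (z i)) * (wt y *
              (ENNReal.ofReal |MvPolynomial.eval (Fin.cons y z : Fin (m + 1) → ℝ) F|)
                ^ (-(1 / (D + 1)) : ℝ)) := by
            intro y
            rw [Fin.prod_univ_succ]
            simp only [Fin.cons_zero, Fin.cons_succ]
            ring
          simp only [h1]
          rw [lintegral_const_mul']
          · calc (∏ i, wt (z i)) * _ ≤ (∏ i, wt (z i)) * (C2 D * (ENNReal.ofReal |MvPolynomial.eval z a|)
                ^ (-(1 / (D + 1)) : ℝ)) := by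
                  gcongr
                  exact one_variable' D m F (hD 0) z
              _ = _ := by ring
          · refine ENNReal.prod_ne_top fun i _ => ?_
            exact ((wt_le_one _).trans_lt ENNReal.one_lt_top).ne
      _ = C2 D * ∫⁻ z : Fin m → ℝ, ((∏ i, wt (z i)) *
            (ENNReal.ofReal |MvPolynomial.eval z a|) ^ (-(1 / (D + 1)) : ℝ)) := by
          rw [lintegral_const_mul']
          unfold C2
          exact (ENNReal.add_lt_top.mpr ⟨C1_lt_top D, ENNReal.one_lt_top⟩).ne
      _ < ⊤ := by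
          refine ENNReal.mul_lt_top ?_ (ih a ha0 hadeg)
          unfold C2
          exact ENNReal.add_lt_top.mpr ⟨C1_lt_top D, ENNReal.one_lt_top⟩

/-- A nonzero polynomial is nonzero almost everywhere. -/
theorem ae_eval_ne_zero {m : ℕ} {F : MvPolynomial (Fin m) ℝ} (hF : F ≠ 0) :
    ∀ᵐ z : Fin m → ℝ, MvPolynomial.eval z F ≠ 0 := by
  set D := Finset.univ.sup fun i => F.degreeOf i with hD
  have h := poly_lintegral D m F hF fun i => Finset.le_sup (f := fun i => F.degreeOf i) (Finset.mem_univ i)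
  have hcont : Continuous fun z : Fin m → ℝ => MvPolynomial.eval z F :=
    MvPolynomial.continuous_eval F
  have hmeas : Measurable fun z : Fin m → ℝ => (∏ i, wt (z i)) *
      (ENNReal.ofReal |MvPolynomial.eval z F|) ^ (-(1 / (D + 1)) : ℝ) := by
    refine Measurable.mul ?_ ?_
    · exact Finset.measurable_prod _ fun i _ => measurable_wt.comp (measurable_pi_apply i)
    · exact (ENNReal.measurable_ofReal.comp (hcont.measurable.norm)).pow_const _
  filter_upwards [ae_lt_top hmeas h.ne] with z hz h0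
  rw [h0, abs_zero, ENNReal.ofReal_zero, ENNReal.zero_rpow_of_neg (by rw [neg_lt_zero]; positivity),
    ENNReal.mul_top] at hz
  · exact lt_irrefl _ hz
  · rw [Finset.prod_ne_zero_iff]
    intro i _
    unfold wt
    rw [Ne, ENNReal.ofReal_eq_zero, not_le]
    positivity

end Pool.Agent.Lib.MP_bbe012_lc
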