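import Mathlib
import Pool.Agent.Lib.MP_bbe012_lc.Eval
import Pool.Agent.Lib.MP_bbe012_lc.PolyInt

/-!
# An explicit integral as a difference of two volumes
-/

namespace Pool.Agent.Lib.MP_bbe012_lc

open MeasureTheory Set ENNReal

theorem pcPoly_ne_zero_of_eval {n : ℕ} {p : PCode} {x : Fin n → ℝ} (h : pcEval n p x ≠ 0) :
    pcPoly n p ≠ 0 := by
  intro h0; apply h; rw [pcEval, h0, map_zero]

theorem ae_pcEval_ne_zero {n : ℕ} {p : PCode} (h : pcPoly n p ≠ 0) :
    ∀ᵐ x : Fin n → ℝ, pcEval n p x ≠ 0 := by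
  filter_upwards [ae_eval_ne_zero (pcReal_ne_zero h)] with x hx
  rwa [eval_pcReal] at hx

theorem exists_pcEval_ne_zero {n : ℕ} {p : PCode} (h : pcPoly n p ≠ 0) :
    ∃ x : Fin n → ℝ, pcEval n p x ≠ 0 := (ae_pcEval_ne_zero h).exists

/-- Replacement of an inequality by a strict one, with a nonzero polynomial, which is equivalent
to it almost everywhere. -/
def hat (n : ℕ) (c : Bool × PCode) : PCode :=
  if pcIsZero n c.2 then (if c.1 = true then pcNeg (pcNat 1) else pcNat 1) else pcTrunc n c.2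

/-- The polynomial `P Q - t Q²`, where `t` is the variable `x_n`. -/
def graphIneq (n : ℕ) (P Q : PCode) : PCode :=
  pcMul (pcTrunc n P) (pcTrunc n Q) ++
    pcNeg (pcMul (pcVar n) (pcMul (pcTrunc n Q) (pcTrunc n Q)))

/-- The inequalities for the set of `(x, t)` with `x` in the domain and `0 < t < P(x) / Q(x)`. -/
def ineqs (n : ℕ) (P Q : PCode) (S : SysCode) : List PCode :=
  S.map (hat n) ++ [pcVar n, graphIneq n P Q]

/-- The set of solutions of a list of strict inequalities. -/
def posSet (n : ℕ) (L : List PCode) : Set (Fin n → ℝ) := {z | ∀ f ∈ L, 0 < pcEval n f z}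

theorem hat_eval {n : ℕ} (c : Bool × PCode) (z : Fin (n + 1) → ℝ) :
    pcEval (n + 1) (hat n c) z = if pcIsZero n c.2 then (if c.1 = true then -1 else 1)
      else pcEval n c.2 fun i => z i.castSucc := by
  unfold hat
  split_ifs with h1 h2
  · simp
  · simp
  · rw [pcEval_trunc (Nat.le_succ n)]; rfl

theorem hat_ne_zero (n : ℕ) (c : Bool × PCode) : pcPoly (n + 1) (hat n c) ≠ 0 := by
  by_cases h : pcIsZero n c.2
  · refine pcPoly_ne_zero_of_eval (x := 0) ?_
    rw [hat_eval, if_pos h]
    split_ifs <;> norm_num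
  · obtain ⟨x, hx⟩ := exists_pcEval_ne_zero (mt (pcIsZero_iff n c.2).mpr h)
    refine pcPoly_ne_zero_of_eval (x := Fin.snoc x 0) ?_
    rw [hat_eval, if_neg h]
    simpa using hx

theorem graphIneq_eval {n : ℕ} (P Q : PCode) (z : Fin (n + 1) → ℝ) :
    pcEval (n + 1) (graphIneq n P Q) z =
      pcEval n P (fun i => z i.castSucc) * pcEval n Q (fun i => z i.castSucc) -
        z (Fin.last n) * pcEval n Q (fun i => z i.castSucc) ^ 2 := by
  unfold graphIneq
  rw [pcEval_append, pcEval_neg, pcEval_mul, pcEval_mul, pcEval_mul, pcEval_trunc (Nat.le_succ n),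
    pcEval_trunc (Nat.le_succ n), pcEval_var (Nat.lt_succ_self n)]
  have : (⟨n, Nat.lt_succ_self n⟩ : Fin (n + 1)) = Fin.last n := rfl
  rw [this, sq, sub_eq_add_neg]
  rfl

theorem graphIneq_ne_zero {n : ℕ} (P : PCode) {Q : PCode} (hQ : pcPoly n Q ≠ 0) :
    pcPoly (n + 1) (graphIneq n P Q) ≠ 0 := by
  obtain ⟨x, hx⟩ := exists_pcEval_ne_zero hQ
  refine pcPoly_ne_zero_of_eval (x := Fin.snoc x (pcEval n P x / pcEval n Q x - 1)) ?_
  rw [graphIneq_eval]
  simp only [Fin.snoc_castSucc, Fin.snoc_last]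
  have : pcEval n P x * pcEval n Q x - (pcEval n P x / pcEval n Q x - 1) * pcEval n Q x ^ 2 =
      pcEval n Q x ^ 2 := by field_simp; ring
  rw [this]
  positivity

theorem ineqs_ne_zero {n : ℕ} (P : PCode) {Q : PCode} (S : SysCode) (hQ : pcPoly n Q ≠ 0) :
    ∀ f ∈ ineqs n P Q S, pcPoly (n + 1) f ≠ 0 := by
  intro f hf
  simp only [ineqs, List.mem_append, List.mem_map, List.mem_cons, List.not_mem_nil, or_false] at hf
  rcases hf with ⟨c, _, rfl⟩ | rfl | rfl
  · exact hat_ne_zero n c
  · rw [pcPoly_var (Nat.lt_succ_self n)]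
    exact MvPolynomial.X_ne_zero _
  · exact graphIneq_ne_zero P hQ

/-- the open set with the same measure as the domain -/
def hatSet (n : ℕ) (S : SysCode) : Set (Fin n → ℝ) :=
  {x | ∀ c ∈ S, 0 < if pcIsZero n c.2 then (if c.1 = true then (-1 : ℝ) else 1)
      else pcEval n c.2 x}

theorem hatSet_ae_eq (n : ℕ) (S : SysCode) : hatSet n S =ᵐ[volume] sysSet n S := by
  have h : ∀ᵐ x : Fin n → ℝ, ∀ c ∈ S, ¬ pcIsZero n c.2 → pcEval n c.2 x ≠ 0 := by
    have h0 : ∀ᵐ x : Fin n → ℝ, ∀ c ∈ {c | c ∈ S}, ¬ pcIsZero n c.2 → pcEval n c.2 x ≠ 0 := by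
      rw [ae_ball_iff (List.finite_toSet S).countable]
      intro c _
      by_cases hz : pcIsZero n c.2
      · exact ae_of_all _ fun x h => absurd hz h
      · filter_upwards [ae_pcEval_ne_zero (mt (pcIsZero_iff n c.2).mpr hz)] with x hx _ using hx
    exact h0
  filter_upwards [h] with x hx
  apply propext
  refine forall₂_congr fun c hc => ?_
  by_cases hz : pcIsZero n c.2
  · have h0 : pcEval n c.2 x = 0 := by
      rw [pcEval, (pcIsZero_iff n c.2).mp hz, map_zero]
    rw [if_pos hz, h0]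
    rcases hb : c.1 with _ | _ <;> norm_num
  · rw [if_neg hz]
    have := hx c hc hz
    rcases hb : c.1 with _ | _
    · simp only [Bool.false_eq_true, false_imp_iff, true_and, forall_const]
      exact ⟨le_of_lt, fun h => lt_of_le_of_ne h this.symm⟩
    · simp

theorem measurableSet_sysSet (n : ℕ) (S : SysCode) : MeasurableSet (sysSet n S) := by
  induction S with
  | nil => simp [sysSet]
  | cons c S ih =>
    have : sysSet n (c :: S) =
        {x | (c.1 = true → 0 < pcEval n c.2 x) ∧ (c.1 = false → 0 ≤ pcEval n c.2 x)} ∩ sysSet n S := by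
      ext x; simp [sysSet]
    rw [this]
    refine MeasurableSet.inter ?_ ih
    rcases hb : c.1 with _ | _
    · simpa using measurableSet_le measurable_const (measurable_pcEval n c.2)
    · simpa using measurableSet_lt measurable_const (measurable_pcEval n c.2)

theorem measurableSet_posSet (n : ℕ) (L : List PCode) : MeasurableSet (posSet n L) := by
  induction L with
  | nil => simp [posSet]
  | cons c S ih =>
    have : posSet n (c :: S) = {x | 0 < pcEval n c x} ∩ posSet n S := by
      ext x; simp [posSet]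
    rw [this]
    exact (measurableSet_lt measurable_const (measurable_pcEval n c)).inter ih

theorem mem_posSet_ineqs {n : ℕ} (P Q : PCode) (S : SysCode) (z : Fin (n + 1) → ℝ) :
    z ∈ posSet (n + 1) (ineqs n P Q S) ↔ (fun i => z i.castSucc) ∈ hatSet n S ∧
      0 < z (Fin.last n) ∧ 0 < pcEval n P (fun i => z i.castSucc) * pcEval n Q (fun i => z i.castSucc) -
        z (Fin.last n) * pcEval n Q (fun i => z i.castSucc) ^ 2 := by
  simp only [posSet, ineqs, List.mem_append, List.mem_map, List.mem_cons, List.not_mem_nil,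
    or_false, mem_ofPred_eq]
  constructor
  · intro h
    refine ⟨fun c hc => ?_, ?_, ?_⟩
    · have := h (hat n c) (Or.inl ⟨c, hc, rfl⟩)
      rwa [hat_eval] at this
    · have := h (pcVar n) (Or.inr (Or.inl rfl))
      rwa [pcEval_var (Nat.lt_succ_self n)] at this
    · have := h (graphIneq n P Q) (Or.inr (Or.inr rfl))
      rwa [graphIneq_eval] at this
  · rintro ⟨h1, h2, h3⟩ f (⟨c, hc, rfl⟩ | rfl | rfl)
    · rw [hat_eval]; exact h1 c hc
    · rwa [pcEval_var (Nat.lt_succ_self n)]
    · rwa [graphIneq_eval]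

/-- The volume of the region under the graph. -/
theorem volume_posSet_ineqs {n : ℕ} (P : PCode) {Q : PCode} (S : SysCode) (hQ : pcPoly n Q ≠ 0) :
    volume (posSet (n + 1) (ineqs n P Q S)) =
      ∫⁻ x in sysSet n S, ENNReal.ofReal (pcEval n P x / pcEval n Q x) := by
  classical
  have hmp := volume_preserving_piFinSuccAbove (fun _ : Fin (n + 1) => ℝ) (Fin.last n)
  have hm := measurableSet_posSet (n + 1) (ineqs n P Q S)
  rw [← hmp.symm.measure_preimage hm.nullMeasurableSet, Measure.volume_eq_prod,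
    Measure.prod_apply_symm (hm.preimage (MeasurableEquiv.measurable _)),
    ← lintegral_indicator (measurableSet_sysSet n S)]
  refine lintegral_congr_ae ?_
  filter_upwards [hatSet_ae_eq n S, ae_pcEval_ne_zero hQ] with x hx hQx
  have hx' : x ∈ hatSet n S ↔ x ∈ sysSet n S := iff_of_eq hx
  have hsn : ∀ t : ℝ, (MeasurableEquiv.piFinSuccAbove (fun _ : Fin (n + 1) => ℝ) (Fin.last n)).symm (t, x)
      = Fin.snoc x t := by
    intro t
    ext i
    simp [MeasurableEquiv.piFinSuccAbove, Fin.insertNthEquiv]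
  have hQ2 : 0 < pcEval n Q x ^ 2 := by positivity
  have hset : (fun t : ℝ => (t, x)) ⁻¹'
      ((MeasurableEquiv.piFinSuccAbove (fun _ : Fin (n + 1) => ℝ) (Fin.last n)).symm ⁻¹'
        posSet (n + 1) (ineqs n P Q S)) =
      if x ∈ sysSet n S then Ioo 0 (pcEval n P x / pcEval n Q x) else ∅ := by
    ext t
    rw [mem_preimage, mem_preimage, hsn, mem_posSet_ineqs]
    simp only [Fin.snoc_castSucc, Fin.snoc_last]
    have e1 : 0 < pcEval n P x * pcEval n Q x - t * pcEval n Q x ^ 2 ↔
        t < pcEval n P x / pcEval n Q x := by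
      have h3 : pcEval n P x * pcEval n Q x - t * pcEval n Q x ^ 2 =
          (pcEval n P x / pcEval n Q x - t) * pcEval n Q x ^ 2 := by
        field_simp
      rw [h3, mul_pos_iff_of_pos_right hQ2, sub_pos]
    rw [e1]
    by_cases h : x ∈ sysSet n S
    · rw [if_pos h]
      have h4 : (fun i => x i) ∈ hatSet n S := hx'.mpr h
      simp only [h4, true_and, mem_Ioo]
    · rw [if_neg h]
      have h4 : (fun i => x i) ∉ hatSet n S := fun h5 => h (hx'.mp h5)
      simp [h4]
  rw [hset]
  by_cases h : x ∈ sysSet n S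
  · rw [if_pos h, indicator_of_mem h, Real.volume_Ioo, sub_zero]
  · rw [if_neg h, indicator_of_notMem h, measure_empty]

/-- An explicit integral as a difference of two volumes. -/
theorem value_eq_volumes (I : IntCode) (hI : Admissible I) :
    volume (posSet (I.1 + 1) (ineqs I.1 I.2.1.1 I.2.1.2 I.2.2)) < ⊤ ∧
    volume (posSet (I.1 + 1) (ineqs I.1 (pcNeg I.2.1.1) I.2.1.2 I.2.2)) < ⊤ ∧
    value I = (volume (posSet (I.1 + 1) (ineqs I.1 I.2.1.1 I.2.1.2 I.2.2))).toReal -
      (volume (posSet (I.1 + 1) (ineqs I.1 (pcNeg I.2.1.1) I.2.1.2 I.2.2))).toReal := by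
  obtain ⟨hQ, hint⟩ := hI
  have h2 : volume (posSet (I.1 + 1) (ineqs I.1 (pcNeg I.2.1.1) I.2.1.2 I.2.2)) =
      ∫⁻ x in sysSet I.1 I.2.2, ENNReal.ofReal (-integrand I x) := by
    rw [volume_posSet_ineqs _ _ hQ]
    refine lintegral_congr fun x => ?_
    rw [pcEval_neg, neg_div]; rfl
  have h1 : volume (posSet (I.1 + 1) (ineqs I.1 I.2.1.1 I.2.1.2 I.2.2)) =
      ∫⁻ x in sysSet I.1 I.2.2, ENNReal.ofReal (integrand I x) := volume_posSet_ineqs _ _ hQ
  rw [h1, h2]
  refine ⟨hint.lintegral_lt_top, hint.neg.lintegral_lt_top, ?_⟩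
  exact integral_eq_lintegral_pos_part_sub_lintegral_neg_part hint

/-! ### Bounds for the degrees -/

/-- A bound for all exponents occurring in the code. -/
def pcDeg (p : PCode) : ℕ := p.foldr (fun t a => max (t.2.foldr max 0) a) 0

theorem getD_le_foldr_max (l : List ℕ) (i : ℕ) : l.getD i 0 ≤ l.foldr max 0 := by
  induction l generalizing i with
  | nil => simp
  | cons a l ih =>
    cases i with
    | zero => simp
    | succ i =>
      simp only [List.getD_cons_succ, List.foldr_cons]
      exact (ih i).trans (le_max_right _ _)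

theorem degreeOf_pcPoly_le (n : ℕ) (p : PCode) (i : Fin n) :
    (pcPoly n p).degreeOf i ≤ pcDeg p := by
  induction p with
  | nil => simp
  | cons t p ih =>
    rw [pcPoly_cons]
    refine (MvPolynomial.degreeOf_add_le _ _ _).trans ?_
    have h : pcDeg (t :: p) = max (t.2.foldr max 0) (pcDeg p) := rfl
    rw [h]
    refine max_le_max ?_ ih
    rw [MvPolynomial.degreeOf_le_iff]
    intro m hm
    have : m = expVec n t.2 := by
      have h1 := MvPolynomial.support_monomial_subset hm
      simpa using h1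
    rw [this]
    exact getD_le_foldr_max _ _

theorem degreeOf_pcReal_le (n : ℕ) (p : PCode) (i : Fin n) :
    (pcReal n p).degreeOf i ≤ pcDeg p := by
  refine le_trans ?_ (degreeOf_pcPoly_le n p i)
  rw [MvPolynomial.degreeOf_le_iff]
  intro m hm
  exact MvPolynomial.monomial_le_degreeOf i (MvPolynomial.support_map_subset _ _ hm)

end Pool.Agent.Lib.MP_bbe012_lc
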