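import Mathlib
import Pool.Agent.Lib.MP_bbe012_lc.Sound
import Pool.Agent.Lib.MP_bbe012_lc.Volume

/-!
# Geometries, and the finite dimensional space of values attached to two of them
-/

namespace Pool.Agent.Lib.MP_bbe012_lc

open MeasureTheory MvPolynomial Set Filter Topology

/-! ### The region attached to a system -/

/-- A geometry: number of variables, denominator, system of inequalities. -/
abbrev Geo := ℕ × PCode × SysCode

/-- The product of the denominator squared and of the (nonzero) polynomials of the system. -/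
noncomputable def hPoly (n : ℕ) (q : PCode) (S : SysCode) : MvPolynomial (Fin n) ℚ :=
  (S.map fun c => pcPoly n (hat n c)).prod * pcPoly n q ^ 2

/-- The open set where the inequalities are strict and the denominator does not vanish. -/
def region (n : ℕ) (q : PCode) (S : SysCode) : Set (Fin n → ℝ) :=
  {x | (∀ c ∈ S, 0 < pcEval n (hat n c) x) ∧ pcEval n q x ≠ 0}

theorem evR_pcPoly (n : ℕ) (p : PCode) (x : Fin n → ℝ) : evR (pcPoly n p) x = pcEval n p x := rfl

theorem pcEval_hat (n : ℕ) (c : Bool × PCode) (x : Fin n → ℝ) :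
    pcEval n (hat n c) x = if pcIsZero n c.2 then (if c.1 = true then -1 else 1)
      else pcEval n c.2 x := by
  unfold hat
  split_ifs with h1 h2
  · simp
  · simp
  · rw [pcEval_trunc le_rfl]; rfl

theorem hat_ne_zero' (n : ℕ) (c : Bool × PCode) : pcPoly n (hat n c) ≠ 0 := by
  by_cases h : pcIsZero n c.2
  · refine pcPoly_ne_zero_of_eval (x := 0) ?_
    rw [pcEval_hat, if_pos h]
    split_ifs <;> norm_num
  · obtain ⟨x, hx⟩ := exists_pcEval_ne_zero (mt (pcIsZero_iff n c.2).mpr h)
    refine pcPoly_ne_zero_of_eval (x := x) ?_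
    rw [pcEval_hat, if_neg h]
    exact hx

theorem hPoly_ne_zero {n : ℕ} {q : PCode} (S : SysCode) (hq : pcPoly n q ≠ 0) : hPoly n q S ≠ 0 := by
  refine mul_ne_zero ?_ (pow_ne_zero _ hq)
  rw [Ne, List.prod_eq_zero_iff, List.mem_map]
  rintro ⟨c, _, hc⟩
  exact hat_ne_zero' n c hc

theorem evR_hPoly (n : ℕ) (q : PCode) (S : SysCode) (x : Fin n → ℝ) :
    evR (hPoly n q S) x = (S.map fun c => pcEval n (hat n c) x).prod * pcEval n q x ^ 2 := by
  rw [hPoly, evR, map_mul, map_pow, map_list_prod, List.map_map]
  rfl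

theorem region_pos {n : ℕ} {q : PCode} {S : SysCode} {x : Fin n → ℝ} (hx : x ∈ region n q S) :
    0 < evR (hPoly n q S) x := by
  rw [evR_hPoly]
  refine mul_pos ?_ (by have := hx.2; positivity)
  have : ∀ y ∈ S.map fun c => pcEval n (hat n c) x, 0 < y := by
    intro y hy
    obtain ⟨c, hc, rfl⟩ := List.mem_map.mp hy
    exact hx.1 c hc
  exact List.prod_pos this

theorem isOpen_region (n : ℕ) (q : PCode) (S : SysCode) : IsOpen (region n q S) := by
  have h1 : ∀ S : SysCode, IsOpen {x : Fin n → ℝ | ∀ c ∈ S, 0 < pcEval n (hat n c) x} := by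
    intro S
    induction S with
    | nil => simp
    | cons c S ih =>
      have : {x : Fin n → ℝ | ∀ c' ∈ c :: S, 0 < pcEval n (hat n c') x} =
          {x | 0 < pcEval n (hat n c) x} ∩ {x | ∀ c ∈ S, 0 < pcEval n (hat n c) x} := by
        ext x; simp
      rw [this]
      exact (isOpen_lt continuous_const (continuous_pcEval n _)).inter ih
  exact (h1 S).inter (isOpen_ne_fun (continuous_pcEval n q) continuous_const)

theorem region_region {n : ℕ} {q : PCode} {S : SysCode} (hb : Bornology.IsBounded (region n q S)) :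
    Region (hPoly n q S) (region n q S) := by
  refine ⟨hb, fun x hx => region_pos hx, fun x hx => ?_⟩
  by_cases hU : x ∈ region n q S
  · exact Or.inl ((isOpen_region n q S).mem_nhds hU)
  · right
    rw [evR_hPoly] at hx
    have hq : pcEval n q x ≠ 0 := by
      intro h0; apply hx; rw [h0]; simp
    obtain ⟨c, hc, hneg⟩ : ∃ c ∈ S, pcEval n (hat n c) x < 0 := by
      by_contra hcon
      push Not at hcon
      apply hU
      refine ⟨fun c hc => lt_of_le_of_ne (hcon c hc) ?_, hq⟩
      intro h0
      apply hx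
      have : (S.map fun c => pcEval n (hat n c) x).prod = 0 := by
        rw [List.prod_eq_zero_iff, List.mem_map]
        exact ⟨c, hc, h0.symm⟩
      rw [this, zero_mul]
    have h1 : {y : Fin n → ℝ | pcEval n (hat n c) y < 0} ∈ 𝓝 x :=
      (isOpen_lt (continuous_pcEval n _) continuous_const).mem_nhds hneg
    filter_upwards [h1] with y hy hy2
    exact absurd (hy2.1 c hc) (not_lt.mpr (le_of_lt hy))

theorem region_ae_eq {n : ℕ} {q : PCode} (S : SysCode) (hq : pcPoly n q ≠ 0) :
    region n q S =ᵐ[volume] sysSet n S := by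
  filter_upwards [hatSet_ae_eq n S, ae_pcEval_ne_zero hq] with x hx hqx
  have h1 : x ∈ hatSet n S ↔ x ∈ sysSet n S := iff_of_eq hx
  apply propext
  change x ∈ region n q S ↔ x ∈ sysSet n S
  rw [← h1]
  simp only [region, hatSet, pcEval_hat, mem_ofPred_eq]
  exact ⟨fun h => h.1, fun h => ⟨h, hqx⟩⟩

/-! ### Fractions as functions -/

variable {n : ℕ}

/-- Evaluation of fractions at a point where `h` does not vanish. -/
noncomputable def evalAt (h : MvPolynomial (Fin n) ℚ) (x : Fin n → ℝ) (hx : evR h x ≠ 0) :
    Loc h →ₐ[ℚ] ℝ :=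
  Ideal.Quotient.liftₐ (idealH h)
    (aeval (fun o : Option (Fin n) => match o with
      | some j => x j
      | none => (evR h x)⁻¹))
    (by
      intro a ha
      obtain ⟨b, rfl⟩ := Ideal.mem_span_singleton'.mp ha
      rw [map_mul, map_sub, map_mul, emb, aeval_rename, aeval_X, map_one]
      have : (aeval ((fun o : Option (Fin n) => match o with
          | some j => x j
          | none => (evR h x)⁻¹) ∘ some) h : ℝ) = evR h x := rfl
      rw [this, mul_inv_cancel₀ hx, sub_self, mul_zero])

theorem evalAt_iota (h : MvPolynomial (Fin n) ℚ) (x : Fin n → ℝ) (hx : evR h x ≠ 0)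
    (G : MvPolynomial (Fin n) ℚ) : evalAt h x hx (iota h G) = evR G x := by
  change aeval _ (emb ℚ n G) = _
  rw [emb, aeval_rename]
  rfl

theorem evalAt_invH (h : MvPolynomial (Fin n) ℚ) (x : Fin n → ℝ) (hx : evR h x ≠ 0) :
    evalAt h x hx (invH h) = (evR h x)⁻¹ := by
  change aeval _ (X none) = _
  rw [aeval_X]

theorem evalAt_frac (h : MvPolynomial (Fin n) ℚ) (x : Fin n → ℝ) (hx : evR h x ≠ 0) (k : ℕ)
    (G : MvPolynomial (Fin n) ℚ) : evalAt h x hx (fracMap h k G) = evR G x / evR h x ^ k := by
  rw [fracMap_apply, map_mul, map_pow, evalAt_iota, evalAt_invH, inv_pow, div_eq_mul_inv]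

open Classical in
/-- The function defined by a fraction. -/
noncomputable def locFun (h : MvPolynomial (Fin n) ℚ) (v : Loc h) (x : Fin n → ℝ) : ℝ :=
  if hx : evR h x = 0 then 0 else evalAt h x hx v

theorem locFun_add (h : MvPolynomial (Fin n) ℚ) (v w : Loc h) (x : Fin n → ℝ) :
    locFun h (v + w) x = locFun h v x + locFun h w x := by
  unfold locFun
  split_ifs
  · rw [add_zero]
  · rw [map_add]

theorem locFun_smul (h : MvPolynomial (Fin n) ℚ) (q : ℚ) (v : Loc h) (x : Fin n → ℝ) :
    locFun h (q • v) x = (q : ℝ) * locFun h v x := by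
  unfold locFun
  split_ifs
  · rw [mul_zero]
  · rw [map_smul, Rat.smul_def]

theorem locFun_frac (h : MvPolynomial (Fin n) ℚ) (k : ℕ) (G : MvPolynomial (Fin n) ℚ)
    {x : Fin n → ℝ} (hx : evR h x ≠ 0) : locFun h (fracMap h k G) x = evR G x / evR h x ^ k := by
  rw [locFun, dif_neg hx, evalAt_frac]

theorem measurable_locFun (h : MvPolynomial (Fin n) ℚ) (v : Loc h) : Measurable (locFun h v) := by
  classical
  obtain ⟨G, K, rfl⟩ := exists_frac h v
  have : locFun h (iota h G * invH h ^ K) = fun x => if evR h x = 0 then 0 else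
      evR G x / evR h x ^ K := by
    ext x
    split_ifs with hx
    · rw [locFun, dif_pos hx]
    · rw [← fracMap_apply, locFun_frac h K G hx]
  rw [this]
  refine Measurable.ite ?_ measurable_const ?_
  · exact (continuous_evR h).measurable (measurableSet_singleton 0)
  · exact (continuous_evR G).measurable.div ((continuous_evR h).measurable.pow_const K)

/-- The fractions which are integrable on `U`. -/
def intSub (h : MvPolynomial (Fin n) ℚ) (U : Set (Fin n → ℝ)) : Submodule ℚ (Loc h) where
  carrier := {v | IntegrableOn (locFun h v) U}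
  add_mem' := by
    intro v w hv hw
    have : locFun h (v + w) = fun x => locFun h v x + locFun h w x := funext (locFun_add h v w)
    change IntegrableOn (locFun h (v + w)) U
    rw [this]
    exact Integrable.add hv hw
  zero_mem' := by
    have : locFun h (0 : Loc h) = fun _ => 0 := by
      ext x
      unfold locFun
      split_ifs
      · rfl
      · rw [map_zero]
    change IntegrableOn (locFun h 0) U
    rw [this]
    exact integrableOn_zero
  smul_mem' := by
    intro q v hv
    have : locFun h (q • v) = fun x => (q : ℝ) * locFun h v x := funext (locFun_smul h q v)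
    change IntegrableOn (locFun h (q • v)) U
    rw [this]
    exact Integrable.const_mul hv _

/-- The integral, as a linear form on the integrable fractions. -/
noncomputable def intForm (h : MvPolynomial (Fin n) ℚ) (U : Set (Fin n → ℝ)) :
    intSub h U →ₗ[ℚ] ℝ where
  toFun v := ∫ x in U, locFun h v x
  map_add' := by
    intro v w
    have h1 : locFun h ((v + w : intSub h U) : Loc h) = fun x => locFun h v x + locFun h w x :=
      funext (locFun_add h v w)
    rw [h1]
    exact integral_add v.2 w.2
  map_smul' := by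
    intro q v
    have h1 : locFun h ((q • v : intSub h U) : Loc h) = fun x => (q : ℝ) * locFun h v x :=
      funext (locFun_smul h q v)
    rw [h1, integral_const_mul, RingHom.id_apply, Rat.smul_def]

/-- Integrals of fractions with certificates of high order vanish. -/
theorem intForm_eq_zero {h : MvPolynomial (Fin n) ℚ} {U : Set (Fin n → ℝ)} (H : Region h U)
    {k : ℕ} {b : Polynomial ℚ} (hb0 : b ≠ 0) (hb : FEq h k b) {j : ℕ}
    (hj : b.natDegree + 1 ≤ j) (v : intSub h U) (hv : (v : Loc h) ∈ certSub h j) :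
    intForm h U v = 0 := by
  obtain ⟨p, l, hpl, c, hc, K, a, hK, w, g, hid⟩ := hv
  refine H.sound hb0 hb (measurable_locFun h v) v.2 hc hj (w := w) (g := g) (K := K) ?_
  filter_upwards [ae_restrict_mem H.measurableSet] with x hx t
  have hp := H.pos x hx
  have h1 := congrArg (fun F => evT F t x) hid
  simp only [evT_add, evT_mul, evT_pow, evT_hP, evT_beta] at h1
  rw [hpl, locFun_frac h l p hp.ne']
  have e1 : evR p x / evR h x ^ l * evR h x ^ (K + 1) = evR p x * evR h x ^ a := by
    rw [← hK, pow_add]; field_simp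
  rw [e1, ← mul_assoc, h1]
  congr 1
  rw [map_pow, Polynomial.aeval_X]

/-! ### Linear algebra -/

/-- Existence of a finite family which controls the values of a linear form. -/
theorem exists_control {V : Type*} [AddCommGroup V] [Module ℚ V] (W A : Submodule ℚ V)
    (hW : Module.Finite ℚ (V ⧸ W)) (ℓ : A →ₗ[ℚ] ℝ) (hℓ : ∀ a : A, (a : V) ∈ W → ℓ a = 0) :
    ∃ (N : ℕ) (a : Fin N → A) (flag : Fin N → Bool),
      (∀ v : A, ∃ q : Fin N → ℚ, (v : V) - ∑ i, q i • (a i : V) ∈ W) ∧
      (∀ q : Fin N → ℚ, ℓ (∑ i, q i • a i) = 0 ↔ ∀ i, flag i = false → q i = 0) := by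
  classical
  set W' : Submodule ℚ A := W.comap A.subtype with hW'
  have hfin : Module.Finite ℚ (A ⧸ W') := by
    have : Function.Injective (W'.mapQ W A.subtype le_rfl) := by
      rw [← LinearMap.ker_eq_bot, Submodule.ker_mapQ]
      exact Submodule.mkQ_map_self _
    exact Module.Finite.of_injective _ this
  have hker : W' ≤ LinearMap.ker ℓ := fun a ha => hℓ a ha
  set ℓ' : (A ⧸ W') →ₗ[ℚ] ℝ := W'.liftQ ℓ hker with hℓ'
  obtain ⟨C, hC⟩ := Submodule.exists_isCompl (LinearMap.ker ℓ')
  set bK := Module.finBasis ℚ (LinearMap.ker ℓ') with hbK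
  set bC := Module.finBasis ℚ C with hbC
  choose lift hlift using Submodule.mkQ_surjective W'
  set aK : Fin (Module.finrank ℚ (LinearMap.ker ℓ')) → A := fun i => lift (bK i) with haK
  set aC : Fin (Module.finrank ℚ C) → A := fun i => lift (bC i) with haC
  refine ⟨Module.finrank ℚ (LinearMap.ker ℓ') + Module.finrank ℚ C, Fin.append aK aC,
    Fin.append (fun _ => true) (fun _ => false), ?_, ?_⟩
  · intro v
    obtain ⟨y, hy, z, hz, hyz⟩ := Submodule.mem_sup.mp
      (show W'.mkQ v ∈ LinearMap.ker ℓ' ⊔ C by rw [hC.sup_eq_top]; trivial)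
    refine ⟨Fin.append (fun i => bK.repr ⟨y, hy⟩ i) (fun i => bC.repr ⟨z, hz⟩ i), ?_⟩
    have h1 : v - ∑ i, Fin.append (fun i => bK.repr ⟨y, hy⟩ i) (fun i => bC.repr ⟨z, hz⟩ i) i •
        Fin.append aK aC i ∈ W' := by
      rw [← Submodule.Quotient.mk_eq_zero, ← Submodule.mkQ_apply, map_sub, map_sum,
        Fin.sum_univ_add]
      simp only [Fin.append_left, Fin.append_right, map_smul]
      have e1 : ∑ i, bK.repr ⟨y, hy⟩ i • W'.mkQ (aK i) = y := by
        have := congrArg Subtype.val (bK.sum_repr ⟨y, hy⟩)
        rw [Submodule.coe_sum] at this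
        refine (Finset.sum_congr rfl fun i _ => ?_).trans this
        rw [haK, hlift]; rfl
      have e2 : ∑ i, bC.repr ⟨z, hz⟩ i • W'.mkQ (aC i) = z := by
        have := congrArg Subtype.val (bC.sum_repr ⟨z, hz⟩)
        rw [Submodule.coe_sum] at this
        refine (Finset.sum_congr rfl fun i _ => ?_).trans this
        rw [haC, hlift]; rfl
      rw [e1, e2, hyz, sub_self]
    have h2 : ((v - ∑ i, Fin.append (fun i => bK.repr ⟨y, hy⟩ i) (fun i => bC.repr ⟨z, hz⟩ i) i •
        Fin.append aK aC i : A) : V) ∈ W := h1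
    rw [Submodule.coe_sub, Submodule.coe_sum] at h2
    exact h2
  · intro q
    have h1 : ℓ (∑ i, q i • Fin.append aK aC i) =
        ℓ' (∑ i, q (Fin.natAdd (Module.finrank ℚ (LinearMap.ker ℓ')) i) • (bC i : A ⧸ W')) := by
      have e1 : ∀ a : A, ℓ a = ℓ' (W'.mkQ a) := fun a => rfl
      rw [e1, map_sum, Fin.sum_univ_add]
      simp only [Fin.append_left, Fin.append_right, map_smul]
      rw [map_add]
      have e2 : ℓ' (∑ i, q (Fin.castAdd (Module.finrank ℚ C) i) • W'.mkQ (aK i)) = 0 := by
        rw [map_sum]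
        refine Finset.sum_eq_zero fun i _ => ?_
        rw [map_smul, haK, hlift]
        have : ℓ' (bK i : A ⧸ W') = 0 := (bK i).2
        rw [this, smul_zero]
      rw [e2, zero_add]
      congr 1
      refine Finset.sum_congr rfl fun i _ => ?_
      rw [haC, hlift]
    rw [h1]
    constructor
    · intro h0 i hi
      have h2 : ∑ i, q (Fin.natAdd (Module.finrank ℚ (LinearMap.ker ℓ')) i) • (bC i : A ⧸ W') ∈
          LinearMap.ker ℓ' ⊓ C := by
        refine ⟨h0, Submodule.sum_mem _ fun i _ => Submodule.smul_mem _ _ (bC i).2⟩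
      rw [hC.inf_eq_bot, Submodule.mem_bot] at h2
      have h3 : ∑ i, q (Fin.natAdd (Module.finrank ℚ (LinearMap.ker ℓ')) i) • bC i = 0 := by
        apply Subtype.ext
        rw [Submodule.coe_sum]
        exact h2
      have h4 := Fintype.linearIndependent_iff.mp bC.linearIndependent _ h3
      revert hi
      refine Fin.addCases (fun i => ?_) (fun i => ?_) i
      · intro hi
        rw [Fin.append_left] at hi
        exact absurd hi (by simp)
      · intro _
        exact h4 i
    · intro h0
      rw [Finset.sum_eq_zero, map_zero]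
      intro i _
      rw [h0 _ (by rw [Fin.append_right]), zero_smul]

end Pool.Agent.Lib.MP_bbe012_lc
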