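import Mathlib
import Pool.Agent.Lib.MP_bbe012_lc.Geo

/-!
# Codes for derivatives and divergences
-/

namespace Pool.Agent.Lib.MP_bbe012_lc

open MvPolynomial

/-! ### Derivatives -/

/-- Decrease the exponent of `x_l`. -/
def decAt (l : ℕ) (e : List ℕ) : List ℕ :=
  (List.range e.length).map fun i => if i = l then e.getD i 0 - 1 else e.getD i 0

theorem getD_decAt (l : ℕ) (e : List ℕ) (i : ℕ) :
    (decAt l e).getD i 0 = if i = l then e.getD i 0 - 1 else e.getD i 0 := by
  unfold decAt
  by_cases h : i < e.length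
  · simp [List.getD_eq_getElem?_getD, List.getElem?_map, List.getElem?_range h]
  · have h' := not_lt.mp h
    rw [List.getD_eq_default _ _ h', List.getD_eq_default _ _ (by simpa using h')]
    split_ifs <;> rfl

/-- Derivative with respect to `x_l`. -/
def pcDer (l : ℕ) (p : PCode) : PCode :=
  p.map fun t => (qmul (qnat (t.2.getD l 0)) t.1, decAt l t.2)

theorem expVec_decAt {m l : ℕ} (hl : l < m) (e : List ℕ) :
    expVec m (decAt l e) = expVec m e - Finsupp.single ⟨l, hl⟩ 1 := by
  ext i
  rw [expVec_apply, getD_decAt, Finsupp.tsub_apply, expVec_apply, Finsupp.single_apply]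
  by_cases h : (i : ℕ) = l
  · have : (⟨l, hl⟩ : Fin m) = i := Fin.ext h.symm
    rw [if_pos h, if_pos this]
  · have : (⟨l, hl⟩ : Fin m) ≠ i := fun h2 => h (by rw [← h2])
    rw [if_neg h, if_neg this, Nat.sub_zero]

theorem pcPoly_der {m l : ℕ} (hl : l < m) (p : PCode) :
    pcPoly m (pcDer l p) = pderiv ⟨l, hl⟩ (pcPoly m p) := by
  induction p with
  | nil => simp [pcDer]
  | cons t p ih =>
    have : pcDer l (t :: p) = (qmul (qnat (t.2.getD l 0)) t.1, decAt l t.2) :: pcDer l p := rfl
    rw [this, pcPoly_cons, pcPoly_cons, ih, map_add]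
    congr 1
    rw [termPoly, termPoly, pderiv_monomial, expVec_decAt hl, qval_qmul, qval_qnat, expVec_apply,
      mul_comm]

/-! ### Sums over a range -/

/-- Concatenation of `g 0, ..., g (R - 1)`: the code of a sum. -/
def pcSumRange (R : ℕ) (g : ℕ → PCode) : PCode :=
  (List.range R).foldr (fun l acc => g l ++ acc) []

theorem pcPoly_sumRange (m R : ℕ) (g : ℕ → PCode) :
    pcPoly m (pcSumRange R g) = ∑ i : Fin R, pcPoly m (g i) := by
  have h : ∀ L : List ℕ, pcPoly m (L.foldr (fun l acc => g l ++ acc) []) =
      (L.map fun l => pcPoly m (g l)).sum := by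
    intro L
    induction L with
    | nil => simp
    | cons a L ih => rw [List.foldr_cons, pcPoly_append, ih, List.map_cons, List.sum_cons]
  rw [pcSumRange, h, ← List.sum_toFinset _ (List.nodup_range), List.toFinset_range,
    Finset.sum_range]

/-! ### Divergences -/

/-- The code of `divg h K g`, where `hc` is a code of `h` and `gs` is a list of codes of the
components of `g`. -/
def divCode (n : ℕ) (hc : PCode) (K : ℕ) (gs : List PCode) : PCode :=
  pcSumRange n fun l => pcMul hc (pcDer l (gs.getD l [])) ++
    pcMul (pcVar n ++ pcNeg (pcNat K)) (pcMul (pcDer l hc) (gs.getD l []))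

theorem pcPoly_divCode (n : ℕ) {hc : PCode} {h : MvPolynomial (Fin n) ℚ}
    (hh : pcPoly (n + 1) hc = hP h) (K : ℕ) (gs : List PCode) :
    pcPoly (n + 1) (divCode n hc K gs) = divg h K fun l => pcPoly (n + 1) (gs.getD l []) := by
  rw [divCode, pcPoly_sumRange, divg]
  refine Finset.sum_congr rfl fun l _ => ?_
  have hl : (l : ℕ) < n + 1 := by omega
  rw [pcPoly_append, pcPoly_mul, pcPoly_mul, pcPoly_mul, pcPoly_append, pcPoly_neg, pcPoly_nat,
    pcPoly_der hl, pcPoly_der hl, pcPoly_var (Nat.lt_succ_self n), hh, sub_eq_add_neg]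
  rw [map_natCast]
  rfl

/-! ### Polynomials in fewer variables -/

theorem pcPoly_trunc_hP (n : ℕ) (p : PCode) : pcPoly (n + 1) (pcTrunc n p) = hP (pcPoly n p) := by
  induction p with
  | nil => simp [pcTrunc, hP]
  | cons t p ih =>
    have : pcTrunc n (t :: p) = (t.1, t.2.take n) :: pcTrunc n p := rfl
    rw [this, pcPoly_cons, pcPoly_cons, ih]
    unfold hP
    rw [map_add]
    congr 1
    have h1 : expVec (n + 1) (t.2.take n) = Finsupp.mapDomain Fin.castSucc (expVec n t.2) := by
      ext i
      rw [expVec_apply, getD_take]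
      refine Fin.lastCases ?_ (fun i => ?_) i
      · rw [if_neg (by simp), Finsupp.mapDomain_of_notMem_range]
        rintro ⟨a, ha⟩
        exact absurd ha (Fin.castSucc_lt_last a).ne
      · rw [if_pos (by simp), Finsupp.mapDomain_apply (Fin.castSucc_injective n)]
        rfl
    rw [termPoly, termPoly, rename_monomial]
    simp only [h1]

/-- The polynomial in one variable coded by `A` (exponents other than the first are ignored). -/
noncomputable def polyOf (A : PCode) : Polynomial ℚ :=
  (A.map fun t => Polynomial.C (qval t.1) * Polynomial.X ^ t.2.getD 0 0).sum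

theorem pcPoly_shift_beta (n : ℕ) (A : PCode) :
    pcPoly (n + 1) (pcShift n 1 A) = beta n (polyOf A) := by
  induction A with
  | nil => simp [pcShift, polyOf]
  | cons t p ih =>
    have h1 : pcShift n 1 (t :: p) = (t.1, List.replicate n 0 ++ t.2.take 1) :: pcShift n 1 p := rfl
    have h2 : polyOf (t :: p) = Polynomial.C (qval t.1) * Polynomial.X ^ t.2.getD 0 0 + polyOf p := by
      simp [polyOf]
    rw [h1, h2, pcPoly_cons, ih, map_add]
    congr 1
    have h3 : expVec (n + 1) (List.replicate n 0 ++ t.2.take 1) =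
        Finsupp.single (Fin.last n) (t.2.getD 0 0) := by
      ext i
      rw [expVec_apply, getD_shift, Finsupp.single_apply]
      refine Fin.lastCases ?_ (fun i => ?_) i
      · rw [if_neg (by simp), if_pos rfl, getD_take]
        simp
      · rw [if_pos (by simp), if_neg (Fin.castSucc_lt_last i).ne']
    rw [termPoly]
    simp only [h3]
    rw [map_mul, map_pow]
    simp only [beta, AlgHom.toRingHom_eq_coe, RingHom.coe_coe, Polynomial.aeval_C,
      Polynomial.aeval_X, algebraMap_eq]
    rw [X_pow_eq_monomial, C_mul_monomial, mul_one]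

theorem exists_polyOf (b : Polynomial ℚ) : ∃ A : PCode, polyOf A = b := by
  induction b using Polynomial.induction_on' with
  | add p q hp hq =>
    obtain ⟨a, ha⟩ := hp
    obtain ⟨b, hb⟩ := hq
    exact ⟨a ++ b, by simp [polyOf, ← ha, ← hb]⟩
  | monomial k a =>
    obtain ⟨c, hc⟩ := exists_qval a
    exact ⟨[(c, [k])], by simp [polyOf, hc, Polynomial.C_mul_X_pow_eq_monomial]⟩

/-! ### The product attached to a geometry -/

/-- The code of `hPoly`, not involving the last variable. -/
def hCode (n : ℕ) (q : PCode) (S : SysCode) : PCode :=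
  pcTrunc n (pcMul (S.foldr (fun c acc => pcMul (hat n c) acc) (pcNat 1)) (pcPow q 2))

theorem pcPoly_hCode (n : ℕ) (q : PCode) (S : SysCode) :
    pcPoly (n + 1) (hCode n q S) = hP (hPoly n q S) := by
  rw [hCode, pcPoly_trunc_hP, pcPoly_mul, pcPoly_pow, hPoly]
  congr 2
  induction S with
  | nil => simp
  | cons c S ih => simp [ih]

end Pool.Agent.Lib.MP_bbe012_lc
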