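import Mathlib
import Pool.Agent.Lib.MP_bbe012_lc.DerCode

/-!
# Certificates for linear relations between integrals, and their verification
-/

namespace Pool.Agent.Lib.MP_bbe012_lc

open MeasureTheory MvPolynomial Set Filter Topology

/-- Data attached to a geometry: an exponent `k`, an order `j`, and numerators `p_i`; they
stand for the fractions `p_i / h^k`. -/
abbrev HEntry := Geo × (ℕ × ℕ) × List PCode

/-- Data attached to two geometries, together with flags. -/
abbrev PEntry := (HEntry × HEntry) × List Bool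

/-- Certificate `((s, K), (A, w), gs)`. -/
abbrev HCert := (ℕ × ℕ) × (PCode × PCode) × List PCode

/-- Code of the combination of the polynomials `ps` with coefficients `qs`. -/
def comboCode (n : ℕ) (qs : List QCode) (ps : List PCode) : PCode :=
  pcSumRange ps.length fun i => pcMul [(qs.getD i (qnat 0), [])] (pcTrunc n (ps.getD i []))

/-- Left side of the identity to be verified. -/
def lhsCode (n : ℕ) (hc P Q : PCode) (k : ℕ) (ps : List PCode) (qs : List QCode) (c : HCert) :
    PCode :=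
  pcMul (pcMul (pcPow (pcVar n) c.1.1) (pcNat 1 ++ pcMul (pcVar n) (pcShift n 1 c.2.1.1)))
    (pcMul (pcTrunc n P) (pcPow hc (k + c.1.2 + 1)) ++
      pcNeg (pcMul (pcMul (pcTrunc n Q) (comboCode n qs ps)) (pcPow hc (c.1.2 + 1))))

/-- Right side of the identity to be verified. -/
def rhsCode (n : ℕ) (hc Q : PCode) (k j : ℕ) (c : HCert) : PCode :=
  pcMul (pcTrunc n Q)
    (pcMul (pcPow (pcVar n) (c.1.1 + j)) c.2.1.2 ++ divCode n hc (k + c.1.2) c.2.2)

/-- The difference of both sides. -/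
def diffCode (e : HEntry) (qs : List QCode) (I : IntCode) (c : HCert) : PCode :=
  lhsCode e.1.1 (hCode e.1.1 e.1.2.1 e.1.2.2) I.2.1.1 I.2.1.2 e.2.1.1 e.2.2 qs c ++
    pcNeg (rhsCode e.1.1 (hCode e.1.1 e.1.2.1 e.1.2.2) I.2.1.2 e.2.1.1 e.2.1.2 c)

/-- The certificate `c` shows that `I` is the combination, with coefficients `qs`, of the
fractions of the entry `e`. -/
def check (e : HEntry) (qs : List QCode) (I : IntCode) (c : HCert) : Prop :=
  (I.1 = e.1.1 ∧ I.2.2 = e.1.2.2) ∧ pcIsZero (e.1.1 + 1) (diffCode e qs I c)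

theorem pcPoly_const (m : ℕ) (c : QCode) : pcPoly m [(c, [])] = C (qval c) := by
  have h : expVec m [] = 0 := by ext i; simp
  simp only [pcPoly_cons, pcPoly_nil, add_zero, termPoly, h]
  rw [C_apply]

theorem hP_sum {n : ℕ} {ι : Type} (s : Finset ι) (f : ι → MvPolynomial (Fin n) ℚ) :
    hP (∑ i ∈ s, f i) = ∑ i ∈ s, hP (f i) := by unfold hP; exact map_sum _ _ _

theorem hP_mul {n : ℕ} (p q : MvPolynomial (Fin n) ℚ) : hP (p * q) = hP p * hP q := by
  unfold hP; exact map_mul _ _ _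

theorem hP_sub {n : ℕ} (p q : MvPolynomial (Fin n) ℚ) : hP (p - q) = hP p - hP q := by
  unfold hP; exact map_sub _ _ _

theorem hP_pow {n : ℕ} (p : MvPolynomial (Fin n) ℚ) (k : ℕ) : hP (p ^ k) = hP p ^ k := by
  unfold hP; exact map_pow _ _ _

theorem hP_C {n : ℕ} (q : ℚ) : hP (C q : MvPolynomial (Fin n) ℚ) = C q := by
  unfold hP; rw [rename_C]

theorem pcPoly_combo (n : ℕ) (qs : List QCode) (ps : List PCode) :
    pcPoly (n + 1) (comboCode n qs ps) =
      hP (∑ i ∈ Finset.range ps.length, C (qval (qs.getD i (qnat 0))) * pcPoly n (ps.getD i [])) := by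
  rw [comboCode, pcPoly_sumRange, hP_sum, Finset.sum_range]
  refine Finset.sum_congr rfl fun i _ => ?_
  rw [pcPoly_mul, pcPoly_const, pcPoly_trunc_hP, hP_mul, hP_C]

/-- The identity verified by the check. -/
theorem check_iff (n : ℕ) (q : PCode) (S : SysCode) (k j : ℕ) (ps : List PCode) (P Q : PCode)
    (qs : List QCode) (s K : ℕ) (A w : PCode) (gs : List PCode) :
    check ((n, q, S), (k, j), ps) qs (n, (P, Q), S) ((s, K), (A, w), gs) ↔
      beta n (Polynomial.X ^ s * (1 + Polynomial.X * polyOf A)) *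
        (hP (pcPoly n P) * hP (hPoly n q S) ^ (k + K + 1) -
          hP (pcPoly n Q) * hP (∑ i ∈ Finset.range ps.length,
            C (qval (qs.getD i (qnat 0))) * pcPoly n (ps.getD i [])) * hP (hPoly n q S) ^ (K + 1)) =
      hP (pcPoly n Q) * (beta n (Polynomial.X ^ (s + j)) * pcPoly (n + 1) w +
        divg (hPoly n q S) (k + K) fun l => pcPoly (n + 1) (gs.getD l [])) := by
  have hb : beta n Polynomial.X = X (Fin.last n) := by simp [beta]
  have e1 : check ((n, q, S), (k, j), ps) qs (n, (P, Q), S) ((s, K), (A, w), gs) ↔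
      pcIsZero (n + 1) (diffCode ((n, q, S), (k, j), ps) qs (n, (P, Q), S) ((s, K), (A, w), gs)) :=
    ⟨fun h => h.2, fun h => ⟨⟨rfl, rfl⟩, h⟩⟩
  rw [e1, pcIsZero_iff, diffCode, pcPoly_append, pcPoly_neg, lhsCode, rhsCode]
  simp only [pcPoly_mul, pcPoly_append, pcPoly_neg, pcPoly_pow, pcPoly_trunc_hP, pcPoly_hCode,
    pcPoly_combo, pcPoly_shift_beta, pcPoly_nat, pcPoly_var (Nat.lt_succ_self n),
    pcPoly_divCode n (pcPoly_hCode n q S)]
  rw [← sub_eq_add_neg, sub_eq_zero, ← sub_eq_add_neg]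
  have e2 : (X ⟨n, Nat.lt_succ_self n⟩ : Pt n) = beta n Polynomial.X := by rw [hb]; rfl
  rw [e2]
  simp only [map_mul, map_pow, map_add, map_one, Nat.cast_one]

/-- Trailing degree of the multiplier. -/
theorem natTrailingDegree_mult (s : ℕ) (A : Polynomial ℚ) :
    (Polynomial.X ^ s * (1 + Polynomial.X * A)).natTrailingDegree = s ∧
      Polynomial.X ^ s * (1 + Polynomial.X * A) ≠ 0 := by
  have h0 : (1 + Polynomial.X * A).coeff 0 ≠ 0 := by simp
  have h1 : (1 + Polynomial.X * A : Polynomial ℚ) ≠ 0 := by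
    intro h; rw [h] at h0; simp at h0
  refine ⟨?_, mul_ne_zero (pow_ne_zero _ Polynomial.X_ne_zero) h1⟩
  rw [Polynomial.natTrailingDegree_mul (pow_ne_zero _ Polynomial.X_ne_zero) h1,
    Polynomial.natTrailingDegree_X_pow, Polynomial.natTrailingDegree_eq_zero.mpr (Or.inr h0),
    add_zero]

theorem locFun_combo {n : ℕ} (h : MvPolynomial (Fin n) ℚ) {N k : ℕ} (q : Fin N → ℚ) (v : Fin N → Loc h)
    (p : Fin N → MvPolynomial (Fin n) ℚ) (hv : ∀ i, v i = fracMap h k (p i)) {x : Fin n → ℝ}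
    (hx : evR h x ≠ 0) :
    locFun h (∑ i, q i • v i) x = evR (∑ i, C (q i) * p i) x / evR h x ^ k := by
  have h1 : ∑ i, q i • v i = fracMap h k (∑ i, C (q i) * p i) := by
    rw [map_sum]
    refine Finset.sum_congr rfl fun i _ => ?_
    rw [← smul_eq_C_mul, map_smul, hv]
  rw [h1, locFun_frac h k _ hx]

theorem value_eq_region {n : ℕ} {q : PCode} {S : SysCode} (hq : pcPoly n q ≠ 0) (P Q : PCode) :
    value (n, (P, Q), S) = ∫ x in region n q S, pcEval n P x / pcEval n Q x :=
  (setIntegral_congr_set (region_ae_eq S hq)).symm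

theorem integrable_region {n : ℕ} {q : PCode} {S : SysCode} (hq : pcPoly n q ≠ 0) {P Q : PCode}
    (h : Admissible (n, (P, Q), S)) :
    IntegrableOn (fun x => pcEval n P x / pcEval n Q x) (region n q S) :=
  (integrableOn_congr_set_ae (region_ae_eq S hq)).mpr h.2

theorem check_sound_aux {n : ℕ} {h : MvPolynomial (Fin n) ℚ} {U : Set (Fin n → ℝ)}
    (H : Region h U) {kk : ℕ} {b : Polynomial ℚ} (hb0 : b ≠ 0)
    (hFE : FEq h kk b) {k j : ℕ} (hj : b.natDegree + 1 ≤ j)
    {P Q : PCode} (hQ0 : pcPoly n Q ≠ 0)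
    (hint : IntegrableOn (fun x => pcEval n P x / pcEval n Q x) U) {N : ℕ} (r : Fin N → ℚ)
    (p : Fin N → MvPolynomial (Fin n) ℚ) (v : Fin N → intSub h U)
    (hv : ∀ i, (v i : Loc h) = fracMap h k (p i)) {s K : ℕ} {A : Polynomial ℚ} {w : Pt n}
    {g : Fin n → Pt n}
    (hchk : beta n (Polynomial.X ^ s * (1 + Polynomial.X * A)) *
        (hP (pcPoly n P) * hP h ^ (k + K + 1) -
          hP (pcPoly n Q) * hP (∑ i, C (r i) * p i) * hP h ^ (K + 1)) =
      hP (pcPoly n Q) * (beta n (Polynomial.X ^ (s + j)) * w + divg h (k + K) g)) :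
    ∫ x in U, pcEval n P x / pcEval n Q x = intForm h U (∑ i : Fin N, r i • v i) := by
  set v0 : intSub h U := ∑ i : Fin N, r i • v i with hv0
  have hv0' : (v0 : Loc h) = ∑ i : Fin N, r i • (v i : Loc h) := by
    rw [hv0, Submodule.coe_sum]; rfl
  set G : MvPolynomial (Fin n) ℚ := ∑ i : Fin N, C (r i) * p i with hG
  have hsub : ∫ x in U, (pcEval n P x / pcEval n Q x - locFun h v0 x) = 0 := by
    obtain ⟨hs, hc⟩ := natTrailingDegree_mult s A
    refine H.sound (K := k + K) (w := w) (g := g) hb0 hFE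
      (((measurable_pcEval n P).div (measurable_pcEval n Q)).sub (measurable_locFun h v0))
      (Integrable.sub hint v0.2) hc hj ?_
    have hQ := ae_restrict_of_ae (s := U) (ae_pcEval_ne_zero hQ0)
    filter_upwards [ae_restrict_mem H.measurableSet, hQ] with x hx hQx t
    have hp := H.pos x hx
    have h1 := congrArg (fun F => evT F t x) hchk
    have e0 : ∀ F : Pt n, evT (-F) t x = - evT F t x := fun F => map_neg _ F
    simp only [evT_add, evT_mul, evT_pow, evT_hP, evT_beta, sub_eq_add_neg, e0] at h1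
    rw [hv0', locFun_combo h _ _ p hv hp.ne', ← hG, hs]
    rw [map_pow, Polynomial.aeval_X] at h1
    have hP' : evR (pcPoly n P) x = pcEval n P x := rfl
    have hQ' : evR (pcPoly n Q) x = pcEval n Q x := rfl
    rw [hP', hQ'] at h1
    have e2 : (pcEval n P x / pcEval n Q x - evR G x / evR h x ^ k) * evR h x ^ (k + K + 1) =
        (pcEval n P x * evR h x ^ (k + K + 1) + -(pcEval n Q x * evR G x * evR h x ^ (K + 1))) /
          pcEval n Q x := by
      have e3 : evR h x ^ (k + K + 1) = evR h x ^ k * evR h x ^ (K + 1) := by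
        rw [← pow_add, add_assoc]
      rw [e3]
      field_simp
      ring
    rw [e2, ← mul_div_assoc, h1]
    field_simp
  rw [integral_sub hint v0.2, sub_eq_zero] at hsub
  exact hsub

/-- Soundness of the verification. -/
theorem check_sound {n : ℕ} {q : PCode} {S : SysCode} (hq : pcPoly n q ≠ 0)
    (hbd : Bornology.IsBounded (region n q S)) {kk : ℕ} {b : Polynomial ℚ} (hb0 : b ≠ 0)
    (hFE : FEq (hPoly n q S) kk b) {k j : ℕ} (hj : b.natDegree + 1 ≤ j) {ps : List PCode}
    {P Q : PCode} (hadm : Admissible (n, (P, Q), S)) {qs : List QCode} {c : HCert} {N : ℕ}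
    (hN : ps.length = N) (v : Fin N → intSub (hPoly n q S) (region n q S))
    (hv : ∀ i, (v i : Loc (hPoly n q S)) = fracMap (hPoly n q S) k (pcPoly n (ps.getD i [])))
    (hchk : check ((n, q, S), (k, j), ps) qs (n, (P, Q), S) c) :
    value (n, (P, Q), S) = intForm (hPoly n q S) (region n q S)
      (∑ i : Fin N, qval (qs.getD i (qnat 0)) • v i) := by
  obtain ⟨⟨s, K⟩, ⟨A, w⟩, gs⟩ := c
  rw [check_iff, hN, Finset.sum_range] at hchk
  rw [value_eq_region hq]
  exact check_sound_aux (region_region hbd) hb0 hFE hj hadm.1 (integrable_region hq hadm) _ _ v hv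
    hchk

/-- The fraction `P / Q` has a denominator which is a power of `h`. -/
theorem exists_numerator {n : ℕ} {q : PCode} (S : SysCode) (P : MvPolynomial (Fin n) ℚ)
    {Q : MvPolynomial (Fin n) ℚ} {k0 : ℕ} (hd : Q ∣ pcPoly n q ^ k0) :
    ∃ G : MvPolynomial (Fin n) ℚ, Q * G = P * hPoly n q S ^ k0 := by
  obtain ⟨R, hR⟩ := hd
  refine ⟨P * R * pcPoly n q ^ k0 * (S.map fun c => pcPoly n (hat n c)).prod ^ k0, ?_⟩
  have : hPoly n q S ^ k0 =
      (S.map fun c => pcPoly n (hat n c)).prod ^ k0 * (pcPoly n q ^ k0 * pcPoly n q ^ k0) := by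
    rw [hPoly]; ring
  rw [this]
  calc _ = (Q * R) * (P * pcPoly n q ^ k0 * (S.map fun c => pcPoly n (hat n c)).prod ^ k0) := by ring
    _ = _ := by rw [← hR]; ring

theorem beta_X_pow_mul (n : ℕ) (s : ℕ) (c : Polynomial ℚ) :
    beta n (Polynomial.X ^ s * c) = beta n Polynomial.X ^ s * beta n c := by
  rw [map_mul, map_pow]

/-- Normalisation of the multiplier. -/
theorem normalise {c : Polynomial ℚ} (hc : c ≠ 0) :
    ∃ (a : ℚ) (A : Polynomial ℚ),
      Polynomial.C a * c = Polynomial.X ^ c.natTrailingDegree * (1 + Polynomial.X * A) := by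
  obtain ⟨c', hc'⟩ := eq_X_pow_mul c
  have h0 : c'.coeff 0 ≠ 0 := by
    intro h0
    have h1 : c.coeff c.natTrailingDegree = c'.coeff 0 := by
      conv_lhs => rw [hc']
      rw [Polynomial.coeff_X_pow_mul', if_pos, Nat.sub_eq_zero_of_le]
      all_goals first | exact le_of_eq (congrArg _ hc'.symm) | exact le_of_eq (congrArg _ hc')
    exact (Polynomial.trailingCoeff_nonzero_iff_nonzero.mpr hc) (h1.trans h0)
  obtain ⟨e, he⟩ := coeff_zero_split c'
  refine ⟨(c'.coeff 0)⁻¹, Polynomial.C (c'.coeff 0)⁻¹ * e, ?_⟩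
  calc Polynomial.C (c'.coeff 0)⁻¹ * c
      = Polynomial.C (c'.coeff 0)⁻¹ * (Polynomial.X ^ c.natTrailingDegree * c') := by rw [← hc']
    _ = Polynomial.C (c'.coeff 0)⁻¹ * (Polynomial.X ^ c.natTrailingDegree *
          (Polynomial.C (c'.coeff 0) + Polynomial.X * e)) := by rw [← he]
    _ = Polynomial.X ^ c.natTrailingDegree * (Polynomial.C ((c'.coeff 0)⁻¹ * c'.coeff 0) +
          Polynomial.X * (Polynomial.C (c'.coeff 0)⁻¹ * e)) := by
        rw [Polynomial.C_mul]; ring
    _ = _ := by rw [inv_mul_cancel₀ h0, Polynomial.C_1]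

/-- Completeness of the verification. -/
theorem check_complete {n : ℕ} {q : PCode} {S : SysCode} (hq : pcPoly n q ≠ 0) {k j : ℕ}
    {ps : List PCode} {P Q : PCode} {qs : List QCode} {k0 : ℕ} {G : MvPolynomial (Fin n) ℚ}
    (hG : pcPoly n Q * G = pcPoly n P * hPoly n q S ^ k0)
    (hmem : fracMap (hPoly n q S) k0 G - ∑ i ∈ Finset.range ps.length,
      qval (qs.getD i (qnat 0)) • fracMap (hPoly n q S) k (pcPoly n (ps.getD i [])) ∈
        certSub (hPoly n q S) j) :
    ∃ c : HCert, check ((n, q, S), (k, j), ps) qs (n, (P, Q), S) c := by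
  set h := hPoly n q S with hh
  have h0 : h ≠ 0 := hPoly_ne_zero S hq
  set F : MvPolynomial (Fin n) ℚ := ∑ i ∈ Finset.range ps.length,
    C (qval (qs.getD i (qnat 0))) * pcPoly n (ps.getD i []) with hF
  have e1 : ∑ i ∈ Finset.range ps.length,
      qval (qs.getD i (qnat 0)) • fracMap h k (pcPoly n (ps.getD i [])) = fracMap h k F := by
    rw [hF, map_sum]
    refine Finset.sum_congr rfl fun i _ => ?_
    rw [← smul_eq_C_mul, map_smul]
  rw [e1, fracMap_shift h k0 k, fracMap_shift h k k0, add_comm k k0, ← map_sub,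
    mem_certSub h0] at hmem
  obtain ⟨c, hc, K1, a1, hK1, hcert⟩ := hmem
  obtain ⟨w, g, hid⟩ := hcert.shift 1
  obtain ⟨a, A, hA⟩ := normalise hc
  obtain ⟨Ac, hAc⟩ := exists_polyOf A
  obtain ⟨wc, hwc⟩ := exists_pcPoly (beta n (Polynomial.C a) * w)
  choose gc hgc using fun l : Fin n => exists_pcPoly (beta n (Polynomial.C a) * g l)
  refine ⟨((c.natTrailingDegree, k0 + a1), (Ac, wc), List.ofFn gc), ?_⟩
  rw [check_iff, ← hh, ← hF, hAc, hwc, ← hA]
  have hgl : (fun l : Fin n => pcPoly (n + 1) ((List.ofFn gc).getD l [])) =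
      fun l => beta n (Polynomial.C a) * g l := by
    ext1 l
    rw [← hgc l]
    congr 1
    simp [List.getD_eq_getElem?_getD]
  rw [hgl, divg_smul]
  have eK : k + (k0 + a1) = K1 + 1 := by omega
  rw [eK]
  have hGP : hP (pcPoly n Q) * hP G = hP (pcPoly n P) * hP h ^ k0 := by
    rw [← hP_mul, hG, hP_mul, hP_pow]
  have e2 : hP (pcPoly n P) * hP h ^ (K1 + 1 + 1) - hP (pcPoly n Q) * hP F * hP h ^ (k0 + a1 + 1) =
      hP (pcPoly n Q) * (hP (G * h ^ k - F * h ^ k0) * hP h ^ (a1 + 1)) := by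
    rw [hP_sub, hP_mul, hP_mul, hP_pow, hP_pow]
    have e3 : K1 + 1 + 1 = k0 + (k + a1 + 1) := by omega
    calc _ = (hP (pcPoly n P) * hP h ^ k0) * hP h ^ (k + a1 + 1) -
          hP (pcPoly n Q) * hP F * hP h ^ (k0 + a1 + 1) := by rw [e3, pow_add]; ring
      _ = _ := by rw [← hGP]; ring
  rw [e2]
  calc _ = hP (pcPoly n Q) * (beta n (Polynomial.C a) *
        (beta n c * hP (G * h ^ k - F * h ^ k0) * hP h ^ (a1 + 1))) := by
        rw [map_mul]; ring
    _ = _ := by rw [hid]; ring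

end Pool.Agent.Lib.MP_bbe012_lc
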