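import Mathlib
import Pool.Agent.Lib.MP_bbe012_lc.Check

/-!
# Existence of the finite data attached to two bounded geometries
-/

namespace Pool.Agent.Lib.MP_bbe012_lc

open MeasureTheory MvPolynomial Set Filter Topology

/-- The explicit integral `I` has geometry `g`: number of variables and system of inequalities are
those of `g`, and the denominator divides a power of the denominator of `g`. -/
def HasGeometry (I : IntCode) (g : Geo) : Prop :=
  I.1 = g.1 ∧ I.2.2 = g.2.2 ∧ ∃ k : ℕ, pcPoly g.1 I.2.1.2 ∣ pcPoly g.1 g.2.1 ^ k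

/-- The answer read off from flags and coefficients. -/
def answer (fl : List Bool) (qs : List QCode) : Prop :=
  ∀ i < fl.length, fl.getD i true = false →
    (qs.getD i (qnat 0)).1.1 = (qs.getD i (qnat 0)).1.2

/-- Verification of two integrals at once. -/
def pairCheck (e : PEntry) (I J : IntCode) (c : List QCode × HCert × HCert) : Prop :=
  check e.1.1 c.1 I c.2.1 ∧ check e.1.2 c.1 J c.2.2

/-- The data attached to the pair of geometries are sound. -/
def EntrySound (e : PEntry) : Prop :=
  ∀ I J c, Admissible I → Admissible J → pairCheck e I J c →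
    (value I = value J ↔ answer e.2 c.1)

/-- The data attached to the pair of geometries are complete. -/
def EntryComplete (e : PEntry) (g g' : Geo) : Prop :=
  ∀ I J, Admissible I → Admissible J → HasGeometry I g → HasGeometry J g' →
    ∃ c, pairCheck e I J c

theorem finite_prod_quotient {V V' : Type*} [AddCommGroup V] [Module ℚ V] [AddCommGroup V']
    [Module ℚ V'] (W : Submodule ℚ V) (W' : Submodule ℚ V') (h : Module.Finite ℚ (V ⧸ W))
    (h' : Module.Finite ℚ (V' ⧸ W')) : Module.Finite ℚ ((V × V') ⧸ W.prod W') := by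
  have hk : W.prod W' = LinearMap.ker (LinearMap.prodMap W.mkQ W'.mkQ) := by
    rw [LinearMap.ker_prodMap, Submodule.ker_mkQ, Submodule.ker_mkQ]
  have : Function.Injective ((W.prod W').liftQ (LinearMap.prodMap W.mkQ W'.mkQ) hk.le) := by
    rw [← LinearMap.ker_eq_bot]
    exact Submodule.ker_liftQ_eq_bot _ _ _ hk.ge
  exact Module.Finite.of_injective _ this

/-- The fraction defined by an admissible integral with the given geometry is integrable. -/
theorem mem_intSub {n : ℕ} {q : PCode} {S : SysCode} (hq : pcPoly n q ≠ 0)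
    {P Q : PCode} (hadm : Admissible (n, (P, Q), S)) {k0 : ℕ} {G : MvPolynomial (Fin n) ℚ}
    (hG : pcPoly n Q * G = pcPoly n P * hPoly n q S ^ k0) :
    fracMap (hPoly n q S) k0 G ∈ intSub (hPoly n q S) (region n q S) := by
  change IntegrableOn (locFun (hPoly n q S) (fracMap (hPoly n q S) k0 G)) (region n q S)
  refine (integrable_region hq hadm).congr ?_
  have hQ := ae_restrict_of_ae (s := region n q S) (ae_pcEval_ne_zero hadm.1)
  filter_upwards [ae_restrict_mem (isOpen_region n q S).measurableSet, hQ] with x hx hQx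
  have hp := region_pos hx
  rw [locFun_frac _ _ _ hp.ne']
  have h1 : evR (pcPoly n Q * G) x = evR (pcPoly n P * hPoly n q S ^ k0) x := by rw [hG]
  have h2 : evR (pcPoly n Q) x * evR G x = evR (pcPoly n P) x * evR (hPoly n q S) x ^ k0 := by
    unfold evR at h1 ⊢
    rw [map_mul, map_mul, map_pow] at h1
    exact h1
  have hP' : evR (pcPoly n P) x = pcEval n P x := rfl
  have hQ' : evR (pcPoly n Q) x = pcEval n Q x := rfl
  rw [hP', hQ'] at h2
  change pcEval n Q x ≠ 0 at hQx
  rw [div_eq_div_iff hQx (pow_ne_zero _ hp.ne')]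
  rw [← h2]; ring

theorem getD_ofFn {α : Type*} {N : ℕ} (f : Fin N → α) (i : Fin N) (d : α) :
    (List.ofFn f).getD i d = f i := by
  simp [List.getD_eq_getElem?_getD]

/-- Existence of the data attached to two bounded geometries. -/
theorem exists_entry {n n' : ℕ} {q q' : PCode} {S S' : SysCode} (hq : pcPoly n q ≠ 0)
    (hq' : pcPoly n' q' ≠ 0) (hb : Bornology.IsBounded (region n q S))
    (hb' : Bornology.IsBounded (region n' q' S')) :
    ∃ e : PEntry, EntrySound e ∧ EntryComplete e (n, q, S) (n', q', S') := by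
  obtain ⟨kk, b, hb0, hFE⟩ := functional_equation (hPoly_ne_zero S hq)
  obtain ⟨kk', b', hb0', hFE'⟩ := functional_equation (hPoly_ne_zero S' hq')
  -- the space of pairs
  have hWfin := finite_prod_quotient _ _
    (certSub_finite (hPoly_ne_zero S hq) (b.natDegree + 1))
    (certSub_finite (hPoly_ne_zero S' hq') (b'.natDegree + 1))
  set A := (intSub (hPoly n q S) (region n q S)).prod (intSub (hPoly n' q' S') (region n' q' S'))
    with hA
  set π : A →ₗ[ℚ] intSub (hPoly n q S) (region n q S) :=
    LinearMap.codRestrict _ ((LinearMap.fst ℚ _ _).comp A.subtype) (fun a => a.2.1) with hπ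
  set π' : A →ₗ[ℚ] intSub (hPoly n' q' S') (region n' q' S') :=
    LinearMap.codRestrict _ ((LinearMap.snd ℚ _ _).comp A.subtype) (fun a => a.2.2) with hπ'
  set ℓ : A →ₗ[ℚ] ℝ := (intForm (hPoly n q S) (region n q S)).comp π -
    (intForm (hPoly n' q' S') (region n' q' S')).comp π' with hℓ
  obtain ⟨N, a, flag, hspan, hzero⟩ := exists_control _ A hWfin ℓ (by
    intro a ha
    have h1 := intForm_eq_zero (region_region hb) hb0 hFE le_rfl (π a) ha.1
    have h2 := intForm_eq_zero (region_region hb') hb0' hFE' le_rfl (π' a) ha.2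
    rw [hℓ, LinearMap.sub_apply, LinearMap.comp_apply, LinearMap.comp_apply, h1, h2, sub_zero])
  obtain ⟨k, p, hp⟩ := exists_frac_common N fun i => ((π (a i) : Loc (hPoly n q S)))
  obtain ⟨k', p', hp'⟩ := exists_frac_common N fun i => ((π' (a i) : Loc (hPoly n' q' S')))
  choose pc hpc using fun i => exists_pcPoly (p i)
  choose pc' hpc' using fun i => exists_pcPoly (p' i)
  refine ⟨((((n, q, S), (k, b.natDegree + 1), List.ofFn pc),
    ((n', q', S'), (k', b'.natDegree + 1), List.ofFn pc')), List.ofFn flag), ?_, ?_⟩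
  · -- soundness
    rintro I J ⟨qs, c, c'⟩ hI hJ ⟨h1, h2⟩
    obtain ⟨m, ⟨P, Q⟩, T⟩ := I
    obtain ⟨m', ⟨P', Q'⟩, T'⟩ := J
    obtain ⟨⟨rfl, rfl⟩, hz⟩ := id h1
    obtain ⟨⟨rfl, rfl⟩, hz'⟩ := id h2
    have e1 := check_sound hq hb hb0 hFE le_rfl hI (List.length_ofFn (f := pc))
      (fun i => π (a i)) (fun i => by rw [getD_ofFn, hpc]; exact hp i) h1
    have e2 := check_sound hq' hb' hb0' hFE' le_rfl hJ (List.length_ofFn (f := pc'))
      (fun i => π' (a i)) (fun i => by rw [getD_ofFn, hpc']; exact hp' i) h2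
    rw [e1, e2, ← sub_eq_zero]
    have e3 : ℓ (∑ i : Fin N, qval (qs.getD i (qnat 0)) • a i) =
        intForm _ _ (∑ i : Fin N, qval (qs.getD i (qnat 0)) • π (a i)) -
        intForm _ _ (∑ i : Fin N, qval (qs.getD i (qnat 0)) • π' (a i)) := by
      rw [hℓ, LinearMap.sub_apply, LinearMap.comp_apply, LinearMap.comp_apply]
      simp only [map_sum, map_smul]
    rw [← e3, hzero]
    constructor
    · intro h i hi hf
      rw [List.length_ofFn] at hi
      have := h ⟨i, hi⟩ (by rw [← getD_ofFn flag ⟨i, hi⟩ true]; exact hf)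
      exact (qval_eq_zero_iff _).mp this
    · intro h i hf
      exact (qval_eq_zero_iff _).mpr (h i (by rw [List.length_ofFn]; exact i.2)
        (by rw [getD_ofFn]; exact hf))
  · -- completeness
    rintro I J hI hJ ⟨hI1, hI2, k0, hI3⟩ ⟨hJ1, hJ2, k0', hJ3⟩
    obtain ⟨m, ⟨P, Q⟩, T⟩ := I
    obtain ⟨m', ⟨P', Q'⟩, T'⟩ := J
    simp only at hI1 hI2 hI3 hJ1 hJ2 hJ3
    subst hI1 hI2 hJ1 hJ2
    obtain ⟨G, hG⟩ := exists_numerator T (pcPoly m P) hI3
    obtain ⟨G', hG'⟩ := exists_numerator T' (pcPoly m' P') hJ3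
    obtain ⟨r, hr⟩ := hspan ⟨(fracMap (hPoly m q T) k0 G, fracMap (hPoly m' q' T') k0' G'),
      mem_intSub hq hI hG, mem_intSub hq' hJ hG'⟩
    choose rc hrc using fun i => exists_qval (r i)
    have hr1 := hr.1
    have hr2 := hr.2
    have e1 : fracMap (hPoly m q T) k0 G - ∑ i ∈ Finset.range (List.ofFn pc).length,
        qval ((List.ofFn rc).getD i (qnat 0)) • fracMap (hPoly m q T) k
          (pcPoly m ((List.ofFn pc).getD i [])) ∈ certSub (hPoly m q T) (b.natDegree + 1) := by
      rw [List.length_ofFn, Finset.sum_range]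
      have e0 : ∑ i : Fin N, qval ((List.ofFn rc).getD i (qnat 0)) • fracMap (hPoly m q T) k
          (pcPoly m ((List.ofFn pc).getD i [])) = (∑ i, r i • (a i : Loc (hPoly m q T) ×
            Loc (hPoly m' q' T'))).1 := by
        rw [Prod.fst_sum]
        refine Finset.sum_congr rfl fun i _ => ?_
        rw [getD_ofFn, getD_ofFn, hrc, hpc, ← hp]
        rfl
      rw [e0]
      exact hr1
    have e2 : fracMap (hPoly m' q' T') k0' G' - ∑ i ∈ Finset.range (List.ofFn pc').length,
        qval ((List.ofFn rc).getD i (qnat 0)) • fracMap (hPoly m' q' T') k'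
          (pcPoly m' ((List.ofFn pc').getD i [])) ∈
        certSub (hPoly m' q' T') (b'.natDegree + 1) := by
      rw [List.length_ofFn, Finset.sum_range]
      have e0 : ∑ i : Fin N, qval ((List.ofFn rc).getD i (qnat 0)) • fracMap (hPoly m' q' T') k'
          (pcPoly m' ((List.ofFn pc').getD i [])) = (∑ i, r i • (a i : Loc (hPoly m q T) ×
            Loc (hPoly m' q' T'))).2 := by
        rw [Prod.snd_sum]
        refine Finset.sum_congr rfl fun i _ => ?_
        rw [getD_ofFn, getD_ofFn, hrc, hpc', ← hp']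
        rfl
      rw [e0]
      exact hr2
    obtain ⟨c, hc⟩ := check_complete hq hG e1
    obtain ⟨c', hc'⟩ := check_complete hq' hG' e2
    exact ⟨(List.ofFn rc, c, c'), hc, hc'⟩

end Pool.Agent.Lib.MP_bbe012_lc
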