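import Mathlib

/-!
# A rational kernel whose integral is the step function

For `H > 0` and real `u`, the rational function
`K u H v = H / (1 + H² (|v|² - u)²) + u / (1 + u² (H + |v|²)²)` of `v ∈ ℝ²` is integrable, its
integral is `π²` for `u > 0` and `0` for `u < 0`; and for `u < 0` its `L¹` norm is
`O(1 / (|u| H))`.
-/

namespace Pool.Agent.Lib.MP_bbe012_lc

open MeasureTheory Real Set Filter Topology ENNReal

/-- Radial integration in the plane. -/
theorem lintegral_radial (g : ℝ → ℝ) (hgm : Measurable g) :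
    ∫⁻ v : ℝ × ℝ, ENNReal.ofReal (g (v.1 ^ 2 + v.2 ^ 2)) =
      ENNReal.ofReal (2 * π) * ∫⁻ r in Ioi (0 : ℝ), ENNReal.ofReal (r * g (r ^ 2)) := by
  rw [← lintegral_comp_polarCoord_symm]
  have h1 : ∀ p ∈ polarCoord.target,
      ENNReal.ofReal p.1 • ENNReal.ofReal (g ((polarCoord.symm p).1 ^ 2 + (polarCoord.symm p).2 ^ 2))
        = ENNReal.ofReal (p.1 * g (p.1 ^ 2)) := by
    intro p hp
    have hp1 : 0 < p.1 := by
      rw [polarCoord_target] at hp; exact hp.1
    have h2 : (polarCoord.symm p).1 ^ 2 + (polarCoord.symm p).2 ^ 2 = p.1 ^ 2 := by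
      simp only [polarCoord_symm_apply]
      have := Real.cos_sq_add_sin_sq p.2
      nlinarith [this]
    rw [h2, smul_eq_mul, ← ENNReal.ofReal_mul hp1.le]
  rw [setLIntegral_congr_fun polarCoord.open_target.measurableSet h1, polarCoord_target]
  rw [Measure.volume_eq_prod, ← Measure.prod_restrict, lintegral_prod _ (by fun_prop)]
  simp only [lintegral_const, Measure.restrict_apply MeasurableSet.univ, univ_inter, Real.volume_Ioo]
  rw [lintegral_mul_const _ (by fun_prop), mul_comm]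
  congr 2
  ring

/-- Radial integration in the plane, by an antiderivative. -/
theorem radial_of_antideriv {g G : ℝ → ℝ} {L : ℝ} (hgm : Measurable g)
    (hg : ∀ r : ℝ, 0 ≤ g (r ^ 2))
    (hG : ∀ r : ℝ, HasDerivAt G (2 * r * g (r ^ 2)) r) (hL : Tendsto G atTop (𝓝 L)) :
    Integrable (fun v : ℝ × ℝ => g (v.1 ^ 2 + v.2 ^ 2)) ∧
      ∫ v : ℝ × ℝ, g (v.1 ^ 2 + v.2 ^ 2) = π * (L - G 0) := by
  have hpos : ∀ x ∈ Ioi (0 : ℝ), 0 ≤ 2 * x * g (x ^ 2) := fun x hx => by
    have := hg x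
    have hx' : (0 : ℝ) < x := hx
    positivity
  have hint : IntegrableOn (fun r => 2 * r * g (r ^ 2)) (Ioi 0) :=
    integrableOn_Ioi_deriv_of_nonneg' (fun x _ => hG x) hpos hL
  have hval : ∫ r in Ioi (0 : ℝ), 2 * r * g (r ^ 2) = L - G 0 :=
    integral_Ioi_of_hasDerivAt_of_nonneg' (fun x _ => hG x) hpos hL
  have hnn : ∀ v : ℝ × ℝ, 0 ≤ g (v.1 ^ 2 + v.2 ^ 2) := fun v => by
    have := hg (√(v.1 ^ 2 + v.2 ^ 2))
    rwa [Real.sq_sqrt (by positivity)] at this
  have hle : ENNReal.ofReal (∫ r in Ioi (0 : ℝ), 2 * r * g (r ^ 2)) =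
      ∫⁻ r in Ioi (0 : ℝ), ENNReal.ofReal (2 * r * g (r ^ 2)) := by
    refine ofReal_integral_eq_lintegral_ofReal hint ?_
    exact (ae_restrict_iff' measurableSet_Ioi).mpr (ae_of_all _ hpos)
  have hl : ∫⁻ v : ℝ × ℝ, ENNReal.ofReal (g (v.1 ^ 2 + v.2 ^ 2)) = ENNReal.ofReal (π * (L - G 0)) := by
    rw [lintegral_radial g hgm, ENNReal.ofReal_mul Real.pi_nonneg, ← hval, hle]
    have h2 : ∀ r : ℝ, ENNReal.ofReal (2 * r * g (r ^ 2)) =
        ENNReal.ofReal 2 * ENNReal.ofReal (r * g (r ^ 2)) := fun r => by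
      rw [← ENNReal.ofReal_mul (by norm_num)]; ring_nf
    simp only [h2]
    rw [lintegral_const_mul' _ _ ENNReal.ofReal_ne_top, ← mul_assoc,
      ← ENNReal.ofReal_mul Real.pi_nonneg]
    ring_nf
  have hLG : 0 ≤ L - G 0 := by
    rw [← hval]
    exact setIntegral_nonneg measurableSet_Ioi hpos
  have hmeas : Measurable fun v : ℝ × ℝ => g (v.1 ^ 2 + v.2 ^ 2) := by fun_prop
  have hi : Integrable (fun v : ℝ × ℝ => g (v.1 ^ 2 + v.2 ^ 2)) := by
    refine ⟨hmeas.aestronglyMeasurable, ?_⟩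
    rw [hasFiniteIntegral_iff_ofReal (ae_of_all _ hnn), hl]
    exact ENNReal.ofReal_lt_top
  refine ⟨hi, ?_⟩
  rw [integral_eq_lintegral_of_nonneg_ae (ae_of_all _ hnn) hmeas.aestronglyMeasurable, hl,
    ENNReal.toReal_ofReal (mul_nonneg Real.pi_nonneg hLG)]

/-- The first summand of the kernel. -/
noncomputable def K1 (u H : ℝ) (v : ℝ × ℝ) : ℝ := H / (1 + H ^ 2 * (v.1 ^ 2 + v.2 ^ 2 - u) ^ 2)

/-- The second summand of the kernel. -/
noncomputable def K2 (u H : ℝ) (v : ℝ × ℝ) : ℝ := u / (1 + u ^ 2 * (H + (v.1 ^ 2 + v.2 ^ 2)) ^ 2)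

theorem K1_spec {u H : ℝ} (hH : 0 < H) :
    Integrable (K1 u H) ∧ ∫ v, K1 u H v = π * (π / 2 + arctan (H * u)) := by
  have h := radial_of_antideriv (g := fun w => H / (1 + H ^ 2 * (w - u) ^ 2))
    (G := fun r => arctan (H * (r ^ 2 - u))) (L := π / 2) (by fun_prop)
    (fun r => by positivity) (fun r => by
      have h1 : HasDerivAt (fun r : ℝ => H * (r ^ 2 - u)) (H * (2 * r)) r := by
        have := ((hasDerivAt_pow 2 r).sub_const u).const_mul H
        simpa using this
      have h2 := h1.arctan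
      convert h2 using 1
      field_simp) (by
      refine (tendsto_nhds_of_tendsto_nhdsWithin tendsto_arctan_atTop).comp ?_
      refine Tendsto.const_mul_atTop hH ?_
      exact tendsto_atTop_add_const_right _ _ (tendsto_pow_atTop two_ne_zero))
  refine ⟨h.1, ?_⟩
  have h2 := h.2
  change ∫ v : ℝ × ℝ, H / (1 + H ^ 2 * (v.1 ^ 2 + v.2 ^ 2 - u) ^ 2) = _
  rw [h2]
  have : H * (0 ^ 2 - u) = -(H * u) := by ring
  rw [this, arctan_neg]
  ring

theorem K2_spec_pos {u H : ℝ} (hH : 0 < H) (hu : 0 < u) :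
    Integrable (K2 u H) ∧ ∫ v, K2 u H v = π * (π / 2 - arctan (u * H)) := by
  have h := radial_of_antideriv (g := fun w => u / (1 + u ^ 2 * (H + w) ^ 2))
    (G := fun r => arctan (u * (H + r ^ 2))) (L := π / 2) (by fun_prop)
    (fun r => by positivity) (fun r => by
      have h1 : HasDerivAt (fun r : ℝ => u * (H + r ^ 2)) (u * (2 * r)) r := by
        have := ((hasDerivAt_pow 2 r).const_add H).const_mul u
        simpa using this
      have h2 := h1.arctan
      convert h2 using 1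
      field_simp) (by
      refine (tendsto_nhds_of_tendsto_nhdsWithin tendsto_arctan_atTop).comp ?_
      refine Tendsto.const_mul_atTop hu ?_
      exact tendsto_atTop_add_const_left _ _ (tendsto_pow_atTop two_ne_zero))
  refine ⟨h.1, ?_⟩
  have h2 := h.2
  change ∫ v : ℝ × ℝ, u / (1 + u ^ 2 * (H + (v.1 ^ 2 + v.2 ^ 2)) ^ 2) = _
  rw [h2]
  simp

theorem K2_neg (u H : ℝ) : K2 (-u) H = fun v => - K2 u H v := by
  ext v
  simp only [K2]
  rw [neg_sq, neg_div]

theorem K2_spec_neg {u H : ℝ} (hH : 0 < H) (hu : u < 0) :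
    Integrable (K2 u H) ∧ ∫ v, K2 u H v = -(π * (π / 2 - arctan (-u * H))) := by
  have h := K2_spec_pos (u := -u) hH (by linarith)
  have h2 : K2 u H = fun v => - K2 (-u) H v := by
    have := K2_neg (-u) H
    rwa [neg_neg] at this
  rw [h2]
  exact ⟨h.1.neg, by rw [integral_neg, h.2]⟩

/-- The kernel. -/
noncomputable def K (u H : ℝ) (v : ℝ × ℝ) : ℝ := K1 u H v + K2 u H v

theorem K_integrable {u H : ℝ} (hH : 0 < H) : Integrable (K u H) := by
  refine (K1_spec hH).1.add ?_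
  rcases lt_trichotomy u 0 with hu | hu | hu
  · exact (K2_spec_neg hH hu).1
  · subst hu
    have : K2 0 H = fun _ => 0 := by ext v; simp [K2]
    rw [this]; exact integrable_zero _ _ _
  · exact (K2_spec_pos hH hu).1

theorem K_integral_pos {u H : ℝ} (hH : 0 < H) (hu : 0 < u) : ∫ v, K u H v = π ^ 2 := by
  have : ∫ v, K u H v = (∫ v, K1 u H v) + ∫ v, K2 u H v :=
    integral_add (K1_spec hH).1 (K2_spec_pos hH hu).1
  rw [this, (K1_spec hH).2, (K2_spec_pos hH hu).2, mul_comm u H]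
  ring

theorem K_integral_neg {u H : ℝ} (hH : 0 < H) (hu : u < 0) : ∫ v, K u H v = 0 := by
  have : ∫ v, K u H v = (∫ v, K1 u H v) + ∫ v, K2 u H v :=
    integral_add (K1_spec hH).1 (K2_spec_neg hH hu).1
  rw [this, (K1_spec hH).2, (K2_spec_neg hH hu).2]
  have h3 : -u * H = -(H * u) := by ring
  rw [h3, arctan_neg]
  ring

theorem arctan_le_self' {x : ℝ} (hx : 0 ≤ x) : arctan x ≤ x := by
  have h : ∀ y ∈ Ioi (0 : ℝ), HasDerivAt (fun x => x - arctan x) (1 - 1 / (1 + y ^ 2)) y :=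
    fun y _ => (hasDerivAt_id y).sub (hasDerivAt_arctan y)
  have hmono : MonotoneOn (fun x : ℝ => x - arctan x) (Ici 0) := by
    refine monotoneOn_of_deriv_nonneg (convex_Ici 0) (by fun_prop) ?_ ?_
    · intro y hy
      rw [interior_Ici] at hy
      exact (h y hy).differentiableAt.differentiableWithinAt
    · intro y hy
      rw [interior_Ici] at hy
      rw [(h y hy).deriv, sub_nonneg, div_le_one (by positivity)]
      nlinarith [sq_nonneg y]
  have := hmono (mem_Ici.mpr le_rfl) (mem_Ici.mpr hx) hx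
  simp at this
  exact this

theorem K_norm_le (u : ℝ) {H : ℝ} (hH : 0 < H) : ∫⁻ v, ‖K u H v‖ₑ ≤ ENNReal.ofReal (2 * π ^ 2) := by
  have h1 : ∫⁻ v, ‖K1 u H v‖ₑ = ENNReal.ofReal (π * (π / 2 + arctan (H * u))) := by
    rw [← (K1_spec hH).2, ofReal_integral_eq_lintegral_ofReal (K1_spec hH).1
      (ae_of_all _ fun v => by simp only [K1, Pi.zero_apply]; positivity)]
    refine lintegral_congr fun v => ?_
    rw [← ofReal_norm, Real.norm_of_nonneg]
    simp only [K1]; positivity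
  have hpi := Real.pi_pos
  have a1 := arctan_lt_pi_div_two (H * u)
  have h2 : ∫⁻ v, ‖K2 u H v‖ₑ ≤ ENNReal.ofReal (π * (π / 2)) := by
    have key : ∀ u : ℝ, 0 < u → ∫⁻ v, ‖K2 u H v‖ₑ ≤ ENNReal.ofReal (π * (π / 2)) := by
      intro u hu
      have : ∫⁻ v, ‖K2 u H v‖ₑ = ENNReal.ofReal (π * (π / 2 - arctan (u * H))) := by
        rw [← (K2_spec_pos hH hu).2, ofReal_integral_eq_lintegral_ofReal (K2_spec_pos hH hu).1
          (ae_of_all _ fun v => by simp only [K2, Pi.zero_apply]; positivity)]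
        refine lintegral_congr fun v => ?_
        rw [← ofReal_norm, Real.norm_of_nonneg]
        simp only [K2]; positivity
      rw [this]
      apply ENNReal.ofReal_le_ofReal
      have : 0 < arctan (u * H) := by rw [arctan_pos]; positivity
      nlinarith
    rcases lt_trichotomy u 0 with hu | hu | hu
    · have h3 := key (-u) (by linarith)
      rw [K2_neg] at h3
      simpa using h3
    · subst hu
      have : K2 0 H = fun _ => 0 := by ext v; simp [K2]
      simp [this]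
    · exact key u hu
  calc ∫⁻ v, ‖K u H v‖ₑ ≤ ∫⁻ v, (‖K1 u H v‖ₑ + ‖K2 u H v‖ₑ) :=
        lintegral_mono fun v => enorm_add_le _ _
    _ = (∫⁻ v, ‖K1 u H v‖ₑ) + ∫⁻ v, ‖K2 u H v‖ₑ :=
        lintegral_add_left (by unfold K1; fun_prop) _
    _ ≤ ENNReal.ofReal (π * (π / 2 + arctan (H * u))) + ENNReal.ofReal (π * (π / 2)) := by
        rw [h1]; gcongr
    _ = ENNReal.ofReal (π * (π / 2 + arctan (H * u)) + π * (π / 2)) := by
        rw [ENNReal.ofReal_add (by
          have := neg_pi_div_two_lt_arctan (H * u)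
          apply mul_nonneg hpi.le; linarith) (by positivity)]
    _ ≤ ENNReal.ofReal (2 * π ^ 2) := by
        apply ENNReal.ofReal_le_ofReal
        nlinarith

theorem K_norm_le_of_neg {u H : ℝ} (hH : 0 < H) (hu : u < 0) :
    ∫⁻ v, ‖K u H v‖ₑ ≤ ENNReal.ofReal (2 * π ^ 2 * (1 / (-u * H))) := by
  have hpi := Real.pi_pos
  have h1 : ∫⁻ v, ‖K1 u H v‖ₑ = ENNReal.ofReal (π * (π / 2 + arctan (H * u))) := by
    rw [← (K1_spec hH).2, ofReal_integral_eq_lintegral_ofReal (K1_spec hH).1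
      (ae_of_all _ fun v => by simp only [K1, Pi.zero_apply]; positivity)]
    refine lintegral_congr fun v => ?_
    rw [← ofReal_norm, Real.norm_of_nonneg]
    simp only [K1]; positivity
  have hu' : 0 < -u := by linarith
  have h2 : ∫⁻ v, ‖K2 u H v‖ₑ = ENNReal.ofReal (π * (π / 2 - arctan (-u * H))) := by
    have h0 : ∫⁻ v, ‖K2 (-u) H v‖ₑ = ENNReal.ofReal (π * (π / 2 - arctan (-u * H))) := by
      rw [← (K2_spec_pos hH hu').2, ofReal_integral_eq_lintegral_ofReal (K2_spec_pos hH hu').1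
        (ae_of_all _ fun v => by simp only [K2, Pi.zero_apply]; positivity)]
      refine lintegral_congr fun v => ?_
      rw [← ofReal_norm, Real.norm_of_nonneg]
      simp only [K2]; positivity
    rw [← h0, K2_neg]
    simp
  have hx : 0 < -u * H := by positivity
  have harc : π / 2 - arctan (-u * H) ≤ 1 / (-u * H) := by
    rw [← arctan_inv_of_pos hx, one_div]
    exact arctan_le_self' (by positivity)
  have e1 : π / 2 + arctan (H * u) = π / 2 - arctan (-u * H) := by
    have : H * u = -(-u * H) := by ring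
    rw [this, arctan_neg]; ring
  have hnn : 0 ≤ π / 2 - arctan (-u * H) := by
    have := arctan_lt_pi_div_two (-u * H); linarith
  calc ∫⁻ v, ‖K u H v‖ₑ ≤ ∫⁻ v, (‖K1 u H v‖ₑ + ‖K2 u H v‖ₑ) :=
        lintegral_mono fun v => enorm_add_le _ _
    _ = (∫⁻ v, ‖K1 u H v‖ₑ) + ∫⁻ v, ‖K2 u H v‖ₑ :=
        lintegral_add_left (by unfold K1; fun_prop) _
    _ = ENNReal.ofReal (π * (π / 2 - arctan (-u * H)) + π * (π / 2 - arctan (-u * H))) := by
        rw [h1, h2, e1, ENNReal.ofReal_add (by positivity) (by positivity)]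
    _ ≤ ENNReal.ofReal (2 * π ^ 2 * (1 / (-u * H))) := by
        apply ENNReal.ofReal_le_ofReal
        have h3 : 1 ≤ π := by linarith [Real.pi_gt_three]
        have h4 : 0 ≤ 1 / (-u * H) := by positivity
        nlinarith [mul_le_mul_of_nonneg_left harc hpi.le, mul_nonneg h4 hpi.le,
          mul_nonneg (mul_nonneg h4 hpi.le) (sub_nonneg.mpr h3)]

end Pool.Agent.Lib.MP_bbe012_lc
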