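import Mathlib
import Pool.Agent.Lib.MP_bbe012_lc.Kernel
import Pool.Agent.Lib.MP_bbe012_lc.PolyInt

/-!
# The volume of a semialgebraic set as an integral of a rational function without domain
-/

namespace Pool.Agent.Lib.MP_bbe012_lc

open MeasureTheory Real Set Filter Topology ENNReal

/-- The damping factor `∏ (1 + z_i²)^κ`. -/
noncomputable def damp {N : ℕ} (κ : ℕ) (z : Fin N → ℝ) : ℝ := ∏ i, (1 + z i ^ 2) ^ κ

theorem one_le_damp {N : ℕ} (κ : ℕ) (z : Fin N → ℝ) : 1 ≤ damp κ z := by
  unfold damp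
  have : ∀ i ∈ (Finset.univ : Finset (Fin N)), (1 : ℝ) ≤ (1 + z i ^ 2) ^ κ := fun i _ =>
    one_le_pow₀ (by nlinarith [sq_nonneg (z i)])
  calc (1 : ℝ) = ∏ _i : Fin N, 1 := by simp
    _ ≤ _ := Finset.prod_le_prod (fun _ _ => zero_le_one) this

theorem damp_pos {N : ℕ} (κ : ℕ) (z : Fin N → ℝ) : 0 < damp κ z :=
  lt_of_lt_of_le one_pos (one_le_damp κ z)

/-- The product kernel. -/
noncomputable def PK {N R : ℕ} (κ : ℕ) (F : Fin R → MvPolynomial (Fin N) ℝ)
    (w : (Fin N → ℝ) × (Fin R → ℝ × ℝ)) : ℝ :=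
  ∏ j, K (MvPolynomial.eval w.1 (F j)) (damp κ w.1) (w.2 j)

theorem continuous_K : Continuous fun w : (ℝ × ℝ) × (ℝ × ℝ) => K w.1.1 w.1.2 w.2 := by
  unfold K K1 K2
  have h1 : ∀ w : (ℝ × ℝ) × (ℝ × ℝ),
      1 + w.1.2 ^ 2 * (w.2.1 ^ 2 + w.2.2 ^ 2 - w.1.1) ^ 2 ≠ 0 := fun w => by positivity
  have h2 : ∀ w : (ℝ × ℝ) × (ℝ × ℝ),
      1 + w.1.1 ^ 2 * (w.1.2 + (w.2.1 ^ 2 + w.2.2 ^ 2)) ^ 2 ≠ 0 := fun w => by positivity
  exact (Continuous.div (by fun_prop) (by fun_prop) h1).add
    (Continuous.div (by fun_prop) (by fun_prop) h2)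

theorem continuous_damp {N : ℕ} (κ : ℕ) : Continuous (damp κ : (Fin N → ℝ) → ℝ) := by
  unfold damp; fun_prop

theorem continuous_PK {N R : ℕ} (κ : ℕ) (F : Fin R → MvPolynomial (Fin N) ℝ) :
    Continuous (PK κ F) := by
  unfold PK
  refine continuous_finsetProd _ fun j _ => ?_
  have h1 : Continuous fun w : (Fin N → ℝ) × (Fin R → ℝ × ℝ) => MvPolynomial.eval w.1 (F j) :=
    (MvPolynomial.continuous_eval (F j)).comp continuous_fst
  have h2 : Continuous fun w : (Fin N → ℝ) × (Fin R → ℝ × ℝ) => damp κ w.1 :=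
    (continuous_damp κ).comp continuous_fst
  have h3 : Continuous fun w : (Fin N → ℝ) × (Fin R → ℝ × ℝ) => w.2 j := by fun_prop
  exact continuous_K.comp ((h1.prodMk h2).prodMk h3)

theorem norm_K_le (u : ℝ) {H : ℝ} (hH : 0 < H) : ∫ v, ‖K u H v‖ ≤ 2 * π ^ 2 := by
  rw [integral_norm_eq_lintegral_enorm (K_integrable hH).aestronglyMeasurable]
  refine ENNReal.toReal_le_of_le_ofReal (by positivity) (K_norm_le u hH)

theorem norm_K_le_of_neg {u H : ℝ} (hH : 0 < H) (hu : u < 0) :
    ∫ v, ‖K u H v‖ ≤ 2 * π ^ 2 * (1 / (-u * H)) := by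
  rw [integral_norm_eq_lintegral_enorm (K_integrable hH).aestronglyMeasurable]
  have : 0 < -u * H := mul_pos (by linarith) hH
  refine ENNReal.toReal_le_of_le_ofReal (by positivity) (K_norm_le_of_neg hH hu)

/-- The dominating function. -/
noncomputable def Gd {N : ℕ} (D : ℕ) (F : MvPolynomial (Fin N) ℝ) (z : Fin N → ℝ) : ℝ :=
  (∏ i, 1 / (1 + z i ^ 2)) * |MvPolynomial.eval z F| ^ (-(1 / (D + 1)) : ℝ)

theorem Gd_nonneg {N : ℕ} (D : ℕ) (F : MvPolynomial (Fin N) ℝ) (z : Fin N → ℝ) : 0 ≤ Gd D F z := by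
  unfold Gd; positivity

theorem integrable_Gd {N : ℕ} (D : ℕ) {F : MvPolynomial (Fin N) ℝ} (hF : F ≠ 0)
    (hD : ∀ i, F.degreeOf i ≤ D) : Integrable (Gd D F) := by
  have hm : Measurable (Gd D F) := by
    unfold Gd
    have hc : Measurable fun z : Fin N → ℝ => MvPolynomial.eval z F :=
      (MvPolynomial.continuous_eval F).measurable
    have h1 : Measurable fun z : Fin N → ℝ => ∏ i, 1 / (1 + z i ^ 2) :=
      Finset.measurable_prod _ fun i _ => by fun_prop
    exact h1.mul (hc.norm.pow_const _)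
  refine ⟨hm.aestronglyMeasurable, ?_⟩
  rw [hasFiniteIntegral_iff_ofReal (ae_of_all _ (Gd_nonneg D F))]
  refine lt_of_le_of_lt (lintegral_mono fun z => ?_) (poly_lintegral D N F hF hD)
  unfold Gd
  rw [ENNReal.ofReal_mul (by positivity), ENNReal.ofReal_prod_of_nonneg (fun i _ => by positivity)]
  have h0 : (0 : ℝ) < 1 / (D + 1) := by positivity
  by_cases h : MvPolynomial.eval z F = 0
  · rw [h, abs_zero, Real.zero_rpow (by linarith), ENNReal.ofReal_zero, mul_zero]
    exact zero_le
  · rw [ENNReal.ofReal_rpow_of_pos (abs_pos.mpr h)]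
    rfl

theorem PK_integrable {N R : ℕ} (D : ℕ) (F : Fin R → MvPolynomial (Fin N) ℝ)
    (hF : ∀ j, F j ≠ 0) (hD : ∀ j i, (F j).degreeOf i ≤ D)
    (hA : volume {z : Fin N → ℝ | ∀ j, 0 < MvPolynomial.eval z (F j)} < ⊤) :
    Integrable (PK (D + 1) F) ∧
      ∫ w, PK (D + 1) F w =
        π ^ (2 * R) * (volume {z : Fin N → ℝ | ∀ j, 0 < MvPolynomial.eval z (F j)}).toReal := by
  set A := {z : Fin N → ℝ | ∀ j, 0 < MvPolynomial.eval z (F j)} with hAdef
  have hAm : MeasurableSet A := by
    rw [hAdef, ofPred_forall]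
    refine MeasurableSet.iInter fun j => ?_
    exact measurableSet_lt measurable_const (MvPolynomial.continuous_eval (F j)).measurable
  have hae : ∀ᵐ z : Fin N → ℝ, ∀ j, MvPolynomial.eval z (F j) ≠ 0 :=
    ae_all_iff.mpr fun j => ae_eval_ne_zero (hF j)
  have hinner : ∀ z : Fin N → ℝ, Integrable (fun v : Fin R → ℝ × ℝ => PK (D + 1) F (z, v)) := by
    intro z
    exact Integrable.fintype_prod (f := fun j v => K (MvPolynomial.eval z (F j)) (damp (D + 1) z) v)
      fun j => K_integrable (damp_pos _ z)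
  have hnorm : ∀ z : Fin N → ℝ, ∫ v : Fin R → ℝ × ℝ, ‖PK (D + 1) F (z, v)‖ =
      ∏ j, ∫ v, ‖K (MvPolynomial.eval z (F j)) (damp (D + 1) z) v‖ := by
    intro z
    rw [← integral_fintype_prod_volume_eq_prod (𝕜 := ℝ)]
    simp only [PK, norm_prod]
  have hbound : ∀ᵐ z : Fin N → ℝ, ‖∫ v : Fin R → ℝ × ℝ, ‖PK (D + 1) F (z, v)‖‖ ≤
      (2 * π ^ 2) ^ R * (A.indicator (fun _ => (1 : ℝ)) z + ∑ j, Gd D (F j) z) := by
    filter_upwards [hae] with z hz
    have hpi := Real.pi_gt_three
    have hc : (0 : ℝ) < 2 * π ^ 2 := by positivity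
    rw [hnorm, Real.norm_of_nonneg (Finset.prod_nonneg fun j _ => integral_nonneg fun v => norm_nonneg _)]
    by_cases hzA : z ∈ A
    · rw [indicator_of_mem hzA]
      calc ∏ j, ∫ v, ‖K (MvPolynomial.eval z (F j)) (damp (D + 1) z) v‖
          ≤ ∏ _j : Fin R, (2 * π ^ 2) := Finset.prod_le_prod
            (fun j _ => integral_nonneg fun v => norm_nonneg _) fun j _ => norm_K_le _ (damp_pos _ z)
        _ = (2 * π ^ 2) ^ R * 1 := by simp
        _ ≤ _ := by
          gcongr
          have := Finset.sum_nonneg fun (j : Fin R) (_ : j ∈ Finset.univ) => Gd_nonneg D (F j) z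
          linarith
    · rw [indicator_of_notMem hzA, zero_add]
      have : ∃ j, MvPolynomial.eval z (F j) < 0 := by
        by_contra h
        push Not at h
        exact hzA fun j => lt_of_le_of_ne (h j) (hz j).symm
      obtain ⟨j0, hj0⟩ := this
      have hkey : ∫ v, ‖K (MvPolynomial.eval z (F j0)) (damp (D + 1) z) v‖ ≤
          2 * π ^ 2 * Gd D (F j0) z := by
        set u := MvPolynomial.eval z (F j0) with hu
        set H := damp (D + 1) z with hH
        have hHp : 0 < H := damp_pos _ z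
        have hup : 0 < -u := by linarith
        have hδ : (0 : ℝ) < 1 / (D + 1) := by positivity
        have hδ1 : (1 : ℝ) / (D + 1) ≤ 1 := by
          rw [div_le_one (by positivity)]; linarith [Nat.cast_nonneg (α := ℝ) D]
        have hG : Gd D (F j0) z = (1 / (-u * H)) ^ (1 / (D + 1) : ℝ) := by
          unfold Gd
          rw [← hu, abs_of_neg hj0, one_div (-u * H), Real.inv_rpow (by positivity),
            Real.mul_rpow hup.le hHp.le, Real.rpow_neg hup.le, mul_inv, mul_comm]
          congr 1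
          rw [hH]
          unfold damp
          rw [← Real.finsetProd_rpow _ _ (fun i _ => by positivity), ← Finset.prod_inv_distrib]
          refine Finset.prod_congr rfl fun i _ => ?_
          have hb : (0 : ℝ) ≤ 1 + z i ^ 2 := by positivity
          have hpow : ((1 + z i ^ 2) ^ (D + 1) : ℝ) = (1 + z i ^ 2) ^ ((D : ℝ) + 1) := by
            rw [← Real.rpow_natCast (1 + z i ^ 2) (D + 1)]
            push_cast
            rfl
          rw [hpow, ← Real.rpow_mul hb, one_div]
          congr 1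
          rw [mul_one_div_cancel (by positivity), Real.rpow_one]
        rw [hG]
        have ht : 0 < 1 / (-u * H) := by positivity
        rcases le_total (1 / (-u * H)) 1 with hle | hge
        · calc _ ≤ 2 * π ^ 2 * (1 / (-u * H)) := norm_K_le_of_neg hHp hj0
            _ = 2 * π ^ 2 * (1 / (-u * H)) ^ (1 : ℝ) := by rw [Real.rpow_one]
            _ ≤ _ := mul_le_mul_of_nonneg_left
              (Real.rpow_le_rpow_of_exponent_ge ht hle hδ1) hc.le
        · calc _ ≤ 2 * π ^ 2 := norm_K_le _ hHp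
            _ = 2 * π ^ 2 * 1 := (mul_one _).symm
            _ ≤ _ := by
              gcongr
              exact Real.one_le_rpow hge hδ.le
      calc ∏ j, ∫ v, ‖K (MvPolynomial.eval z (F j)) (damp (D + 1) z) v‖
          ≤ ∏ j : Fin R, (2 * π ^ 2 * (if j = j0 then Gd D (F j0) z else 1)) := by
            refine Finset.prod_le_prod (fun j _ => integral_nonneg fun v => norm_nonneg _) fun j _ => ?_
            split_ifs with h
            · rw [h]; exact hkey
            · rw [mul_one]; exact norm_K_le _ (damp_pos _ z)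
        _ = (2 * π ^ 2) ^ R * Gd D (F j0) z := by
            rw [Finset.prod_mul_distrib, Finset.prod_ite_eq' Finset.univ j0]
            simp
        _ ≤ _ := by
            gcongr
            exact Finset.single_le_sum (f := fun j => Gd D (F j) z)
              (fun j _ => Gd_nonneg D (F j) z) (Finset.mem_univ j0)
  have hdom : Integrable fun z : Fin N → ℝ =>
      (2 * π ^ 2) ^ R * (A.indicator (fun _ => (1 : ℝ)) z + ∑ j, Gd D (F j) z) := by
    refine Integrable.const_mul (Integrable.add ?_ (integrable_finsetSum _ fun j _ =>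
      integrable_Gd D (hF j) (hD j))) _
    exact (integrable_indicator_iff hAm).mpr (integrableOn_const hA.ne)
  have hint : Integrable (PK (D + 1) F) := by
    rw [Measure.volume_eq_prod, integrable_prod_iff (continuous_PK (D + 1) F).aestronglyMeasurable]
    refine ⟨ae_of_all _ hinner, ?_⟩
    refine Integrable.mono' hdom ?_ hbound
    exact (continuous_PK (D + 1) F).norm.aestronglyMeasurable.integral_prod_right'
  refine ⟨hint, ?_⟩
  rw [Measure.volume_eq_prod] at hint ⊢
  rw [integral_prod _ hint]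
  have h1 : ∀ᵐ z : Fin N → ℝ, ∫ v : Fin R → ℝ × ℝ, PK (D + 1) F (z, v) =
      A.indicator (fun _ => π ^ (2 * R)) z := by
    filter_upwards [hae] with z hz
    have : ∫ v : Fin R → ℝ × ℝ, PK (D + 1) F (z, v) =
        ∏ j, ∫ v, K (MvPolynomial.eval z (F j)) (damp (D + 1) z) v := by
      rw [← integral_fintype_prod_volume_eq_prod (𝕜 := ℝ)]
      simp only [PK]
    rw [this]
    by_cases hzA : z ∈ A
    · rw [indicator_of_mem hzA]
      have : ∀ j, ∫ v, K (MvPolynomial.eval z (F j)) (damp (D + 1) z) v = π ^ 2 := fun j =>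
        K_integral_pos (damp_pos _ z) (hzA j)
      simp only [this, Finset.prod_const, Finset.card_univ, Fintype.card_fin]
      rw [← pow_mul]
    · rw [indicator_of_notMem hzA]
      have : ∃ j, MvPolynomial.eval z (F j) < 0 := by
        by_contra h
        push Not at h
        exact hzA fun j => lt_of_le_of_ne (h j) (hz j).symm
      obtain ⟨j0, hj0⟩ := this
      exact Finset.prod_eq_zero (Finset.mem_univ j0) (K_integral_neg (damp_pos _ z) hj0)
  rw [integral_congr_ae h1, integral_indicator hAm, setIntegral_const, smul_eq_mul, mul_comm]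
  rfl

end Pool.Agent.Lib.MP_bbe012_lc
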