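import Mathlib

/-!
# Splitting the coordinates of a point of `ℝ^(a+b)`
-/

namespace Pool.Agent.Lib.MP_bbe012_lc

open MeasureTheory

/-- The measurable equivalence `ℝ^(a+b) ≃ ℝ^a × ℝ^b`. -/
noncomputable def split (a b : ℕ) : (Fin (a + b) → ℝ) ≃ᵐ (Fin a → ℝ) × (Fin b → ℝ) :=
  (MeasurableEquiv.piCongrLeft (fun _ : Fin a ⊕ Fin b => ℝ)
    (finSumFinEquiv (m := a) (n := b)).symm).trans
    (MeasurableEquiv.sumPiEquivProdPi (fun _ : Fin a ⊕ Fin b => ℝ))

theorem split_apply (a b : ℕ) (y : Fin (a + b) → ℝ) :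
    split a b y = (fun i => y (Fin.castAdd b i), fun i => y (Fin.natAdd a i)) := by
  have key : ∀ i : Fin (a + b), (MeasurableEquiv.piCongrLeft (fun _ : Fin a ⊕ Fin b => ℝ)
    (finSumFinEquiv (m := a) (n := b)).symm) y (finSumFinEquiv.symm i) = y i := fun i =>
    MeasurableEquiv.piCongrLeft_apply_apply (β := fun _ : Fin a ⊕ Fin b => ℝ) finSumFinEquiv.symm y i
  ext i
  · have := key (Fin.castAdd b i)
    rw [finSumFinEquiv_symm_apply_castAdd] at this
    exact this
  · have := key (Fin.natAdd a i)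
    rw [finSumFinEquiv_symm_apply_natAdd] at this
    exact this

theorem measurePreserving_split (a b : ℕ) : MeasurePreserving (split a b) volume volume :=
  (volume_measurePreserving_piCongrLeft (fun _ : Fin a ⊕ Fin b => ℝ)
    (finSumFinEquiv (m := a) (n := b)).symm).trans
    (volume_measurePreserving_sumPiEquivProdPi (fun _ : Fin a ⊕ Fin b => ℝ))

/-- Product of two functions of separate groups of variables. -/
theorem integral_mul_split (a b : ℕ) (f : (Fin a → ℝ) → ℝ) (g : (Fin b → ℝ) → ℝ)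
    (hf : Integrable f) (hg : Integrable g) :
    Integrable (fun y : Fin (a + b) → ℝ =>
      f (fun i => y (Fin.castAdd b i)) * g (fun i => y (Fin.natAdd a i))) ∧
    ∫ y : Fin (a + b) → ℝ, f (fun i => y (Fin.castAdd b i)) * g (fun i => y (Fin.natAdd a i)) =
      (∫ x, f x) * ∫ x, g x := by
  have h1 : (fun y : Fin (a + b) → ℝ =>
      f (fun i => y (Fin.castAdd b i)) * g (fun i => y (Fin.natAdd a i))) =
      (fun w : (Fin a → ℝ) × (Fin b → ℝ) => f w.1 * g w.2) ∘ split a b := by
    ext y; simp [split_apply]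
  rw [h1]
  have hi : Integrable (fun w : (Fin a → ℝ) × (Fin b → ℝ) => f w.1 * g w.2) := hf.mul_prod hg
  refine ⟨(measurePreserving_split a b).integrable_comp_emb
    (MeasurableEquiv.measurableEmbedding _) |>.mpr hi, ?_⟩
  have h2 := (measurePreserving_split a b).integral_comp (MeasurableEquiv.measurableEmbedding _)
    (fun w : (Fin a → ℝ) × (Fin b → ℝ) => f w.1 * g w.2)
  have h3 : ∫ w : (Fin a → ℝ) × (Fin b → ℝ), f w.1 * g w.2 = (∫ x, f x) * ∫ x, g x :=
    integral_prod_mul (μ := volume) (ν := volume) f g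
  rw [← h3, ← h2]
  rfl

end Pool.Agent.Lib.MP_bbe012_lc
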