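import Mathlib
import Pool.Agent.Lib.MP_bbe012_lc.Volume
import Pool.Agent.Lib.MP_bbe012_lc.ProductKernel
import Pool.Agent.Lib.MP_bbe012_lc.Split

/-!
# Codes of the rational functions obtained from the kernel
-/

namespace Pool.Agent.Lib.MP_bbe012_lc

open MeasureTheory Set ENNReal

/-- product of codes -/
def pcProdRange (R : ℕ) (g : ℕ → PCode) : PCode :=
  (List.range R).foldr (fun j acc => pcMul (g j) acc) (pcNat 1)

theorem pcEval_foldr_mul (n : ℕ) (g : ℕ → PCode) (L : List ℕ) (x : Fin n → ℝ) :
    pcEval n (L.foldr (fun j acc => pcMul (g j) acc) (pcNat 1)) x =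
      (L.map fun j => pcEval n (g j) x).prod := by
  induction L with
  | nil => simp
  | cons a L ih => simp [ih]

theorem prod_map_range (f : ℕ → ℝ) (R : ℕ) : ((List.range R).map f).prod = ∏ j : Fin R, f j := by
  rw [Fin.prod_univ_eq_prod_range]
  induction R with
  | zero => simp
  | succ R ih => rw [List.range_succ, List.map_append, List.prod_append, ih, Finset.prod_range_succ]; simp

theorem pcEval_prodRange (n R : ℕ) (g : ℕ → PCode) (x : Fin n → ℝ) :
    pcEval n (pcProdRange R g) x = ∏ j : Fin R, pcEval n (g j) x := by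
  rw [pcProdRange, pcEval_foldr_mul, prod_map_range]

/-- Code of the damping factor `∏_{i < N} (1 + x_i²)^κ`. -/
def dampCode (N κ : ℕ) : PCode :=
  pcProdRange N fun i => pcPow (pcNat 1 ++ pcMul (pcVar i) (pcVar i)) κ

theorem dampCode_eval {N M : ℕ} (h : N ≤ M) (κ : ℕ) (y : Fin M → ℝ) :
    pcEval M (dampCode N κ) y = damp κ fun i : Fin N => y (Fin.castLE h i) := by
  rw [dampCode, pcEval_prodRange, damp]
  refine Finset.prod_congr rfl fun i _ => ?_
  rw [pcEval_pow, pcEval_append, pcEval_nat, pcEval_mul, pcEval_var (lt_of_lt_of_le i.2 h), sq]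
  norm_num
  rfl

/-- Code of `x_{N+j}² + x_{N+R+j}²`. -/
def radCode (N R j : ℕ) : PCode :=
  pcMul (pcVar (N + j)) (pcVar (N + j)) ++ pcMul (pcVar (N + R + j)) (pcVar (N + R + j))

/-- Code of the first denominator of the kernel. -/
def d1Code (N R κ j : ℕ) (f : PCode) : PCode :=
  pcNat 1 ++ pcMul (pcPow (dampCode N κ) 2) (pcPow (radCode N R j ++ pcNeg f) 2)

/-- Code of the second denominator of the kernel. -/
def d2Code (N R κ j : ℕ) (f : PCode) : PCode :=
  pcNat 1 ++ pcMul (pcPow f 2) (pcPow (dampCode N κ ++ radCode N R j) 2)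

/-- Code of the numerator of the kernel. -/
def numCode (N R κ j : ℕ) (f : PCode) : PCode :=
  pcMul (dampCode N κ) (d2Code N R κ j f) ++ pcMul f (d1Code N R κ j f)

/-- Code of the denominator of the kernel. -/
def denCode (N R κ j : ℕ) (f : PCode) : PCode := pcMul (d1Code N R κ j f) (d2Code N R κ j f)

theorem kernel_eval {N R κ j M : ℕ} (hN : N ≤ M) (h1 : N + j < M) (h2 : N + R + j < M) (f : PCode)
    (y : Fin M → ℝ) :
    pcEval M (numCode N R κ j f) y / pcEval M (denCode N R κ j f) y =
      K (pcEval M f y) (damp κ fun i : Fin N => y (Fin.castLE hN i)) (y ⟨N + j, h1⟩, y ⟨N + R + j, h2⟩)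
    ∧ 1 ≤ pcEval M (denCode N R κ j f) y := by
  have e1 : pcEval M (d1Code N R κ j f) y = 1 + (damp κ fun i : Fin N => y (Fin.castLE hN i)) ^ 2 *
      (y ⟨N + j, h1⟩ ^ 2 + y ⟨N + R + j, h2⟩ ^ 2 - pcEval M f y) ^ 2 := by
    simp only [d1Code, radCode, pcEval_append, pcEval_nat, pcEval_mul, pcEval_pow, pcEval_neg,
      dampCode_eval hN, pcEval_var h1, pcEval_var h2]
    push_cast
    ring
  have e2 : pcEval M (d2Code N R κ j f) y = 1 + pcEval M f y ^ 2 *
      ((damp κ fun i : Fin N => y (Fin.castLE hN i)) +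
        (y ⟨N + j, h1⟩ ^ 2 + y ⟨N + R + j, h2⟩ ^ 2)) ^ 2 := by
    simp only [d2Code, radCode, pcEval_append, pcEval_nat, pcEval_mul, pcEval_pow,
      dampCode_eval hN, pcEval_var h1, pcEval_var h2]
    push_cast
    ring
  set H := damp κ fun i : Fin N => y (Fin.castLE hN i) with hH
  set a := y ⟨N + j, h1⟩ with ha
  set b := y ⟨N + R + j, h2⟩ with hb
  set u := pcEval M f y with hu
  have p1 : 1 ≤ pcEval M (d1Code N R κ j f) y := by
    rw [e1]
    have := mul_nonneg (sq_nonneg H) (sq_nonneg (a ^ 2 + b ^ 2 - u))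
    linarith
  have p2 : 1 ≤ pcEval M (d2Code N R κ j f) y := by
    rw [e2]
    have := mul_nonneg (sq_nonneg u) (sq_nonneg (H + (a ^ 2 + b ^ 2)))
    linarith
  constructor
  · have q1 : pcEval M (d1Code N R κ j f) y ≠ 0 := by positivity
    have q2 : pcEval M (d2Code N R κ j f) y ≠ 0 := by positivity
    simp only [numCode, denCode, pcEval_append, pcEval_mul, dampCode_eval hN]
    rw [← hH, ← hu]
    have : (H * pcEval M (d2Code N R κ j f) y + u * pcEval M (d1Code N R κ j f) y) /
        (pcEval M (d1Code N R κ j f) y * pcEval M (d2Code N R κ j f) y) =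
        H / pcEval M (d1Code N R κ j f) y + u / pcEval M (d2Code N R κ j f) y := by
      field_simp
    rw [this, e1, e2]
    rfl
  · rw [denCode, pcEval_mul]
    exact one_le_mul_of_one_le_of_one_le p1 p2

/-- Code (numerator, denominator) of the product kernel for the list `L` of polynomials in `N`
variables. -/
def kernelCode (N κ : ℕ) (L : List PCode) : PCode × PCode :=
  (pcProdRange L.length fun j => numCode N L.length κ j (pcTrunc N (L.getD j [])),
   pcProdRange L.length fun j => denCode N L.length κ j (pcTrunc N (L.getD j [])))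

/-- Coordinates of a point of `ℝ^(N+(R+R))`. -/
noncomputable def coords (N R : ℕ) :
    (Fin (N + (R + R)) → ℝ) ≃ᵐ (Fin N → ℝ) × (Fin R → ℝ × ℝ) :=
  (split N (R + R)).trans
    (MeasurableEquiv.prodCongr (MeasurableEquiv.refl _)
      ((split R R).trans (MeasurableEquiv.arrowProdEquivProdArrow ℝ ℝ (Fin R)).symm))

theorem coords_apply (N R : ℕ) (y : Fin (N + (R + R)) → ℝ) :
    coords N R y = (fun i => y (Fin.castAdd (R + R) i), fun j =>
      (y (Fin.natAdd N (Fin.castAdd R j)), y (Fin.natAdd N (Fin.natAdd R j)))) := by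
  have h1 : coords N R y = ((split N (R + R) y).1,
      (MeasurableEquiv.arrowProdEquivProdArrow ℝ ℝ (Fin R)).symm
        (split R R (split N (R + R) y).2)) := rfl
  rw [h1]
  simp only [split_apply]
  rfl

theorem measurePreserving_coords (N R : ℕ) : MeasurePreserving (coords N R) volume volume := by
  refine (measurePreserving_split N (R + R)).trans ?_
  refine (MeasurePreserving.id volume).prod ?_
  refine (measurePreserving_split R R).trans ?_
  exact (volume_measurePreserving_arrowProdEquivProdArrow ℝ ℝ (Fin R)).symm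

theorem kernelCode_eval (N κ : ℕ) (L : List PCode)
    (y : Fin (N + (L.length + L.length)) → ℝ) :
    pcEval _ (kernelCode N κ L).1 y / pcEval _ (kernelCode N κ L).2 y =
      PK κ (fun j : Fin L.length => pcReal N (L.get j)) (coords N L.length y) ∧
    1 ≤ pcEval _ (kernelCode N κ L).2 y := by
  have hN : N ≤ N + (L.length + L.length) := Nat.le_add_right _ _
  have hj := fun j : Fin L.length => kernel_eval (κ := κ) (R := L.length) (j := j) hN (by omega) (by omega)
    (pcTrunc N (L.getD j [])) y
  constructor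
  · simp only [kernelCode, pcEval_prodRange]
    rw [← Finset.prod_div_distrib, PK]
    refine Finset.prod_congr rfl fun j _ => ?_
    rw [(hj j).1, coords_apply]
    simp only [eval_pcReal]
    congr 1
    · rw [pcEval_trunc hN]
      congr 1
      simp
    · simp only [Prod.mk.injEq]
      refine ⟨rfl, ?_⟩
      congr 1
      ext
      simp
      omega
  · simp only [kernelCode, pcEval_prodRange]
    calc (1 : ℝ) = ∏ _j : Fin L.length, 1 := by simp
      _ ≤ _ := Finset.prod_le_prod (fun _ _ => zero_le_one) fun j _ => (hj j).2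

end Pool.Agent.Lib.MP_bbe012_lc
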