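import Mathlib
import Pool.Agent.Lib.MP_bbe012_lc.Ratio
import Pool.Agent.Lib.MP_bbe012_lc.Entry

/-!
# Reduction to bounded domains: the substitution `x_i = y_i / (1 - y_i²)`
-/

namespace Pool.Agent.Lib.MP_bbe012_lc

open MeasureTheory MvPolynomial Set Filter Topology

/-! ### The substitution -/

theorem one_sub_sq_pos {y : ℝ} (hy : y ∈ Ioo (-1 : ℝ) 1) : 0 < 1 - y ^ 2 := by
  have h1 := hy.1
  have h2 := hy.2
  nlinarith

theorem mem_Ioo_of_pos {y : ℝ} (hy : 0 < 1 - y ^ 2) : y ∈ Ioo (-1 : ℝ) 1 := by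
  constructor <;> nlinarith [sq_nonneg (y + 1), sq_nonneg (y - 1)]

theorem subst_inj {x y : ℝ} (hx : x ∈ Ioo (-1 : ℝ) 1) (hy : y ∈ Ioo (-1 : ℝ) 1)
    (h : x / (1 - x ^ 2) = y / (1 - y ^ 2)) : x = y := by
  have h1 := one_sub_sq_pos hx
  have h2 := one_sub_sq_pos hy
  rw [div_eq_div_iff h1.ne' h2.ne'] at h
  have h3 : (x - y) * (1 + x * y) = 0 := by ring_nf at h ⊢; linarith
  have h4 : 0 < 1 + x * y := by
    have := hx.1; have := hx.2; have := hy.1; have := hy.2
    nlinarith [mul_pos (sub_pos.mpr hx.2) (sub_pos.mpr hy.1), mul_pos (sub_pos.mpr hx.1) (sub_pos.mpr hy.2)]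
  rcases mul_eq_zero.mp h3 with h5 | h5
  · linarith
  · exact absurd h5 h4.ne'

theorem subst_surj (x : ℝ) : ∃ y ∈ Ioo (-1 : ℝ) 1, y / (1 - y ^ 2) = x := by
  set r := Real.sqrt (1 + 4 * x ^ 2) with hr
  have hr2 : r ^ 2 = 1 + 4 * x ^ 2 := Real.sq_sqrt (by positivity)
  have hr0 : 0 ≤ r := Real.sqrt_nonneg _
  have h1 : 0 < 1 + r := by linarith
  have h2 : 1 - (2 * x / (1 + r)) ^ 2 = 2 / (1 + r) := by
    field_simp
    nlinarith
  refine ⟨2 * x / (1 + r), mem_Ioo_of_pos (by rw [h2]; positivity), ?_⟩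
  rw [h2]
  field_simp

theorem subst_deriv {y : ℝ} (hy : y ∈ Ioo (-1 : ℝ) 1) :
    HasDerivAt (fun y : ℝ => y / (1 - y ^ 2)) ((1 + y ^ 2) / (1 - y ^ 2) ^ 2) y := by
  have h1 := one_sub_sq_pos hy
  have h2 : HasDerivAt (fun y : ℝ => 1 - y ^ 2) (-(2 * y)) y := by
    have := (hasDerivAt_pow 2 y).const_sub 1
    simpa using this
  have h3 := (hasDerivAt_id y).div h2 h1.ne'
  refine h3.congr_deriv ?_
  simp only [id]
  congr 1
  ring

variable {n : ℕ}

/-- The substitution. -/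
noncomputable def phi (y : Fin n → ℝ) : Fin n → ℝ := fun i => y i / (1 - y i ^ 2)

/-- The open cube. -/
def cube (n : ℕ) : Set (Fin n → ℝ) := {y | ∀ i, y i ∈ Ioo (-1 : ℝ) 1}

theorem phi_injOn : InjOn (phi : (Fin n → ℝ) → Fin n → ℝ) (cube n) := by
  intro x hx y hy h
  ext i
  exact subst_inj (hx i) (hy i) (congrFun h i)

theorem phi_surj (x : Fin n → ℝ) : ∃ y ∈ cube n, phi y = x := by
  choose y hy hyx using fun i => subst_surj (x i)
  exact ⟨y, hy, funext hyx⟩

/-- The Jacobian determinant. -/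
noncomputable def jac (y : Fin n → ℝ) : ℝ := ∏ i, (1 + y i ^ 2) / (1 - y i ^ 2) ^ 2

/-- The derivative of the substitution. -/
noncomputable def phi' (y : Fin n → ℝ) : (Fin n → ℝ) →L[ℝ] (Fin n → ℝ) :=
  ContinuousLinearMap.pi fun i =>
    (ContinuousLinearMap.toSpanSingleton ℝ ((1 + y i ^ 2) / (1 - y i ^ 2) ^ 2)).comp
      (ContinuousLinearMap.proj i)

theorem det_phi' (y : Fin n → ℝ) : (phi' y).det = jac y := by
  unfold phi' jac
  rw [ContinuousLinearMap.det_pi]
  refine Finset.prod_congr rfl fun i _ => ?_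
  rw [ContinuousLinearMap.det_toSpanSingleton]

theorem hasFDerivAt_phi {y : Fin n → ℝ} (hy : y ∈ cube n) : HasFDerivAt phi (phi' y) y := by
  rw [hasFDerivAt_pi']
  intro i
  have h1 : HasFDerivAt (fun y : ℝ => y / (1 - y ^ 2))
      (ContinuousLinearMap.toSpanSingleton ℝ ((1 + y i ^ 2) / (1 - y i ^ 2) ^ 2)) (y i) :=
    (subst_deriv (hy i)).hasFDerivAt
  have h2 : HasFDerivAt (fun y : Fin n → ℝ => y i) (ContinuousLinearMap.proj (R := ℝ) i) y :=
    hasFDerivAt_apply i y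
  exact HasFDerivAt.comp y h1 h2

theorem jac_pos {y : Fin n → ℝ} (hy : y ∈ cube n) : 0 < jac y := by
  refine Finset.prod_pos fun i _ => ?_
  have := one_sub_sq_pos (hy i)
  positivity

theorem isOpen_cube : IsOpen (cube n) := by
  have : cube n = Set.pi univ fun _ => Ioo (-1 : ℝ) 1 := by
    ext y; simp [cube]
  rw [this]
  exact isOpen_set_pi finite_univ fun _ _ => isOpen_Ioo

theorem isBounded_cube : Bornology.IsBounded (cube n) := by
  have : cube n = Set.pi univ fun _ => Ioo (-1 : ℝ) 1 := by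
    ext y; simp [cube]
  rw [this]
  exact Bornology.IsBounded.pi fun _ => Metric.isBounded_Ioo _ _

theorem change_integrable {D : Set (Fin n → ℝ)} (hD : MeasurableSet D) (hDc : D ⊆ cube n)
    (f : (Fin n → ℝ) → ℝ) :
    IntegrableOn f (phi '' D) ↔ IntegrableOn (fun y => jac y * f (phi y)) D := by
  rw [integrableOn_image_iff_integrableOn_abs_det_fderiv_smul volume hD
    (fun y hy => (hasFDerivAt_phi (hDc hy)).hasFDerivWithinAt) (phi_injOn.mono hDc)]
  refine integrableOn_congr_fun (fun y hy => ?_) hD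
  rw [det_phi', abs_of_pos (jac_pos (hDc hy)), smul_eq_mul]

theorem change_integral {D : Set (Fin n → ℝ)} (hD : MeasurableSet D) (hDc : D ⊆ cube n)
    (f : (Fin n → ℝ) → ℝ) :
    ∫ x in phi '' D, f x = ∫ y in D, jac y * f (phi y) := by
  rw [integral_image_eq_integral_abs_det_fderiv_smul volume hD
    (fun y hy => (hasFDerivAt_phi (hDc hy)).hasFDerivWithinAt) (phi_injOn.mono hDc)]
  refine setIntegral_congr_fun hD fun y hy => ?_
  rw [det_phi', abs_of_pos (jac_pos (hDc hy)), smul_eq_mul]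

/-! ### Codes -/

/-- The code of `1 - y_i²`. -/
def uCode (i : ℕ) : PCode := pcNat 1 ++ pcNeg (pcMul (pcVar i) (pcVar i))

/-- The code of the product of the `1 - y_i²`. -/
def wCode (n : ℕ) : PCode := pcProdRange n uCode

/-- The code of the product of the `1 + y_i²`. -/
def jCode (n : ℕ) : PCode := pcProdRange n fun i => pcNat 1 ++ pcMul (pcVar i) (pcVar i)

/-- Homogenised substitution in a term. -/
def sharpTerm (n N : ℕ) (t : QCode × List ℕ) : PCode :=
  pcMul [(t.1, [])] (pcProdRange n fun i =>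
    pcMul (pcPow (pcVar i) (t.2.getD i 0)) (pcPow (uCode i) (N - t.2.getD i 0)))

/-- Homogenised substitution in a polynomial. -/
def sharp (n N : ℕ) (p : PCode) : PCode := p.flatMap (sharpTerm n N)

/-- The product of the `1 - y_i²`. -/
noncomputable def ww (y : Fin n → ℝ) : ℝ := ∏ i, (1 - y i ^ 2)

theorem ww_pos {y : Fin n → ℝ} (hy : y ∈ cube n) : 0 < ww y :=
  Finset.prod_pos fun i _ => one_sub_sq_pos (hy i)

theorem pcEval_u {i : ℕ} (hi : i < n) (y : Fin n → ℝ) :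
    pcEval n (uCode i) y = 1 - y ⟨i, hi⟩ ^ 2 := by
  rw [uCode, pcEval_append, pcEval_nat, pcEval_neg, pcEval_mul, pcEval_var hi]
  push_cast
  ring

theorem pcEval_w (y : Fin n → ℝ) : pcEval n (wCode n) y = ww y := by
  rw [wCode, pcEval_prodRange]
  exact Finset.prod_congr rfl fun i _ => pcEval_u i.2 y

theorem pcEval_j (y : Fin n → ℝ) : pcEval n (jCode n) y = ∏ i, (1 + y i ^ 2) := by
  rw [jCode, pcEval_prodRange]
  refine Finset.prod_congr rfl fun i _ => ?_
  rw [pcEval_append, pcEval_nat, pcEval_mul, pcEval_var i.2]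
  push_cast
  ring

theorem jac_eq (y : Fin n → ℝ) : jac y = pcEval n (jCode n) y / ww y ^ 2 := by
  rw [pcEval_j, jac, ww, ← Finset.prod_pow, ← Finset.prod_div_distrib]

theorem pcEval_sharpTerm {N : ℕ} {t : QCode × List ℕ} (h : ∀ i, t.2.getD i 0 ≤ N) {y : Fin n → ℝ}
    (hy : y ∈ cube n) :
    pcEval n (sharpTerm n N t) y = ww y ^ N * ((qval t.1 : ℝ) * ∏ i, phi y i ^ t.2.getD i 0) := by
  rw [sharpTerm, pcEval_mul, pcEval_prodRange, pcEval_cons]
  have h1 : ∀ i : Fin n, pcEval n (pcMul (pcPow (pcVar i) (t.2.getD i 0))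
      (pcPow (uCode i) (N - t.2.getD i 0))) y = (1 - y i ^ 2) ^ N * phi y i ^ t.2.getD i 0 := by
    intro i
    rw [pcEval_mul, pcEval_pow, pcEval_pow, pcEval_var i.2, pcEval_u i.2, phi]
    have h2 := one_sub_sq_pos (hy i)
    have h3 : (1 - y i ^ 2) ^ N = (1 - y i ^ 2) ^ (N - t.2.getD i 0) * (1 - y i ^ 2) ^ t.2.getD i 0 := by
      rw [← pow_add, Nat.sub_add_cancel (h i)]
    rw [h3, div_pow]
    field_simp
  rw [Finset.prod_congr rfl fun i _ => h1 i, Finset.prod_mul_distrib, Finset.prod_pow, ← ww]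
  simp only [List.getD_nil, pow_zero, Finset.prod_const_one, pcEval_nil]
  ring

theorem pcEval_sharp {N : ℕ} {p : PCode} (h : pcDeg p ≤ N) {y : Fin n → ℝ} (hy : y ∈ cube n) :
    pcEval n (sharp n N p) y = ww y ^ N * pcEval n p (phi y) := by
  induction p with
  | nil => simp [sharp]
  | cons t p ih =>
    have h1 : pcDeg (t :: p) = max (t.2.foldr max 0) (pcDeg p) := rfl
    rw [h1, max_le_iff] at h
    have h2 : sharp n N (t :: p) = sharpTerm n N t ++ sharp n N p := rfl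
    rw [h2, pcEval_append, ih h.2, pcEval_sharpTerm (fun i => (getD_le_foldr_max _ _).trans h.1) hy,
      pcEval_cons]
    ring

/-- The transformed system. -/
def bdSys (n : ℕ) (S : SysCode) : SysCode :=
  S.map (fun c => (c.1, sharp n (pcDeg c.2) c.2)) ++ (List.range n).map fun i => (true, uCode i)

theorem mem_bdSys (S : SysCode) (y : Fin n → ℝ) :
    y ∈ sysSet n (bdSys n S) ↔ y ∈ cube n ∧ phi y ∈ sysSet n S := by
  have h1 : (∀ c ∈ bdSys n S, (c.1 = true → 0 < pcEval n c.2 y) ∧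
      (c.1 = false → 0 ≤ pcEval n c.2 y)) ↔
      (∀ c ∈ S, (c.1 = true → 0 < pcEval n (sharp n (pcDeg c.2) c.2) y) ∧
        (c.1 = false → 0 ≤ pcEval n (sharp n (pcDeg c.2) c.2) y)) ∧
      (∀ i < n, 0 < pcEval n (uCode i) y) := by
    unfold bdSys
    simp only [List.mem_append, List.mem_map, List.mem_range]
    constructor
    · intro h
      refine ⟨fun c hc => h _ (Or.inl ⟨c, hc, rfl⟩), fun i hi => ?_⟩
      exact (h _ (Or.inr ⟨i, hi, rfl⟩)).1 rfl
    · rintro ⟨h1, h2⟩ _ (⟨c, hc, rfl⟩ | ⟨i, hi, rfl⟩)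
      · exact h1 c hc
      · exact ⟨fun _ => h2 i hi, fun h => absurd h (by simp)⟩
  have h2 : (∀ i < n, 0 < pcEval n (uCode i) y) ↔ y ∈ cube n := by
    constructor
    · intro h i
      have := h i i.2
      rw [pcEval_u i.2] at this
      exact mem_Ioo_of_pos this
    · intro h i hi
      rw [pcEval_u hi]
      exact one_sub_sq_pos (h ⟨i, hi⟩)
  change (∀ c ∈ bdSys n S, _) ↔ _
  rw [h1, h2, and_comm]
  refine and_congr_right fun hy => forall₂_congr fun c _ => ?_
  rw [pcEval_sharp le_rfl hy]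
  have hw : 0 < ww y ^ pcDeg c.2 := pow_pos (ww_pos hy) _
  rw [mul_pos_iff_of_pos_left hw, mul_nonneg_iff_of_pos_left hw]

theorem image_bdSys (S : SysCode) : phi '' sysSet n (bdSys n S) = sysSet n S := by
  ext x
  constructor
  · rintro ⟨y, hy, rfl⟩
    exact ((mem_bdSys S y).mp hy).2
  · intro hx
    obtain ⟨y, hy, rfl⟩ := phi_surj x
    exact ⟨y, (mem_bdSys S y).mpr ⟨hy, hx⟩, rfl⟩

/-- The transformed integral. -/
def bdInt (I : IntCode) : IntCode :=
  (I.1, (pcMul (jCode I.1) (pcMul (sharp I.1 (pcDeg I.2.1.1) I.2.1.1)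
      (pcPow (wCode I.1) (pcDeg I.2.1.2))),
    pcMul (pcPow (wCode I.1) (pcDeg I.2.1.1 + 2)) (sharp I.1 (pcDeg I.2.1.2) I.2.1.2)),
    bdSys I.1 I.2.2)

theorem integrand_bdInt (P Q : PCode) (S : SysCode) {y : Fin n → ℝ} (hy : y ∈ cube n) :
    integrand (bdInt (n, (P, Q), S)) y = jac y * integrand (n, (P, Q), S) (phi y) := by
  have hw := (ww_pos hy).ne'
  change pcEval n (pcMul (jCode n) (pcMul (sharp n (pcDeg P) P) (pcPow (wCode n) (pcDeg Q)))) y /
    pcEval n (pcMul (pcPow (wCode n) (pcDeg P + 2)) (sharp n (pcDeg Q) Q)) y =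
    jac y * (pcEval n P (phi y) / pcEval n Q (phi y))
  rw [pcEval_mul, pcEval_mul, pcEval_mul, pcEval_pow, pcEval_pow, pcEval_w, pcEval_sharp le_rfl hy,
    pcEval_sharp le_rfl hy, jac_eq]
  by_cases hQ : pcEval n Q (phi y) = 0
  · rw [hQ]; simp
  · field_simp
    ring

theorem pcPoly_sharp_ne_zero {N : ℕ} {q : PCode} (hN : pcDeg q ≤ N) (hq : pcPoly n q ≠ 0) :
    pcPoly n (sharp n N q) ≠ 0 := by
  obtain ⟨x, hx⟩ := exists_pcEval_ne_zero hq
  obtain ⟨y, hy, rfl⟩ := phi_surj x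
  refine pcPoly_ne_zero_of_eval (x := y) ?_
  rw [pcEval_sharp hN hy]
  exact mul_ne_zero (pow_pos (ww_pos hy) _).ne' hx

theorem pcPoly_w_ne_zero (n : ℕ) : pcPoly n (wCode n) ≠ 0 := by
  refine pcPoly_ne_zero_of_eval (x := 0) ?_
  rw [pcEval_w, ww]
  simp

theorem admissible_bdInt {I : IntCode} (h : Admissible I) : Admissible (bdInt I) := by
  obtain ⟨n, ⟨P, Q⟩, S⟩ := I
  refine ⟨?_, ?_⟩
  · change pcPoly n (pcMul (pcPow (wCode n) (pcDeg P + 2)) (sharp n (pcDeg Q) Q)) ≠ 0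
    rw [pcPoly_mul, pcPoly_pow]
    exact mul_ne_zero (pow_ne_zero _ (pcPoly_w_ne_zero n)) (pcPoly_sharp_ne_zero le_rfl h.1)
  · have h1 : IntegrableOn (integrand (n, (P, Q), S)) (phi '' sysSet n (bdSys n S)) := by
      rw [image_bdSys]; exact h.2
    have h2 := (change_integrable (measurableSet_sysSet n _)
      (fun y hy => ((mem_bdSys S y).mp hy).1) _).mp h1
    refine (integrableOn_congr_fun (fun y hy => ?_) (measurableSet_sysSet n _)).mpr h2
    exact integrand_bdInt P Q S ((mem_bdSys S y).mp hy).1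

theorem value_bdInt (I : IntCode) : value (bdInt I) = value I := by
  obtain ⟨n, ⟨P, Q⟩, S⟩ := I
  have h1 : value (n, (P, Q), S) = ∫ x in phi '' sysSet n (bdSys n S), integrand (n, (P, Q), S) x := by
    rw [image_bdSys]; rfl
  rw [h1, change_integral (measurableSet_sysSet n _) (fun y hy => ((mem_bdSys S y).mp hy).1)]
  refine setIntegral_congr_fun (measurableSet_sysSet n _) fun y hy => ?_
  exact integrand_bdInt P Q S ((mem_bdSys S y).mp hy).1

/-! ### Geometries -/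

/-- The transformed geometry. -/
def bdGeo (g : Geo) : Geo :=
  (g.1, pcMul (wCode g.1) (sharp g.1 (pcDeg g.2.1) g.2.1), bdSys g.1 g.2.2)

/-- Polynomials which agree on the cube are equal. -/
theorem pcPoly_eq_of_cube {p q : PCode} (h : ∀ y ∈ cube n, pcEval n p y = pcEval n q y) :
    pcPoly n p = pcPoly n q := by
  have hinj : Function.Injective
      (map (algebraMap ℚ ℝ) : MvPolynomial (Fin n) ℚ → MvPolynomial (Fin n) ℝ) :=
    map_injective _ (algebraMap ℚ ℝ).injective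
  apply hinj
  refine funext_set (fun _ => Ioo (-1 : ℝ) 1) (fun _ => Ioo_infinite (by norm_num)) fun y hy => ?_
  have hy' : y ∈ cube n := fun i => hy i (mem_univ i)
  have := h y hy'
  rw [← eval_pcReal, ← eval_pcReal] at this
  exact this

theorem hasGeometry_bdInt {I : IntCode} {g : Geo} (h : HasGeometry I g) :
    HasGeometry (bdInt I) (bdGeo g) := by
  obtain ⟨n, ⟨P, Q⟩, S⟩ := I
  obtain ⟨n', q, S'⟩ := g
  obtain ⟨h1, h2, k, R, hR⟩ := h
  simp only at h1 h2 hR
  subst h1 h2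
  refine ⟨rfl, rfl, ?_⟩
  obtain ⟨Rc, hRc⟩ := exists_pcPoly R
  set NQ := pcDeg Q with hNQ
  set NP := pcDeg P with hNP
  set NR := pcDeg Rc with hNR
  set Nq := pcDeg q with hNq
  set M := NQ + NR + NP + 2 with hM
  refine ⟨M + k, ?_⟩
  change pcPoly n (pcMul (pcPow (wCode n) (NP + 2)) (sharp n NQ Q)) ∣
    pcPoly n (pcMul (wCode n) (sharp n Nq q)) ^ (M + k)
  have e1 : pcPoly n (pcMul (pcPow (wCode n) M) (pcPow (sharp n Nq q) k)) =
      pcPoly n (pcMul (pcMul (pcPow (wCode n) (NP + 2)) (sharp n NQ Q))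
        (pcMul (sharp n NR Rc) (pcPow (wCode n) (Nq * k)))) := by
    refine pcPoly_eq_of_cube fun y hy => ?_
    simp only [pcEval_mul, pcEval_pow, pcEval_w]
    rw [pcEval_sharp le_rfl hy, pcEval_sharp le_rfl hy, pcEval_sharp le_rfl hy]
    have e2 : pcEval n q (phi y) ^ k = pcEval n Q (phi y) * pcEval n Rc (phi y) := by
      unfold pcEval
      rw [← map_pow, hR, map_mul, hRc]
    rw [mul_pow, e2, hM, ← hNq, ← hNQ, ← hNR]
    ring
  have e3 : pcPoly n (pcMul (wCode n) (sharp n Nq q)) ^ (M + k) =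
      pcPoly n (pcMul (pcPow (wCode n) M) (pcPow (sharp n Nq q) k)) *
        (pcPoly n (wCode n) ^ k * pcPoly n (sharp n Nq q) ^ M) := by
    simp only [pcPoly_mul, pcPoly_pow]
    ring
  rw [e3, e1]
  simp only [pcPoly_mul, pcPoly_pow]
  exact ⟨pcPoly n (sharp n NR Rc) * pcPoly n (wCode n) ^ (Nq * k) *
    (pcPoly n (wCode n) ^ k * pcPoly n (sharp n Nq q) ^ M), by ring⟩

theorem bdGeo_ne_zero {g : Geo} (h : pcPoly g.1 g.2.1 ≠ 0) :
    pcPoly (bdGeo g).1 (bdGeo g).2.1 ≠ 0 := by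
  change pcPoly g.1 (pcMul (wCode g.1) (sharp g.1 (pcDeg g.2.1) g.2.1)) ≠ 0
  rw [pcPoly_mul]
  exact mul_ne_zero (pcPoly_w_ne_zero _) (pcPoly_sharp_ne_zero le_rfl h)

theorem isBounded_bdGeo (g : Geo) :
    Bornology.IsBounded (region (bdGeo g).1 (bdGeo g).2.1 (bdGeo g).2.2) := by
  obtain ⟨n, q, S⟩ := g
  refine isBounded_cube.subset fun y hy i => ?_
  have h1 := hy.1 (true, uCode i) (by
    change (true, uCode i) ∈ bdSys n S
    unfold bdSys
    rw [List.mem_append]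
    right
    exact List.mem_map.mpr ⟨i, List.mem_range.mpr i.2, rfl⟩)
  rw [pcEval_hat] at h1
  split_ifs at h1 with hz h2
  · norm_num at h1
  · exact absurd rfl h2
  · rw [pcEval_u i.2] at h1
    exact mem_Ioo_of_pos h1

end Pool.Agent.Lib.MP_bbe012_lc
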