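import Mathlib
import Pool.Agent.Lib.MP_bbe012_lc.Bd

/-!
# Coordinates for the integrals with a given geometry
-/

namespace Pool.Agent.Lib.MP_bbe012_lc

open MeasureTheory MvPolynomial Set Filter Topology

/-- Data attached to a bounded geometry, together with the values of the basic integrals. -/
theorem exists_entry1 {n : ℕ} {q : PCode} {S : SysCode} (hq : pcPoly n q ≠ 0)
    (hb : Bornology.IsBounded (region n q S)) :
    ∃ (e : HEntry) (N : ℕ) (u : ℕ → ℝ), (∀ i, N ≤ i → u i = 0) ∧
      (∀ I qs c, Admissible I → check e qs I c →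
        value I = ∑ i ∈ Finset.range N, (qval (qs.getD i (qnat 0)) : ℝ) * u i) ∧
      (∀ I, Admissible I → HasGeometry I (n, q, S) → ∃ qs c, check e qs I c) := by
  obtain ⟨kk, b, hb0, hFE⟩ := functional_equation (hPoly_ne_zero S hq)
  set A := intSub (hPoly n q S) (region n q S) with hA
  obtain ⟨N, a, flag, hspan, -⟩ := exists_control (certSub (hPoly n q S) (b.natDegree + 1)) A
    (certSub_finite (hPoly_ne_zero S hq) (b.natDegree + 1)) (intForm (hPoly n q S) (region n q S))
    (fun a ha => intForm_eq_zero (region_region hb) hb0 hFE le_rfl a ha)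
  obtain ⟨k, p, hp⟩ := exists_frac_common N fun i => ((a i : Loc (hPoly n q S)))
  choose pc hpc using fun i => exists_pcPoly (p i)
  refine ⟨((n, q, S), (k, b.natDegree + 1), List.ofFn pc), N,
    fun i => if h : i < N then intForm (hPoly n q S) (region n q S) (a ⟨i, h⟩) else 0, ?_, ?_, ?_⟩
  · intro i hi
    exact dif_neg (not_lt.mpr hi)
  · rintro I qs c hI h1
    obtain ⟨m, ⟨P, Q⟩, T⟩ := I
    obtain ⟨⟨rfl, rfl⟩, hz⟩ := id h1
    have e1 := check_sound hq hb hb0 hFE le_rfl hI (List.length_ofFn (f := pc))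
      a (fun i => by rw [getD_ofFn, hpc]; exact hp i) h1
    rw [e1, map_sum, Finset.sum_range]
    refine Finset.sum_congr rfl fun i _ => ?_
    beta_reduce
    rw [dif_pos i.2, map_smul, Rat.smul_def]
  · rintro I hI ⟨hI1, hI2, k0, hI3⟩
    obtain ⟨m, ⟨P, Q⟩, T⟩ := I
    simp only at hI1 hI2 hI3
    subst hI1 hI2
    obtain ⟨G, hG⟩ := exists_numerator T (pcPoly m P) hI3
    obtain ⟨r, hr⟩ := hspan ⟨fracMap (hPoly m q T) k0 G, mem_intSub hq hI hG⟩
    choose rc hrc using fun i => exists_qval (r i)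
    have e1 : fracMap (hPoly m q T) k0 G - ∑ i ∈ Finset.range (List.ofFn pc).length,
        qval ((List.ofFn rc).getD i (qnat 0)) • fracMap (hPoly m q T) k
          (pcPoly m ((List.ofFn pc).getD i [])) ∈ certSub (hPoly m q T) (b.natDegree + 1) := by
      rw [List.length_ofFn, Finset.sum_range]
      have e0 : ∑ i : Fin N, qval ((List.ofFn rc).getD i (qnat 0)) • fracMap (hPoly m q T) k
          (pcPoly m ((List.ofFn pc).getD i [])) = ∑ i, r i • (a i : Loc (hPoly m q T)) := by
        refine Finset.sum_congr rfl fun i _ => ?_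
        rw [getD_ofFn, getD_ofFn, hrc, hpc, ← hp]
      rw [e0]
      exact hr
    obtain ⟨c, hc⟩ := check_complete hq hG e1
    exact ⟨List.ofFn rc, c, hc⟩

/-- Data attached to an arbitrary geometry. -/
theorem exists_entry2 {g : Geo} (hq : pcPoly g.1 g.2.1 ≠ 0) :
    ∃ (e : HEntry) (N : ℕ) (u : ℕ → ℝ), (∀ i, N ≤ i → u i = 0) ∧
      (∀ I qs c, Admissible I → check e qs (bdInt I) c →
        value I = ∑ i ∈ Finset.range N, (qval (qs.getD i (qnat 0)) : ℝ) * u i) ∧
      (∀ I, Admissible I → HasGeometry I g → ∃ qs c, check e qs (bdInt I) c) := by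
  obtain ⟨e, N, u, hu, h1, h2⟩ := exists_entry1 (n := (bdGeo g).1) (q := (bdGeo g).2.1)
    (S := (bdGeo g).2.2) (bdGeo_ne_zero hq) (isBounded_bdGeo g)
  refine ⟨e, N, u, hu, fun I qs c hI hc => ?_, fun I hI hg => ?_⟩
  · rw [← value_bdInt]
    exact h1 (bdInt I) qs c (admissible_bdInt hI) hc
  · exact h2 (bdInt I) (admissible_bdInt hI) (hasGeometry_bdInt hg)

end Pool.Agent.Lib.MP_bbe012_lc
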