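import Mathlib
import Pool.Agent.Lib.MP_bbe012_lc.Single

/-!
# Sign cells of a polynomial, and integrals supported on a hypersurface
-/

namespace Pool.Agent.Lib.MP_bbe012_lc

open MeasureTheory MvPolynomial Set Filter Topology

/-- The explicit integral `I` is supported on the hypersurface `g = (n, f)` of `ℝ^n`: the
denominator and the polynomials in the system of inequalities divide a power of `f`. -/
def SupportedOn (I : IntCode) (g : ℕ × PCode) : Prop :=
  I.1 = g.1 ∧ ∃ k : ℕ, pcPoly g.1 I.2.1.2 ∣ pcPoly g.1 g.2 ^ k ∧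
    ∀ c ∈ I.2.2, pcPoly g.1 c.2 ∣ pcPoly g.1 g.2 ^ k

variable {n : ℕ}

/-- The polynomial `g` does not vanish and has the same sign at all points of `C`. -/
def SameSign (g : MvPolynomial (Fin n) ℚ) (C : Set (Fin n → ℝ)) : Prop :=
  ∀ x ∈ C, ∀ y ∈ C, 0 < evR g x * evR g y

theorem evR_mul (g h : MvPolynomial (Fin n) ℚ) (x : Fin n → ℝ) : evR (g * h) x = evR g x * evR h x :=
  map_mul _ _ _

theorem evR_pow (g : MvPolynomial (Fin n) ℚ) (k : ℕ) (x : Fin n → ℝ) : evR (g ^ k) x = evR g x ^ k :=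
  map_pow _ _ _

theorem SameSign.mul {g h : MvPolynomial (Fin n) ℚ} {C : Set (Fin n → ℝ)} (hg : SameSign g C)
    (hh : SameSign h C) : SameSign (g * h) C := by
  intro x hx y hy
  rw [evR_mul, evR_mul]
  have := mul_pos (hg x hx y hy) (hh x hx y hy)
  calc 0 < _ := this
    _ = _ := by ring

theorem sameSign_of_isUnit {g : MvPolynomial (Fin n) ℚ} (hg : IsUnit g) (D : Set (Fin n → ℝ)) :
    SameSign g D := by
  intro x _ y _
  obtain ⟨r, hr, rfl⟩ := (MvPolynomial.isUnit_iff_eq_C_of_isReduced (P := g)).mp hg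
  unfold evR
  rw [aeval_C, aeval_C]
  have : algebraMap ℚ ℝ r ≠ 0 := by
    rw [Ne, map_eq_zero_iff _ (algebraMap ℚ ℝ).injective]
    exact hr.ne_zero
  exact mul_self_pos.mpr this

theorem SameSign.associated {g h : MvPolynomial (Fin n) ℚ} {C : Set (Fin n → ℝ)}
    (hg : SameSign g C) (hh : Associated g h) : SameSign h C := by
  obtain ⟨u, rfl⟩ := hh
  exact hg.mul (sameSign_of_isUnit u.isUnit C)

/-- Divisors of powers of `f` have constant sign where the prime factors of `f` have constant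
sign. -/
theorem sameSign_of_dvd {f g : MvPolynomial (Fin n) ℚ} (hf : f ≠ 0) {C : Set (Fin n → ℝ)}
    (hC : ∀ p ∈ UniqueFactorizationMonoid.factors f, SameSign p C) {k : ℕ} (hg : g ∣ f ^ k) :
    SameSign g C := by
  have hg0 : g ≠ 0 := by
    rintro rfl
    rw [zero_dvd_iff] at hg
    exact (pow_ne_zero _ hf) hg
  revert hg hg0
  refine UniqueFactorizationMonoid.induction_on_prime g (fun _ h => absurd rfl h) ?_ ?_
  · intro u hu _ _
    exact sameSign_of_isUnit hu C
  · intro a p ha hp ih hd _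
    have hpd : p ∣ f := hp.dvd_of_dvd_pow ((dvd_mul_right p a).trans hd)
    obtain ⟨q, hq, hpq⟩ := UniqueFactorizationMonoid.exists_mem_factors_of_dvd hf hp.irreducible hpd
    exact ((hC q hq).associated hpq.symm).mul (ih ((dvd_mul_left a p).trans hd) ha)

/-- The system which prescribes the signs of finitely many polynomials. -/
def cellSys {r : ℕ} (p : Fin r → PCode) (σ : Fin r → Bool) : SysCode :=
  List.ofFn fun j => (true, if σ j = true then p j else pcNeg (p j))

theorem mem_cellSys {r : ℕ} (p : Fin r → PCode) (σ : Fin r → Bool) (x : Fin n → ℝ) :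
    x ∈ sysSet n (cellSys p σ) ↔
      ∀ j, (σ j = true → 0 < pcEval n (p j) x) ∧ (σ j = false → pcEval n (p j) x < 0) := by
  unfold cellSys sysSet
  simp only [List.mem_ofFn, forall_exists_index, mem_ofPred_eq]
  constructor
  · intro h j
    have h1 := (h _ j rfl).1 rfl
    constructor
    · intro hj
      simpa [hj] using h1
    · intro hj
      simpa [hj] using h1
  · rintro h _ j rfl
    refine ⟨fun _ => ?_, fun h2 => absurd h2 (by simp)⟩
    rcases Bool.eq_false_or_eq_true (σ j) with hj | hj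
    · simpa [hj] using (h j).1 hj
    · simpa [hj] using (h j).2 hj

theorem isOpen_cell {r : ℕ} (p : Fin r → PCode) (σ : Fin r → Bool) :
    IsOpen (sysSet n (cellSys p σ)) := by
  have : sysSet n (cellSys p σ) = ⋂ j, {x | (σ j = true → 0 < pcEval n (p j) x) ∧
      (σ j = false → pcEval n (p j) x < 0)} := by
    ext x
    rw [mem_cellSys, mem_iInter]
    rfl
  rw [this]
  refine isOpen_iInter_of_finite fun j => ?_
  rcases Bool.eq_false_or_eq_true (σ j) with hj | hj
  · simp only [hj, forall_const, Bool.true_eq_false, false_imp_iff, and_true]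
    exact isOpen_lt continuous_const (continuous_pcEval n _)
  · simp only [hj, forall_const, Bool.false_eq_true, false_imp_iff, true_and]
    exact isOpen_lt (continuous_pcEval n _) continuous_const

/-- The signs of the prime factors of `f` determine cells on which all divisors of powers of `f`
have constant sign. -/
theorem exists_cells {f : PCode} (hf : pcPoly n f ≠ 0) :
    ∃ (r : ℕ) (p : Fin r → PCode),
      (∀ x, pcEval n f x ≠ 0 → ∃ σ, x ∈ sysSet n (cellSys p σ)) ∧
      (∀ σ (g : PCode) (k : ℕ), pcPoly n g ∣ pcPoly n f ^ k →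
        ∀ x ∈ sysSet n (cellSys p σ), ∀ y ∈ sysSet n (cellSys p σ),
          0 < pcEval n g x * pcEval n g y) := by
  classical
  set L := (UniqueFactorizationMonoid.factors (pcPoly n f)).toList with hL
  choose p hp using fun j : Fin L.length => exists_pcPoly (L.get j)
  refine ⟨L.length, p, ?_, ?_⟩
  · intro x hx
    have hne : ∀ j, pcEval n (p j) x ≠ 0 := by
      intro j h0
      have h1 : L.get j ∈ UniqueFactorizationMonoid.factors (pcPoly n f) :=
        Multiset.mem_toList.mp (List.get_mem L j)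
      obtain ⟨R, hR⟩ := UniqueFactorizationMonoid.dvd_of_mem_factors h1
      apply hx
      unfold pcEval at h0 ⊢
      rw [hR, map_mul, ← hp, h0, zero_mul]
    refine ⟨fun j => decide (0 < pcEval n (p j) x), (mem_cellSys p _ x).mpr fun j => ⟨?_, ?_⟩⟩
    · intro h; exact of_decide_eq_true h
    · intro h
      exact lt_of_le_of_ne (not_lt.mp (of_decide_eq_false h)) (hne j)
  · intro σ g k hg
    refine sameSign_of_dvd hf (fun q hq => ?_) hg
    obtain ⟨j, hj⟩ := List.mem_iff_get.mp (Multiset.mem_toList.mpr hq)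
    intro x hx y hy
    have h1 := (mem_cellSys p σ x).mp hx j
    have h2 := (mem_cellSys p σ y).mp hy j
    have e : ∀ z, evR q z = pcEval n (p j) z := by
      intro z
      unfold pcEval evR
      rw [hp, ← hj]
    rw [e, e]
    rcases Bool.eq_false_or_eq_true (σ j) with hs | hs
    · exact mul_pos (h1.1 hs) (h2.1 hs)
    · exact mul_pos_of_neg_of_neg (h1.2 hs) (h2.2 hs)

/-- The point with coordinates given by a list of codes of rational numbers. -/
noncomputable def point (n : ℕ) (x : List QCode) : Fin n → ℝ := fun i => (qval (x.getD i (qnat 0)) : ℝ)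

theorem exists_point {U : Set (Fin n → ℝ)} (hU : IsOpen U) (hne : U.Nonempty) :
    ∃ x : List QCode, point n x ∈ U := by
  have hd : DenseRange (Pi.map fun (_ : Fin n) (q : ℚ) => (q : ℝ)) :=
    DenseRange.piMap fun _ => Rat.denseRange_cast
  obtain ⟨q, hq⟩ := hd.exists_mem_open hU hne
  choose c hc using fun i => exists_qval (q i)
  refine ⟨List.ofFn c, ?_⟩
  have : point n (List.ofFn c) = Pi.map (fun (_ : Fin n) (q : ℚ) => (q : ℝ)) q := by
    funext i
    rw [point, getD_ofFn, hc]
    rfl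
  rw [this]
  exact hq

theorem not_mem_two_cells {r : ℕ} (p : Fin r → PCode) {σ τ : Fin r → Bool} {x : Fin n → ℝ}
    (h1 : x ∈ sysSet n (cellSys p σ)) (h2 : x ∈ sysSet n (cellSys p τ)) : σ = τ := by
  rw [mem_cellSys] at h1 h2
  funext j
  have h1 := h1 j
  have h2 := h2 j
  rcases Bool.eq_false_or_eq_true (σ j) with hs | hs <;>
    rcases Bool.eq_false_or_eq_true (τ j) with ht | ht
  · rw [hs, ht]
  · exact absurd (h1.1 hs) (not_lt.mpr (h2.2 ht).le)
  · exact absurd (h2.1 ht) (not_lt.mpr (h1.2 hs).le)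
  · rw [hs, ht]

/-- An integral supported on `f` is the sum of the integrals over the cells contained in the
domain. -/
theorem value_cells {f : PCode} (hf : pcPoly n f ≠ 0) {r : ℕ} {p : Fin r → PCode}
    (hcov : ∀ x, pcEval n f x ≠ 0 → ∃ σ, x ∈ sysSet n (cellSys p σ))
    (hsign : ∀ σ (g : PCode) (k : ℕ), pcPoly n g ∣ pcPoly n f ^ k →
        ∀ x ∈ sysSet n (cellSys p σ), ∀ y ∈ sysSet n (cellSys p σ),
          0 < pcEval n g x * pcEval n g y)
    (z : (Fin r → Bool) → Fin n → ℝ)
    (hz : ∀ σ, (sysSet n (cellSys p σ)).Nonempty → z σ ∈ sysSet n (cellSys p σ))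
    {P Q : PCode} {S : SysCode} (hadm : Admissible (n, (P, Q), S)) {k : ℕ}
    (hS : ∀ c ∈ S, pcPoly n c.2 ∣ pcPoly n f ^ k) (sel : Finset (Fin r → Bool))
    (hsel : ∀ σ, σ ∈ sel ↔ z σ ∈ sysSet n (cellSys p σ) ∧ ∀ c ∈ S, 0 < pcEval n c.2 (z σ)) :
    (∀ σ ∈ sel, Admissible (n, (P, Q), cellSys p σ)) ∧
      value (n, (P, Q), S) = ∑ σ ∈ sel, value (n, (P, Q), cellSys p σ) := by
  have hsub : ∀ σ ∈ sel, sysSet n (cellSys p σ) ⊆ sysSet n S := by
    intro σ hσ x hx c hc
    obtain ⟨h1, h2⟩ := (hsel σ).mp hσ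
    have h3 := hsign σ c.2 k (hS c hc) x hx (z σ) h1
    have h4 := pos_of_mul_pos_left h3 (h2 c hc).le
    exact ⟨fun _ => h4, fun _ => h4.le⟩
  have hint : ∀ σ ∈ sel, IntegrableOn (integrand (n, (P, Q), S)) (sysSet n (cellSys p σ)) :=
    fun σ hσ => hadm.2.mono_set (hsub σ hσ)
  refine ⟨fun σ hσ => ⟨hadm.1, hint σ hσ⟩, ?_⟩
  have hae : sysSet n S =ᵐ[volume] ⋃ σ ∈ sel, sysSet n (cellSys p σ) := by
    filter_upwards [ae_pcEval_ne_zero hf] with x hx
    apply propext
    change x ∈ sysSet n S ↔ x ∈ ⋃ σ ∈ sel, sysSet n (cellSys p σ)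
    rw [mem_iUnion₂]
    constructor
    · intro hxS
      obtain ⟨σ, hσ⟩ := hcov x hx
      refine ⟨σ, (hsel σ).mpr ⟨hz σ ⟨x, hσ⟩, fun c hc => ?_⟩, hσ⟩
      have h1 := hsign σ c.2 k (hS c hc) x hσ (z σ) (hz σ ⟨x, hσ⟩)
      have h2 : 0 ≤ pcEval n c.2 x := by
        have h3 := hxS c hc
        rcases Bool.eq_false_or_eq_true c.1 with hs | hs
        · exact (h3.1 hs).le
        · exact h3.2 hs
      exact pos_of_mul_pos_right h1 h2
    · rintro ⟨σ, hσ, hx2⟩
      exact hsub σ hσ hx2
  have e1 : value (n, (P, Q), S) = ∫ x in ⋃ σ ∈ sel, sysSet n (cellSys p σ),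
      integrand (n, (P, Q), S) x := setIntegral_congr_set hae
  rw [e1, integral_biUnion_finset sel (fun σ _ => measurableSet_sysSet n _) ?_ hint]
  · rfl
  · intro σ _ τ _ hne
    refine Set.disjoint_left.mpr fun x h1 h2 => hne (not_mem_two_cells p h1 h2)

end Pool.Agent.Lib.MP_bbe012_lc
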