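import Mathlib
import Pool.Agent.Lib.MP_bbe012_lc.DerCode

/-!
# Polynomial relations between finitely many numbers: certificates
-/

namespace Pool.Agent.Lib.MP_bbe012_lc

open MvPolynomial

/-! ### Algebra -/

/-- For a prime ideal there is a set of variables which is algebraically independent modulo the
ideal and such that everything outside the ideal divides, modulo the ideal, a nonzero polynomial
in these variables. -/
theorem exists_variables {N : ℕ} (I : Ideal (MvPolynomial (Fin N) ℚ)) [hI : I.IsPrime] :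
    ∃ T : Set (Fin N), (∀ P : MvPolynomial T ℚ, P ≠ 0 → rename (Subtype.val : T → Fin N) P ∉ I) ∧
      (∀ G, G ∉ I → ∃ (A : MvPolynomial (Fin N) ℚ) (P : MvPolynomial T ℚ), P ≠ 0 ∧
        A * G - rename (Subtype.val : T → Fin N) P ∈ I) := by
  classical
  set x : Fin N → MvPolynomial (Fin N) ℚ ⧸ I := fun i => Ideal.Quotient.mk I (X i) with hx
  have haev : ∀ P : MvPolynomial (Fin N) ℚ, aeval x P = Ideal.Quotient.mk I P := by
    intro P
    have : aeval x = Ideal.Quotient.mkₐ ℚ I := by
      apply algHom_ext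
      intro i
      rw [aeval_X]
      rfl
    rw [this]; rfl
  have htop : Algebra.adjoin ℚ (Set.range x) = ⊤ := by
    rw [Algebra.adjoin_range_eq_range_aeval, eq_top_iff]
    rintro y -
    obtain ⟨P, rfl⟩ := Ideal.Quotient.mk_surjective y
    exact ⟨P, haev P⟩
  have halg : Algebra.IsAlgebraic (Algebra.adjoin ℚ (Set.range x)) (MvPolynomial (Fin N) ℚ ⧸ I) := by
    refine ⟨fun y => ?_⟩
    have hy : y ∈ Algebra.adjoin ℚ (Set.range x) := by rw [htop]; trivial
    exact isAlgebraic_algebraMap (⟨y, hy⟩ : Algebra.adjoin ℚ (Set.range x))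
  obtain ⟨b, -, hb, hbasis⟩ := exists_isTranscendenceBasis_between (R := ℚ)
    (∅ : Set (MvPolynomial (Fin N) ℚ ⧸ I)) (Set.range x) (Set.empty_subset _)
    (algebraicIndependent_empty_type_iff.mpr (algebraMap ℚ (MvPolynomial (Fin N) ℚ ⧸ I)).injective)
  choose f hf using hb
  set T : Set (Fin N) := {i | ∃ (y : _) (hy : y ∈ b), f hy = i} with hT
  have hxT : ∀ i : T, x i ∈ b := by
    rintro ⟨i, y, hy, rfl⟩
    rw [hf]; exact hy
  set g : T → b := fun i => ⟨x i, hxT i⟩ with hg
  have hginj : Function.Injective g := by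
    rintro ⟨i, y, hy, rfl⟩ ⟨j, z, hz, rfl⟩ h
    have h1 : x (f hy) = x (f hz) := congrArg Subtype.val h
    rw [hf, hf] at h1
    subst h1
    rfl
  have hind : AlgebraicIndependent ℚ (fun i : T => x i) := hbasis.1.comp g hginj
  have hren : ∀ P : MvPolynomial T ℚ, Ideal.Quotient.mk I (rename (Subtype.val : T → Fin N) P) =
      aeval (fun i : T => x i) P := by
    intro P
    rw [← haev, aeval_rename]
    rfl
  refine ⟨T, ?_, ?_⟩
  · intro P hP hmem
    rw [← Ideal.Quotient.eq_zero_iff_mem, hren] at hmem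
    exact hP ((injective_iff_map_eq_zero _).mp hind P hmem)
  · intro G hG
    have hs : Ideal.Quotient.mk I G ≠ 0 := by rwa [Ne, Ideal.Quotient.eq_zero_iff_mem]
    have hal := hbasis.isAlgebraic
    obtain ⟨r, hr, hdvd⟩ := (hal.isAlgebraic (Ideal.Quotient.mk I G)).exists_nonzero_dvd
      (mem_nonZeroDivisors_of_ne_zero hs)
    have hrange : Set.range ((↑) : b → MvPolynomial (Fin N) ℚ ⧸ I) = Set.range fun i : T => x i := by
      ext y
      constructor
      · rintro ⟨⟨y, hy⟩, rfl⟩
        exact ⟨⟨f hy, y, hy, rfl⟩, hf hy⟩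
      · rintro ⟨i, rfl⟩
        exact ⟨⟨x i, hxT i⟩, rfl⟩
    have hr2 : (r : MvPolynomial (Fin N) ℚ ⧸ I) ∈ Algebra.adjoin ℚ (Set.range fun i : T => x i) := by
      rw [← hrange]; exact r.2
    rw [Algebra.adjoin_range_eq_range_aeval] at hr2
    obtain ⟨P, hP⟩ := hr2
    obtain ⟨a, ha⟩ := hdvd
    obtain ⟨A, rfl⟩ := Ideal.Quotient.mk_surjective a
    refine ⟨A, P, ?_, ?_⟩
    · rintro rfl
      apply hr
      apply Subtype.ext
      rw [← hP]
      exact map_zero _
    · rw [← Ideal.Quotient.eq_zero_iff_mem, map_sub, map_mul, hren, sub_eq_zero]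
      have h1 : (aeval fun i : T => x i) P = (r : MvPolynomial (Fin N) ℚ ⧸ I) := hP
      rw [h1, mul_comm]
      exact ha.symm

/-! ### Codes -/

/-- Forget the exponents of the variables which are not flagged by `T`. -/
def pcMask (T : List Bool) (N : ℕ) (p : PCode) : PCode :=
  p.map fun t => (t.1, (List.range N).map fun i => if T.getD i false = true then t.2.getD i 0 else 0)

open Classical in
theorem pcPoly_mask (T : List Bool) (N : ℕ) (p : PCode) :
    pcPoly N (pcMask T N p) =
      aeval (fun i : Fin N => if T.getD i false = true then (X i : MvPolynomial (Fin N) ℚ) else 1)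
        (pcPoly N p) := by
  induction p with
  | nil => simp [pcMask]
  | cons t p ih =>
    have : pcMask T N (t :: p) = (t.1, (List.range N).map fun i =>
        if T.getD i false = true then t.2.getD i 0 else 0) :: pcMask T N p := rfl
    rw [this, pcPoly_cons, pcPoly_cons, ih, map_add]
    congr 1
    rw [termPoly, termPoly, aeval_monomial, monomial_eq, algebraMap_eq,
      Finsupp.prod_fintype _ _ (fun i => by simp), Finsupp.prod_fintype _ _ (fun i => by simp)]
    congr 1
    refine Finset.prod_congr rfl fun i _ => ?_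
    rw [expVec_apply, expVec_apply]
    have h1 : ((List.range N).map fun i => if T.getD i false = true then t.2.getD i 0 else 0).getD i 0 =
        if T.getD i false = true then t.2.getD i 0 else 0 := by
      simp [List.getD_eq_getElem?_getD]
    rw [h1]
    split_ifs <;> simp

/-- Certificate `(bit, (A, B), cofactors)`. -/
abbrev RelCert := Bool × (PCode × PCode) × List PCode

/-- The combination of the generators. -/
def relSum (gens cs : List PCode) : PCode :=
  pcSumRange gens.length fun i => pcMul (cs.getD i []) (gens.getD i [])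

/-- Verification of a certificate. -/
def relCheck (N : ℕ) (gens : List PCode) (T : List Bool) (G : PCode) (c : RelCert) : Prop :=
  (c.1 = true ∧ pcIsZero N (G ++ pcNeg (relSum gens c.2.2))) ∨
  (c.1 = false ∧ ¬ pcIsZero N (pcMask T N c.2.1.2) ∧
    pcIsZero N (pcMul c.2.1.1 G ++ pcNeg (pcMask T N c.2.1.2) ++ pcNeg (relSum gens c.2.2)))

theorem pcPoly_relSum (N : ℕ) (gens cs : List PCode) :
    pcPoly N (relSum gens cs) =
      ∑ i : Fin gens.length, pcPoly N (cs.getD i []) * pcPoly N (gens.getD i []) := by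
  rw [relSum, pcPoly_sumRange]
  simp only [pcPoly_mul]

/-- Data for the relations between finitely many elements of a field. -/
theorem exists_relData {K : Type*} [Field K] [Algebra ℚ K] {N : ℕ} (u : Fin N → K) :
    ∃ (gens : List PCode) (T : List Bool),
      (∀ G c, relCheck N gens T G c → (c.1 = true ↔ aeval u (pcPoly N G) = 0)) ∧
      (∀ G, ∃ c, relCheck N gens T G c) := by
  classical
  set I : Ideal (MvPolynomial (Fin N) ℚ) := RingHom.ker (aeval u : MvPolynomial (Fin N) ℚ →ₐ[ℚ] K)
    with hI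
  have hprime : I.IsPrime := RingHom.ker_isPrime _
  have hmem : ∀ P, P ∈ I ↔ aeval u P = 0 := fun P => RingHom.mem_ker
  obtain ⟨Ts, hT1, hT2⟩ := exists_variables I
  obtain ⟨r, gen, hgen⟩ := Submodule.fg_iff_exists_fin_generating_family.mp
    (IsNoetherian.noetherian I)
  choose gc hgc using fun i => exists_pcPoly (gen i)
  have hcomb : ∀ cs : List PCode, pcPoly N (relSum (List.ofFn gc) cs) ∈ I := by
    intro cs
    rw [pcPoly_relSum]
    refine Ideal.sum_mem _ fun i _ => Ideal.mul_mem_left _ _ ?_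
    rw [← hgen]
    apply Submodule.subset_span
    have hi : (i : ℕ) < r := lt_of_lt_of_eq i.2 List.length_ofFn
    refine ⟨⟨i, hi⟩, ?_⟩
    rw [← hgc]
    congr 1
    simp [List.getD_eq_getElem?_getD, hi]
  have hcof : ∀ P ∈ I, ∃ cs : List PCode, pcPoly N (relSum (List.ofFn gc) cs) = P := by
    intro P hP
    rw [← hgen] at hP
    obtain ⟨c, hc⟩ := (Submodule.mem_span_range_iff_exists_fun _).mp hP
    choose cc hcc using fun i => exists_pcPoly (c i)
    refine ⟨List.ofFn cc, ?_⟩
    rw [pcPoly_relSum, ← hc, ← Finset.sum_range fun i =>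
      pcPoly N ((List.ofFn cc).getD i []) * pcPoly N ((List.ofFn gc).getD i []), List.length_ofFn,
      Finset.sum_range]
    refine Finset.sum_congr rfl fun i _ => ?_
    rw [smul_eq_mul, ← hcc, ← hgc]
    congr 2 <;> simp [List.getD_eq_getElem?_getD]
  set T : List Bool := List.ofFn fun i : Fin N => decide (i ∈ Ts) with hT
  have hTi : ∀ i : Fin N, T.getD i false = true ↔ i ∈ Ts := by
    intro i
    rw [hT]
    simp [List.getD_eq_getElem?_getD]
  -- masked polynomials come from polynomials in the variables of `Ts`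
  have hmask : ∀ p, ∃ P : MvPolynomial Ts ℚ, pcPoly N (pcMask T N p) = rename Subtype.val P := by
    intro p
    refine ⟨aeval (fun i : Fin N => if h : i ∈ Ts then (X ⟨i, h⟩ : MvPolynomial Ts ℚ) else 1)
      (pcPoly N p), ?_⟩
    rw [pcPoly_mask, ← AlgHom.comp_apply]
    congr 1
    apply algHom_ext
    intro i
    rw [aeval_X, AlgHom.comp_apply, aeval_X]
    by_cases h : i ∈ Ts
    · rw [if_pos ((hTi i).mpr h), dif_pos h, rename_X]
    · rw [if_neg (fun h2 => h ((hTi i).mp h2)), dif_neg h, map_one]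
  have hmask2 : ∀ P : MvPolynomial Ts ℚ, ∃ p, pcPoly N (pcMask T N p) = rename Subtype.val P := by
    intro P
    obtain ⟨p, hp⟩ := exists_pcPoly (rename (Subtype.val : Ts → Fin N) P)
    refine ⟨p, ?_⟩
    rw [pcPoly_mask, hp, aeval_rename]
    have : ((fun i : Fin N => if T.getD i false = true then (X i : MvPolynomial (Fin N) ℚ) else 1) ∘
        (Subtype.val : Ts → Fin N)) = fun i : Ts => X (i : Fin N) := by
      funext i
      exact if_pos ((hTi i).mpr i.2)
    rw [this]
    have h2 : aeval (fun i : Ts => (X (i : Fin N) : MvPolynomial (Fin N) ℚ)) =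
        rename (Subtype.val : Ts → Fin N) := by
      apply algHom_ext
      intro i
      rw [aeval_X, rename_X]
    rw [h2]
  refine ⟨List.ofFn gc, T, ?_, ?_⟩
  · rintro G ⟨bit, ⟨A, B⟩, cs⟩ (⟨hb, hz⟩ | ⟨hb, hB, hz⟩)
    · simp only at hb hz
      rw [pcIsZero_iff, pcPoly_append, pcPoly_neg, ← sub_eq_add_neg, sub_eq_zero] at hz
      simp only [hb, true_iff]
      rw [← hmem, hz]
      exact hcomb cs
    · simp only at hb hB hz
      rw [pcIsZero_iff] at hB
      rw [pcIsZero_iff, pcPoly_append, pcPoly_append, pcPoly_neg, pcPoly_neg, pcPoly_mul,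
        ← sub_eq_add_neg, ← sub_eq_add_neg, sub_eq_zero] at hz
      simp only [hb, Bool.false_eq_true, false_iff]
      rw [← hmem]
      intro hG
      obtain ⟨P, hP⟩ := hmask B
      have hP0 : P ≠ 0 := by
        rintro rfl
        rw [map_zero] at hP
        exact hB hP
      apply hT1 P hP0
      rw [← hP]
      have h1 : pcPoly N A * pcPoly N G - pcPoly N (pcMask T N B) ∈ I := by rw [hz]; exact hcomb cs
      have h2 : pcPoly N A * pcPoly N G ∈ I := Ideal.mul_mem_left _ _ hG
      have h3 := Ideal.sub_mem _ h2 h1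
      rwa [sub_sub_cancel] at h3
  · intro G
    by_cases hG : pcPoly N G ∈ I
    · obtain ⟨cs, hcs⟩ := hcof _ hG
      refine ⟨(true, ([], []), cs), Or.inl ⟨rfl, ?_⟩⟩
      rw [pcIsZero_iff, pcPoly_append, pcPoly_neg, hcs]
      exact add_neg_cancel _
    · obtain ⟨A, P, hP, hAP⟩ := hT2 _ hG
      obtain ⟨Ac, hAc⟩ := exists_pcPoly A
      obtain ⟨Bc, hBc⟩ := hmask2 P
      obtain ⟨cs, hcs⟩ := hcof _ hAP
      refine ⟨(false, (Ac, Bc), cs), Or.inr ⟨rfl, ?_, ?_⟩⟩
      · rw [pcIsZero_iff, hBc]
        intro h0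
        exact hP (rename_injective _ Subtype.val_injective (by rw [h0, map_zero]))
      · rw [pcIsZero_iff, pcPoly_append, pcPoly_append, pcPoly_neg, pcPoly_neg, pcPoly_mul, hcs,
          hBc, hAc]
        ring

end Pool.Agent.Lib.MP_bbe012_lc
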