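import Mathlib
import Pool.Agent.Lib.MP_bbe012_lc.Cells
import Pool.Agent.Lib.MP_bbe012_lc.Relations

/-!
# Coordinates for the integrals supported on finitely many hypersurfaces
-/

namespace Pool.Agent.Lib.MP_bbe012_lc

open MeasureTheory MvPolynomial Set Filter Topology

/-! ### Substitution and evaluation -/

/-- Substitution of the polynomials `L 0, ..., L (m - 1)`. -/
def pcSubst (m : ℕ) (L : ℕ → PCode) (p : PCode) : PCode :=
  p.flatMap fun t => pcMul [(t.1, [])] (pcProdRange m fun i => pcPow (L i) (t.2.getD i 0))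

theorem pcPoly_prodRange (M R : ℕ) (g : ℕ → PCode) :
    pcPoly M (pcProdRange R g) = ∏ i : Fin R, pcPoly M (g i) := by
  have h : ∀ L : List ℕ, pcPoly M (L.foldr (fun j acc => pcMul (g j) acc) (pcNat 1)) =
      (L.map fun j => pcPoly M (g j)).prod := by
    intro L
    induction L with
    | nil => simp
    | cons a L ih => simp [ih]
  rw [pcProdRange, h, ← List.prod_toFinset _ (List.nodup_range), List.toFinset_range,
    Finset.prod_range]

theorem pcPoly_subst (M m : ℕ) (L : ℕ → PCode) (p : PCode) :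
    pcPoly M (pcSubst m L p) = aeval (fun i : Fin m => pcPoly M (L i)) (pcPoly m p) := by
  induction p with
  | nil => simp [pcSubst]
  | cons t p ih =>
    have h1 : pcSubst m L (t :: p) = pcMul [(t.1, [])]
        (pcProdRange m fun i => pcPow (L i) (t.2.getD i 0)) ++ pcSubst m L p := rfl
    rw [h1, pcPoly_append, ih, pcPoly_cons, map_add]
    congr 1
    rw [pcPoly_mul, pcPoly_const, pcPoly_prodRange, termPoly, aeval_monomial, algebraMap_eq,
      Finsupp.prod_fintype _ _ (fun i => by simp)]
    congr 1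
    refine Finset.prod_congr rfl fun i _ => ?_
    rw [pcPoly_pow]
    rfl

/-- The value of a coded polynomial at a rational point, as a code. -/
def evalCode (n : ℕ) (x : List QCode) (p : PCode) : QCode :=
  sumCoef 0 [] (pcSubst n (fun i => [(x.getD i (qnat 0), [])]) p)

theorem pcEval_point (n : ℕ) (x : List QCode) (p : PCode) :
    pcEval n p (point n x) = (qval (evalCode n x p) : ℝ) := by
  rw [evalCode, ← coeff_pcPoly, pcPoly_subst]
  have h1 : expVec 0 [] = 0 := by ext i; exact i.elim0
  rw [h1]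
  have h2 : ∀ P : MvPolynomial (Fin n) ℚ,
      aeval (fun i : Fin n => pcPoly 0 [(x.getD i (qnat 0), [])]) P =
        C (eval (fun i : Fin n => qval (x.getD i (qnat 0))) P) := by
    intro P
    induction P using MvPolynomial.induction_on with
    | C a => simp
    | add p q hp hq => rw [map_add, hp, hq, map_add, C_add]
    | mul_X p i hp => rw [map_mul, hp, aeval_X, pcPoly_const, map_mul, eval_X, C_mul]
  rw [h2, coeff_C, if_pos rfl]
  have h3 : ∀ P : MvPolynomial (Fin n) ℚ, aeval (point n x) P =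
      ((eval (fun i : Fin n => qval (x.getD i (qnat 0))) P : ℚ) : ℝ) := by
    intro P
    induction P using MvPolynomial.induction_on with
    | C a => simp
    | add p q hp hq => rw [map_add, hp, hq, map_add, Rat.cast_add]
    | mul_X p i hp => rw [map_mul, hp, aeval_X, map_mul, eval_X, Rat.cast_mul]; rfl
  exact h3 _

/-- All polynomials of the system are positive at the rational point. -/
def posAt (n : ℕ) (x : List QCode) (S : SysCode) : Prop :=
  ∀ c ∈ S, (evalCode n x c.2).1.2 < (evalCode n x c.2).1.1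

theorem qval_pos_iff (c : QCode) : 0 < qval c ↔ c.1.2 < c.1.1 := by
  have h1 : (0 : ℚ) < (c.2 : ℚ) + 1 := by positivity
  rw [qval, div_pos_iff_of_pos_right h1, sub_pos]
  exact_mod_cast Iff.rfl

theorem posAt_iff (n : ℕ) (x : List QCode) (S : SysCode) :
    posAt n x S ↔ ∀ c ∈ S, 0 < pcEval n c.2 (point n x) := by
  unfold posAt
  refine forall₂_congr fun c _ => ?_
  rw [pcEval_point, ← qval_pos_iff]
  exact_mod_cast Iff.rfl

theorem posAt_cell {n r : ℕ} (p : Fin r → PCode) (σ : Fin r → Bool) (x : List QCode) :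
    posAt n x (cellSys p σ) ↔ point n x ∈ sysSet n (cellSys p σ) := by
  rw [posAt_iff]
  constructor
  · intro h c hc
    exact ⟨fun _ => h c hc, fun _ => (h c hc).le⟩
  · intro h c hc
    have : c.1 = true := by
      unfold cellSys at hc
      rw [List.mem_ofFn] at hc
      obtain ⟨j, rfl⟩ := hc
      rfl
    exact (h c hc).1 this

/-! ### Entries and certificates -/

/-- Code of a hypersurface: number of variables and equation. -/
abbrev Supp := ℕ × PCode

/-- Entry: index of the hypersurface, cell, point of the cell, and basic integrals. -/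
abbrev CellEntry := (ℕ × SysCode) × (List QCode × HEntry)

/-- Certificate for one integral. -/
abbrev CertI := (ℕ × ℕ) × (List PCode × List (List QCode × HCert))

/-- The cell of the entry is contained in the domain of the integral. -/
def sel (g : Supp) (a : ℕ) (en : CellEntry) (I : IntCode) : Prop :=
  en.1.1 = a ∧ posAt g.1 en.2.1 en.1.2 ∧ posAt g.1 en.2.1 I.2.2

/-- Verification of the support. -/
def suppCheck (g : Supp) (I : IntCode) (m : ℕ) (R : List PCode) : Prop :=
  I.1 = g.1 ∧ pcIsZero g.1 (pcMul I.2.1.2 (R.getD 0 []) ++ pcNeg (pcPow g.2 m)) ∧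
    ∀ i < I.2.2.length, pcIsZero g.1
      (pcMul (I.2.2.getD i (true, [])).2 (R.getD (i + 1) []) ++ pcNeg (pcPow g.2 m))

/-- The integral of the same function over another domain. -/
def cellInt (I : IntCode) (S : SysCode) : IntCode := (I.1, I.2.1, S)

/-- Verification of the certificate of an integral. -/
def intCheck (F : List Supp) (E : List CellEntry) (I : IntCode) (c : CertI) : Prop :=
  (c.1.1 < F.length ∧ suppCheck (F.getD c.1.1 default) I c.1.2 c.2.1) ∧
    ∀ s < E.length, sel (F.getD c.1.1 default) c.1.1 (E.getD s default) I →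
      check (E.getD s default).2.2 (c.2.2.getD s default).1
        (bdInt (cellInt I (E.getD s default).1.2)) (c.2.2.getD s default).2

theorem suppCheck_iff (g : Supp) (I : IntCode) (m : ℕ) (R : List PCode) :
    suppCheck g I m R ↔ I.1 = g.1 ∧ pcPoly g.1 I.2.1.2 * pcPoly g.1 (R.getD 0 []) = pcPoly g.1 g.2 ^ m ∧
      ∀ i < I.2.2.length, pcPoly g.1 (I.2.2.getD i (true, [])).2 * pcPoly g.1 (R.getD (i + 1) []) =
        pcPoly g.1 g.2 ^ m := by
  unfold suppCheck
  simp only [pcIsZero_iff, pcPoly_append, pcPoly_neg, pcPoly_mul, pcPoly_pow, ← sub_eq_add_neg,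
    sub_eq_zero]

theorem suppCheck_supported {g : Supp} {I : IntCode} {m : ℕ} {R : List PCode}
    (h : suppCheck g I m R) : I.1 = g.1 ∧ pcPoly g.1 I.2.1.2 ∣ pcPoly g.1 g.2 ^ m ∧
      ∀ c ∈ I.2.2, pcPoly g.1 c.2 ∣ pcPoly g.1 g.2 ^ m := by
  rw [suppCheck_iff] at h
  refine ⟨h.1, ⟨_, h.2.1.symm⟩, fun c hc => ?_⟩
  obtain ⟨i, hi, rfl⟩ := List.mem_iff_getElem.mp hc
  have := h.2.2 i hi
  rw [List.getD_eq_getElem _ _ hi] at this
  exact ⟨_, this.symm⟩

theorem exists_suppCheck {g : Supp} {I : IntCode} (h : SupportedOn I g) :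
    ∃ m R, suppCheck g I m R := by
  obtain ⟨h1, k, ⟨R0, hR0⟩, h3⟩ := h
  obtain ⟨r0, hr0⟩ := exists_pcPoly R0
  have : ∀ i : Fin I.2.2.length, ∃ r : PCode,
      pcPoly g.1 (I.2.2.getD i (true, [])).2 * pcPoly g.1 r = pcPoly g.1 g.2 ^ k := by
    intro i
    rw [List.getD_eq_getElem _ _ i.2]
    obtain ⟨R, hR⟩ := h3 _ (List.getElem_mem i.2)
    obtain ⟨r, hr⟩ := exists_pcPoly R
    exact ⟨r, by rw [hr]; exact hR.symm⟩
  choose r hr using this
  refine ⟨k, r0 :: List.ofFn r, (suppCheck_iff _ _ _ _).mpr ⟨h1, ?_, fun i hi => ?_⟩⟩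
  · rw [List.getD_cons_zero, hr0]; exact hR0.symm
  · rw [List.getD_cons_succ, getD_ofFn r ⟨i, hi⟩]
    exact hr ⟨i, hi⟩

/-- The value of the linear form attached to a certificate. -/
noncomputable def linVal (F : List Supp) (E : List CellEntry) (B : ℕ) (U : ℕ → ℕ → ℝ) (I : IntCode)
    (c : CertI) : ℝ :=
  open Classical in
  ∑ s ∈ Finset.range E.length,
    if sel (F.getD c.1.1 default) c.1.1 (E.getD s default) I then
      ∑ i ∈ Finset.range B, (qval ((c.2.2.getD s default).1.getD i (qnat 0)) : ℝ) * U s i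
    else 0

/-- Existence of the data attached to finitely many hypersurfaces. -/
theorem exists_adv (F : List Supp) (hF : ∀ g ∈ F, pcPoly g.1 g.2 ≠ 0) :
    ∃ (E : List CellEntry) (B : ℕ) (U : ℕ → ℕ → ℝ),
      (∀ I c, Admissible I → intCheck F E I c → value I = linVal F E B U I c) ∧
      (∀ I, Admissible I → (∃ g ∈ F, SupportedOn I g) → ∃ c, intCheck F E I c) := by
  classical
  have hF' : ∀ a : Fin F.length, pcPoly (F.get a).1 (F.get a).2 ≠ 0 :=
    fun a => hF _ (List.get_mem F a)
  choose r p hcov hsign using fun a => exists_cells (hF' a)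
  have hpt : ∀ (a : Fin F.length) (σ : Fin (r a) → Bool), ∃ x : List QCode,
      (sysSet (F.get a).1 (cellSys (p a) σ)).Nonempty →
        point (F.get a).1 x ∈ sysSet (F.get a).1 (cellSys (p a) σ) := by
    intro a σ
    by_cases h : (sysSet (F.get a).1 (cellSys (p a) σ)).Nonempty
    · obtain ⟨x, hx⟩ := exists_point (isOpen_cell (p a) σ) h
      exact ⟨x, fun _ => hx⟩
    · exact ⟨[], fun h2 => absurd h2 h⟩
  choose x hx using hpt
  choose e N u hu hsound hcomp using fun (a : Fin F.length) (σ : Fin (r a) → Bool) =>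
    exists_entry2 (g := ((F.get a).1, (F.get a).2, cellSys (p a) σ)) (hF' a)
  set ι := Σ a : Fin F.length, (Fin (r a) → Bool) with hι
  set M := Fintype.card ι with hM
  set φ : Fin M ≃ ι := (Fintype.equivFin ι).symm with hφ
  set E : List CellEntry := List.ofFn fun s : Fin M =>
    ((((φ s).1 : ℕ), cellSys (p (φ s).1) (φ s).2), (x (φ s).1 (φ s).2, e (φ s).1 (φ s).2)) with hE
  set B : ℕ := ∑ y : ι, N y.1 y.2 with hB
  have hNB : ∀ y : ι, N y.1 y.2 ≤ B := fun y =>
    Finset.single_le_sum (f := fun y : ι => N y.1 y.2) (fun _ _ => Nat.zero_le _) (Finset.mem_univ y)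
  set U : ℕ → ℕ → ℝ := fun s i => if h : s < M then u (φ ⟨s, h⟩).1 (φ ⟨s, h⟩).2 i else 0 with hU
  have hEl : E.length = M := List.length_ofFn
  have hEs : ∀ s : Fin M, E.getD s default =
      ((((φ s).1 : ℕ), cellSys (p (φ s).1) (φ s).2), (x (φ s).1 (φ s).2, e (φ s).1 (φ s).2)) :=
    fun s => getD_ofFn _ s default
  refine ⟨E, B, U, ?_, ?_⟩
  · -- soundness
    rintro I ⟨⟨a, m⟩, R, cs⟩ hI ⟨⟨ha, hsupp⟩, hchk⟩
    simp only at ha hsupp hchk
    have hFa : F.getD a default = F.get ⟨a, ha⟩ := by
      rw [List.getD_eq_getElem _ _ ha]; rfl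
    rw [hFa] at hsupp hchk
    obtain ⟨hn, hQ, hS⟩ := suppCheck_supported hsupp
    obtain ⟨n, ⟨P, Q⟩, S⟩ := I
    simp only at hn hQ hS
    subst hn
    set a' : Fin F.length := ⟨a, ha⟩ with ha'
    set sl : Finset (Fin (r a') → Bool) := Finset.univ.filter fun σ =>
      point (F.get a').1 (x a' σ) ∈ sysSet (F.get a').1 (cellSys (p a') σ) ∧
        ∀ c ∈ S, 0 < pcEval (F.get a').1 c.2 (point (F.get a').1 (x a' σ)) with hsl
    obtain ⟨hadm, hval⟩ := value_cells (hF' a') (hcov a') (hsign a')
      (fun σ => point (F.get a').1 (x a' σ)) (hx a') hI hS sl (fun σ => by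
        rw [hsl, Finset.mem_filter]; simp)
    rw [hval, linVal, hEl, Finset.sum_range, ← Equiv.sum_comp φ.symm, Fintype.sum_sigma]
    rw [Finset.sum_eq_single a']
    · rw [← Finset.sum_filter_add_sum_filter_not Finset.univ (fun σ => σ ∈ sl)]
      have hz : ∀ σ, (sel (F.getD (((a, m), R, cs) : CertI).1.1 default) (((a, m), R, cs) : CertI).1.1
          (E.getD (φ.symm ⟨a', σ⟩) default) ((F.get a').1, (P, Q), S)) ↔ σ ∈ sl := by
        intro σ
        rw [hEs, Equiv.apply_symm_apply]
        simp only [sel, hFa]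
        rw [posAt_cell, posAt_iff, hsl, Finset.mem_filter]
        exact ⟨fun h => ⟨Finset.mem_univ _, h.2⟩, fun h => ⟨rfl, h.2⟩⟩
      rw [Finset.sum_eq_zero (s := Finset.univ.filter fun σ => ¬ σ ∈ sl), add_zero]
      · have hfil : (Finset.univ.filter fun σ => σ ∈ sl) = sl := by ext σ; simp
        rw [hfil]
        refine Finset.sum_congr rfl fun σ hσ => ?_
        rw [if_pos ((hz σ).mpr hσ)]
        have hUs : ∀ i, U (φ.symm ⟨a', σ⟩) i = u a' σ i := by
          intro i
          rw [hU]
          simp only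
          rw [dif_pos (φ.symm ⟨a', σ⟩).2]
          have : φ ⟨(φ.symm ⟨a', σ⟩ : Fin M), (φ.symm ⟨a', σ⟩).2⟩ = ⟨a', σ⟩ :=
            Equiv.apply_symm_apply φ _
          rw [this]
        have h1 := hchk (φ.symm ⟨a', σ⟩) (by rw [hEl]; exact (φ.symm ⟨a', σ⟩).2) (by
          have := (hz σ).mpr hσ
          rw [hFa] at this
          exact this)
        rw [hEs, Equiv.apply_symm_apply] at h1
        have h2 := hsound a' σ (cellInt ((F.get a').1, (P, Q), S) (cellSys (p a') σ)) _ _
          (hadm σ hσ) h1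
        change value (cellInt ((F.get a').1, (P, Q), S) (cellSys (p a') σ)) = _
        rw [h2]
        simp only [hUs]
        refine Finset.sum_subset (fun i hi => ?_) (fun i _ hi => ?_)
        · rw [Finset.mem_range] at hi ⊢
          exact lt_of_lt_of_le hi (hNB ⟨a', σ⟩)
        · rw [Finset.mem_range, not_lt] at hi
          rw [hu a' σ i hi, mul_zero]
      · intro σ hσ
        rw [Finset.mem_filter] at hσ
        rw [if_neg (fun h => hσ.2 ((hz σ).mp h))]
    · intro b _ hb
      refine Finset.sum_eq_zero fun σ _ => ?_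
      rw [if_neg]
      intro h
      have h1 := h.1
      rw [hEs, Equiv.apply_symm_apply] at h1
      exact hb (Fin.ext h1)
    · intro h
      exact absurd (Finset.mem_univ _) h
  · -- completeness
    rintro I hI ⟨g, hg, hsupp⟩
    obtain ⟨a, rfl⟩ := List.mem_iff_get.mp hg
    obtain ⟨m, R, hmR⟩ := exists_suppCheck hsupp
    have hFa : F.getD a default = F.get a := by
      rw [List.getD_eq_getElem _ _ a.2]; rfl
    obtain ⟨hn, hQ, hS⟩ := suppCheck_supported hmR
    have key : ∀ s : Fin M, ∃ c : List QCode × HCert,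
        sel (F.get a) a (E.getD s default) I →
          check (E.getD s default).2.2 c.1 (bdInt (cellInt I (E.getD s default).1.2)) c.2 := by
      intro s
      by_cases hs : sel (F.get a) a (E.getD s default) I
      · obtain ⟨n, ⟨P, Q⟩, S⟩ := I
        simp only at hn hQ hS
        subst hn
        rw [hEs] at hs ⊢
        obtain ⟨⟨b, σ⟩, hbσ⟩ : ∃ y, y = φ s := ⟨_, rfl⟩
        rw [← hbσ] at hs ⊢
        obtain ⟨h1, h2, h3⟩ := hs
        simp only at h1 h2 h3
        have hb : b = a := Fin.ext h1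
        subst hb
        have hin : IntegrableOn (integrand ((F.get b).1, (P, Q), S))
            (sysSet (F.get b).1 (cellSys (p b) σ)) := by
          refine hI.2.mono_set fun y hy c hc => ?_
          rw [posAt_cell] at h2
          rw [posAt_iff] at h3
          have h4 := hsign b σ c.2 m (hS c hc) y hy _ h2
          have h5 := pos_of_mul_pos_left h4 (h3 c hc).le
          exact ⟨fun _ => h5, fun _ => h5.le⟩
        obtain ⟨qs, c, hc⟩ := hcomp b σ (cellInt ((F.get b).1, (P, Q), S) (cellSys (p b) σ))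
          ⟨hI.1, hin⟩ ⟨rfl, rfl, m, hQ⟩
        exact ⟨(qs, c), fun _ => hc⟩
      · exact ⟨default, fun h => absurd h hs⟩
    choose cs hcs using key
    refine ⟨((a, m), R, List.ofFn cs), ⟨a.2, ?_⟩, ?_⟩
    · simp only
      rw [hFa]
      exact hmR
    · intro s hs
      rw [hEl] at hs
      simp only
      rw [hFa, getD_ofFn cs ⟨s, hs⟩]
      exact hcs ⟨s, hs⟩

end Pool.Agent.Lib.MP_bbe012_lc
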