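import Mathlib
import Pool.Agent.Lib.MP_bbe012_lc.Ratio

/-!
# From explicit integrals to integrals of rational functions over `ℝ^M`
-/

namespace Pool.Agent.Lib.MP_bbe012_lc

open MeasureTheory Set ENNReal Real

/-- The rational function with numerator and denominator coded by `r`. -/
noncomputable def ratEval (M : ℕ) (r : PCode × PCode) (y : Fin M → ℝ) : ℝ :=
  pcEval M r.1 y / pcEval M r.2 y

theorem kernelCode_integral {N M D : ℕ} {L : List PCode} (hM : M = N + (L.length + L.length))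
    (hne : ∀ f ∈ L, pcPoly N f ≠ 0) (hD : ∀ f ∈ L, pcDeg f ≤ D)
    (hvol : volume (posSet N L) < ⊤) :
    Integrable (ratEval M (kernelCode N (D + 1) L)) ∧
      ∫ y, ratEval M (kernelCode N (D + 1) L) y = π ^ (2 * L.length) * (volume (posSet N L)).toReal
      ∧ ∀ y, 1 ≤ pcEval M (kernelCode N (D + 1) L).2 y := by
  subst hM
  set F : Fin L.length → MvPolynomial (Fin N) ℝ := fun j => pcReal N (L.get j) with hF
  have hA : {z : Fin N → ℝ | ∀ j, 0 < MvPolynomial.eval z (F j)} = posSet N L := by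
    ext z
    simp only [hF, eval_pcReal, posSet, mem_ofPred_eq]
    constructor
    · intro h f hf
      obtain ⟨j, hj⟩ := List.get_of_mem hf
      rw [← hj]; exact h j
    · intro h j
      exact h _ (List.get_mem L j)
  have hPK := PK_integrable D F (fun j => pcReal_ne_zero (hne _ (List.get_mem L j)))
    (fun j i => (degreeOf_pcReal_le N _ i).trans (hD _ (List.get_mem L j))) (by rw [hA]; exact hvol)
  rw [hA] at hPK
  have heq : ratEval (N + (L.length + L.length)) (kernelCode N (D + 1) L) =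
      PK (D + 1) F ∘ coords N L.length := by
    ext y
    exact (kernelCode_eval N (D + 1) L y).1
  refine ⟨?_, ?_, fun y => (kernelCode_eval N (D + 1) L y).2⟩
  · rw [heq]
    exact (measurePreserving_coords N L.length).integrable_comp_emb
      (MeasurableEquiv.measurableEmbedding _) |>.mpr hPK.1
  · rw [heq, ← hPK.2]
    exact (measurePreserving_coords N L.length).integral_comp
      (MeasurableEquiv.measurableEmbedding _) _

/-- Bound for the exponents in a list of codes. -/
def degBound (L : List PCode) : ℕ := L.foldr (fun f a => max (pcDeg f) a) 0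

theorem pcDeg_le_degBound {L : List PCode} {f : PCode} (hf : f ∈ L) : pcDeg f ≤ degBound L := by
  induction L with
  | nil => simp at hf
  | cons a L ih =>
    have h : degBound (a :: L) = max (pcDeg a) (degBound L) := rfl
    rw [h]
    rcases List.mem_cons.mp hf with rfl | h'
    · exact le_max_left _ _
    · exact (ih h').trans (le_max_right _ _)

/-- difference of two rational functions -/
def ratSub (r s : PCode × PCode) : PCode × PCode :=
  (pcMul r.1 s.2 ++ pcNeg (pcMul s.1 r.2), pcMul r.2 s.2)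

theorem ratSub_eval {M : ℕ} {r s : PCode × PCode} {y : Fin M → ℝ} (hr : 1 ≤ pcEval M r.2 y)
    (hs : 1 ≤ pcEval M s.2 y) :
    ratEval M (ratSub r s) y = ratEval M r y - ratEval M s y ∧ 1 ≤ pcEval M (ratSub r s).2 y := by
  have h1 : pcEval M r.2 y ≠ 0 := by positivity
  have h2 : pcEval M s.2 y ≠ 0 := by positivity
  constructor
  · simp only [ratEval, ratSub, pcEval_append, pcEval_mul, pcEval_neg]
    field_simp
    ring
  · simp only [ratSub, pcEval_mul]
    exact one_le_mul_of_one_le_of_one_le hr hs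

/-- the exponent of the damping factor, minus one -/
def degOf (I : IntCode) : ℕ :=
  max (degBound (ineqs I.1 I.2.1.1 I.2.1.2 I.2.2)) (degBound (ineqs I.1 (pcNeg I.2.1.1) I.2.1.2 I.2.2))

/-- Code of a rational function without domain attached to an explicit integral. -/
def ratOf (I : IntCode) : PCode × PCode :=
  ratSub (kernelCode (I.1 + 1) (degOf I + 1) (ineqs I.1 I.2.1.1 I.2.1.2 I.2.2))
    (kernelCode (I.1 + 1) (degOf I + 1) (ineqs I.1 (pcNeg I.2.1.1) I.2.1.2 I.2.2))

theorem length_ineqs (n : ℕ) (P Q : PCode) (S : SysCode) : (ineqs n P Q S).length = S.length + 2 := by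
  simp [ineqs]

theorem ratOf_spec (I : IntCode) (hI : Admissible I) {M : ℕ}
    (hM : M = I.1 + 1 + ((I.2.2.length + 2) + (I.2.2.length + 2))) :
    Integrable (ratEval M (ratOf I)) ∧
      ∫ y, ratEval M (ratOf I) y = π ^ (2 * (I.2.2.length + 2)) * value I ∧
      ∀ y, 1 ≤ pcEval M (ratOf I).2 y := by
  obtain ⟨hv1, hv2, hv⟩ := value_eq_volumes I hI
  set L1 := ineqs I.1 I.2.1.1 I.2.1.2 I.2.2 with hL1
  set L2 := ineqs I.1 (pcNeg I.2.1.1) I.2.1.2 I.2.2 with hL2
  have len1 : L1.length = I.2.2.length + 2 := length_ineqs _ _ _ _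
  have len2 : L2.length = I.2.2.length + 2 := length_ineqs _ _ _ _
  have k1 := kernelCode_integral (N := I.1 + 1) (M := M) (D := degOf I) (L := L1)
    (by rw [len1, hM]) (ineqs_ne_zero _ _ hI.1)
    (fun f hf => (pcDeg_le_degBound hf).trans (le_max_left _ _)) hv1
  have k2 := kernelCode_integral (N := I.1 + 1) (M := M) (D := degOf I) (L := L2)
    (by rw [len2, hM]) (ineqs_ne_zero _ _ hI.1)
    (fun f hf => (pcDeg_le_degBound hf).trans (le_max_right _ _)) hv2
  have heq : ratEval M (ratOf I) = fun y =>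
      ratEval M (kernelCode (I.1 + 1) (degOf I + 1) L1) y -
        ratEval M (kernelCode (I.1 + 1) (degOf I + 1) L2) y := by
    ext y
    exact (ratSub_eval (k1.2.2 y) (k2.2.2 y)).1
  refine ⟨?_, ?_, fun y => (ratSub_eval (k1.2.2 y) (k2.2.2 y)).2⟩
  · rw [heq]; exact k1.1.sub k2.1
  · rw [heq, integral_sub k1.1 k2.1, k1.2.1, k2.2.1, len1, len2, hv]
    ring

/-! ### Padding -/

/-- Add a dummy variable in `(0, 1)`. -/
def padVar (I : IntCode) : IntCode :=
  (I.1 + 1, (pcTrunc I.1 I.2.1.1, pcTrunc I.1 I.2.1.2),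
    I.2.2.map (fun c => (c.1, pcTrunc I.1 c.2)) ++
      [(true, pcVar I.1 ++ pcNeg (pcMul (pcVar I.1) (pcVar I.1)))])

/-- Add a dummy inequality. -/
def padIneq (I : IntCode) : IntCode := (I.1, I.2.1, I.2.2 ++ [(true, pcNat 1)])

theorem sysSet_append_one (n : ℕ) (S : SysCode) : sysSet n (S ++ [(true, pcNat 1)]) = sysSet n S := by
  ext x
  simp only [sysSet, List.mem_append, List.mem_singleton, mem_ofPred_eq]
  constructor
  · intro h c hc
    exact h c (Or.inl hc)
  · rintro h c (hc | rfl)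
    · exact h c hc
    · simp

theorem padIneq_spec (I : IntCode) (hI : Admissible I) :
    Admissible (padIneq I) ∧ value (padIneq I) = value I := by
  have hd : domain (padIneq I) = domain I := sysSet_append_one I.1 I.2.2
  refine ⟨⟨hI.1, ?_⟩, ?_⟩
  · rw [hd]; exact hI.2
  · unfold value
    rw [hd]; rfl

theorem mem_domain_padVar (I : IntCode) (z : Fin (I.1 + 1) → ℝ) :
    z ∈ domain (padVar I) ↔ (fun i => z (Fin.castAdd 1 i)) ∈ domain I ∧
      (0 < z (Fin.natAdd I.1 0) ∧ z (Fin.natAdd I.1 0) < 1) := by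
  have e1 : ∀ p : PCode, pcEval (I.1 + 1) (pcTrunc I.1 p) z = pcEval I.1 p fun i => z (Fin.castAdd 1 i) :=
    fun p => pcEval_trunc (Nat.le_succ I.1) p z
  have e2 : pcEval (I.1 + 1) (pcVar I.1 ++ pcNeg (pcMul (pcVar I.1) (pcVar I.1))) z =
      z (Fin.natAdd I.1 0) * (1 - z (Fin.natAdd I.1 0)) := by
    rw [pcEval_append, pcEval_neg, pcEval_mul, pcEval_var (Nat.lt_succ_self _)]
    have : (⟨I.1, Nat.lt_succ_self I.1⟩ : Fin (I.1 + 1)) = Fin.natAdd I.1 0 := rfl
    rw [this]; ring
  have e3 : 0 < z (Fin.natAdd I.1 0) * (1 - z (Fin.natAdd I.1 0)) ↔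
      (0 < z (Fin.natAdd I.1 0) ∧ z (Fin.natAdd I.1 0) < 1) := by
    constructor
    · intro h
      constructor
      · by_contra h'; push Not at h'; nlinarith
      · by_contra h'; push Not at h'; nlinarith
    · rintro ⟨h1, h2⟩; exact mul_pos h1 (by linarith)
  rw [← e3, ← e2]
  simp only [domain, sysSet, padVar, List.mem_append, List.mem_map, List.mem_singleton,
    mem_ofPred_eq]
  constructor
  · intro h
    refine ⟨fun c hc => ?_, ?_⟩
    · have := h (c.1, pcTrunc I.1 c.2) (Or.inl ⟨c, hc, rfl⟩)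
      rwa [e1] at this
    · exact (h _ (Or.inr rfl)).1 rfl
  · rintro ⟨h1, h2⟩ c (⟨c', hc', rfl⟩ | rfl)
    · rw [e1]; exact h1 c' hc'
    · exact ⟨fun _ => h2, by simp⟩

theorem integral_unit_indicator :
    Integrable (fun t : Fin 1 → ℝ => {t : Fin 1 → ℝ | 0 < t 0 ∧ t 0 < 1}.indicator (fun _ => (1 : ℝ)) t)
    ∧ ∫ t : Fin 1 → ℝ, {t : Fin 1 → ℝ | 0 < t 0 ∧ t 0 < 1}.indicator (fun _ => (1 : ℝ)) t = 1 := by
  have hs : {t : Fin 1 → ℝ | 0 < t 0 ∧ t 0 < 1} = univ.pi fun _ => Ioo (0 : ℝ) 1 := by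
    ext t; simp [Set.mem_pi, Fin.forall_fin_one]
  have hv : volume {t : Fin 1 → ℝ | 0 < t 0 ∧ t 0 < 1} = 1 := by
    rw [hs, Real.volume_pi_Ioo]; simp
  have hm : MeasurableSet {t : Fin 1 → ℝ | 0 < t 0 ∧ t 0 < 1} := by
    rw [hs]; exact MeasurableSet.univ_pi fun _ => measurableSet_Ioo
  constructor
  · rw [integrable_indicator_iff hm]
    exact integrableOn_const (by rw [hv]; exact ENNReal.one_ne_top)
  · rw [integral_indicator hm, setIntegral_const]
    simp [measureReal_def, hv]

theorem padVar_spec (I : IntCode) (hI : Admissible I) :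
    Admissible (padVar I) ∧ value (padVar I) = value I := by
  have hm : MeasurableSet (domain I) := measurableSet_sysSet _ _
  have hm' : MeasurableSet (domain (padVar I)) := measurableSet_sysSet _ _
  have hint : Integrable ((domain I).indicator (integrand I)) := (integrable_indicator_iff hm).mpr hI.2
  have key := integral_mul_split I.1 1 ((domain I).indicator (integrand I))
    ({t : Fin 1 → ℝ | 0 < t 0 ∧ t 0 < 1}.indicator (fun _ => (1 : ℝ))) hint integral_unit_indicator.1
  obtain ⟨E, hE⟩ : ∃ E : Set (Fin (I.1 + 1) → ℝ), E = domain (padVar I) := ⟨_, rfl⟩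
  obtain ⟨g, hg⟩ : ∃ g : (Fin (I.1 + 1) → ℝ) → ℝ, g = integrand (padVar I) := ⟨_, rfl⟩
  have heq : (fun y : Fin (I.1 + 1) → ℝ => (domain I).indicator (integrand I) (fun i => y (Fin.castAdd 1 i)) *
      {t : Fin 1 → ℝ | 0 < t 0 ∧ t 0 < 1}.indicator (fun _ => (1 : ℝ)) (fun i => y (Fin.natAdd I.1 i))) =
      E.indicator g := by
    ext y
    have hi : g y = integrand I (fun i => y (Fin.castAdd 1 i)) := by
      rw [hg]
      change pcEval (I.1 + 1) (pcTrunc I.1 I.2.1.1) y / pcEval (I.1 + 1) (pcTrunc I.1 I.2.1.2) y = _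
      rw [pcEval_trunc (Nat.le_succ I.1), pcEval_trunc (Nat.le_succ I.1)]
      rfl
    have hmem : y ∈ E ↔ (fun i => y (Fin.castAdd 1 i)) ∈ domain I ∧
        (0 < y (Fin.natAdd I.1 0) ∧ y (Fin.natAdd I.1 0) < 1) := by
      rw [hE]; exact mem_domain_padVar I y
    by_cases h1 : (fun i => y (Fin.castAdd 1 i)) ∈ domain I
    · by_cases h2 : (0 < y (Fin.natAdd I.1 0) ∧ y (Fin.natAdd I.1 0) < 1)
      · have h3 : y ∈ E := hmem.mpr ⟨h1, h2⟩
        have h2' : (fun i => y (Fin.natAdd I.1 i)) ∈ {t : Fin 1 → ℝ | 0 < t 0 ∧ t 0 < 1} := h2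
        rw [indicator_of_mem h1, indicator_of_mem h3, indicator_of_mem h2', mul_one, hi]
      · have h3 : y ∉ E := fun h => h2 (hmem.mp h).2
        have h2' : (fun i => y (Fin.natAdd I.1 i)) ∉ {t : Fin 1 → ℝ | 0 < t 0 ∧ t 0 < 1} := h2
        rw [indicator_of_notMem h3, indicator_of_notMem h2', mul_zero]
    · have h3 : y ∉ E := fun h => h1 (hmem.mp h).1
      rw [indicator_of_notMem h3, indicator_of_notMem h1, zero_mul]
  rw [heq] at key
  have hm2 : MeasurableSet E := by rw [hE]; exact hm'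
  refine ⟨⟨?_, ?_⟩, ?_⟩
  · obtain ⟨x, hx⟩ := exists_pcEval_ne_zero hI.1
    refine pcPoly_ne_zero_of_eval (n := I.1 + 1) (x := Fin.snoc x 0) ?_
    change pcEval (I.1 + 1) (pcTrunc I.1 I.2.1.2) _ ≠ 0
    rw [pcEval_trunc (Nat.le_succ I.1)]
    convert hx using 2
    ext i
    exact Fin.snoc_castSucc (α := fun _ => ℝ) 0 x i
  · rw [← hE, ← hg]
    exact (integrable_indicator_iff hm2).mp key.1
  · have h1 : value (padVar I) = ∫ x in E, g x := by rw [hE, hg]; rfl
    rw [h1, ← integral_indicator hm2, key.2, integral_unit_indicator.2, mul_one, integral_indicator hm]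
    rfl

end Pool.Agent.Lib.MP_bbe012_lc
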