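import Mathlib
import Pool.Agent.Lib.MP_bbe012_lc.Reduce

/-!
# From a pair of presentations of periods to one rational function
-/

namespace Pool.Agent.Lib.MP_bbe012_lc

open MeasureTheory Set ENNReal Real

theorem padVar_iterate (k : ℕ) (I : IntCode) :
    (padVar^[k] I).1 = I.1 + k ∧ (padVar^[k] I).2.2.length = I.2.2.length + k ∧
      (Admissible I → Admissible (padVar^[k] I) ∧ value (padVar^[k] I) = value I) := by
  induction k with
  | zero => exact ⟨rfl, rfl, fun h => ⟨h, rfl⟩⟩
  | succ k ih =>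
    rw [Function.iterate_succ_apply']
    refine ⟨?_, ?_, fun h => ?_⟩
    · change (padVar^[k] I).1 + 1 = _
      rw [ih.1]; ring
    · change ((padVar^[k] I).2.2.map _ ++ [_]).length = _
      rw [List.length_append, List.length_map, ih.2.1]; rfl
    · obtain ⟨h1, h2⟩ := ih.2.2 h
      obtain ⟨h3, h4⟩ := padVar_spec _ h1
      exact ⟨h3, h4.trans h2⟩

theorem padIneq_iterate (k : ℕ) (I : IntCode) :
    (padIneq^[k] I).1 = I.1 ∧ (padIneq^[k] I).2.2.length = I.2.2.length + k ∧
      (Admissible I → Admissible (padIneq^[k] I) ∧ value (padIneq^[k] I) = value I) := by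
  induction k with
  | zero => exact ⟨rfl, rfl, fun h => ⟨h, rfl⟩⟩
  | succ k ih =>
    rw [Function.iterate_succ_apply']
    refine ⟨?_, ?_, fun h => ?_⟩
    · exact ih.1
    · change ((padIneq^[k] I).2.2 ++ [_]).length = _
      rw [List.length_append, ih.2.1]; rfl
    · obtain ⟨h1, h2⟩ := ih.2.2 h
      obtain ⟨h3, h4⟩ := padIneq_spec _ h1
      exact ⟨h3, h4.trans h2⟩

/-- Padding: `N` variables and `l` inequalities. -/
def pad (N l : ℕ) (I : IntCode) : IntCode :=
  padIneq^[l - (padVar^[N - I.1] I).2.2.length] (padVar^[N - I.1] I)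

theorem pad_spec {N l : ℕ} {I : IntCode} (hN : I.1 ≤ N) (hl : I.2.2.length + N ≤ l) :
    (pad N l I).1 = N ∧ (pad N l I).2.2.length = l ∧
      (Admissible I → Admissible (pad N l I) ∧ value (pad N l I) = value I) := by
  obtain ⟨a1, a2, a3⟩ := padVar_iterate (N - I.1) I
  obtain ⟨b1, b2, b3⟩ := padIneq_iterate (l - (padVar^[N - I.1] I).2.2.length) (padVar^[N - I.1] I)
  refine ⟨?_, ?_, fun h => ?_⟩
  · rw [pad, b1, a1]; omega
  · rw [pad, b2, a2]; omega
  · obtain ⟨h1, h2⟩ := a3 h
    obtain ⟨h3, h4⟩ := b3 h1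
    exact ⟨h3, h4.trans h2⟩

/-- sum of two rational functions -/
def ratAdd (r s : PCode × PCode) : PCode × PCode :=
  (pcMul r.1 s.2 ++ pcMul s.1 r.2, pcMul r.2 s.2)

theorem ratAdd_eval {M : ℕ} {r s : PCode × PCode} {y : Fin M → ℝ} (hr : 1 ≤ pcEval M r.2 y)
    (hs : 1 ≤ pcEval M s.2 y) :
    ratEval M (ratAdd r s) y = ratEval M r y + ratEval M s y ∧ 1 ≤ pcEval M (ratAdd r s).2 y := by
  have h1 : pcEval M r.2 y ≠ 0 := by positivity
  have h2 : pcEval M s.2 y ≠ 0 := by positivity
  constructor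
  · simp only [ratEval, ratAdd, pcEval_append, pcEval_mul]
    field_simp
  · simp only [ratAdd, pcEval_mul]
    exact one_le_mul_of_one_le_of_one_le hr hs

/-- the product of two copies, in separate variables, of a rational function -/
def ratSq (M : ℕ) (r : PCode × PCode) : PCode × PCode :=
  (pcMul (pcTrunc M r.1) (pcShift M M r.1), pcMul (pcTrunc M r.2) (pcShift M M r.2))

theorem ratSq_eval (M : ℕ) (r : PCode × PCode) (y : Fin (M + M) → ℝ) :
    ratEval (M + M) (ratSq M r) y = ratEval M r (fun i => y (Fin.castAdd M i)) *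
      ratEval M r (fun i => y (Fin.natAdd M i)) ∧
    pcEval (M + M) (ratSq M r).2 y = pcEval M r.2 (fun i => y (Fin.castAdd M i)) *
      pcEval M r.2 (fun i => y (Fin.natAdd M i)) := by
  have h1 : ∀ p : PCode, pcEval (M + M) (pcTrunc M p) y = pcEval M p fun i => y (Fin.castAdd M i) :=
    fun p => pcEval_trunc (Nat.le_add_right M M) p y
  have h2 : ∀ p : PCode, pcEval (M + M) (pcShift M M p) y = pcEval M p fun i => y (Fin.natAdd M i) :=
    fun p => pcEval_shift le_rfl p y
  constructor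
  · simp only [ratEval, ratSq, pcEval_mul, h1, h2]
    rw [mul_div_mul_comm]
  · simp only [ratSq, pcEval_mul, h1, h2]

/-- The properties of a rational function without domain and its integral. -/
structure RatSpec (M : ℕ) (r : PCode × PCode) (v : ℝ) : Prop where
  one_le : ∀ y, 1 ≤ pcEval M r.2 y
  int : Integrable (ratEval M r)
  val : ∫ y, ratEval M r y = v

theorem RatSpec.sub {M : ℕ} {r s : PCode × PCode} {v w : ℝ} (hr : RatSpec M r v)
    (hs : RatSpec M s w) : RatSpec M (ratSub r s) (v - w) := by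
  have heq : ratEval M (ratSub r s) = fun y => ratEval M r y - ratEval M s y := by
    ext y
    exact (ratSub_eval (hr.one_le y) (hs.one_le y)).1
  refine ⟨fun y => (ratSub_eval (hr.one_le y) (hs.one_le y)).2, ?_, ?_⟩
  · rw [heq]; exact hr.int.sub hs.int
  · rw [heq, integral_sub hr.int hs.int, hr.val, hs.val]

theorem RatSpec.add {M : ℕ} {r s : PCode × PCode} {v w : ℝ} (hr : RatSpec M r v)
    (hs : RatSpec M s w) : RatSpec M (ratAdd r s) (v + w) := by
  have heq : ratEval M (ratAdd r s) = fun y => ratEval M r y + ratEval M s y := by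
    ext y
    exact (ratAdd_eval (hr.one_le y) (hs.one_le y)).1
  refine ⟨fun y => (ratAdd_eval (hr.one_le y) (hs.one_le y)).2, ?_, ?_⟩
  · rw [heq]; exact hr.int.add hs.int
  · rw [heq, integral_add hr.int hs.int, hr.val, hs.val]

theorem RatSpec.sq {M : ℕ} {r : PCode × PCode} {v : ℝ} (hr : RatSpec M r v) :
    RatSpec (M + M) (ratSq M r) (v * v) := by
  have heq : ratEval (M + M) (ratSq M r) = fun y => ratEval M r (fun i => y (Fin.castAdd M i)) *
      ratEval M r (fun i => y (Fin.natAdd M i)) := by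
    ext y
    exact (ratSq_eval M r y).1
  have key := integral_mul_split M M _ _ hr.int hr.int
  refine ⟨fun y => ?_, ?_, ?_⟩
  · rw [(ratSq_eval M r y).2]
    exact one_le_mul_of_one_le_of_one_le (hr.one_le _) (hr.one_le _)
  · rw [heq]; exact key.1
  · rw [heq, key.2, hr.val]

/-- The number of variables common to the four integrals. -/
def comVars (Z : PeriodCode × PeriodCode) : ℕ := Z.1.1.1 + Z.1.2.1 + Z.2.1.1 + Z.2.2.1

/-- The number of inequalities common to the four integrals. -/
def comIneqs (Z : PeriodCode × PeriodCode) : ℕ :=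
  Z.1.1.2.2.length + Z.1.2.2.2.length + Z.2.1.2.2.length + Z.2.2.2.2.length + comVars Z

/-- The number of variables of the rational functions attached to the four integrals. -/
def ratVars (Z : PeriodCode × PeriodCode) : ℕ :=
  comVars Z + 1 + ((comIneqs Z + 2) + (comIneqs Z + 2))

/-- The rational function (with its number of variables) attached to a pair of presentations. -/
def oneRat (Z : PeriodCode × PeriodCode) : ℕ × PCode × PCode :=
  (ratVars Z + ratVars Z,
    ratAdd
      (ratSq (ratVars Z) (ratSub (ratOf (pad (comVars Z) (comIneqs Z) Z.1.1))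
        (ratOf (pad (comVars Z) (comIneqs Z) Z.2.1))))
      (ratSq (ratVars Z) (ratSub (ratOf (pad (comVars Z) (comIneqs Z) Z.1.2))
        (ratOf (pad (comVars Z) (comIneqs Z) Z.2.2)))))

theorem ratOf_pad {N l : ℕ} {I : IntCode} (hN : I.1 ≤ N) (hl : I.2.2.length + N ≤ l)
    (hI : Admissible I) :
    RatSpec (N + 1 + ((l + 2) + (l + 2))) (ratOf (pad N l I)) (π ^ (2 * (l + 2)) * value I) := by
  obtain ⟨h1, h2, h3⟩ := pad_spec hN hl
  obtain ⟨h4, h5⟩ := h3 hI
  have h := ratOf_spec (pad N l I) h4 (M := N + 1 + ((l + 2) + (l + 2))) (by rw [h1, h2])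
  rw [h2, h5] at h
  exact ⟨h.2.2, h.1, h.2.1⟩

theorem oneRat_spec (Z : PeriodCode × PeriodCode)
    (hZ : PeriodAdmissible Z.1 ∧ PeriodAdmissible Z.2) :
    ∃ c : ℝ, c ≠ 0 ∧ RatSpec (oneRat Z).1 (oneRat Z).2
      ((c * (value Z.1.1 - value Z.2.1)) ^ 2 + (c * (value Z.1.2 - value Z.2.2)) ^ 2) := by
  refine ⟨π ^ (2 * (comIneqs Z + 2)), by positivity, ?_⟩
  have e11 := ratOf_pad (N := comVars Z) (l := comIneqs Z) (I := Z.1.1)
    (by unfold comVars; omega) (by unfold comIneqs; omega) hZ.1.1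
  have e12 := ratOf_pad (N := comVars Z) (l := comIneqs Z) (I := Z.1.2)
    (by unfold comVars; omega) (by unfold comIneqs; omega) hZ.1.2
  have e21 := ratOf_pad (N := comVars Z) (l := comIneqs Z) (I := Z.2.1)
    (by unfold comVars; omega) (by unfold comIneqs; omega) hZ.2.1
  have e22 := ratOf_pad (N := comVars Z) (l := comIneqs Z) (I := Z.2.2)
    (by unfold comVars; omega) (by unfold comIneqs; omega) hZ.2.2
  have key := ((e11.sub e21).sq).add ((e12.sub e22).sq)
  have hv : ((π ^ (2 * (comIneqs Z + 2)) * (value Z.1.1 - value Z.2.1)) ^ 2 +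
      (π ^ (2 * (comIneqs Z + 2)) * (value Z.1.2 - value Z.2.2)) ^ 2) =
      (π ^ (2 * (comIneqs Z + 2)) * value Z.1.1 - π ^ (2 * (comIneqs Z + 2)) * value Z.2.1) *
      (π ^ (2 * (comIneqs Z + 2)) * value Z.1.1 - π ^ (2 * (comIneqs Z + 2)) * value Z.2.1) +
      (π ^ (2 * (comIneqs Z + 2)) * value Z.1.2 - π ^ (2 * (comIneqs Z + 2)) * value Z.2.2) *
      (π ^ (2 * (comIneqs Z + 2)) * value Z.1.2 - π ^ (2 * (comIneqs Z + 2)) * value Z.2.2) := by
    ring
  rw [hv]
  exact key

theorem oneRat_zero_iff (Z : PeriodCode × PeriodCode)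
    (hZ : PeriodAdmissible Z.1 ∧ PeriodAdmissible Z.2) :
    (∫ y, ratEval (oneRat Z).1 (oneRat Z).2 y = 0) ↔ period Z.1 = period Z.2 := by
  obtain ⟨c, hc, h⟩ := oneRat_spec Z hZ
  rw [h.val, period, period, Complex.mk.injEq]
  constructor
  · intro h0
    have h1 : (c * (value Z.1.1 - value Z.2.1)) ^ 2 = 0 := by
      have := sq_nonneg (c * (value Z.1.1 - value Z.2.1))
      have := sq_nonneg (c * (value Z.1.2 - value Z.2.2))
      linarith
    have h2 : (c * (value Z.1.2 - value Z.2.2)) ^ 2 = 0 := by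
      have := sq_nonneg (c * (value Z.1.1 - value Z.2.1))
      linarith
    have h3 := (mul_eq_zero.mp (pow_eq_zero_iff (two_ne_zero) |>.mp h1)).resolve_left hc
    have h4 := (mul_eq_zero.mp (pow_eq_zero_iff (two_ne_zero) |>.mp h2)).resolve_left hc
    exact ⟨by linarith, by linarith⟩
  · rintro ⟨h1, h2⟩
    rw [h1, h2]; simp

end Pool.Agent.Lib.MP_bbe012_lc
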