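import Mathlib
import Pool.Agent.Lib.MP_bbe012_lc.Codes

/-!
# The arithmetic on codes is primitive recursive
-/

namespace Pool.Agent.Lib.MP_bbe012_lc

open Primrec

theorem primrec_qnat : Primrec qnat :=
  pair (pair Primrec.id (const 0)) (const 0)

theorem primrec_qneg : Primrec qneg :=
  pair (pair (snd.comp fst) (fst.comp fst)) snd

theorem primrec_qadd : Primrec₂ qadd := by
  have a1 : Primrec fun p : QCode × QCode => p.1.1.1 := fst.comp (fst.comp fst)
  have a2 : Primrec fun p : QCode × QCode => p.1.1.2 := snd.comp (fst.comp fst)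
  have a3 : Primrec fun p : QCode × QCode => p.1.2 + 1 := succ.comp (snd.comp fst)
  have b1 : Primrec fun p : QCode × QCode => p.2.1.1 := fst.comp (fst.comp snd)
  have b2 : Primrec fun p : QCode × QCode => p.2.1.2 := snd.comp (fst.comp snd)
  have b3 : Primrec fun p : QCode × QCode => p.2.2 + 1 := succ.comp (snd.comp snd)
  exact pair (pair (nat_add.comp (nat_mul.comp a1 b3) (nat_mul.comp b1 a3))
    (nat_add.comp (nat_mul.comp a2 b3) (nat_mul.comp b2 a3)))
    (nat_sub.comp (nat_mul.comp a3 b3) (const 1))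

theorem primrec_qmul : Primrec₂ qmul := by
  have a1 : Primrec fun p : QCode × QCode => p.1.1.1 := fst.comp (fst.comp fst)
  have a2 : Primrec fun p : QCode × QCode => p.1.1.2 := snd.comp (fst.comp fst)
  have a3 : Primrec fun p : QCode × QCode => p.1.2 + 1 := succ.comp (snd.comp fst)
  have b1 : Primrec fun p : QCode × QCode => p.2.1.1 := fst.comp (fst.comp snd)
  have b2 : Primrec fun p : QCode × QCode => p.2.1.2 := snd.comp (fst.comp snd)
  have b3 : Primrec fun p : QCode × QCode => p.2.2 + 1 := succ.comp (snd.comp snd)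
  exact pair (pair (nat_add.comp (nat_mul.comp a1 b1) (nat_mul.comp a2 b2))
    (nat_add.comp (nat_mul.comp a1 b2) (nat_mul.comp a2 b1)))
    (nat_sub.comp (nat_mul.comp a3 b3) (const 1))

theorem primrec_expAdd : Primrec₂ expAdd := by
  have h : Primrec₂ fun (p : List ℕ × List ℕ) (i : ℕ) => p.1.getD i 0 + p.2.getD i 0 :=
    nat_add.comp ((list_getD 0).comp (fst.comp fst) snd) ((list_getD 0).comp (snd.comp fst) snd)
  exact list_map (list_range.comp (nat_max.comp (list_length.comp fst) (list_length.comp snd))) h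

theorem primrec_pcNeg : Primrec pcNeg :=
  list_map Primrec.id ((pair (primrec_qneg.comp (fst.comp snd)) (snd.comp snd)).to₂)

theorem primrec_termMul : Primrec₂ termMul :=
  pair (primrec_qmul.comp (fst.comp fst) (fst.comp snd))
    (primrec_expAdd.comp (snd.comp fst) (snd.comp snd))

theorem primrec_pcMul : Primrec₂ pcMul := by
  have h : Primrec₂ fun (p : PCode × PCode) (s : QCode × List ℕ) => p.2.map (termMul s) :=
    list_map (snd.comp fst) (primrec_termMul.comp₂ (snd.comp₂ Primrec₂.left) Primrec₂.right)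
  exact list_flatMap fst h

theorem primrec_pcNat : Primrec pcNat :=
  list_cons.comp (pair primrec_qnat (const [])) (const [])

theorem primrec_replicate_zero : Primrec fun m : ℕ => List.replicate m 0 :=
  (list_map list_range ((const 0).to₂)).of_eq fun m => by
    simp [List.map_const']

theorem primrec_pcVar : Primrec pcVar :=
  list_cons.comp (pair (const (qnat 1))
    (list_append.comp primrec_replicate_zero (const [1]))) (const [])

theorem primrec_pcPow : Primrec₂ pcPow :=
  nat_rec' (f := fun p : PCode × ℕ => p.2) (g := fun _ => pcNat 1)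
    (h := fun (p : PCode × ℕ) (q : ℕ × PCode) => pcMul p.1 q.2) snd (const _)
    (primrec_pcMul.comp (fst.comp fst) (snd.comp snd))

theorem primrec_pcTrunc : Primrec₂ pcTrunc :=
  list_map snd ((pair (fst.comp snd) (list_take.comp (fst.comp fst) (snd.comp snd))).to₂)

theorem primrec_pcShift : Primrec fun q : (ℕ × ℕ) × PCode => pcShift q.1.1 q.1.2 q.2 :=
  list_map snd ((pair (fst.comp snd) (list_append.comp
    (primrec_replicate_zero.comp (fst.comp (fst.comp fst)))
    (list_take.comp (snd.comp (fst.comp fst)) (snd.comp snd)))).to₂)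

theorem primrecPred_expEq : PrimrecPred fun q : ℕ × List ℕ × List ℕ => expEq q.1 q.2.1 q.2.2 := by
  have h : PrimrecRel fun (i : ℕ) (q : List ℕ × List ℕ) => q.1.getD i 0 = q.2.getD i 0 :=
    Primrec.eq.comp ((list_getD 0).comp (fst.comp snd) fst) ((list_getD 0).comp (snd.comp snd) fst)
  exact (h.forall_mem_list.comp (list_range.comp fst) snd).of_eq fun q => by
    simp [expEq]

theorem primrec_sumCoef : Primrec fun q : (ℕ × List ℕ) × PCode => sumCoef q.1.1 q.1.2 q.2 := by
  have hc : PrimrecPred fun r : ((ℕ × List ℕ) × PCode) × (QCode × List ℕ) × QCode =>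
      expEq r.1.1.1 r.2.1.2 r.1.1.2 :=
    primrecPred_expEq.comp (pair (fst.comp (fst.comp fst)) (pair (snd.comp (fst.comp snd))
      (snd.comp (fst.comp fst))))
  have h : Primrec₂ fun (q : (ℕ × List ℕ) × PCode) (r : (QCode × List ℕ) × QCode) =>
      if expEq q.1.1 r.1.2 q.1.2 then qadd r.1.1 r.2 else r.2 :=
    Primrec.ite hc (primrec_qadd.comp (fst.comp (fst.comp snd)) (snd.comp snd)) (snd.comp snd)
  exact list_foldr snd (const (qnat 0)) h

theorem primrecPred_pcIsZero : PrimrecPred fun q : ℕ × PCode => pcIsZero q.1 q.2 := by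
  have h1 : Primrec fun r : (QCode × List ℕ) × (ℕ × PCode) => sumCoef r.2.1 r.1.2 r.2.2 :=
    primrec_sumCoef.comp (pair (pair (fst.comp snd) (snd.comp fst)) (snd.comp snd))
  have h : PrimrecRel fun (t : QCode × List ℕ) (q : ℕ × PCode) =>
      (sumCoef q.1 t.2 q.2).1.1 = (sumCoef q.1 t.2 q.2).1.2 :=
    Primrec.eq.comp (fst.comp (fst.comp h1)) (snd.comp (fst.comp h1))
  exact h.forall_mem_list.comp snd Primrec.id

end Pool.Agent.Lib.MP_bbe012_lc
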