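import Mathlib
import Pool.Agent.Lib.MP_bbe012_lc.CodesPrim
import Pool.Agent.Lib.MP_bbe012_lc.Assemble

/-!
# The reduction is primitive recursive
-/

namespace Pool.Agent.Lib.MP_bbe012_lc

open Primrec

section generic

variable {α : Type} [Primcodable α]

theorem pr_mul {f g : α → PCode} (hf : Primrec f) (hg : Primrec g) :
    Primrec fun a => pcMul (f a) (g a) := primrec_pcMul.comp hf hg

theorem pr_neg {f : α → PCode} (hf : Primrec f) : Primrec fun a => pcNeg (f a) :=
  primrec_pcNeg.comp hf

theorem pr_append {f g : α → PCode} (hf : Primrec f) (hg : Primrec g) :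
    Primrec fun a => f a ++ g a := list_append.comp hf hg

theorem pr_pow {f : α → PCode} {k : α → ℕ} (hf : Primrec f) (hk : Primrec k) :
    Primrec fun a => pcPow (f a) (k a) := primrec_pcPow.comp hf hk

theorem pr_nat (k : ℕ) : Primrec fun _ : α => pcNat k := const _

theorem pr_var {f : α → ℕ} (hf : Primrec f) : Primrec fun a => pcVar (f a) := primrec_pcVar.comp hf

theorem pr_trunc {n : α → ℕ} {f : α → PCode} (hn : Primrec n) (hf : Primrec f) :
    Primrec fun a => pcTrunc (n a) (f a) := primrec_pcTrunc.comp hn hf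

theorem pr_shift {m n : α → ℕ} {f : α → PCode} (hm : Primrec m) (hn : Primrec n) (hf : Primrec f) :
    Primrec fun a => pcShift (m a) (n a) (f a) := primrec_pcShift.comp (pair (pair hm hn) hf)

theorem pr_prodRange {R : α → ℕ} {g : α → ℕ → PCode} (hR : Primrec R) (hg : Primrec₂ g) :
    Primrec fun a => pcProdRange (R a) (g a) :=
  list_foldr (list_range.comp hR) (const (pcNat 1))
    (primrec_pcMul.comp (hg.comp fst (fst.comp snd)) (snd.comp snd)).to₂

theorem pr_damp {N κ : α → ℕ} (hN : Primrec N) (hκ : Primrec κ) :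
    Primrec fun a => dampCode (N a) (κ a) :=
  pr_prodRange (g := fun a i => pcPow (pcNat 1 ++ pcMul (pcVar i) (pcVar i)) (κ a)) hN
    (pr_pow (pr_append (pr_nat 1) (pr_mul (pr_var snd) (pr_var snd))) (hκ.comp fst)).to₂

theorem pr_rad {N R j : α → ℕ} (hN : Primrec N) (hR : Primrec R) (hj : Primrec j) :
    Primrec fun a => radCode (N a) (R a) (j a) := by
  have h1 : Primrec fun a => pcVar (N a + j a) := pr_var (nat_add.comp hN hj)
  have h2 : Primrec fun a => pcVar (N a + R a + j a) :=
    pr_var (nat_add.comp (nat_add.comp hN hR) hj)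
  exact pr_append (pr_mul h1 h1) (pr_mul h2 h2)

theorem pr_d1 {N R κ j : α → ℕ} {f : α → PCode} (hN : Primrec N) (hR : Primrec R) (hκ : Primrec κ)
    (hj : Primrec j) (hf : Primrec f) :
    Primrec fun a => d1Code (N a) (R a) (κ a) (j a) (f a) :=
  pr_append (pr_nat 1) (pr_mul (pr_pow (pr_damp hN hκ) (const 2))
    (pr_pow (pr_append (pr_rad hN hR hj) (pr_neg hf)) (const 2)))

theorem pr_d2 {N R κ j : α → ℕ} {f : α → PCode} (hN : Primrec N) (hR : Primrec R) (hκ : Primrec κ)
    (hj : Primrec j) (hf : Primrec f) :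
    Primrec fun a => d2Code (N a) (R a) (κ a) (j a) (f a) :=
  pr_append (pr_nat 1) (pr_mul (pr_pow hf (const 2))
    (pr_pow (pr_append (pr_damp hN hκ) (pr_rad hN hR hj)) (const 2)))

theorem pr_num {N R κ j : α → ℕ} {f : α → PCode} (hN : Primrec N) (hR : Primrec R) (hκ : Primrec κ)
    (hj : Primrec j) (hf : Primrec f) :
    Primrec fun a => numCode (N a) (R a) (κ a) (j a) (f a) :=
  pr_append (pr_mul (pr_damp hN hκ) (pr_d2 hN hR hκ hj hf)) (pr_mul hf (pr_d1 hN hR hκ hj hf))

theorem pr_den {N R κ j : α → ℕ} {f : α → PCode} (hN : Primrec N) (hR : Primrec R) (hκ : Primrec κ)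
    (hj : Primrec j) (hf : Primrec f) :
    Primrec fun a => denCode (N a) (R a) (κ a) (j a) (f a) :=
  pr_mul (pr_d1 hN hR hκ hj hf) (pr_d2 hN hR hκ hj hf)

theorem pr_kernel {N κ : α → ℕ} {L : α → List PCode} (hN : Primrec N) (hκ : Primrec κ)
    (hL : Primrec L) : Primrec fun a => kernelCode (N a) (κ a) (L a) := by
  have hlen : Primrec fun q : α × ℕ => (L q.1).length := list_length.comp (hL.comp fst)
  have hf : Primrec fun q : α × ℕ => pcTrunc (N q.1) ((L q.1).getD q.2 []) :=
    pr_trunc (hN.comp fst) ((list_getD []).comp (hL.comp fst) snd)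
  refine pair ?_ ?_
  · exact pr_prodRange
      (g := fun a j => numCode (N a) (L a).length (κ a) j (pcTrunc (N a) ((L a).getD j [])))
      (list_length.comp hL) (pr_num (hN.comp fst) hlen (hκ.comp fst) snd hf).to₂
  · exact pr_prodRange
      (g := fun a j => denCode (N a) (L a).length (κ a) j (pcTrunc (N a) ((L a).getD j [])))
      (list_length.comp hL) (pr_den (hN.comp fst) hlen (hκ.comp fst) snd hf).to₂

theorem pr_ratSub {r s : α → PCode × PCode} (hr : Primrec r) (hs : Primrec s) :
    Primrec fun a => ratSub (r a) (s a) :=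
  pair (pr_append (pr_mul (fst.comp hr) (snd.comp hs)) (pr_neg (pr_mul (fst.comp hs) (snd.comp hr))))
    (pr_mul (snd.comp hr) (snd.comp hs))

theorem pr_ratAdd {r s : α → PCode × PCode} (hr : Primrec r) (hs : Primrec s) :
    Primrec fun a => ratAdd (r a) (s a) :=
  pair (pr_append (pr_mul (fst.comp hr) (snd.comp hs)) (pr_mul (fst.comp hs) (snd.comp hr)))
    (pr_mul (snd.comp hr) (snd.comp hs))

theorem pr_ratSq {M : α → ℕ} {r : α → PCode × PCode} (hM : Primrec M) (hr : Primrec r) :
    Primrec fun a => ratSq (M a) (r a) :=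
  pair (pr_mul (pr_trunc hM (fst.comp hr)) (pr_shift hM hM (fst.comp hr)))
    (pr_mul (pr_trunc hM (snd.comp hr)) (pr_shift hM hM (snd.comp hr)))

end generic

/-! ### inequalities attached to an integral -/

theorem primrec_hat : Primrec₂ hat := by
  have hz : PrimrecPred fun q : ℕ × (Bool × PCode) => pcIsZero q.1 q.2.2 :=
    primrecPred_pcIsZero.comp (pair fst (snd.comp snd))
  have hb : PrimrecPred fun q : ℕ × (Bool × PCode) => q.2.1 = true :=
    Primrec.eq.comp (fst.comp snd) (const true)
  exact Primrec.ite hz (Primrec.ite hb (const (pcNeg (pcNat 1))) (const (pcNat 1)))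
    (pr_trunc fst (snd.comp snd))

/-- The projections of `IntCode`. -/
theorem pr_iv : Primrec fun I : IntCode => I.1 := fst

theorem pr_iP : Primrec fun I : IntCode => I.2.1.1 := fst.comp (fst.comp snd)

theorem pr_iQ : Primrec fun I : IntCode => I.2.1.2 := snd.comp (fst.comp snd)

theorem pr_iS : Primrec fun I : IntCode => I.2.2 := snd.comp snd

section generic2

variable {α : Type} [Primcodable α]

theorem pr_graph {n : α → ℕ} {P Q : α → PCode} (hn : Primrec n) (hP : Primrec P) (hQ : Primrec Q) :
    Primrec fun a => graphIneq (n a) (P a) (Q a) :=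
  pr_append (pr_mul (pr_trunc hn hP) (pr_trunc hn hQ))
    (pr_neg (pr_mul (pr_var hn) (pr_mul (pr_trunc hn hQ) (pr_trunc hn hQ))))

theorem pr_ineqs {n : α → ℕ} {P Q : α → PCode} {S : α → SysCode} (hn : Primrec n)
    (hP : Primrec P) (hQ : Primrec Q) (hS : Primrec S) :
    Primrec fun a => ineqs (n a) (P a) (Q a) (S a) := by
  have h1 : Primrec fun a => (S a).map (hat (n a)) :=
    list_map hS (primrec_hat.comp (hn.comp fst) snd).to₂
  have h2 : Primrec fun a => [pcVar (n a), graphIneq (n a) (P a) (Q a)] :=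
    list_cons.comp (pr_var hn) (list_cons.comp (pr_graph hn hP hQ) (const []))
  exact list_append.comp h1 h2

end generic2

theorem primrec_maxList : Primrec fun l : List ℕ => l.foldr max 0 :=
  list_foldr Primrec.id (const 0) (nat_max.comp (fst.comp snd) (snd.comp snd)).to₂

theorem primrec_pcDeg : Primrec pcDeg :=
  list_foldr (f := fun p : PCode => p) (g := fun _ => 0)
    (h := fun (_ : PCode) (q : (QCode × List ℕ) × ℕ) => max (q.1.2.foldr max 0) q.2)
    Primrec.id (const 0)
    (nat_max.comp (primrec_maxList.comp (snd.comp (fst.comp snd))) (snd.comp snd)).to₂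

theorem primrec_degBound : Primrec degBound :=
  list_foldr (f := fun p : List PCode => p) (g := fun _ => 0)
    (h := fun (_ : List PCode) (q : PCode × ℕ) => max (pcDeg q.1) q.2)
    Primrec.id (const 0)
    (nat_max.comp (primrec_pcDeg.comp (fst.comp snd)) (snd.comp snd)).to₂

theorem pr_ineqs1 : Primrec fun I : IntCode => ineqs I.1 I.2.1.1 I.2.1.2 I.2.2 :=
  pr_ineqs pr_iv pr_iP pr_iQ pr_iS

theorem pr_ineqs2 : Primrec fun I : IntCode => ineqs I.1 (pcNeg I.2.1.1) I.2.1.2 I.2.2 :=
  pr_ineqs pr_iv (pr_neg pr_iP) pr_iQ pr_iS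

theorem primrec_degOf : Primrec degOf :=
  nat_max.comp (primrec_degBound.comp pr_ineqs1) (primrec_degBound.comp pr_ineqs2)

theorem primrec_ratOf : Primrec ratOf :=
  pr_ratSub (pr_kernel (succ.comp pr_iv) (succ.comp primrec_degOf) pr_ineqs1)
    (pr_kernel (succ.comp pr_iv) (succ.comp primrec_degOf) pr_ineqs2)

theorem primrec_padVar : Primrec padVar := by
  have h1 : Primrec fun I : IntCode => I.2.2.map (fun c => (c.1, pcTrunc I.1 c.2)) :=
    list_map pr_iS (pair (fst.comp snd) (pr_trunc (pr_iv.comp fst) (snd.comp snd))).to₂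
  have h2 : Primrec fun I : IntCode =>
      [(true, pcVar I.1 ++ pcNeg (pcMul (pcVar I.1) (pcVar I.1)))] :=
    list_cons.comp (pair (const true) (pr_append (pr_var pr_iv)
      (pr_neg (pr_mul (pr_var pr_iv) (pr_var pr_iv))))) (const [])
  exact pair (succ.comp pr_iv) (pair (pair (pr_trunc pr_iv pr_iP) (pr_trunc pr_iv pr_iQ))
    (list_append.comp h1 h2))

theorem primrec_padIneq : Primrec padIneq :=
  pair pr_iv (pair (fst.comp snd) (list_append.comp pr_iS (const [(true, pcNat 1)])))

section generic3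

variable {α : Type} [Primcodable α]

theorem pr_pad {N l : α → ℕ} {I : α → IntCode} (hN : Primrec N) (hl : Primrec l)
    (hI : Primrec I) : Primrec fun a => pad (N a) (l a) (I a) := by
  have h1 : Primrec fun a => padVar^[N a - (I a).1] (I a) :=
    nat_iterate (nat_sub.comp hN (pr_iv.comp hI)) hI (primrec_padVar.comp snd).to₂
  exact nat_iterate (nat_sub.comp hl (list_length.comp (pr_iS.comp h1))) h1
    (primrec_padIneq.comp snd).to₂

end generic3

theorem primrec_comVars : Primrec comVars := by
  have h11 : Primrec fun Z : PeriodCode × PeriodCode => Z.1.1.1 := pr_iv.comp (fst.comp fst)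
  have h12 : Primrec fun Z : PeriodCode × PeriodCode => Z.1.2.1 := pr_iv.comp (snd.comp fst)
  have h21 : Primrec fun Z : PeriodCode × PeriodCode => Z.2.1.1 := pr_iv.comp (fst.comp snd)
  have h22 : Primrec fun Z : PeriodCode × PeriodCode => Z.2.2.1 := pr_iv.comp (snd.comp snd)
  exact nat_add.comp (nat_add.comp (nat_add.comp h11 h12) h21) h22

theorem primrec_comIneqs : Primrec comIneqs := by
  have h11 : Primrec fun Z : PeriodCode × PeriodCode => Z.1.1.2.2.length :=
    list_length.comp (pr_iS.comp (fst.comp fst))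
  have h12 : Primrec fun Z : PeriodCode × PeriodCode => Z.1.2.2.2.length :=
    list_length.comp (pr_iS.comp (snd.comp fst))
  have h21 : Primrec fun Z : PeriodCode × PeriodCode => Z.2.1.2.2.length :=
    list_length.comp (pr_iS.comp (fst.comp snd))
  have h22 : Primrec fun Z : PeriodCode × PeriodCode => Z.2.2.2.2.length :=
    list_length.comp (pr_iS.comp (snd.comp snd))
  exact nat_add.comp (nat_add.comp (nat_add.comp (nat_add.comp h11 h12) h21) h22) primrec_comVars

theorem primrec_ratVars : Primrec ratVars := by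
  have h : Primrec fun Z : PeriodCode × PeriodCode => comIneqs Z + 2 :=
    nat_add.comp primrec_comIneqs (const 2)
  exact nat_add.comp (succ.comp primrec_comVars) (nat_add.comp h h)

theorem primrec_oneRat : Primrec oneRat := by
  have h11 : Primrec fun Z : PeriodCode × PeriodCode => ratOf (pad (comVars Z) (comIneqs Z) Z.1.1) :=
    primrec_ratOf.comp (pr_pad primrec_comVars primrec_comIneqs (fst.comp fst))
  have h12 : Primrec fun Z : PeriodCode × PeriodCode => ratOf (pad (comVars Z) (comIneqs Z) Z.1.2) :=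
    primrec_ratOf.comp (pr_pad primrec_comVars primrec_comIneqs (snd.comp fst))
  have h21 : Primrec fun Z : PeriodCode × PeriodCode => ratOf (pad (comVars Z) (comIneqs Z) Z.2.1) :=
    primrec_ratOf.comp (pr_pad primrec_comVars primrec_comIneqs (fst.comp snd))
  have h22 : Primrec fun Z : PeriodCode × PeriodCode => ratOf (pad (comVars Z) (comIneqs Z) Z.2.2) :=
    primrec_ratOf.comp (pr_pad primrec_comVars primrec_comIneqs (snd.comp snd))
  exact pair (nat_add.comp primrec_ratVars primrec_ratVars)
    (pr_ratAdd (pr_ratSq primrec_ratVars (pr_ratSub h11 h21))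
      (pr_ratSq primrec_ratVars (pr_ratSub h12 h22)))

end Pool.Agent.Lib.MP_bbe012_lc
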