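import Mathlib
import Pool.Agent.Lib.MP_bbe012_lc.Comp
import Pool.Agent.Lib.MP_bbe012_lc.Entry

/-!
# The verification is primitive recursive, and the search for certificates
-/

namespace Pool.Agent.Lib.MP_bbe012_lc

open Primrec

instance instPrimcodableHEntry : Primcodable HEntry := inferInstance

instance instPrimcodablePEntry : Primcodable PEntry :=
  @Primcodable.prod (HEntry × HEntry) (List Bool)
    (@Primcodable.prod HEntry HEntry instPrimcodableHEntry instPrimcodableHEntry) inferInstance

instance instPrimcodableHCert : Primcodable HCert := inferInstance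

instance instPrimcodablePCert : Primcodable (List QCode × HCert × HCert) :=
  @Primcodable.prod (List QCode) (HCert × HCert) inferInstance
    (@Primcodable.prod HCert HCert instPrimcodableHCert instPrimcodableHCert)

instance instPrimcodableIntPair : Primcodable (IntCode × IntCode) :=
  @Primcodable.prod IntCode IntCode instPrimcodableIntCode instPrimcodableIntCode

instance instPrimcodableEntryInt : Primcodable (PEntry × (IntCode × IntCode)) :=
  @Primcodable.prod PEntry (IntCode × IntCode) instPrimcodablePEntry instPrimcodableIntPair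

instance instPrimcodableEntriesInt : Primcodable (List PEntry × (IntCode × IntCode)) :=
  @Primcodable.prod (List PEntry) (IntCode × IntCode) (@Primcodable.list PEntry instPrimcodablePEntry)
    instPrimcodableIntPair

instance instPrimcodableNCert : Primcodable (ℕ × (List QCode × HCert × HCert)) :=
  @Primcodable.prod ℕ (List QCode × HCert × HCert) inferInstance instPrimcodablePCert

section generic

variable {α : Type} [Primcodable α]

theorem primrec_decAt : Primrec₂ decAt := by
  have hc : PrimrecPred fun q : (ℕ × List ℕ) × ℕ => q.2 = q.1.1 := Primrec.eq.comp snd (fst.comp fst)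
  have hg : Primrec fun q : (ℕ × List ℕ) × ℕ => q.1.2.getD q.2 0 :=
    (list_getD 0).comp (snd.comp fst) snd
  have h : Primrec₂ fun (p : ℕ × List ℕ) (i : ℕ) =>
      if i = p.1 then p.2.getD i 0 - 1 else p.2.getD i 0 :=
    Primrec.ite hc (nat_sub.comp hg (const 1)) hg
  exact list_map (list_range.comp (list_length.comp snd)) h

theorem primrec_pcDer : Primrec₂ pcDer := by
  have h : Primrec₂ fun (p : ℕ × PCode) (t : QCode × List ℕ) =>
      (qmul (qnat (t.2.getD p.1 0)) t.1, decAt p.1 t.2) :=
    pair (primrec_qmul.comp (primrec_qnat.comp ((list_getD 0).comp (snd.comp snd) (fst.comp fst)))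
      (fst.comp snd)) (primrec_decAt.comp (fst.comp fst) (snd.comp snd))
  exact list_map snd h

theorem pr_der {l : α → ℕ} {f : α → PCode} (hl : Primrec l) (hf : Primrec f) :
    Primrec fun a => pcDer (l a) (f a) := primrec_pcDer.comp hl hf

theorem pr_sumRange {R : α → ℕ} {g : α → ℕ → PCode} (hR : Primrec R) (hg : Primrec₂ g) :
    Primrec fun a => pcSumRange (R a) (g a) :=
  list_foldr (list_range.comp hR) (const [])
    (list_append.comp (hg.comp fst (fst.comp snd)) (snd.comp snd)).to₂

theorem pr_natv {k : α → ℕ} (hk : Primrec k) : Primrec fun a => pcNat (k a) := primrec_pcNat.comp hk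

theorem pr_divCode {n K : α → ℕ} {hc : α → PCode} {gs : α → List PCode} (hn : Primrec n)
    (hhc : Primrec hc) (hK : Primrec K) (hgs : Primrec gs) :
    Primrec fun a => divCode (n a) (hc a) (K a) (gs a) := by
  have hg : Primrec fun q : α × ℕ => (gs q.1).getD q.2 [] := (list_getD []).comp (hgs.comp fst) snd
  have h1 : Primrec₂ fun (a : α) (l : ℕ) => pcMul (hc a) (pcDer l ((gs a).getD l [])) ++
      pcMul (pcVar (n a) ++ pcNeg (pcNat (K a))) (pcMul (pcDer l (hc a)) ((gs a).getD l [])) :=
    pr_append (pr_mul (hhc.comp fst) (pr_der snd hg))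
      (pr_mul (pr_append (pr_var (hn.comp fst)) (pr_neg (pr_natv (hK.comp fst))))
        (pr_mul (pr_der snd (hhc.comp fst)) hg))
  exact pr_sumRange hn h1

theorem pr_hCode {n : α → ℕ} {q : α → PCode} {S : α → SysCode} (hn : Primrec n) (hq : Primrec q)
    (hS : Primrec S) : Primrec fun a => hCode (n a) (q a) (S a) := by
  have h1 : Primrec fun a => (S a).foldr (fun c acc => pcMul (hat (n a) c) acc) (pcNat 1) :=
    list_foldr hS (const (pcNat 1)) (primrec_pcMul.comp
      (primrec_hat.comp (hn.comp fst) (fst.comp snd)) (snd.comp snd)).to₂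
  exact pr_trunc hn (pr_mul h1 (pr_pow hq (const 2)))

theorem pr_combo {n : α → ℕ} {qs : α → List QCode} {ps : α → List PCode} (hn : Primrec n)
    (hqs : Primrec qs) (hps : Primrec ps) : Primrec fun a => comboCode (n a) (qs a) (ps a) := by
  have h1 : Primrec fun q : α × ℕ => ([((qs q.1).getD q.2 (qnat 0), [])] : PCode) :=
    list_cons.comp (pair ((list_getD (qnat 0)).comp (hqs.comp fst) snd) (const [])) (const [])
  have h2 : Primrec fun q : α × ℕ => pcTrunc (n q.1) ((ps q.1).getD q.2 []) :=
    pr_trunc (hn.comp fst) ((list_getD []).comp (hps.comp fst) snd)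
  exact pr_sumRange (g := fun a i => pcMul [((qs a).getD i (qnat 0), [])]
    (pcTrunc (n a) ((ps a).getD i []))) (list_length.comp hps) (pr_mul h1 h2).to₂

theorem pr_lhs {n k : α → ℕ} {hc P Q : α → PCode} {ps : α → List PCode} {qs : α → List QCode}
    {c : α → HCert} (hn : Primrec n) (hhc : Primrec hc) (hP : Primrec P) (hQ : Primrec Q)
    (hk : Primrec k) (hps : Primrec ps) (hqs : Primrec qs) (hcc : Primrec c) :
    Primrec fun a => lhsCode (n a) (hc a) (P a) (Q a) (k a) (ps a) (qs a) (c a) := by
  have hs : Primrec fun a => (c a).1.1 := fst.comp (fst.comp hcc)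
  have hK : Primrec fun a => (c a).1.2 := snd.comp (fst.comp hcc)
  have hA : Primrec fun a => (c a).2.1.1 := fst.comp (fst.comp (snd.comp hcc))
  exact pr_mul (pr_mul (pr_pow (pr_var hn) hs) (pr_append (pr_nat 1)
    (pr_mul (pr_var hn) (pr_shift hn (const 1) hA))))
    (pr_append (pr_mul (pr_trunc hn hP) (pr_pow hhc (succ.comp (nat_add.comp hk hK))))
      (pr_neg (pr_mul (pr_mul (pr_trunc hn hQ) (pr_combo hn hqs hps)) (pr_pow hhc (succ.comp hK)))))

theorem pr_rhs {n k j : α → ℕ} {hc Q : α → PCode} {c : α → HCert} (hn : Primrec n)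
    (hhc : Primrec hc) (hQ : Primrec Q) (hk : Primrec k) (hj : Primrec j) (hcc : Primrec c) :
    Primrec fun a => rhsCode (n a) (hc a) (Q a) (k a) (j a) (c a) := by
  have hs : Primrec fun a => (c a).1.1 := fst.comp (fst.comp hcc)
  have hK : Primrec fun a => (c a).1.2 := snd.comp (fst.comp hcc)
  have hw : Primrec fun a => (c a).2.1.2 := snd.comp (fst.comp (snd.comp hcc))
  have hg : Primrec fun a => (c a).2.2 := snd.comp (snd.comp hcc)
  exact pr_mul (pr_trunc hn hQ) (pr_append (pr_mul (pr_pow (pr_var hn) (nat_add.comp hs hj)) hw)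
    (pr_divCode hn hhc (nat_add.comp hk hK) hg))

end generic

/-- Domain of the verification. -/
abbrev CheckIn := (HEntry × List QCode) × IntCode × HCert

theorem primrec_diffCode :
    Primrec fun x : CheckIn => diffCode x.1.1 x.1.2 x.2.1 x.2.2 := by
  have he : Primrec fun x : CheckIn => x.1.1 := fst.comp fst
  have hn : Primrec fun x : CheckIn => x.1.1.1.1 := fst.comp (fst.comp he)
  have hq : Primrec fun x : CheckIn => x.1.1.1.2.1 := fst.comp (snd.comp (fst.comp he))
  have hS : Primrec fun x : CheckIn => x.1.1.1.2.2 := snd.comp (snd.comp (fst.comp he))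
  have hk : Primrec fun x : CheckIn => x.1.1.2.1.1 := fst.comp (fst.comp (snd.comp he))
  have hj : Primrec fun x : CheckIn => x.1.1.2.1.2 := snd.comp (fst.comp (snd.comp he))
  have hps : Primrec fun x : CheckIn => x.1.1.2.2 := snd.comp (snd.comp he)
  have hqs : Primrec fun x : CheckIn => x.1.2 := snd.comp fst
  have hI : Primrec fun x : CheckIn => x.2.1 := fst.comp snd
  have hP : Primrec fun x : CheckIn => x.2.1.2.1.1 := fst.comp (fst.comp (snd.comp hI))
  have hQ : Primrec fun x : CheckIn => x.2.1.2.1.2 := snd.comp (fst.comp (snd.comp hI))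
  have hc : Primrec fun x : CheckIn => x.2.2 := snd.comp snd
  exact pr_append (pr_lhs hn (pr_hCode hn hq hS) hP hQ hk hps hqs hc)
    (pr_neg (pr_rhs hn (pr_hCode hn hq hS) hQ hk hj hc))

theorem primrecPred_check :
    PrimrecPred fun x : CheckIn => check x.1.1 x.1.2 x.2.1 x.2.2 := by
  have he : Primrec fun x : CheckIn => x.1.1 := fst.comp fst
  have hn : Primrec fun x : CheckIn => x.1.1.1.1 := fst.comp (fst.comp he)
  have hS : Primrec fun x : CheckIn => x.1.1.1.2.2 := snd.comp (snd.comp (fst.comp he))
  have hI : Primrec fun x : CheckIn => x.2.1 := fst.comp snd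
  have h1 : PrimrecPred fun x : CheckIn => x.2.1.1 = x.1.1.1.1 :=
    Primrec.eq.comp (fst.comp hI) hn
  have h2 : PrimrecPred fun x : CheckIn => x.2.1.2.2 = x.1.1.1.2.2 :=
    Primrec.eq.comp (snd.comp (snd.comp hI)) hS
  have h3 : PrimrecPred fun x : CheckIn =>
      pcIsZero (x.1.1.1.1 + 1) (diffCode x.1.1 x.1.2 x.2.1 x.2.2) :=
    primrecPred_pcIsZero.comp (pair (succ.comp hn) primrec_diffCode)
  exact (h1.and h2).and h3

/-- Domain of the verification for pairs. -/
abbrev PairIn := (PEntry × (IntCode × IntCode)) × (List QCode × HCert × HCert)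

theorem primrecPred_pairCheck :
    PrimrecPred fun x : PairIn => pairCheck x.1.1 x.1.2.1 x.1.2.2 x.2 := by
  have he : Primrec fun x : PairIn => x.1.1 := fst.comp fst
  have hqs : Primrec fun x : PairIn => x.2.1 := fst.comp snd
  have h1 : Primrec fun x : PairIn => (((x.1.1.1.1, x.2.1), (x.1.2.1, x.2.2.1)) : CheckIn) :=
    pair (pair (fst.comp (fst.comp he)) hqs) (pair (fst.comp (snd.comp fst))
      (fst.comp (snd.comp snd)))
  have h2 : Primrec fun x : PairIn => (((x.1.1.1.2, x.2.1), (x.1.2.2, x.2.2.2)) : CheckIn) :=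
    pair (pair (snd.comp (fst.comp he)) hqs) (pair (snd.comp (snd.comp fst))
      (snd.comp (snd.comp snd)))
  exact (primrecPred_check.comp h1).and (primrecPred_check.comp h2)

theorem primrecPred_answer : PrimrecPred fun x : List Bool × List QCode => answer x.1 x.2 := by
  have hq : Primrec fun x : ℕ × (List Bool × List QCode) => x.2.2.getD x.1 (qnat 0) :=
    (list_getD (qnat 0)).comp (snd.comp snd) fst
  have h1 : PrimrecPred fun x : ℕ × (List Bool × List QCode) => x.2.1.getD x.1 true = false :=
    Primrec.eq.comp ((list_getD true).comp (fst.comp snd) fst) (const false)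
  have h2 : PrimrecPred fun x : ℕ × (List Bool × List QCode) =>
      (x.2.2.getD x.1 (qnat 0)).1.1 = (x.2.2.getD x.1 (qnat 0)).1.2 :=
    Primrec.eq.comp (fst.comp (fst.comp hq)) (snd.comp (fst.comp hq))
  have h3 : PrimrecRel fun (i : ℕ) (x : List Bool × List QCode) =>
      ¬ (x.1.getD i true = false) ∨
        (x.2.getD i (qnat 0)).1.1 = (x.2.getD i (qnat 0)).1.2 := h1.not.or h2
  refine (h3.forall_mem_list.comp (list_range.comp (list_length.comp fst)) Primrec.id).of_eq ?_
  intro x
  simp only [answer, List.mem_range, id]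
  constructor
  · intro h i hi hf
    exact (h i hi).resolve_left (fun h2 => h2 hf)
  · intro h i hi
    by_cases hf : x.1.getD i true = false
    · exact Or.inr (h i hi hf)
    · exact Or.inl hf

instance (fl : List Bool) (qs : List QCode) : Decidable (answer fl qs) := by
  unfold answer; infer_instance

instance (e : HEntry) (qs : List QCode) (I : IntCode) (c : HCert) :
    Decidable (check e qs I c) := by
  unfold check; infer_instance

instance (e : PEntry) (I J : IntCode) (c : List QCode × HCert × HCert) :
    Decidable (pairCheck e I J c) := by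
  unfold pairCheck; infer_instance

/-- One step of the search: try the certificate `c` for the entry with index `i`. -/
def tryOne (L : List PEntry) (I J : IntCode) (i : ℕ) (c : List QCode × HCert × HCert) :
    Option Bool :=
  (L[i]?).bind fun e => if pairCheck e I J c then some (decide (answer e.2 c.1)) else none

/-- The search for a certificate. -/
def decPair (x : List PEntry × (IntCode × IntCode)) : Part Bool :=
  Nat.rfindOpt fun m => (Encodable.decode (α := ℕ × (List QCode × HCert × HCert)) m).bind fun ic =>
    tryOne x.1 x.2.1 x.2.2 ic.1 ic.2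

theorem primrec_tryOne :
    Primrec fun x : (List PEntry × (IntCode × IntCode)) × (ℕ × (List QCode × HCert × HCert)) =>
      tryOne x.1.1 x.1.2.1 x.1.2.2 x.2.1 x.2.2 := by
  have h1 : Primrec fun x : (List PEntry × (IntCode × IntCode)) ×
      (ℕ × (List QCode × HCert × HCert)) => x.1.1[x.2.1]? :=
    list_getElem?.comp (fst.comp fst) (fst.comp snd)
  have h2 : PrimrecPred fun y : ((List PEntry × (IntCode × IntCode)) ×
      (ℕ × (List QCode × HCert × HCert))) × PEntry =>
      pairCheck y.2 y.1.1.2.1 y.1.1.2.2 y.1.2.2 :=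
    primrecPred_pairCheck.comp (pair (pair snd (snd.comp (fst.comp fst)))
      (snd.comp (snd.comp fst)))
  have h3 : PrimrecPred fun y : ((List PEntry × (IntCode × IntCode)) ×
      (ℕ × (List QCode × HCert × HCert))) × PEntry => answer y.2.2 y.1.2.2.1 :=
    primrecPred_answer.comp (pair (snd.comp snd) (fst.comp (snd.comp (snd.comp fst))))
  have h4 : Primrec fun y : ((List PEntry × (IntCode × IntCode)) ×
      (ℕ × (List QCode × HCert × HCert))) × PEntry => decide (answer y.2.2 y.1.2.2.1) :=
    h3.decide
  exact option_bind h1 ((Primrec.ite h2 (option_some.comp h4) (const none)).to₂)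

theorem partrec_decPair : Partrec decPair := by
  have h : Primrec₂ fun (x : List PEntry × (IntCode × IntCode)) (m : ℕ) =>
      (Encodable.decode (α := ℕ × (List QCode × HCert × HCert)) m).bind fun ic =>
        tryOne x.1 x.2.1 x.2.2 ic.1 ic.2 := by
    have h1 : Primrec fun y : (List PEntry × (IntCode × IntCode)) × ℕ =>
        (Encodable.decode (α := ℕ × (List QCode × HCert × HCert)) y.2) :=
      Primrec.decode.comp snd
    exact option_bind h1 ((primrec_tryOne.comp (pair (fst.comp fst) snd)).to₂)
  exact Partrec.rfindOpt h.to_comp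

/-- Any output of the search comes from a successful verification. -/
theorem mem_decPair {L : List PEntry} {I J : IntCode} {b : Bool} (h : b ∈ decPair (L, (I, J))) :
    ∃ e ∈ L, ∃ c, pairCheck e I J c ∧ b = decide (answer e.2 c.1) := by
  obtain ⟨m, hm⟩ := Nat.rfindOpt_spec h
  obtain ⟨ic, _, h2⟩ := Option.bind_eq_some_iff.mp hm
  obtain ⟨e, he, h3⟩ := Option.bind_eq_some_iff.mp h2
  split_ifs at h3 with hc
  exact ⟨e, List.mem_of_getElem? he, ic.2, hc, (Option.some_injective _ h3).symm⟩

/-- The search terminates when there is a certificate. -/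
theorem dom_decPair {L : List PEntry} {I J : IntCode} {e : PEntry} (he : e ∈ L)
    {c : List QCode × HCert × HCert} (hc : pairCheck e I J c) : (decPair (L, (I, J))).Dom := by
  obtain ⟨i, hi⟩ := List.mem_iff_getElem?.mp he
  refine Nat.rfindOpt_dom.mpr ⟨Encodable.encode ((i, c) : ℕ × (List QCode × HCert × HCert)),
    decide (answer e.2 c.1), ?_⟩
  rw [Encodable.encodek]
  change tryOne L I J i c = _
  unfold tryOne
  rw [hi]
  change (if pairCheck e I J c then some (decide (answer e.2 c.1)) else none) = _
  rw [if_pos hc]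

end Pool.Agent.Lib.MP_bbe012_lc
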