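import Mathlib
import Pool.Agent.Lib.MP_bbe012_lc.Adv

/-!
# Polynomial relations between periods: the complete certificate
-/

namespace Pool.Agent.Lib.MP_bbe012_lc

open MeasureTheory MvPolynomial Set Filter Topology

instance (n : ℕ) (x : List QCode) (S : SysCode) : Decidable (posAt n x S) := by
  unfold posAt; infer_instance

instance (g : Supp) (a : ℕ) (en : CellEntry) (I : IntCode) : Decidable (sel g a en I) := by
  unfold sel; infer_instance

/-- The linear form attached to a certificate, as a code. -/
def linCode (F : List Supp) (E : List CellEntry) (B : ℕ) (I : IntCode) (c : CertI) : PCode :=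
  pcSumRange E.length fun s =>
    if sel (F.getD c.1.1 default) c.1.1 (E.getD s default) I then
      pcSumRange B fun i => pcMul [((c.2.2.getD s default).1.getD i (qnat 0), [])] (pcVar (s * B + i))
    else []

/-- The numbers substituted for the variables: the basic integrals, and finally the imaginary
unit. -/
noncomputable def nums (N B : ℕ) (U : ℕ → ℕ → ℝ) : Fin (N + 1) → ℂ := fun k =>
  if (k : ℕ) < N then ((U (k / B) (k % B) : ℝ) : ℂ) else Complex.I

theorem aeval_linCode (F : List Supp) (E : List CellEntry) (B : ℕ) (U : ℕ → ℕ → ℝ) (I : IntCode)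
    (c : CertI) : aeval (nums (E.length * B) B U)
      (pcPoly (E.length * B + 1) (linCode F E B I c)) = ((linVal F E B U I c : ℝ) : ℂ) := by
  classical
  rw [linCode, pcPoly_sumRange, linVal, map_sum, Complex.ofReal_sum, Finset.sum_range]
  refine Finset.sum_congr rfl fun s _ => ?_
  split_ifs with h
  · rw [pcPoly_sumRange, map_sum, Complex.ofReal_sum, Finset.sum_range]
    refine Finset.sum_congr rfl fun i _ => ?_
    have hi := i.2
    have hs := s.2
    have hlt : (s : ℕ) * B + i < E.length * B := by
      calc (s : ℕ) * B + i < s * B + B := by omega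
        _ = (s + 1) * B := by ring
        _ ≤ E.length * B := Nat.mul_le_mul_right _ hs
    have hlt' : (s : ℕ) * B + i < E.length * B + 1 := by omega
    rw [pcPoly_mul, pcPoly_const, pcPoly_var hlt', map_mul, aeval_X, aeval_C, nums]
    simp only
    rw [if_pos hlt]
    have hB : 0 < B := by omega
    have h1 : ((s : ℕ) * B + i) / B = s := by
      rw [mul_comm, Nat.mul_add_div hB, Nat.div_eq_of_lt hi, add_zero]
    have h2 : ((s : ℕ) * B + i) % B = i := by
      rw [mul_comm, Nat.mul_add_mod, Nat.mod_eq_of_lt hi]
    rw [h1, h2]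
    push_cast
    rfl
  · simp

/-- The code for the number presented by two integrals. -/
def perCode (F : List Supp) (E : List CellEntry) (B : ℕ) (X : PeriodCode) (c : CertI × CertI) :
    PCode :=
  linCode F E B X.1 c.1 ++ pcMul (pcVar (E.length * B)) (linCode F E B X.2 c.2)

theorem aeval_perCode (F : List Supp) (E : List CellEntry) (B : ℕ) (U : ℕ → ℕ → ℝ) (X : PeriodCode)
    (c : CertI × CertI) : aeval (nums (E.length * B) B U)
      (pcPoly (E.length * B + 1) (perCode F E B X c)) =
      ((linVal F E B U X.1 c.1 : ℝ) : ℂ) + Complex.I * ((linVal F E B U X.2 c.2 : ℝ) : ℂ) := by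
  rw [perCode, pcPoly_append, map_add, pcPoly_mul, map_mul, aeval_linCode, aeval_linCode,
    pcPoly_var (Nat.lt_succ_self _), aeval_X, nums]
  simp

/-- Certificates for one input. -/
abbrev TotCert := List (CertI × CertI) × RelCert

/-- The polynomial in the basic integrals. -/
def totCode (F : List Supp) (E : List CellEntry) (B : ℕ) (x : PCode × List PeriodCode)
    (cs : List (CertI × CertI)) : PCode :=
  pcSubst x.2.length (fun i => perCode F E B (x.2.getD i default) (cs.getD i default)) x.1

/-- Verification of a certificate. -/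
def totCheck (F : List Supp) (E : List CellEntry) (B : ℕ) (gens : List PCode) (T : List Bool)
    (x : PCode × List PeriodCode) (c : TotCert) : Prop :=
  (∀ i < x.2.length, intCheck F E (x.2.getD i default).1 (c.1.getD i default).1 ∧
    intCheck F E (x.2.getD i default).2 (c.1.getD i default).2) ∧
  relCheck (E.length * B + 1) gens T (totCode F E B x c.1) c.2

/-- The polynomial `x.1` vanishes at the periods presented by `x.2`. -/
def Vanishes (x : PCode × List PeriodCode) : Prop :=
  aeval (fun i : Fin x.2.length => period (x.2.get i)) (pcPoly x.2.length x.1) = 0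

/-- Existence of the data for the complete problem. -/
theorem exists_total (F : List Supp) (hF : ∀ g ∈ F, pcPoly g.1 g.2 ≠ 0) :
    ∃ (E : List CellEntry) (B : ℕ) (gens : List PCode) (T : List Bool),
      (∀ (x : PCode × List PeriodCode) (c : TotCert), (∀ X ∈ x.2, PeriodAdmissible X) →
        totCheck F E B gens T x c → (c.2.1 = true ↔ Vanishes x)) ∧
      (∀ x : PCode × List PeriodCode, (∀ X ∈ x.2, PeriodAdmissible X) →
        (∀ X ∈ x.2, (∃ g ∈ F, SupportedOn X.1 g) ∧ ∃ g ∈ F, SupportedOn X.2 g) →
          ∃ c, totCheck F E B gens T x c) := by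
  obtain ⟨E, B, U, h1, h2⟩ := exists_adv F hF
  obtain ⟨gens, T, h3, h4⟩ := exists_relData (nums (E.length * B) B U)
  refine ⟨E, B, gens, T, ?_, ?_⟩
  · rintro x c hx ⟨hc1, hc2⟩
    rw [h3 _ _ hc2, totCode, pcPoly_subst, Vanishes]
    have key : ∀ P : MvPolynomial (Fin x.2.length) ℚ,
        aeval (nums (E.length * B) B U) (aeval (fun i : Fin x.2.length =>
          pcPoly (E.length * B + 1) (perCode F E B (x.2.getD i default) (c.1.getD i default))) P) =
        aeval (fun i : Fin x.2.length => period (x.2.get i)) P := by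
      intro P
      rw [← AlgHom.comp_apply]
      congr 1
      apply algHom_ext
      intro i
      rw [AlgHom.comp_apply, aeval_X, aeval_X, aeval_perCode]
      have hi := hx (x.2.get i) (List.get_mem _ _)
      obtain ⟨hc3, hc4⟩ := hc1 i i.2
      have hget : x.2.getD i default = x.2.get i := by
        rw [List.getD_eq_getElem _ _ i.2]; rfl
      rw [hget] at hc3 hc4 ⊢
      rw [← h1 _ _ hi.1 hc3, ← h1 _ _ hi.2 hc4, period, mul_comm]
      exact (Complex.mk_eq_add_mul_I _ _).symm
    rw [key]
  · intro x hx hs
    have h5 : ∀ i : Fin x.2.length, ∃ c : CertI × CertI,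
        intCheck F E (x.2.get i).1 c.1 ∧ intCheck F E (x.2.get i).2 c.2 := by
      intro i
      have h6 := hx _ (List.get_mem x.2 i)
      have h7 := hs _ (List.get_mem x.2 i)
      obtain ⟨c1, hc1⟩ := h2 _ h6.1 h7.1
      obtain ⟨c2, hc2⟩ := h2 _ h6.2 h7.2
      exact ⟨(c1, c2), hc1, hc2⟩
    choose cs hcs using h5
    obtain ⟨rc, hrc⟩ := h4 (totCode F E B x (List.ofFn cs))
    refine ⟨(List.ofFn cs, rc), fun i hi => ?_, hrc⟩
    have hget : x.2.getD i default = x.2.get ⟨i, hi⟩ := by
      rw [List.getD_eq_getElem _ _ hi]; rfl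
    simp only
    rw [hget, getD_ofFn cs ⟨i, hi⟩]
    exact hcs ⟨i, hi⟩

end Pool.Agent.Lib.MP_bbe012_lc
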