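import Mathlib
import Pool.Agent.Lib.MP_bbe012_lc.CheckComp
import Pool.Agent.Lib.MP_bbe012_lc.Total

/-!
# The complete verification is primitive recursive
-/

namespace Pool.Agent.Lib.MP_bbe012_lc

open Primrec

instance instPrimcodableLC : Primcodable (List QCode × HCert) :=
  @Primcodable.prod (List QCode) HCert inferInstance instPrimcodableHCert

instance instPrimcodableCertI : Primcodable CertI :=
  @Primcodable.prod (ℕ × ℕ) (List PCode × List (List QCode × HCert)) inferInstance
    (@Primcodable.prod (List PCode) (List (List QCode × HCert)) inferInstance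
      (@Primcodable.list _ instPrimcodableLC))

instance instPrimcodableCertIP : Primcodable (CertI × CertI) :=
  @Primcodable.prod CertI CertI instPrimcodableCertI instPrimcodableCertI

instance instPrimcodableRelCert : Primcodable RelCert := inferInstance

instance instPrimcodableTotCert : Primcodable TotCert :=
  @Primcodable.prod (List (CertI × CertI)) RelCert (@Primcodable.list _ instPrimcodableCertIP)
    instPrimcodableRelCert

instance instPrimcodableHInt : Primcodable (IntCode × CertI) :=
  @Primcodable.prod IntCode CertI instPrimcodableIntCode instPrimcodableCertI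

instance instPrimcodableTotIn : Primcodable (PCode × List PeriodCode) :=
  @Primcodable.prod PCode (List PeriodCode) inferInstance (@Primcodable.list _ instPrimcodablePeriodCode)

instance instPrimcodableTotAll : Primcodable ((PCode × List PeriodCode) × TotCert) :=
  @Primcodable.prod (PCode × List PeriodCode) TotCert instPrimcodableTotIn instPrimcodableTotCert

section generic

variable {α : Type} [Primcodable α]

theorem pr_const1 {q : α → QCode} (hq : Primrec q) : Primrec fun a => ([(q a, [])] : PCode) :=
  list_cons.comp (pair hq (const [])) (const [])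

theorem pr_u {i : α → ℕ} (hi : Primrec i) : Primrec fun a => uCode (i a) :=
  pr_append (pr_nat 1) (pr_neg (pr_mul (pr_var hi) (pr_var hi)))

theorem pr_w {n : α → ℕ} (hn : Primrec n) : Primrec fun a => wCode (n a) :=
  pr_prodRange (g := fun _ i => uCode i) hn (pr_u snd).to₂

theorem pr_j {n : α → ℕ} (hn : Primrec n) : Primrec fun a => jCode (n a) :=
  pr_prodRange (g := fun _ i => pcNat 1 ++ pcMul (pcVar i) (pcVar i)) hn
    (pr_append (pr_nat 1) (pr_mul (pr_var snd) (pr_var snd))).to₂

theorem pr_sharpTerm {n N : α → ℕ} {t : α → QCode × List ℕ} (hn : Primrec n) (hN : Primrec N)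
    (ht : Primrec t) : Primrec fun a => sharpTerm (n a) (N a) (t a) := by
  have hg : Primrec fun q : α × ℕ => (t q.1).2.getD q.2 0 :=
    (list_getD 0).comp (snd.comp (ht.comp fst)) snd
  exact pr_mul (pr_const1 (fst.comp ht)) (pr_prodRange
    (g := fun a i => pcMul (pcPow (pcVar i) ((t a).2.getD i 0))
      (pcPow (uCode i) (N a - (t a).2.getD i 0))) hn
    (pr_mul (pr_pow (pr_var snd) hg) (pr_pow (pr_u snd) (nat_sub.comp (hN.comp fst) hg))).to₂)

theorem pr_sharp {n N : α → ℕ} {p : α → PCode} (hn : Primrec n) (hN : Primrec N)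
    (hp : Primrec p) : Primrec fun a => sharp (n a) (N a) (p a) :=
  list_flatMap hp (pr_sharpTerm (hn.comp fst) (hN.comp fst) snd).to₂

theorem pr_deg {p : α → PCode} (hp : Primrec p) : Primrec fun a => pcDeg (p a) :=
  primrec_pcDeg.comp hp

theorem pr_bdSys {n : α → ℕ} {S : α → SysCode} (hn : Primrec n) (hS : Primrec S) :
    Primrec fun a => bdSys (n a) (S a) := by
  have h1 : Primrec fun a => (S a).map fun c => (c.1, sharp (n a) (pcDeg c.2) c.2) :=
    list_map hS (pair (fst.comp snd) (pr_sharp (hn.comp fst) (pr_deg (snd.comp snd))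
      (snd.comp snd))).to₂
  have h2 : Primrec fun a => (List.range (n a)).map fun i => (true, uCode i) :=
    list_map (list_range.comp hn) (pair (const true) (pr_u snd)).to₂
  exact list_append.comp h1 h2

theorem primrec_bdInt : Primrec bdInt := by
  have hn : Primrec fun I : IntCode => I.1 := pr_iv
  exact pair hn (pair (pair
    (pr_mul (pr_j hn) (pr_mul (pr_sharp hn (pr_deg pr_iP) pr_iP) (pr_pow (pr_w hn) (pr_deg pr_iQ))))
    (pr_mul (pr_pow (pr_w hn) (nat_add.comp (pr_deg pr_iP) (const 2)))
      (pr_sharp hn (pr_deg pr_iQ) pr_iQ)))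
    (pr_bdSys hn pr_iS))

theorem pr_subst {m : α → ℕ} {L : α → ℕ → PCode} {p : α → PCode} (hm : Primrec m)
    (hL : Primrec₂ L) (hp : Primrec p) : Primrec fun a => pcSubst (m a) (L a) (p a) := by
  have hg : Primrec fun q : (α × (QCode × List ℕ)) × ℕ => q.1.2.2.getD q.2 0 :=
    (list_getD 0).comp (snd.comp (snd.comp fst)) snd
  have h1 : Primrec fun q : (α × (QCode × List ℕ)) × ℕ => pcPow (L q.1.1 q.2) (q.1.2.2.getD q.2 0) :=
    pr_pow (hL.comp (fst.comp fst) snd) hg
  have h2 : Primrec₂ fun (a : α) (t : QCode × List ℕ) =>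
      pcMul [(t.1, [])] (pcProdRange (m a) fun i => pcPow (L a i) (t.2.getD i 0)) :=
    pr_mul (pr_const1 (fst.comp snd)) (pr_prodRange
      (g := fun (q : α × (QCode × List ℕ)) i => pcPow (L q.1 i) (q.2.2.getD i 0))
      (hm.comp fst) h1.to₂)
  exact list_flatMap hp h2

theorem pr_evalCode {n : α → ℕ} {x : α → List QCode} {p : α → PCode} (hn : Primrec n)
    (hx : Primrec x) (hp : Primrec p) : Primrec fun a => evalCode (n a) (x a) (p a) := by
  have h1 : Primrec fun q : α × ℕ => ([((x q.1).getD q.2 (qnat 0), [])] : PCode) :=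
    pr_const1 ((list_getD (qnat 0)).comp (hx.comp fst) snd)
  exact primrec_sumCoef.comp (pair (const (0, [])) (pr_subst
    (L := fun a i => [((x a).getD i (qnat 0), [])]) hn h1.to₂ hp))

theorem pr_posAt {n : α → ℕ} {x : α → List QCode} {S : α → SysCode} (hn : Primrec n)
    (hx : Primrec x) (hS : Primrec S) : PrimrecPred fun a => posAt (n a) (x a) (S a) := by
  have he : Primrec fun q : (Bool × PCode) × α => evalCode (n q.2) (x q.2) q.1.2 :=
    pr_evalCode (hn.comp snd) (hx.comp snd) (snd.comp fst)
  have h1 : PrimrecRel fun (c : Bool × PCode) (a : α) =>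
      (evalCode (n a) (x a) c.2).1.2 < (evalCode (n a) (x a) c.2).1.1 :=
    nat_lt.comp (snd.comp (fst.comp he)) (fst.comp (fst.comp he))
  exact h1.forall_mem_list.comp hS Primrec.id

theorem pr_isZero {n : α → ℕ} {p : α → PCode} (hn : Primrec n) (hp : Primrec p) :
    PrimrecPred fun a => pcIsZero (n a) (p a) := primrecPred_pcIsZero.comp (pair hn hp)

theorem pr_suppCheck {g : α → Supp} {I : α → IntCode} {m : α → ℕ} {R : α → List PCode}
    (hg : Primrec g) (hI : Primrec I) (hm : Primrec m) (hR : Primrec R) :
    PrimrecPred fun a => suppCheck (g a) (I a) (m a) (R a) := by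
  have hg1 : Primrec fun a => (g a).1 := fst.comp hg
  have hg2 : Primrec fun a => (g a).2 := snd.comp hg
  have h1 : PrimrecPred fun a => (I a).1 = (g a).1 := Primrec.eq.comp (pr_iv.comp hI) hg1
  have h2 : PrimrecPred fun a => pcIsZero (g a).1
      (pcMul (I a).2.1.2 ((R a).getD 0 []) ++ pcNeg (pcPow (g a).2 (m a))) :=
    pr_isZero hg1 (pr_append (pr_mul (pr_iQ.comp hI) ((list_getD []).comp hR (const 0)))
      (pr_neg (pr_pow hg2 hm)))
  have h3 : PrimrecRel fun (i : ℕ) (a : α) => pcIsZero (g a).1
      (pcMul ((I a).2.2.getD i (true, [])).2 ((R a).getD (i + 1) []) ++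
        pcNeg (pcPow (g a).2 (m a))) := by
    have e1 : Primrec fun q : ℕ × α => ((I q.2).2.2.getD q.1 (true, [])).2 :=
      snd.comp ((list_getD (true, [])).comp (pr_iS.comp (hI.comp snd)) fst)
    have e2 : Primrec fun q : ℕ × α => (R q.2).getD (q.1 + 1) [] :=
      (list_getD []).comp (hR.comp snd) (succ.comp fst)
    exact pr_isZero (hg1.comp snd) (pr_append (pr_mul e1 e2)
      (pr_neg (pr_pow (hg2.comp snd) (hm.comp snd))))
  have h4 : PrimrecPred fun a => ∀ i < (I a).2.2.length, pcIsZero (g a).1
      (pcMul ((I a).2.2.getD i (true, [])).2 ((R a).getD (i + 1) []) ++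
        pcNeg (pcPow (g a).2 (m a))) :=
    (h3.forall_mem_list.comp (list_range.comp (list_length.comp (pr_iS.comp hI))) Primrec.id).of_eq
      fun a => by simp only [List.mem_range, id]
  exact h1.and (h2.and h4)

theorem pr_sel {g : α → Supp} {b : α → ℕ} {en : α → CellEntry} {I : α → IntCode}
    (hg : Primrec g) (hb : Primrec b) (hen : Primrec fun a => (en a).1.1)
    (hen2 : Primrec fun a => (en a).1.2) (hen3 : Primrec fun a => (en a).2.1)
    (hI : Primrec I) : PrimrecPred fun a => sel (g a) (b a) (en a) (I a) := by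
  have h1 : PrimrecPred fun a => (en a).1.1 = b a := Primrec.eq.comp hen hb
  exact h1.and ((pr_posAt (fst.comp hg) hen3 hen2).and (pr_posAt (fst.comp hg) hen3 (pr_iS.comp hI)))

end generic

/-! ### The certificates, for fixed data -/

section fixed

variable (F : List Supp) (E : List CellEntry) (B : ℕ)

theorem pr_E1 : Primrec fun s : ℕ => (E.getD s default).1.1 := by
  have h : Primrec fun s : ℕ => (E.map fun en => en.1.1).getD s 0 :=
    (list_getD 0).comp (const _) Primrec.id
  refine h.of_eq fun s => ?_
  simp only [List.getD_eq_getElem?_getD, List.getElem?_map]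
  rcases E[s]? with _ | en <;> rfl

theorem pr_E2 : Primrec fun s : ℕ => (E.getD s default).1.2 := by
  have h : Primrec fun s : ℕ => (E.map fun en => en.1.2).getD s [] :=
    (list_getD []).comp (const _) Primrec.id
  refine h.of_eq fun s => ?_
  simp only [List.getD_eq_getElem?_getD, List.getElem?_map]
  rcases E[s]? with _ | en <;> rfl

theorem pr_E3 : Primrec fun s : ℕ => (E.getD s default).2.1 := by
  have h : Primrec fun s : ℕ => (E.map fun en => en.2.1).getD s [] :=
    (list_getD []).comp (const _) Primrec.id
  refine h.of_eq fun s => ?_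
  simp only [List.getD_eq_getElem?_getD, List.getElem?_map]
  rcases E[s]? with _ | en <;> rfl

theorem pr_E4 : Primrec fun s : ℕ => (E.getD s default).2.2 := by
  have h : Primrec fun s : ℕ => (E.map fun en => en.2.2).getD s default :=
    (list_getD default).comp (const _) Primrec.id
  refine h.of_eq fun s => ?_
  simp only [List.getD_eq_getElem?_getD, List.getElem?_map]
  rcases E[s]? with _ | en <;> rfl

theorem pr_F : Primrec fun a : ℕ => F.getD a default := (list_getD default).comp (const F) Primrec.id

/-- Primitive recursiveness of the selection of cells. -/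
theorem pr_selFixed {α : Type} [Primcodable α] {b s : α → ℕ} {I : α → IntCode} (hb : Primrec b)
    (hs : Primrec s) (hI : Primrec I) :
    PrimrecPred fun a => sel (F.getD (b a) default) (b a) (E.getD (s a) default) (I a) :=
  pr_sel ((pr_F F).comp hb) hb ((pr_E1 E).comp hs) ((pr_E2 E).comp hs) ((pr_E3 E).comp hs) hI

theorem primrecPred_intCheck :
    PrimrecPred fun x : IntCode × CertI => intCheck F E x.1 x.2 := by
  have ha : Primrec fun x : IntCode × CertI => x.2.1.1 := fst.comp (fst.comp snd)
  have hm : Primrec fun x : IntCode × CertI => x.2.1.2 := snd.comp (fst.comp snd)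
  have hR : Primrec fun x : IntCode × CertI => x.2.2.1 := fst.comp (snd.comp snd)
  have hcs : Primrec fun x : IntCode × CertI => x.2.2.2 := snd.comp (snd.comp snd)
  have h1 : PrimrecPred fun x : IntCode × CertI => x.2.1.1 < F.length :=
    nat_lt.comp ha (const F.length)
  have h2 : PrimrecPred fun x : IntCode × CertI =>
      suppCheck (F.getD x.2.1.1 default) x.1 x.2.1.2 x.2.2.1 :=
    pr_suppCheck ((pr_F F).comp ha) fst hm hR
  have hsel : PrimrecPred fun q : ℕ × (IntCode × CertI) =>
      sel (F.getD q.2.2.1.1 default) q.2.2.1.1 (E.getD q.1 default) q.2.1 :=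
    pr_selFixed F E (ha.comp snd) fst (fst.comp snd)
  have hcert : Primrec fun q : ℕ × (IntCode × CertI) => q.2.2.2.2.getD q.1 default :=
    (list_getD default).comp (hcs.comp snd) fst
  have hint : Primrec fun q : ℕ × (IntCode × CertI) => cellInt q.2.1 (E.getD q.1 default).1.2 :=
    pair (pr_iv.comp (fst.comp snd)) (pair (fst.comp (snd.comp (fst.comp snd))) ((pr_E2 E).comp fst))
  have hchk : PrimrecPred fun q : ℕ × (IntCode × CertI) =>
      check (E.getD q.1 default).2.2 (q.2.2.2.2.getD q.1 default).1
        (bdInt (cellInt q.2.1 (E.getD q.1 default).1.2)) (q.2.2.2.2.getD q.1 default).2 :=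
    primrecPred_check.comp (pair (pair ((pr_E4 E).comp fst) (fst.comp hcert))
      (pair (primrec_bdInt.comp hint) (snd.comp hcert)))
  have h3 : PrimrecRel fun (s : ℕ) (x : IntCode × CertI) =>
      ¬ sel (F.getD x.2.1.1 default) x.2.1.1 (E.getD s default) x.1 ∨
      check (E.getD s default).2.2 (x.2.2.2.getD s default).1
        (bdInt (cellInt x.1 (E.getD s default).1.2)) (x.2.2.2.getD s default).2 :=
    hsel.not.or hchk
  have h4 : PrimrecPred fun x : IntCode × CertI => ∀ s ∈ List.range E.length,
      ¬ sel (F.getD x.2.1.1 default) x.2.1.1 (E.getD s default) x.1 ∨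
      check (E.getD s default).2.2 (x.2.2.2.getD s default).1
        (bdInt (cellInt x.1 (E.getD s default).1.2)) (x.2.2.2.getD s default).2 :=
    h3.forall_mem_list.comp (const (List.range E.length)) Primrec.id
  refine ((h1.and h2).and h4).of_eq fun x => ?_
  unfold intCheck
  refine and_congr_right fun _ => ?_
  simp only [List.mem_range]
  refine forall₂_congr fun s _ => ?_
  exact (imp_iff_not_or).symm

theorem primrec_linCode : Primrec fun x : IntCode × CertI => linCode F E B x.1 x.2 := by
  have ha : Primrec fun x : IntCode × CertI => x.2.1.1 := fst.comp (fst.comp snd)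
  have hcs : Primrec fun x : IntCode × CertI => x.2.2.2 := snd.comp (snd.comp snd)
  have hsel : PrimrecPred fun q : (IntCode × CertI) × ℕ =>
      sel (F.getD q.1.2.1.1 default) q.1.2.1.1 (E.getD q.2 default) q.1.1 :=
    pr_selFixed F E (ha.comp fst) snd (fst.comp fst)
  have hcert : Primrec fun q : ((IntCode × CertI) × ℕ) × ℕ =>
      ((q.1.1.2.2.2.getD q.1.2 default).1).getD q.2 (qnat 0) :=
    (list_getD (qnat 0)).comp (fst.comp ((list_getD default).comp (hcs.comp (fst.comp fst))
      (snd.comp fst))) snd
  have hterm : Primrec fun q : ((IntCode × CertI) × ℕ) × ℕ =>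
      pcMul [(((q.1.1.2.2.2.getD q.1.2 default).1).getD q.2 (qnat 0), [])]
        (pcVar (q.1.2 * B + q.2)) :=
    pr_mul (pr_const1 hcert) (pr_var (nat_add.comp (nat_mul.comp (snd.comp fst) (const B)) snd))
  have hin : Primrec fun q : (IntCode × CertI) × ℕ => pcSumRange B fun i =>
      pcMul [(((q.1.2.2.2.getD q.2 default).1).getD i (qnat 0), [])] (pcVar (q.2 * B + i)) :=
    pr_sumRange (g := fun (q : (IntCode × CertI) × ℕ) i =>
      pcMul [(((q.1.2.2.2.getD q.2 default).1).getD i (qnat 0), [])] (pcVar (q.2 * B + i)))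
      (const B) hterm.to₂
  exact pr_sumRange (g := fun (x : IntCode × CertI) s =>
    if sel (F.getD x.2.1.1 default) x.2.1.1 (E.getD s default) x.1 then
      pcSumRange B fun i => pcMul [((x.2.2.2.getD s default).1.getD i (qnat 0), [])]
        (pcVar (s * B + i)) else []) (const E.length) (Primrec.ite hsel hin (const [])).to₂

theorem pr_perCode {α : Type} [Primcodable α] {X : α → PeriodCode} {c : α → CertI × CertI}
    (hX : Primrec X) (hc : Primrec c) : Primrec fun a => perCode F E B (X a) (c a) :=
  pr_append ((primrec_linCode F E B).comp (pair (fst.comp hX) (fst.comp hc)))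
    (pr_mul (pr_var (const (E.length * B)))
      ((primrec_linCode F E B).comp (pair (snd.comp hX) (snd.comp hc))))

variable (gens : List PCode) (T : List Bool)

theorem pr_relSum {α : Type} [Primcodable α] {cs : α → List PCode} (hcs : Primrec cs) :
    Primrec fun a => relSum gens (cs a) :=
  pr_sumRange (g := fun a i => pcMul ((cs a).getD i []) (gens.getD i [])) (const gens.length)
    (pr_mul ((list_getD []).comp (hcs.comp fst) snd) ((list_getD []).comp (const gens) snd)).to₂

theorem pr_mask {α : Type} [Primcodable α] (N : ℕ) {p : α → PCode} (hp : Primrec p) :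
    Primrec fun a => pcMask T N (p a) := by
  have hT : PrimrecPred fun q : (α × (QCode × List ℕ)) × ℕ => T.getD q.2 false = true :=
    Primrec.eq.comp ((list_getD false).comp (const T) snd) (const true)
  have h1 : Primrec fun q : (α × (QCode × List ℕ)) × ℕ =>
      if T.getD q.2 false = true then q.1.2.2.getD q.2 0 else 0 :=
    Primrec.ite hT ((list_getD 0).comp (snd.comp (snd.comp fst)) snd) (const 0)
  have h2 : Primrec fun q : α × (QCode × List ℕ) =>
      (List.range N).map fun i => if T.getD i false = true then q.2.2.getD i 0 else 0 :=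
    list_map (const (List.range N)) h1.to₂
  exact list_map hp (pair (fst.comp snd) h2).to₂

theorem pr_relCheck {α : Type} [Primcodable α] (N : ℕ) {G : α → PCode} {c : α → RelCert}
    (hG : Primrec G) (hc : Primrec c) : PrimrecPred fun a => relCheck N gens T (G a) (c a) := by
  have hb1 : PrimrecPred fun a => (c a).1 = true := Primrec.eq.comp (fst.comp hc) (const true)
  have hb2 : PrimrecPred fun a => (c a).1 = false := Primrec.eq.comp (fst.comp hc) (const false)
  have hA : Primrec fun a => (c a).2.1.1 := fst.comp (fst.comp (snd.comp hc))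
  have hB : Primrec fun a => (c a).2.1.2 := snd.comp (fst.comp (snd.comp hc))
  have hcs : Primrec fun a => (c a).2.2 := snd.comp (snd.comp hc)
  have h1 : PrimrecPred fun a => pcIsZero N (G a ++ pcNeg (relSum gens (c a).2.2)) :=
    pr_isZero (const N) (pr_append hG (pr_neg (pr_relSum gens hcs)))
  have h2 : PrimrecPred fun a => pcIsZero N (pcMask T N (c a).2.1.2) :=
    pr_isZero (const N) (pr_mask T N hB)
  have h3 : PrimrecPred fun a => pcIsZero N (pcMul (c a).2.1.1 (G a) ++
      pcNeg (pcMask T N (c a).2.1.2) ++ pcNeg (relSum gens (c a).2.2)) :=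
    pr_isZero (const N) (pr_append (pr_append (pr_mul hA hG) (pr_neg (pr_mask T N hB)))
      (pr_neg (pr_relSum gens hcs)))
  exact (hb1.and h1).or (hb2.and (h2.not.and h3))

/-- Domain of the complete verification. -/
abbrev TotIn := (PCode × List PeriodCode) × TotCert

theorem primrec_totCode : Primrec fun x : TotIn => totCode F E B x.1 x.2.1 := by
  have h1 : Primrec fun q : TotIn × ℕ => q.1.1.2.getD q.2 default :=
    (list_getD default).comp (snd.comp (fst.comp fst)) snd
  have h2 : Primrec fun q : TotIn × ℕ => q.1.2.1.getD q.2 default :=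
    (list_getD default).comp (fst.comp (snd.comp fst)) snd
  exact pr_subst (L := fun (x : TotIn) i =>
    perCode F E B (x.1.2.getD i default) (x.2.1.getD i default))
    (list_length.comp (snd.comp fst)) (pr_perCode F E B h1 h2).to₂ (fst.comp fst)

theorem primrecPred_totCheck :
    PrimrecPred fun x : TotIn => totCheck F E B gens T x.1 x.2 := by
  have h1 : Primrec fun q : ℕ × TotIn => q.2.1.2.getD q.1 default :=
    (list_getD default).comp (snd.comp (fst.comp snd)) fst
  have h2 : Primrec fun q : ℕ × TotIn => q.2.2.1.getD q.1 default :=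
    (list_getD default).comp (fst.comp (snd.comp snd)) fst
  have h3 : PrimrecRel fun (i : ℕ) (x : TotIn) =>
      intCheck F E (x.1.2.getD i default).1 (x.2.1.getD i default).1 ∧
        intCheck F E (x.1.2.getD i default).2 (x.2.1.getD i default).2 :=
    ((primrecPred_intCheck F E).comp (pair (fst.comp h1) (fst.comp h2))).and
      ((primrecPred_intCheck F E).comp (pair (snd.comp h1) (snd.comp h2)))
  have h4 : PrimrecPred fun x : TotIn => ∀ i < x.1.2.length,
      intCheck F E (x.1.2.getD i default).1 (x.2.1.getD i default).1 ∧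
        intCheck F E (x.1.2.getD i default).2 (x.2.1.getD i default).2 :=
    (h3.forall_mem_list.comp (list_range.comp (list_length.comp (snd.comp fst)))
      Primrec.id).of_eq fun x => by simp only [List.mem_range, id]
  exact h4.and (pr_relCheck gens T (E.length * B + 1) (primrec_totCode F E B) (snd.comp snd))

end fixed

end Pool.Agent.Lib.MP_bbe012_lc
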